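import Pool.Agent.Helper94.CM.Defs

/-!
# Project CM: instances and elementary lemmas
-/

set_option autoImplicit false

namespace Pool.Agent.Helper94.CM

open MeasureTheory TopologicalSpace Set Filter Topology Pool.Agent.Helper95.CAS
open scoped unitInterval

/-! ### Instances -/

instance : IsProbabilityMeasure β := by
  constructor
  simp [β, ENNReal.inv_two_add_inv_two]

instance : β.IsOpenPosMeasure := by
  constructor
  intro U _ hne
  obtain ⟨b, hb⟩ := hne
  have h2 : (2 : ENNReal)⁻¹ ≠ 0 := by simp
  cases b
  · simp [β, hb]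
  · simp [β, hb]

instance instOpenPosI : (volume : Measure I).IsOpenPosMeasure := by
  constructor
  intro U hU hne h0
  obtain ⟨x, hx⟩ := hne
  obtain ⟨V, hV, rfl⟩ := isOpen_induced_iff.1 hU
  rw [unitInterval.volume_apply, Subtype.image_preimage_coe] at h0
  -- `V ∩ I` contains an interval
  obtain ⟨ε, hε, hball⟩ := Metric.isOpen_iff.1 hV x hx
  have hx0 : (0 : ℝ) ≤ x := x.2.1
  have hx1 : (x : ℝ) ≤ 1 := x.2.2
  set a : ℝ := max 0 (x - ε / 2)
  set b : ℝ := min 1 (x + ε / 2)
  have hab : a < b := by
    refine max_lt (lt_min one_pos (by linarith)) (lt_min (by linarith) (by linarith))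
  have hsub : Ioo a b ⊆ I ∩ V := by
    rintro y ⟨h1, h2⟩
    have h3 := (max_lt_iff.1 h1)
    have h4 := (lt_min_iff.1 h2)
    refine ⟨⟨h3.1.le, h4.1.le⟩, hball ?_⟩
    rw [Metric.mem_ball, Real.dist_eq, abs_lt]
    constructor <;> linarith [h3.2, h4.2]
  have h5 : volume (Ioo a b) ≤ 0 := by
    rw [← h0]
    exact measure_mono hsub
  rw [Real.volume_Ioo] at h5
  have h6 := ENNReal.ofReal_pos.2 (sub_pos.2 hab)
  exact absurd h5 (not_le.2 h6)

instance instOpenPosC0 : (volume : Measure C0).IsOpenPosMeasure :=
  inferInstanceAs (((volume : Measure I).prod (volume : Measure I)).IsOpenPosMeasure)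

instance : IsProbabilityMeasure mD :=
  inferInstanceAs (IsProbabilityMeasure ((volume : Measure I).prod ((volume : Measure I).prod β)))

instance : IsProbabilityMeasure mX :=
  inferInstanceAs (IsProbabilityMeasure ((volume : Measure C0).prod ((volume : Measure C0).prod β)))

instance : mD.IsOpenPosMeasure :=
  inferInstanceAs (((volume : Measure I).prod ((volume : Measure I).prod β)).IsOpenPosMeasure)

instance : mX.IsOpenPosMeasure :=
  inferInstanceAs (((volume : Measure C0).prod ((volume : Measure C0).prod β)).IsOpenPosMeasure)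

instance instHaarS : (volume : Measure S).IsAddHaarMeasure :=
  inferInstanceAs (((volume : Measure ℝ).prod (volume : Measure ℂ)).IsAddHaarMeasure)

instance instLCDD : LocallyCompactSpace DD := by
  have h : IsClosed {p : ℝ × ℝ | 0 ≤ p.2 ∧ p.2 ≤ p.1} :=
    (isClosed_le continuous_const continuous_snd).inter (isClosed_le continuous_snd continuous_fst)
  exact h.isClosedEmbedding_subtypeVal.locallyCompactSpace

/-! ### Integrals of continuous functions over compact spaces -/

section pk

variable {C Z Y : Type} [TopologicalSpace C] [CompactSpace C] [SecondCountableTopology C]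
  [MeasurableSpace C] [BorelSpace C]
  [TopologicalSpace Z] [MeasurableSpace Z] [BorelSpace Z] [TopologicalSpace Y]

omit [SecondCountableTopology C] in
theorem integrable_cont (m : Measure C) [IsFiniteMeasure m] {f : C → ℝ} (hf : Continuous f) : Integrable f m := by
  rw [← integrableOn_univ]
  exact hf.continuousOn.integrableOn_compact' isCompact_univ MeasurableSet.univ

omit [SecondCountableTopology C] in
theorem continuous_int [FirstCountableTopology Y] [LocallyCompactSpace Y] (m : Measure C) [IsFiniteMeasure m]
    {f : Y → C → ℝ} (hf : Continuous fun p : Y × C => f p.1 p.2) : Continuous fun y => ∫ c, f y c ∂m := by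
  have := continuous_parametric_integral_of_continuous (μ := m) (f := f) hf isCompact_univ
  simpa using this

omit [CompactSpace C] [SecondCountableTopology C] in
theorem pk_coe (m : Measure C) [IsProbabilityMeasure m] (G : C → Z) (hG : Continuous G) :
    (pk m G hG : Measure Z) = m.map G := rfl

omit [CompactSpace C] [SecondCountableTopology C] in
theorem pk_integral (m : Measure C) [IsProbabilityMeasure m] (G : C → Z) (hG : Continuous G)
    [SecondCountableTopology Z] {f : Z → ℝ} (hf : Continuous f) :
    ∫ z, f z ∂(pk m G hG : Measure Z) = ∫ c, f (G c) ∂m := by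
  rw [pk_coe]
  exact integral_map hG.measurable.aemeasurable hf.aestronglyMeasurable

omit [SecondCountableTopology C] in
theorem pk_support (m : Measure C) [IsProbabilityMeasure m] [m.IsOpenPosMeasure] [T2Space Z] (G : C → Z)
    (hG : Continuous G) : (pk m G hG : Measure Z).support = range G := by
  ext z
  rw [Measure.mem_support_iff_forall, pk_coe]
  constructor
  · intro h
    by_contra hz
    have hcl : IsClosed (range G) := (isCompact_range hG).isClosed
    have h1 := h (range G)ᶜ (hcl.isOpen_compl.mem_nhds hz)
    rw [Measure.map_apply hG.measurable hcl.isOpen_compl.measurableSet] at h1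
    have h2 : G ⁻¹' (range G)ᶜ = ∅ := by
      ext c; simp
    rw [h2, measure_empty] at h1
    exact lt_irrefl _ h1
  · rintro ⟨c, rfl⟩ U hU
    obtain ⟨V, hVU, hV, hcV⟩ := mem_nhds_iff.1 hU
    refine lt_of_lt_of_le ?_ (measure_mono hVU)
    rw [Measure.map_apply hG.measurable hV.measurableSet]
    exact (hV.preimage hG).measure_pos m ⟨c, hcV⟩

omit [SecondCountableTopology C] in
theorem pk_isCompact (m : Measure C) [IsProbabilityMeasure m] [m.IsOpenPosMeasure] [T2Space Z] (G : C → Z)
    (hG : Continuous G) : IsCompact (pk m G hG : Measure Z).support := by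
  rw [pk_support]
  exact isCompact_range hG

omit [SecondCountableTopology C] in
theorem pk_continuous [FirstCountableTopology Y] [LocallyCompactSpace Y] (m : Measure C) [IsProbabilityMeasure m]
    [SecondCountableTopology Z]
    (G : Y → C → Z) (hG : Continuous fun p : Y × C => G p.1 p.2) :
    Continuous fun y => pk m (G y) (hG.comp (Continuous.prodMk_right y)) := by
  rw [continuous_iff_continuousAt]
  intro y
  rw [ContinuousAt, ProbabilityMeasure.tendsto_iff_forall_integral_tendsto]
  intro f
  have h1 : ∀ y', ∫ z, f z ∂(pk m (G y') (hG.comp (Continuous.prodMk_right y')) : Measure Z) =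
      ∫ c, f (G y' c) ∂m := fun y' => pk_integral m _ _ f.continuous
  simp only [h1]
  have h2 : Continuous fun y' => ∫ c, f (G y' c) ∂m :=
    continuous_int m (f := fun y' c => f (G y' c)) (f.continuous.comp hG)
  exact h2.continuousAt

omit [SecondCountableTopology C] in
theorem pk_support_continuous (m : Measure C) [IsProbabilityMeasure m] [m.IsOpenPosMeasure] [T2Space Z]
    (G : Y → C → Z) (hG : Continuous fun p : Y × C => G p.1 p.2)
    (h : ∀ y, IsCompact (pk m (G y) (hG.comp (Continuous.prodMk_right y)) : Measure Z).support) :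
    Continuous fun y =>
      (⟨(pk m (G y) (hG.comp (Continuous.prodMk_right y)) : Measure Z).support, h y⟩ : Compacts Z) := by
  have h1 : (fun y => (⟨(pk m (G y) (hG.comp (Continuous.prodMk_right y)) : Measure Z).support, h y⟩ :
      Compacts Z)) = fun y => (⊤ : Compacts C).map (G y) (hG.comp (Continuous.prodMk_right y)) := by
    funext y
    apply Compacts.ext
    simp [pk_support]
  rw [h1]
  exact Continuous.compacts_map' (f := fun _ : Y => (⊤ : Compacts C)) (g := G) continuous_const hG

end pk

/-- Equality of push-forwards is tested on continuous functions. -/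
theorem map_eq {C C' Z : Type} [TopologicalSpace C] [CompactSpace C] [MeasurableSpace C] [BorelSpace C]
    [TopologicalSpace C'] [CompactSpace C'] [MeasurableSpace C'] [BorelSpace C']
    [TopologicalSpace Z] [PseudoMetrizableSpace Z] [SecondCountableTopology Z] [MeasurableSpace Z] [BorelSpace Z]
    (m : Measure C) [IsFiniteMeasure m] (m' : Measure C') [IsFiniteMeasure m'] (G : C → Z) (hG : Continuous G)
    (G' : C' → Z) (hG' : Continuous G')
    (h : ∀ f : Z → ℝ, Continuous f → ∫ c, f (G c) ∂m = ∫ c, f (G' c) ∂m') : m.map G = m'.map G' := by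
  have h1 : IsFiniteMeasure (m.map G) := inferInstance
  have h2 : IsFiniteMeasure (m'.map G') := inferInstance
  refine ext_of_forall_integral_eq_of_IsFiniteMeasure fun f => ?_
  rw [integral_map hG.measurable.aemeasurable f.continuous.aestronglyMeasurable,
    integral_map hG'.measurable.aemeasurable f.continuous.aestronglyMeasurable]
  exact h f f.continuous

/-- Composition of two parametrised kernels. -/
theorem lint2 {C C' Z W : Type} [TopologicalSpace C] [MeasurableSpace C] [BorelSpace C]
    [TopologicalSpace C'] [MeasurableSpace C'] [BorelSpace C']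
    [TopologicalSpace Z] [MeasurableSpace Z] [BorelSpace Z]
    [TopologicalSpace W] [MeasurableSpace W] [BorelSpace W]
    [SecondCountableTopology C'] [SecondCountableTopology Z] [SecondCountableTopology C]
    (m : Measure C) [IsProbabilityMeasure m] (m' : Measure C') [IsProbabilityMeasure m']
    (G₀ : C → W) (hG₀ : Continuous G₀) (G₁ : W → C' → Z) (hG₁ : Continuous fun p : W × C' => G₁ p.1 p.2)
    [SecondCountableTopology W]
    (A : Set Z) (hA : MeasurableSet A) :
    ∫⁻ w, (pk m' (G₁ w) (hG₁.comp (Continuous.prodMk_right w)) : Measure Z) A ∂(pk m G₀ hG₀ : Measure W) =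
      (m.prod m').map (fun c : C × C' => G₁ (G₀ c.1) c.2) A := by
  have hc : Continuous fun c : C × C' => G₁ (G₀ c.1) c.2 :=
    hG₁.comp ((hG₀.comp continuous_fst).prodMk continuous_snd)
  have hmeas : Measurable fun w => (m'.map (G₁ w)) A := by
    have h1 : ∀ w, (m'.map (G₁ w)) A = m' (Prod.mk w ⁻¹' ((fun p : W × C' => G₁ p.1 p.2) ⁻¹' A)) := by
      intro w
      have hw : Continuous (G₁ w) := hG₁.comp (Continuous.prodMk_right w)
      rw [Measure.map_apply hw.measurable hA]
      rfl
    simp only [h1]
    exact measurable_measure_prodMk_left (hG₁.measurable hA)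
  change ∫⁻ w, (m'.map (G₁ w)) A ∂(m.map G₀) = _
  rw [lintegral_map hmeas hG₀.measurable, Measure.map_apply hc.measurable hA,
    Measure.prod_apply (hc.measurable hA)]
  refine lintegral_congr fun c => ?_
  have hw : Continuous (G₁ (G₀ c)) := hG₁.comp (Continuous.prodMk_right _)
  rw [Measure.map_apply hw.measurable hA]
  rfl

/-! ### Integrals over the parameter spaces -/

theorem int_β (f : Bool → ℝ) : ∫ b, f b ∂β = (f false + f true) / 2 := by
  have h1 : Integrable f ((2 : ENNReal)⁻¹ • Measure.dirac false) :=
    (integrable_dirac (by simp)).smul_measure (by simp)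
  have h2 : Integrable f ((2 : ENNReal)⁻¹ • Measure.dirac true) :=
    (integrable_dirac (by simp)).smul_measure (by simp)
  rw [β, integral_add_measure h1 h2, integral_smul_measure, integral_smul_measure, integral_dirac, integral_dirac]
  simp
  ring

theorem int_mD {f : CD → ℝ} (hf : Continuous f) :
    ∫ c, f c ∂mD = ((∫ g, ∫ g', f (g, g', false)) + ∫ g, ∫ g', f (g, g', true)) / 2 := by
  have hi : Integrable f ((volume : Measure I).prod ((volume : Measure I).prod β)) := integrable_cont _ hf
  have h1 : ∀ g : I, ∫ y : I × Bool, f (g, y) ∂((volume : Measure I).prod β) =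
      ∫ g' : I, (f (g, g', false) + f (g, g', true)) / 2 := by
    intro g
    have hi2 : Integrable (fun y : I × Bool => f (g, y)) ((volume : Measure I).prod β) :=
      integrable_cont _ (hf.comp (Continuous.prodMk_right g))
    rw [integral_prod _ hi2]
    exact integral_congr_ae (Eventually.of_forall fun g' => int_β _)
  have hcf : ∀ b : Bool, Continuous fun p : I × I => f (p.1, p.2, b) := fun b =>
    hf.comp (continuous_fst.prodMk (continuous_snd.prodMk continuous_const))
  have hc1 : ∀ (b : Bool) (g : I), Integrable (fun g' : I => f (g, g', b)) := fun b g =>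
    integrable_cont _ ((hcf b).comp (Continuous.prodMk_right g))
  have hc2 : ∀ b : Bool, Integrable (fun g : I => ∫ g' : I, f (g, g', b)) := fun b =>
    integrable_cont _ (continuous_int _ (f := fun g g' => f (g, g', b)) (hcf b))
  rw [mD, integral_prod _ hi, integral_congr_ae (Eventually.of_forall h1)]
  simp only [integral_div]
  have h2 : ∀ g : I, ∫ g' : I, (f (g, g', false) + f (g, g', true)) =
      (∫ g', f (g, g', false)) + ∫ g', f (g, g', true) := fun g => integral_add (hc1 _ _) (hc1 _ _)
  simp only [h2]
  rw [integral_add (hc2 _) (hc2 _)]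

theorem int_mX {f : CX → ℝ} (hf : Continuous f) :
    ∫ c, f c ∂mX = ((∫ g, ∫ g', f (g, g', false)) + ∫ g, ∫ g', f (g, g', true)) / 2 := by
  have hi : Integrable f ((volume : Measure C0).prod ((volume : Measure C0).prod β)) := integrable_cont _ hf
  have h1 : ∀ g : C0, ∫ y : C0 × Bool, f (g, y) ∂((volume : Measure C0).prod β) =
      ∫ g' : C0, (f (g, g', false) + f (g, g', true)) / 2 := by
    intro g
    have hi2 : Integrable (fun y : C0 × Bool => f (g, y)) ((volume : Measure C0).prod β) :=
      integrable_cont _ (hf.comp (Continuous.prodMk_right g))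
    rw [integral_prod _ hi2]
    exact integral_congr_ae (Eventually.of_forall fun g' => int_β _)
  have hcf : ∀ b : Bool, Continuous fun p : C0 × C0 => f (p.1, p.2, b) := fun b =>
    hf.comp (continuous_fst.prodMk (continuous_snd.prodMk continuous_const))
  have hc1 : ∀ (b : Bool) (g : C0), Integrable (fun g' : C0 => f (g, g', b)) := fun b g =>
    integrable_cont _ ((hcf b).comp (Continuous.prodMk_right g))
  have hc2 : ∀ b : Bool, Integrable (fun g : C0 => ∫ g' : C0, f (g, g', b)) := fun b =>
    integrable_cont _ (continuous_int _ (f := fun g g' => f (g, g', b)) (hcf b))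
  rw [mX, integral_prod _ hi, integral_congr_ae (Eventually.of_forall h1)]
  simp only [integral_div]
  have h2 : ∀ g : C0, ∫ g' : C0, (f (g, g', false) + f (g, g', true)) =
      (∫ g', f (g, g', false)) + ∫ g', f (g, g', true) := fun g => integral_add (hc1 _ _) (hc1 _ _)
  simp only [h2]
  rw [integral_add (hc2 _) (hc2 _)]

/-! ### Elementary facts on the definitions -/

theorem cc_mem (p : C0) : -1 ≤ cc p ∧ cc p ≤ 1 := by
  have h1 : (0 : ℝ) ≤ p.1 := p.1.2.1
  have h2 : (p.1 : ℝ) ≤ 1 := p.1.2.2
  unfold cc
  constructor <;> linarith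

theorem norm_ci (v : I) : ‖ci v‖ = 1 := by
  rw [ci, Complex.norm_exp_ofReal_mul_I]

theorem continuous_ci : Continuous ci := by
  unfold ci
  fun_prop

theorem continuous_cc : Continuous cc := by
  unfold cc
  fun_prop

theorem continuous_sph : Continuous sph := by
  unfold sph
  have h1 := continuous_cc
  have h2 := continuous_ci
  fun_prop

theorem tt_nonneg (r s : ℝ) (g : I) : 0 ≤ tt r s g := Real.sqrt_nonneg _

theorem tt_comm (r s : ℝ) (g : I) : tt r s g = tt s r g := by
  unfold tt
  ring_nf

theorem continuous_tt : Continuous fun p : ℝ × ℝ × I => tt p.1 p.2.1 p.2.2 := by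
  unfold tt
  fun_prop

theorem tt_sq (r s : ℝ) (g : I) : tt r s g ^ 2 = r ^ 2 + s ^ 2 + 2 * r * s * (2 * (g : ℝ) - 1) := by
  unfold tt
  refine Real.sq_sqrt ?_
  have h1 : (0 : ℝ) ≤ g := g.2.1
  have h2 : (g : ℝ) ≤ 1 := g.2.2
  nlinarith [mul_nonneg h1 (sq_nonneg (r + s)), mul_nonneg (sub_nonneg.2 h2) (sq_nonneg (r - s))]

theorem srt_comm (a b : ℝ) : srt a b = srt b a := by
  unfold srt
  congr 2
  · exact max_comm _ _
  · exact min_comm _ _

theorem srt_coe (a b : ℝ) : (srt a b).1 = (max |a| |b|, min |a| |b|) := rfl

theorem continuous_srt : Continuous fun p : ℝ × ℝ => srt p.1 p.2 := by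
  refine Continuous.subtype_mk ?_ _
  fun_prop

theorem srt_self (h : DD) : srt h.1.1 h.1.2 = h := by
  apply Subtype.ext
  rw [srt_coe, abs_of_nonneg (h.2.1.trans h.2.2), abs_of_nonneg h.2.1, max_eq_left h.2.2, min_eq_right h.2.2]

theorem srt_cases {a b : ℝ} (ha : 0 ≤ a) (hb : 0 ≤ b) :
    (srt a b).1 = (a, b) ∨ (srt a b).1 = (b, a) := by
  rw [srt_coe, abs_of_nonneg ha, abs_of_nonneg hb]
  rcases le_total a b with h | h
  · right
    rw [max_eq_right h, min_eq_left h]
  · left
    rw [max_eq_left h, min_eq_right h]

theorem fs_false (h : DD) : fs false h = h.1.1 := rfl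
theorem fs_true (h : DD) : fs true h = h.1.2 := rfl

theorem fs_nonneg (ε : Bool) (h : DD) : 0 ≤ fs ε h := by
  cases ε
  · exact h.2.1.trans h.2.2
  · exact h.2.1

theorem continuous_fs : Continuous fun p : Bool × DD => fs p.1 p.2 := by
  rw [continuous_prod_of_discrete_left]
  intro b
  cases b
  · exact continuous_fst.comp continuous_subtype_val
  · exact continuous_snd.comp continuous_subtype_val

theorem continuous_Gd : Continuous fun p : (DD × DD) × CD => Gd p.1.1 p.1.2 p.2 := by
  unfold Gd
  have h1 := continuous_fs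
  have h2 := continuous_tt
  have h3 := continuous_srt
  have hn : Continuous fun b : Bool => !b := continuous_of_discreteTopology
  have e1 : Continuous fun p : (DD × DD) × CD => fs p.2.2.2 p.1.2 :=
    h1.comp ((continuous_snd.comp (continuous_snd.comp continuous_snd)).prodMk
      (continuous_snd.comp continuous_fst))
  have e2 : Continuous fun p : (DD × DD) × CD => fs (!p.2.2.2) p.1.2 :=
    h1.comp ((hn.comp (continuous_snd.comp (continuous_snd.comp continuous_snd))).prodMk
      (continuous_snd.comp continuous_fst))
  have e3 : Continuous fun p : (DD × DD) × CD => tt p.1.1.1.1 (fs p.2.2.2 p.1.2) p.2.1 :=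
    h2.comp (Continuous.prodMk (by fun_prop) (e1.prodMk (by fun_prop)))
  have e4 : Continuous fun p : (DD × DD) × CD => tt p.1.1.1.2 (fs (!p.2.2.2) p.1.2) p.2.2.1 :=
    h2.comp (Continuous.prodMk (by fun_prop) (e2.prodMk (by fun_prop)))
  exact h3.comp (e3.prodMk e4)

theorem continuous_Gx (F₁ F₂ : Fac) : Continuous fun p : ((S × S) × DD) × CX => Gx F₁ F₂ p.1.1 p.1.2 p.2 := by
  unfold Gx
  have h1 := continuous_fs
  have hn : Continuous fun b : Bool => !b := continuous_of_discreteTopology
  have e1 : Continuous fun p : ((S × S) × DD) × CX => fs p.2.2.2 p.1.2 :=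
    h1.comp ((continuous_snd.comp (continuous_snd.comp continuous_snd)).prodMk
      (continuous_snd.comp continuous_fst))
  have e2 : Continuous fun p : ((S × S) × DD) × CX => fs (!p.2.2.2) p.1.2 :=
    h1.comp ((hn.comp (continuous_snd.comp (continuous_snd.comp continuous_snd))).prodMk
      (continuous_snd.comp continuous_fst))
  have e3 : Continuous fun p : ((S × S) × DD) × CX => F₁.P (fs p.2.2.2 p.1.2) p.2.1 :=
    F₁.cont_P.comp (e1.prodMk (by fun_prop))
  have e4 : Continuous fun p : ((S × S) × DD) × CX => F₂.P (fs (!p.2.2.2) p.1.2) p.2.2.1 :=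
    F₂.cont_P.comp (e2.prodMk (by fun_prop))
  exact (F₁.cont_mul.comp (Continuous.prodMk (by fun_prop) e3)).prodMk
    (F₂.cont_mul.comp (Continuous.prodMk (by fun_prop) e4))

theorem continuous_prt (F₁ F₂ : Fac) : Continuous fun p : (S × S) × (S × S) => prt F₁ F₂ p.1 p.2 := by
  unfold prt
  have e1 : Continuous fun p : (S × S) × (S × S) => F₁.len (F₁.mul (F₁.inv p.1.1) p.2.1) :=
    F₁.cont_len.comp (F₁.cont_mul.comp ((F₁.cont_inv.comp (by fun_prop)).prodMk (by fun_prop)))
  have e2 : Continuous fun p : (S × S) × (S × S) => F₂.len (F₂.mul (F₂.inv p.1.2) p.2.2) :=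
    F₂.cont_len.comp (F₂.cont_mul.comp ((F₂.cont_inv.comp (by fun_prop)).prodMk (by fun_prop)))
  exact continuous_srt.comp (e1.prodMk e2)

end Pool.Agent.Helper94.CM
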