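import Mathlib
import Pool.Agent.Helper95.CASDefs

/-!
# Project CM (MP_466bd8): a commutative continuous association scheme without (T2), definitions

`X = R^3 x H^3`, `D = Sym^2 [0, inf)`.  Both factors live on `S = ℝ × ℂ`; `R^3` is the additive group, `H^3` is the
group with the product `(τ, z) (τ', z') = (τ + τ', z + exp (-τ) z')`.
-/

set_option autoImplicit false

namespace Pool.Agent.Helper94.CM

open MeasureTheory TopologicalSpace Pool.Agent.Helper95.CAS
open scoped unitInterval

/-- The space of both factors. -/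
abbrev S : Type := ℝ × ℂ

/-- The parameter space of a sphere. -/
abbrev C0 : Type := I × I

/-- The unit circle. -/
noncomputable def ci (v : I) : ℂ := Complex.exp (((2 * Real.pi * (v : ℝ) : ℝ) : ℂ) * Complex.I)

/-- The first coordinate, in `[-1, 1]`. -/
noncomputable def cc (p : C0) : ℝ := 2 * (p.1 : ℝ) - 1

/-- The unit sphere (uniform parametrisation). -/
noncomputable def sph (p : C0) : S := (cc p, (Real.sqrt (1 - cc p ^ 2) : ℂ) * ci p.2)

/-- The third side of a euclidean triangle. -/
noncomputable def tt (r s : ℝ) (g : I) : ℝ := Real.sqrt (r ^ 2 + s ^ 2 + 2 * r * s * (2 * (g : ℝ) - 1))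

/-- The uniform measure on two points. -/
noncomputable def β : Measure Bool := (2 : ENNReal)⁻¹ • Measure.dirac false + (2 : ENNReal)⁻¹ • Measure.dirac true

/-- Ordered pairs of nonnegative numbers. -/
abbrev DD : Type := {p : ℝ × ℝ // 0 ≤ p.2 ∧ p.2 ≤ p.1}

/-- Sorting. -/
noncomputable def srt (a b : ℝ) : DD :=
  ⟨(max |a| |b|, min |a| |b|), le_min (abs_nonneg a) (abs_nonneg b), min_le_max⟩

/-- The first or the second component. -/
def fs (ε : Bool) (h : DD) : ℝ := if ε then h.1.2 else h.1.1

/-- A factor: a group structure on `S` with a length function and spheres `P r`, `r ≥ 0`. -/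
structure Fac where
  mul : S → S → S
  inv : S → S
  len : S → ℝ
  P : ℝ → C0 → S
  mul_assoc : ∀ x y z, mul (mul x y) z = mul x (mul y z)
  zero_mul : ∀ x, mul 0 x = x
  mul_zero : ∀ x, mul x 0 = x
  inv_mul : ∀ x, mul (inv x) x = 0
  mul_inv : ∀ x, mul x (inv x) = 0
  cont_mul : Continuous fun p : S × S => mul p.1 p.2
  cont_inv : Continuous inv
  cont_len : Continuous len
  len_nonneg : ∀ x, 0 ≤ len x
  len_inv : ∀ x, len (inv x) = len x
  proper : ∀ R : ℝ, IsCompact {x | len x ≤ R}
  cont_P : Continuous fun q : ℝ × C0 => P q.1 q.2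
  len_P : ∀ r, 0 ≤ r → ∀ p, len (P r p) = r
  surj_P : ∀ x, ∃ p, P (len x) p = x
  P_zero : ∀ p, P 0 p = 0
  comp : ∀ r s, 0 ≤ r → 0 ≤ s → ∀ f : S → ℝ, Continuous f →
    ∫ p : C0, ∫ q : C0, f (mul (P r p) (P s q)) = ∫ g : I, ∫ p : C0, f (P (tt r s g) p)
  symm : ∀ r, 0 ≤ r → ∀ f : S → ℝ, Continuous f → ∫ p : C0, f (inv (P r p)) = ∫ p : C0, f (P r p)
  right_inv : ∀ y, MeasurePreserving (fun x => mul x y) volume volume
  /-- a left invariant measure -/
  lv : Measure S
  lv_reg : lv.Regular
  lv_pos : lv.IsOpenPosMeasure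
  left_inv : ∀ g, MeasurePreserving (mul g) lv lv

/-- The push-forward of a probability measure under a continuous map, as a probability measure. -/
noncomputable def pk {C Z : Type} [TopologicalSpace C] [MeasurableSpace C] [BorelSpace C]
    [TopologicalSpace Z] [MeasurableSpace Z] [BorelSpace Z] (m : Measure C) [IsProbabilityMeasure m]
    (G : C → Z) (hG : Continuous G) : ProbabilityMeasure Z :=
  ⟨m.map G, Measure.isProbabilityMeasure_map hG.measurable.aemeasurable⟩

/-- The parameter space of the convolution. -/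
abbrev CD : Type := I × I × Bool

/-- The parameter space of the kernel. -/
abbrev CX : Type := C0 × C0 × Bool

/-- The measure on `CD`. -/
noncomputable def mD : Measure CD := (volume : Measure I).prod ((volume : Measure I).prod β)

/-- The measure on `CX`. -/
noncomputable def mX : Measure CX := (volume : Measure C0).prod ((volume : Measure C0).prod β)

/-- The convolution of point masses on `DD`, parametrised. -/
noncomputable def Gd (x y : DD) (c : CD) : DD := srt (tt x.1.1 (fs c.2.2 y) c.1) (tt x.1.2 (fs (!c.2.2) y) c.2.1)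

/-- The kernel, parametrised. -/
noncomputable def Gx (F₁ F₂ : Fac) (x : S × S) (h : DD) (c : CX) : S × S :=
  (F₁.mul x.1 (F₁.P (fs c.2.2 h) c.1), F₂.mul x.2 (F₂.P (fs (!c.2.2) h) c.2.1))

/-- The partition map. -/
noncomputable def prt (F₁ F₂ : Fac) (x y : S × S) : DD :=
  srt (F₁.len (F₁.mul (F₁.inv x.1) y.1)) (F₂.len (F₂.mul (F₂.inv x.2) y.2))

/-- The left invariant measure on the product. -/
noncomputable def vX (F₁ F₂ : Fac) : Measure (S × S) := F₁.lv.prod F₂.lv

/-! ### The two factors -/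

/-- The length on `R^3`. -/
noncomputable def lenR (x : S) : ℝ := Real.sqrt (x.1 ^ 2 + ‖x.2‖ ^ 2)

/-- The spheres of `R^3`. -/
noncomputable def PR (r : ℝ) (p : C0) : S := r • sph p

/-- The product on `H^3`. -/
noncomputable def mulH (x y : S) : S := (x.1 + y.1, x.2 + (Real.exp (-x.1) : ℂ) * y.2)

/-- The inverse on `H^3`. -/
noncomputable def invH (x : S) : S := (-x.1, -((Real.exp x.1 : ℂ) * x.2))

/-- The hyperbolic cosine of the length. -/
noncomputable def chH (x : S) : ℝ := Real.cosh x.1 + Real.exp x.1 * ‖x.2‖ ^ 2 / 2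

/-- The length on `H^3`. -/
noncomputable def lenH (x : S) : ℝ := Real.arcosh (chH x)

/-- The spheres of `H^3` with the weighted measure. -/
noncomputable def PH (r : ℝ) (p : C0) : S :=
  (r * cc p, (Real.sqrt (2 * Real.exp (-(r * cc p)) * (Real.cosh r - Real.cosh (r * cc p))) : ℂ) * ci p.2)

/-- The left invariant measure on `H^3`. -/
noncomputable def lvH : Measure S := (volume : Measure S).withDensity fun x => ENNReal.ofReal (Real.exp (2 * x.1))

/-! ### Unitary matrices -/

/-- The unitary group. -/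
abbrev K : Type := unitary (Matrix (Fin 2) (Fin 2) ℂ)

/-- The hermitian matrix `[α + ν₁, conj ν₂; ν₂, α - ν₁]`. -/
noncomputable def mat (α : ℝ) (ν : S) : Matrix (Fin 2) (Fin 2) ℂ :=
  !![((α + ν.1 : ℝ) : ℂ), (starRingEnd ℂ) ν.2; ν.2, ((α - ν.1 : ℝ) : ℂ)]

/-- The point of the sphere: `k diag(1,-1) k* = mat 0 (nn k)`. -/
noncomputable def nn (k : K) : S :=
  (‖k.1 0 0‖ ^ 2 - ‖k.1 0 1‖ ^ 2, k.1 1 0 * (starRingEnd ℂ) (k.1 0 0) - k.1 1 1 * (starRingEnd ℂ) (k.1 0 1))

/-- The lower triangular matrix of an element of `H^3`: `Lw x * (Lw x)* = ` the hermitian matrix of `x`. -/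
noncomputable def Lw (x : S) : Matrix (Fin 2) (Fin 2) ℂ :=
  !![(Real.exp (x.1 / 2) : ℂ), 0; (Real.exp (x.1 / 2) : ℂ) * x.2, (Real.exp (-(x.1 / 2)) : ℂ)]

/-- The point of `H^3` of a positive hermitian matrix with determinant one. -/
noncomputable def Psi (Y : Matrix (Fin 2) (Fin 2) ℂ) : S := (Real.log (Y 0 0).re, Y 1 0 / Y 0 0)

/-- The unweighted spheres of `H^3`. -/
noncomputable def QH (r : ℝ) (p : C0) : S := Psi (mat (Real.cosh r) (Real.sinh r • sph p))

/-- The third side of a hyperbolic triangle. -/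
noncomputable def tH (r s : ℝ) (g : I) : ℝ :=
  Real.arcosh (Real.cosh r * Real.cosh s + Real.sinh r * Real.sinh s * (2 * (g : ℝ) - 1))

end Pool.Agent.Helper94.CM
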