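import Pool.Agent.Helper94.CM.St

/-!
# Project CM: assembly from the statements
-/

set_option autoImplicit false

namespace Pool.Agent.Helper94.CM

open MeasureTheory TopologicalSpace Set Filter Topology Pool.Agent.Helper95.CAS
open scoped unitInterval

theorem cont_Gd (x y : DD) : Continuous (Gd x y) := continuous_Gd.comp (Continuous.prodMk_right (x, y))

theorem cont_Gx (F₁ F₂ : Fac) (x : S × S) (h : DD) : Continuous (Gx F₁ F₂ x h) :=
  (continuous_Gx F₁ F₂).comp (Continuous.prodMk_right (x, h))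

/-- The involution-free data of the hypergroup. -/
noncomputable def hyp (hTT : StTT) (hAS : StAS) (F : Fac) : Hypergroup DD where
  conv x y := pk mD (Gd x y) (cont_Gd x y)
  conv_continuous := pk_continuous mD (fun p : DD × DD => Gd p.1 p.2) continuous_Gd
  conv_assoc := by
    intro x y z A hA
    have c1 : Continuous fun p : DD × CD => Gd p.1 z p.2 :=
      continuous_Gd.comp ((continuous_fst.prodMk continuous_const).prodMk continuous_snd)
    have c2 : Continuous fun p : DD × CD => Gd x p.1 p.2 :=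
      continuous_Gd.comp ((continuous_const.prodMk continuous_fst).prodMk continuous_snd)
    have e1 := lint2 mD mD (Gd x y) (cont_Gd x y) (fun w => Gd w z) c1 A hA
    have e2 := lint2 mD mD (Gd y z) (cont_Gd y z) (fun w => Gd x w) c2 A hA
    refine e1.trans (Eq.trans ?_ e2.symm)
    have d1 : Continuous fun c : CD × CD => Gd (Gd x y c.1) z c.2 :=
      c1.comp (((cont_Gd x y).comp continuous_fst).prodMk continuous_snd)
    have d2 : Continuous fun c : CD × CD => Gd x (Gd y z c.1) c.2 :=
      c2.comp (((cont_Gd y z).comp continuous_fst).prodMk continuous_snd)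
    rw [map_eq (mD.prod mD) (mD.prod mD) _ d1 _ d2]
    intro f hf
    have i1 : Integrable (fun c : CD × CD => f (Gd (Gd x y c.1) z c.2)) (mD.prod mD) :=
      integrable_cont _ (hf.comp d1)
    have i2 : Integrable (fun c : CD × CD => f (Gd x (Gd y z c.1) c.2)) (mD.prod mD) :=
      integrable_cont _ (hf.comp d2)
    rw [integral_prod _ i1, integral_prod _ i2]
    exact hAS hTT F x y z f hf
  isCompact_support x y := pk_isCompact mD _ _
  support_continuous := pk_support_continuous mD (fun p : DD × DD => Gd p.1 p.2) continuous_Gd _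
  e := srt 0 0
  e_conv := by
    intro x
    have h1 : Gd (srt 0 0) x = fun _ => x := by
      funext c
      have h0 : (srt 0 0).1 = (0, 0) := by simp [srt_coe]
      have h2 : ∀ (a : ℝ) (g : I), 0 ≤ a → tt 0 a g = a := by
        intro a g ha
        simp [tt, Real.sqrt_sq ha]
      unfold Gd
      rw [h0]
      simp only
      rw [h2 _ _ (fs_nonneg _ _), h2 _ _ (fs_nonneg _ _)]
      rcases c with ⟨g, g', ε⟩
      cases ε
      · exact srt_self x
      · rw [srt_comm]
        exact srt_self x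
    rw [pk_coe, h1, Measure.map_const]
    simp
  conv_e := by
    intro x
    have h1 : Gd x (srt 0 0) = fun _ => x := by
      funext c
      have h0 : (srt 0 0).1 = (0, 0) := by simp [srt_coe]
      have h2 : ∀ (a : ℝ) (g : I), 0 ≤ a → tt a 0 g = a := by
        intro a g ha
        simp [tt, Real.sqrt_sq ha]
      have h3 : ∀ ε, fs ε (srt 0 0) = 0 := by
        intro ε
        cases ε <;> simp [fs, h0]
      unfold Gd
      rw [h3, h3, h2 _ _ (x.2.1.trans x.2.2), h2 _ _ x.2.1]
      exact srt_self x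
    rw [pk_coe, h1, Measure.map_const]
    simp
  inv := id
  inv_continuous := continuous_id
  inv_inv _ := rfl
  e_mem_support := by
    intro x y
    rw [pk_support]
    have h0 : (srt 0 0).1 = (0, 0) := by simp [srt_coe]
    have h2 : ∀ (a b : ℝ) (g : I), tt a b g = 0 → 0 ≤ a → 0 ≤ b → a = b := by
      intro a b g h ha hb
      have h3 := tt_sq a b g
      rw [h] at h3
      have h4 : (0 : ℝ) ≤ g := g.2.1
      have h5 : (a - b) ^ 2 ≤ 0 := by nlinarith [mul_nonneg (mul_nonneg ha hb) h4]
      nlinarith [sq_nonneg (a - b)]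
    constructor
    · rintro ⟨c, hc⟩
      have h3 := congrArg Subtype.val hc
      rw [h0] at h3
      unfold Gd at h3
      rw [srt_coe] at h3
      have h4 := congrArg Prod.fst h3
      simp only at h4
      have h5 := abs_nonneg (tt x.1.1 (fs c.2.2 y) c.1)
      have h6 := abs_nonneg (tt x.1.2 (fs (!c.2.2) y) c.2.1)
      have h7 : |tt x.1.1 (fs c.2.2 y) c.1| = 0 := le_antisymm ((le_max_left _ _).trans_eq h4) h5
      have h8 : |tt x.1.2 (fs (!c.2.2) y) c.2.1| = 0 := le_antisymm ((le_max_right _ _).trans_eq h4) h6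
      have h9 := h2 _ _ _ (abs_eq_zero.1 h7) (x.2.1.trans x.2.2) (fs_nonneg _ _)
      have h10 := h2 _ _ _ (abs_eq_zero.1 h8) x.2.1 (fs_nonneg _ _)
      rcases c with ⟨g, g', ε⟩
      simp only [id]
      apply Subtype.ext
      cases ε
      · simp only [Bool.not_false, fs_false, fs_true] at h9 h10
        exact Prod.ext h9.symm h10.symm
      · simp only [Bool.not_true, fs_false, fs_true] at h9 h10
        have h11 := x.2.2
        have h12 := y.2.2
        have h13 : x.1.1 = y.1.1 := by linarith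
        have h14 : x.1.2 = y.1.2 := by linarith
        exact Prod.ext h13.symm h14.symm
    · rintro rfl
      refine ⟨(0, 0, false), ?_⟩
      unfold Gd
      simp only [Bool.not_false, fs_false, fs_true]
      have h3 : ∀ a : ℝ, tt a a 0 = 0 := by
        intro a
        have : a ^ 2 + a ^ 2 + 2 * a * a * (2 * ((0 : I) : ℝ) - 1) = 0 := by
          simp only [Set.Icc.coe_zero]
          ring
        unfold tt
        rw [this, Real.sqrt_zero]
      rw [h3, h3]
  map_inv_conv := by
    intro x y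
    rw [Measure.map_id]
    simp only [id]
    rw [pk_coe, pk_coe]
    refine map_eq mD mD _ (cont_Gd x y) _ (cont_Gd y x) fun f hf => ?_
    have i1 := int_mD (f := fun c => f (Gd x y c)) (hf.comp (cont_Gd x y))
    have i2 := int_mD (f := fun c => f (Gd y x c)) (hf.comp (cont_Gd y x))
    rw [i1, i2]
    have e1 : ∀ g g' : I, f (Gd x y (g, g', false)) = f (Gd y x (g, g', false)) := by
      intro g g'
      unfold Gd
      simp only [Bool.not_false, fs_false, fs_true]
      rw [tt_comm x.1.1, tt_comm x.1.2]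
    have e2 : ∀ g g' : I, f (Gd x y (g, g', true)) = f (Gd y x (g', g, true)) := by
      intro g g'
      unfold Gd
      simp only [Bool.not_true, fs_false, fs_true]
      rw [tt_comm x.1.1, tt_comm x.1.2, srt_comm]
    simp only [e1, e2]
    congr 1
    congr 1
    have hc : Continuous fun p : I × I => f (Gd y x (p.2, p.1, true)) :=
      (hf.comp (cont_Gd y x)).comp (continuous_snd.prodMk (continuous_fst.prodMk continuous_const))
    exact integral_integral_swap (f := fun g g' => f (Gd y x (g', g, true))) (integrable_cont _ hc)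

theorem hyp_comm (hTT : StTT) (hAS : StAS) (F : Fac) : (hyp hTT hAS F).IsCommutative := by
  intro x y
  apply Subtype.ext
  have h := (hyp hTT hAS F).map_inv_conv x y
  have h2 : (hyp hTT hAS F).inv = id := rfl
  rw [h2, Measure.map_id] at h
  exact h

/-- The scheme. -/
noncomputable def sch (hTT : StTT) (hAS : StAS) (hCP : StCP) (hSP : StSP) (F : Fac) (F₁ F₂ : Fac) :
    PreCAS (S × S) DD (hyp hTT hAS F) where
  K x h := pk mX (Gx F₁ F₂ x h) (cont_Gx F₁ F₂ x h)
  K_continuous := pk_continuous mX (fun p : (S × S) × DD => Gx F₁ F₂ p.1 p.2) (continuous_Gx F₁ F₂)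
  isCompact_support x h := pk_isCompact mX _ _
  support_continuous := pk_support_continuous mX (fun p : (S × S) × DD => Gx F₁ F₂ p.1 p.2)
    (continuous_Gx F₁ F₂) _
  part := prt F₁ F₂
  mem_support_iff := by
    intro x y h
    rw [pk_support]
    exact hSP F₁ F₂ x y h
  part_continuous := continuous_prt F₁ F₂
  comp := by
    intro x h₁ h₂ A hA
    have c1 : Continuous fun p : (S × S) × CX => Gx F₁ F₂ p.1 h₂ p.2 :=
      (continuous_Gx F₁ F₂).comp ((continuous_fst.prodMk continuous_const).prodMk continuous_snd)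
    have c2 : Continuous fun p : DD × CX => Gx F₁ F₂ x p.1 p.2 :=
      (continuous_Gx F₁ F₂).comp ((continuous_const.prodMk continuous_fst).prodMk continuous_snd)
    have e1 := lint2 mX mX (Gx F₁ F₂ x h₁) (cont_Gx F₁ F₂ x h₁) (fun w => Gx F₁ F₂ w h₂) c1 A hA
    have e2 := lint2 mD mX (Gd h₁ h₂) (cont_Gd h₁ h₂) (fun w => Gx F₁ F₂ x w) c2 A hA
    refine e1.trans (Eq.trans ?_ e2.symm)
    have d1 : Continuous fun c : CX × CX => Gx F₁ F₂ (Gx F₁ F₂ x h₁ c.1) h₂ c.2 :=
      c1.comp (((cont_Gx F₁ F₂ x h₁).comp continuous_fst).prodMk continuous_snd)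
    have d2 : Continuous fun c : CD × CX => Gx F₁ F₂ x (Gd h₁ h₂ c.1) c.2 :=
      c2.comp (((cont_Gd h₁ h₂).comp continuous_fst).prodMk continuous_snd)
    rw [map_eq (mX.prod mX) (mD.prod mX) _ d1 _ d2]
    intro f hf
    have i1 : Integrable (fun c : CX × CX => f (Gx F₁ F₂ (Gx F₁ F₂ x h₁ c.1) h₂ c.2)) (mX.prod mX) :=
      integrable_cont _ (hf.comp d1)
    have i2 : Integrable (fun c : CD × CX => f (Gx F₁ F₂ x (Gd h₁ h₂ c.1) c.2)) (mD.prod mX) :=
      integrable_cont _ (hf.comp d2)
    rw [integral_prod _ i1, integral_prod _ i2]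
    exact hCP F₁ F₂ x h₁ h₂ f hf
  K_e := by
    intro x
    have h1 : Gx F₁ F₂ x (srt 0 0) = fun _ => x := by
      funext c
      have h0 : (srt 0 0).1 = (0, 0) := by simp [srt_coe]
      have h3 : ∀ ε, fs ε (srt 0 0) = 0 := by
        intro ε
        cases ε <;> simp [fs, h0]
      unfold Gx
      rw [h3, h3, F₁.P_zero, F₂.P_zero, F₁.mul_zero, F₂.mul_zero]
    change (pk mX (Gx F₁ F₂ x (srt 0 0)) (cont_Gx F₁ F₂ x (srt 0 0)) : Measure (S × S)) = _
    rw [pk_coe, h1, Measure.map_const]
    simp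

theorem final (hHA : StHA) (hRO : StRO) (hTR : StTR) (hUU : StUU) (hBB : StBB) (hRC : StRC) (hRF : StRF)
    (hHB : StHB) (hHS : StHS) (hHU : StHU) (hHC : StHC) (hHF : StHF) (hTT : StTT) (hAS : StAS) (hCP : StCP)
    (hSP : StSP) (hAD : StAD) (hPR : StPR) (hUN : StUN) (hKP : StKP) (hVH : StVH) (hVR : StVR) (hFN : StFN) :
    ∃ (X D : Type) (_ : TopologicalSpace X) (_ : MeasurableSpace X) (_ : BorelSpace X)
      (_ : TopologicalSpace D) (_ : MeasurableSpace D) (_ : BorelSpace D),
      T2Space X ∧ LocallyCompactSpace X ∧ SecondCountableTopology X ∧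
      T2Space D ∧ LocallyCompactSpace D ∧ SecondCountableTopology D ∧
      ∃ (H : Hypergroup D) (C : PreCAS X D H), H.IsCommutative ∧ C.IsCAS ∧
        ∀ (H' : Hypergroup D) (C' : PreCAS X D H'), C'.IsCAS → C'.part = C.part → ¬ C'.T2 := by
  obtain ⟨hK, μ, hμ⟩ := hHA
  have hB := hBB hTR hUU hRO μ hμ hK
  obtain ⟨F₁, a1, a2, a3, -, a5⟩ := hRF hRO (hRC hTR μ hμ hK hB)
  obtain ⟨F₂, b1, b2, b3, -, b5⟩ := hHF hRO (hHC hHB hHS (hHU hTR μ hμ hK hB))
  refine ⟨S × S, DD, inferInstance, inferInstance, inferInstance, inferInstance, inferInstance, inferInstance,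
    inferInstance, inferInstance, inferInstance, inferInstance, inferInstance, inferInstance,
    hyp hTT hAS F₁, sch hTT hAS hCP hSP F₁ F₁ F₂, hyp_comm hTT hAS F₁, ?_, ?_⟩
  · refine ⟨volume, inferInstance, Measure.support_eq_univ, ?_⟩
    intro h f g hf hfc hg hgc
    have e1 : ∀ (u : S × S → ℝ), Continuous u → ∀ x, (sch hTT hAS hCP hSP F₁ F₁ F₂).T h u x =
        ∫ c, u (Gx F₁ F₂ x h c) ∂mX := fun u hu x =>
      pk_integral mX (Gx F₁ F₂ x h) (cont_Gx F₁ F₂ x h) hu
    have e2 : (hyp hTT hAS F₁).inv h = h := rfl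
    rw [e2]
    simp only [e1 f hf, e1 g hg]
    exact hAD F₁ F₂ h f g hf hfc hg hgc
  · rintro H' C' - hpart ⟨ω, ωD, ⟨hreg, hsupp, -⟩, ⟨hregD, -, -⟩, hT2⟩
    have hT : T2id F₁ F₂ C' ω ωD := by
      refine ⟨hpart, hreg, hsupp, hregD, ?_⟩
      intro f g hf hfc hg hgc x
      have h1 := hT2 f g hf hfc hg hgc x
      rw [hpart] at h1
      exact h1
    obtain ⟨c, hc, hcg⟩ := hUN hPR F₁ F₂ H' C' ω ωD hT
    refine hFN hPR hVH hVR F₁ F₂ a1 a2 a3 a5 b1 b2 b3 b5 ?_
    intro f₁ f₂ h1 h2 h3 h4 h5 h6 x w w' hw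
    have h7 := hKP hPR F₁ F₂ H' C' ω ωD hT f₁ f₂ h1 h2 h3 h4 h5 h6 x w w' hw
    have h8 : ∀ w, kk F₁ F₂ ω f₁ f₂ x w = c * kk F₁ F₂ (vX F₁ F₂) f₁ f₂ x w := by
      intro w
      unfold kk
      refine hcg _ ?_ ?_
      · exact (h1.comp ((continuous_prt F₁ F₂).comp (Continuous.prodMk_right x))).mul
          (h4.comp ((continuous_prt F₁ F₂).comp (Continuous.prodMk_left w)))
      · refine HasCompactSupport.mul_right ?_
        -- the support of `f₁ (prt x ·)` is compact
        obtain ⟨R, hR⟩ : ∃ R : ℝ, ∀ h : DD, f₁ h ≠ 0 → h.1.1 ≤ R := by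
          obtain ⟨R, hR⟩ := (h2.isCompact.image (f := fun h : DD => h.1.1)
            (continuous_fst.comp continuous_subtype_val)).bddAbove
          exact ⟨R, fun h hh => hR ⟨h, subset_tsupport _ hh, rfl⟩⟩
        refine HasCompactSupport.intro ((hPR F₁ F₂).2.2.1 R x) fun y hy => ?_
        by_contra hne
        exact hy (hR _ hne)
    rw [h8 w, h8 w'] at h7
    exact mul_left_cancel₀ hc.ne' h7

end Pool.Agent.Helper94.CM
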