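import Pool.Agent.Helper94.CM.St

/-!
# Project CM, module AD: adjointness
-/

set_option autoImplicit false

namespace Pool.Agent.Helper94.CM

open MeasureTheory TopologicalSpace Set Filter Topology Pool.Agent.Helper95.CAS
open scoped unitInterval

/-- the inverse translation -/
private noncomputable def Gi_AD (F₁ F₂ : Fac) (x : S × S) (h : DD) (c : CX) : S × S :=
  (F₁.mul x.1 (F₁.inv (F₁.P (fs c.2.2 h) c.1)), F₂.mul x.2 (F₂.inv (F₂.P (fs (!c.2.2) h) c.2.1)))

private theorem continuous_Gx_AD (F₁ F₂ : Fac) (h : DD) :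
    Continuous fun p : (S × S) × CX => Gx F₁ F₂ p.1 h p.2 :=
  (continuous_Gx F₁ F₂).comp ((continuous_fst.prodMk continuous_const).prodMk continuous_snd)

private theorem continuous_Gi_AD (F₁ F₂ : Fac) (h : DD) :
    Continuous fun p : (S × S) × CX => Gi_AD F₁ F₂ p.1 h p.2 := by
  unfold Gi_AD
  have h1 := continuous_fs
  have hn : Continuous fun b : Bool => !b := continuous_of_discreteTopology
  have e1 : Continuous fun p : (S × S) × CX => fs p.2.2.2 h :=
    h1.comp ((continuous_snd.comp (continuous_snd.comp continuous_snd)).prodMk continuous_const)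
  have e2 : Continuous fun p : (S × S) × CX => fs (!p.2.2.2) h :=
    h1.comp ((hn.comp (continuous_snd.comp (continuous_snd.comp continuous_snd))).prodMk
      continuous_const)
  have e3 : Continuous fun p : (S × S) × CX => F₁.P (fs p.2.2.2 h) p.2.1 :=
    F₁.cont_P.comp (e1.prodMk (by fun_prop))
  have e4 : Continuous fun p : (S × S) × CX => F₂.P (fs (!p.2.2.2) h) p.2.2.1 :=
    F₂.cont_P.comp (e2.prodMk (by fun_prop))
  exact (F₁.cont_mul.comp (Continuous.prodMk (by fun_prop) (F₁.cont_inv.comp e3))).prodMk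
    (F₂.cont_mul.comp (Continuous.prodMk (by fun_prop) (F₂.cont_inv.comp e4)))

private theorem Gi_Gx_AD (F₁ F₂ : Fac) (h : DD) (x : S × S) (c : CX) :
    Gi_AD F₁ F₂ (Gx F₁ F₂ x h c) h c = x := by
  unfold Gi_AD Gx
  simp only [F₁.mul_assoc, F₂.mul_assoc, F₁.mul_inv, F₂.mul_inv, F₁.mul_zero, F₂.mul_zero]

private theorem mp_Gx_AD (F₁ F₂ : Fac) (h : DD) (c : CX) :
    MeasurePreserving (fun x : S × S => Gx F₁ F₂ x h c) volume volume :=
  (F₁.right_inv (F₁.P (fs c.2.2 h) c.1)).prod (F₂.right_inv (F₂.P (fs (!c.2.2) h) c.2.1))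

/-- integrability on the product with the parameter space -/
private theorem integrable_AD {F : (S × S) × CX → ℝ} (hF : Continuous F) (g : S × S → ℝ)
    (hg : HasCompactSupport g) (h0 : ∀ x c, g x = 0 → F (x, c) = 0) :
    Integrable F ((volume : Measure (S × S)).prod mX) := by
  refine hF.integrable_of_hasCompactSupport ?_
  refine HasCompactSupport.intro (K := tsupport g ×ˢ univ) (hg.isCompact.prod isCompact_univ) ?_
  rintro ⟨x, c⟩ hx
  refine h0 x c ?_
  by_contra hne
  exact hx ⟨subset_tsupport g hne, mem_univ c⟩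

/-- symmetry of the spheres -/
private theorem symm_AD (F₁ F₂ : Fac) (h : DD) (x : S × S) (g : S × S → ℝ) (hg : Continuous g) :
    ∫ c, g (Gi_AD F₁ F₂ x h c) ∂mX = ∫ c, g (Gx F₁ F₂ x h c) ∂mX := by
  have key : ∀ r s : ℝ, 0 ≤ r → 0 ≤ s →
      ∫ p : C0, ∫ q : C0, g (F₁.mul x.1 (F₁.inv (F₁.P r p)), F₂.mul x.2 (F₂.inv (F₂.P s q))) =
      ∫ p : C0, ∫ q : C0, g (F₁.mul x.1 (F₁.P r p), F₂.mul x.2 (F₂.P s q)) := by
    intro r s hr hs
    have c1 : Continuous fun y : S × S => g (F₁.mul x.1 y.1, F₂.mul x.2 y.2) :=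
      hg.comp ((F₁.cont_mul.comp (continuous_const.prodMk continuous_fst)).prodMk
        (F₂.cont_mul.comp (continuous_const.prodMk continuous_snd)))
    have h1 : ∀ y : S, ∫ q : C0, g (F₁.mul x.1 y, F₂.mul x.2 (F₂.inv (F₂.P s q))) =
        ∫ q : C0, g (F₁.mul x.1 y, F₂.mul x.2 (F₂.P s q)) := fun y =>
      F₂.symm s hs (fun z => g (F₁.mul x.1 y, F₂.mul x.2 z)) (c1.comp (Continuous.prodMk_right y))
    simp only [h1]
    refine F₁.symm r hr (fun y => ∫ q : C0, g (F₁.mul x.1 y, F₂.mul x.2 (F₂.P s q))) ?_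
    refine continuous_int _ (f := fun y q => g (F₁.mul x.1 y, F₂.mul x.2 (F₂.P s q))) ?_
    exact c1.comp (continuous_fst.prodMk
      (F₂.cont_P.comp (continuous_const.prodMk continuous_snd)))
  have m1 := int_mX (f := fun c => g (Gi_AD F₁ F₂ x h c))
    (hg.comp ((continuous_Gi_AD F₁ F₂ h).comp (Continuous.prodMk_right x)))
  have m2 := int_mX (f := fun c => g (Gx F₁ F₂ x h c))
    (hg.comp ((continuous_Gx_AD F₁ F₂ h).comp (Continuous.prodMk_right x)))
  rw [m1, m2]
  have k1 := key (fs false h) (fs true h) (fs_nonneg _ _) (fs_nonneg _ _)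
  have k2 := key (fs true h) (fs false h) (fs_nonneg _ _) (fs_nonneg _ _)
  exact congrArg (fun z => z / 2) (congrArg₂ (fun a b => a + b) k1 k2)

/-- AD -/
theorem hAD : StAD := by
  intro F₁ F₂ h f g hf hfc hg hgc
  have cf : Continuous fun p : (S × S) × CX => f (Gx F₁ F₂ p.1 h p.2) * g p.1 :=
    (hf.comp (continuous_Gx_AD F₁ F₂ h)).mul (hg.comp continuous_fst)
  have cg : Continuous fun p : (S × S) × CX => f p.1 * g (Gi_AD F₁ F₂ p.1 h p.2) :=
    (hf.comp continuous_fst).mul (hg.comp (continuous_Gi_AD F₁ F₂ h))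
  have i1 : Integrable (fun p : (S × S) × CX => f (Gx F₁ F₂ p.1 h p.2) * g p.1)
      ((volume : Measure (S × S)).prod mX) :=
    integrable_AD cf g hgc (fun x c h0 => by simp only [h0, mul_zero])
  have i2 : Integrable (fun p : (S × S) × CX => f p.1 * g (Gi_AD F₁ F₂ p.1 h p.2))
      ((volume : Measure (S × S)).prod mX) :=
    integrable_AD cg f hfc (fun x c h0 => by simp only [h0, zero_mul])
  calc ∫ x, (∫ c, f (Gx F₁ F₂ x h c) ∂mX) * g x
      = ∫ x, ∫ c, f (Gx F₁ F₂ x h c) * g x ∂mX := by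
        refine integral_congr_ae (Eventually.of_forall fun x => ?_)
        exact (integral_mul_const (g x) _).symm
    _ = ∫ c, ∫ x, f (Gx F₁ F₂ x h c) * g x ∂volume ∂mX := integral_integral_swap i1
    _ = ∫ c, ∫ x, f x * g (Gi_AD F₁ F₂ x h c) ∂volume ∂mX := by
        refine integral_congr_ae (Eventually.of_forall fun c => ?_)
        have hm := mp_Gx_AD F₁ F₂ h c
        have hc : Continuous fun x : S × S => f x * g (Gi_AD F₁ F₂ x h c) :=
          cg.comp (continuous_id.prodMk continuous_const)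
        have e := integral_map (μ := (volume : Measure (S × S))) hm.measurable.aemeasurable
          (f := fun x : S × S => f x * g (Gi_AD F₁ F₂ x h c)) hc.aestronglyMeasurable
        rw [hm.map_eq] at e
        change ∫ x, f (Gx F₁ F₂ x h c) * g x = ∫ x, f x * g (Gi_AD F₁ F₂ x h c)
        rw [e]
        simp only [Gi_Gx_AD]
    _ = ∫ x, ∫ c, f x * g (Gi_AD F₁ F₂ x h c) ∂mX := (integral_integral_swap i2).symm
    _ = ∫ x, f x * ∫ c, g (Gx F₁ F₂ x h c) ∂mX := by
        refine integral_congr_ae (Eventually.of_forall fun x => ?_)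
        change ∫ c, f x * g (Gi_AD F₁ F₂ x h c) ∂mX = f x * ∫ c, g (Gx F₁ F₂ x h c) ∂mX
        rw [integral_const_mul, symm_AD F₁ F₂ h x g hg]

end Pool.Agent.Helper94.CM
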