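import Pool.Agent.Helper94.CM.St

/-!
# Project CM, module AS: associativity on `Sym^2`
-/

set_option autoImplicit false

namespace Pool.Agent.Helper94.CM

open MeasureTheory TopologicalSpace Set Filter Topology Pool.Agent.Helper95.CAS
open scoped unitInterval

private noncomputable def J_AS (φ : ℝ → ℝ → ℝ) (a r b s : ℝ) : ℝ := ∫ g : I, ∫ g' : I, φ (tt a r g) (tt b s g')

private noncomputable def A_AS (φ : ℝ → ℝ → ℝ) (a r s b r' s' : ℝ) : ℝ :=
  ∫ g : I, ∫ g' : I, J_AS φ (tt a r g) s (tt b r' g') s'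

private noncomputable def B_AS (φ : ℝ → ℝ → ℝ) (a r s b r' s' : ℝ) : ℝ :=
  ∫ g : I, ∫ g' : I, J_AS φ a (tt r s g) b (tt r' s' g')

private theorem swap_AS {F : I → I → ℝ} (hF : Continuous fun p : I × I => F p.1 p.2) :
    ∫ g, ∫ g', F g g' = ∫ g', ∫ g, F g g' := by
  refine integral_integral_swap ?_
  exact integrable_cont ((volume : Measure I).prod (volume : Measure I)) hF

private theorem contJ_AS {φ : ℝ → ℝ → ℝ} (hφ : Continuous fun p : ℝ × ℝ => φ p.1 p.2) :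
    Continuous fun p : ℝ × ℝ × ℝ × ℝ => J_AS φ p.1 p.2.1 p.2.2.1 p.2.2.2 := by
  have ht := continuous_tt
  have h1 : Continuous fun q : ((ℝ × ℝ × ℝ × ℝ) × I) × I =>
      φ (tt q.1.1.1 q.1.1.2.1 q.1.2) (tt q.1.1.2.2.1 q.1.1.2.2.2 q.2) := by
    have e1 : Continuous fun q : ((ℝ × ℝ × ℝ × ℝ) × I) × I => tt q.1.1.1 q.1.1.2.1 q.1.2 :=
      ht.comp (Continuous.prodMk (by fun_prop) (Continuous.prodMk (by fun_prop) (by fun_prop)))
    have e2 : Continuous fun q : ((ℝ × ℝ × ℝ × ℝ) × I) × I => tt q.1.1.2.2.1 q.1.1.2.2.2 q.2 :=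
      ht.comp (Continuous.prodMk (by fun_prop) (Continuous.prodMk (by fun_prop) (by fun_prop)))
    exact hφ.comp (e1.prodMk e2)
  have h2 : Continuous fun q : (ℝ × ℝ × ℝ × ℝ) × I =>
      ∫ g' : I, φ (tt q.1.1 q.1.2.1 q.2) (tt q.1.2.2.1 q.1.2.2.2 g') :=
    continuous_int volume (f := fun (q : (ℝ × ℝ × ℝ × ℝ) × I) (g' : I) =>
      φ (tt q.1.1 q.1.2.1 q.2) (tt q.1.2.2.1 q.1.2.2.2 g')) h1
  exact continuous_int volume (f := fun (p : ℝ × ℝ × ℝ × ℝ) (g : I) =>
      ∫ g' : I, φ (tt p.1 p.2.1 g) (tt p.2.2.1 p.2.2.2 g')) h2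

private theorem J_symm_AS {φ : ℝ → ℝ → ℝ} (hφ : Continuous fun p : ℝ × ℝ => φ p.1 p.2)
    (hs : ∀ a b, φ a b = φ b a) (a r b s : ℝ) : J_AS φ a r b s = J_AS φ b s a r := by
  have ht := continuous_tt
  unfold J_AS
  rw [swap_AS (F := fun g g' => φ (tt a r g) (tt b s g'))]
  · refine integral_congr_ae (Eventually.of_forall fun g' => ?_)
    refine integral_congr_ae (Eventually.of_forall fun g => ?_)
    exact hs _ _
  · have e1 : Continuous fun q : I × I => tt a r q.1 :=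
      ht.comp (Continuous.prodMk (by fun_prop) (Continuous.prodMk (by fun_prop) (by fun_prop)))
    have e2 : Continuous fun q : I × I => tt b s q.2 :=
      ht.comp (Continuous.prodMk (by fun_prop) (Continuous.prodMk (by fun_prop) (by fun_prop)))
    exact hφ.comp (e1.prodMk e2)

private theorem four_AS {φ : ℝ → ℝ → ℝ} (hφ : Continuous fun p : ℝ × ℝ => φ p.1 p.2)
    {u v : I → I → ℝ} (hu : Continuous fun p : I × I => u p.1 p.2)
    (hv : Continuous fun p : I × I => v p.1 p.2) :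
    ∫ g₁ : I, ∫ g₂ : I, ∫ g₁' : I, ∫ g₂' : I, φ (u g₁ g₁') (v g₂ g₂') =
      ∫ g₁ : I, ∫ g₁' : I, ∫ g₂ : I, ∫ g₂' : I, φ (u g₁ g₁') (v g₂ g₂') := by
  refine integral_congr_ae (Eventually.of_forall fun g₁ => ?_)
  refine swap_AS (F := fun g₂ g₁' => ∫ g₂' : I, φ (u g₁ g₁') (v g₂ g₂')) ?_
  refine continuous_int volume (f := fun (p : I × I) (g₂' : I) => φ (u g₁ p.2) (v p.1 g₂')) ?_
  have e1 : Continuous fun q : (I × I) × I => u g₁ q.1.2 :=
    hu.comp (continuous_const.prodMk (continuous_snd.comp continuous_fst))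
  have e2 : Continuous fun q : (I × I) × I => v q.1.1 q.2 :=
    hv.comp ((continuous_fst.comp continuous_fst).prodMk continuous_snd)
  exact hφ.comp (e1.prodMk e2)

private theorem contu_AS (a r s : ℝ) : Continuous fun p : I × I => tt (tt a r p.1) s p.2 := by
  have ht := continuous_tt
  have e1 : Continuous fun q : I × I => tt a r q.1 :=
    ht.comp (Continuous.prodMk (by fun_prop) (Continuous.prodMk (by fun_prop) (by fun_prop)))
  exact ht.comp (e1.prodMk (Continuous.prodMk (by fun_prop) (by fun_prop)))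

private theorem contv_AS (a r s : ℝ) : Continuous fun p : I × I => tt a (tt r s p.1) p.2 := by
  have ht := continuous_tt
  have e1 : Continuous fun q : I × I => tt r s q.1 :=
    ht.comp (Continuous.prodMk (by fun_prop) (Continuous.prodMk (by fun_prop) (by fun_prop)))
  exact ht.comp (Continuous.prodMk (by fun_prop) (e1.prodMk (by fun_prop)))

private theorem AB_AS (hTT : StTT) (F : Fac) {φ : ℝ → ℝ → ℝ} (hφ : Continuous fun p : ℝ × ℝ => φ p.1 p.2)
    {a r s b r' s' : ℝ} (ha : 0 ≤ a) (hr : 0 ≤ r) (hs : 0 ≤ s) (hb : 0 ≤ b) (hr' : 0 ≤ r') (hs' : 0 ≤ s') :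
    A_AS φ a r s b r' s' = B_AS φ a r s b r' s' := by
  have hc : ∀ t : ℝ, Continuous (φ t) := fun t => hφ.comp (Continuous.prodMk_right t)
  have h1 : A_AS φ a r s b r' s' = ∫ g₁ : I, ∫ g₁' : I, ∫ g₂ : I, ∫ g₂' : I,
      φ (tt (tt a r g₁) s g₁') (tt (tt b r' g₂) s' g₂') := by
    unfold A_AS J_AS
    exact four_AS hφ (contu_AS a r s) (contu_AS b r' s')
  have h2 : B_AS φ a r s b r' s' = ∫ g₁ : I, ∫ g₁' : I, ∫ g₂ : I, ∫ g₂' : I,
      φ (tt a (tt r s g₁) g₁') (tt b (tt r' s' g₂) g₂') := by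
    unfold B_AS J_AS
    exact four_AS hφ (contv_AS a r s) (contv_AS b r' s')
  have h3 : ∀ t : ℝ, ∫ g₂ : I, ∫ g₂' : I, φ t (tt (tt b r' g₂) s' g₂') =
      ∫ g₂ : I, ∫ g₂' : I, φ t (tt b (tt r' s' g₂) g₂') := fun t => hTT F b r' s' hb hr' hs' (φ t) (hc t)
  have h4 : Continuous fun t : ℝ => ∫ g₂ : I, ∫ g₂' : I, φ t (tt b (tt r' s' g₂) g₂') := by
    have e1 : Continuous fun q : (ℝ × I) × I => φ q.1.1 (tt b (tt r' s' q.1.2) q.2) := by
      have e2 : Continuous fun q : (ℝ × I) × I => tt b (tt r' s' q.1.2) q.2 :=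
        (contv_AS b r' s').comp (Continuous.prodMk (by fun_prop) (by fun_prop))
      exact hφ.comp (Continuous.prodMk (by fun_prop) e2)
    have e3 : Continuous fun q : ℝ × I => ∫ g₂' : I, φ q.1 (tt b (tt r' s' q.2) g₂') :=
      continuous_int volume (f := fun (q : ℝ × I) (g₂' : I) => φ q.1 (tt b (tt r' s' q.2) g₂')) e1
    exact continuous_int volume (f := fun (t : ℝ) (g₂ : I) => ∫ g₂' : I, φ t (tt b (tt r' s' g₂) g₂')) e3
  rw [h1, h2]
  simp only [h3]
  exact hTT F a r s ha hr hs (fun t => ∫ g₂ : I, ∫ g₂' : I, φ t (tt b (tt r' s' g₂) g₂')) h4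

private theorem contGd_AS {f : DD → ℝ} (hf : Continuous f) :
    Continuous fun p : (DD × DD) × CD => f (Gd p.1.1 p.1.2 p.2) := hf.comp continuous_Gd

private theorem inner_AS {f : DD → ℝ} (hf : Continuous f) (w z : DD) :
    ∫ c', f (Gd w z c') ∂mD =
      (J_AS (fun a b => f (srt a b)) w.1.1 z.1.1 w.1.2 z.1.2 +
        J_AS (fun a b => f (srt a b)) w.1.1 z.1.2 w.1.2 z.1.1) / 2 := by
  have h1 : Continuous fun c' : CD => f (Gd w z c') := (contGd_AS hf).comp (Continuous.prodMk_right (w, z))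
  rw [int_mD h1]
  rfl

private theorem left_AS {f : DD → ℝ} (hf : Continuous f) (z : DD) {a b : ℝ} (ha : 0 ≤ a) (hb : 0 ≤ b) :
    ∫ c', f (Gd (srt a b) z c') ∂mD =
      (J_AS (fun a b => f (srt a b)) a z.1.1 b z.1.2 + J_AS (fun a b => f (srt a b)) a z.1.2 b z.1.1) / 2 := by
  have hφ : Continuous fun p : ℝ × ℝ => f (srt p.1 p.2) := hf.comp continuous_srt
  have hs : ∀ a b : ℝ, f (srt a b) = f (srt b a) := fun a b => by rw [srt_comm]
  rw [inner_AS hf]
  rcases srt_cases ha hb with h | h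
  · rw [h]
  · rw [h, J_symm_AS (φ := fun a b => f (srt a b)) hφ hs b z.1.1 a z.1.2,
      J_symm_AS (φ := fun a b => f (srt a b)) hφ hs b z.1.2 a z.1.1, add_comm]

private theorem right_AS {f : DD → ℝ} (hf : Continuous f) (x : DD) {a b : ℝ} (ha : 0 ≤ a) (hb : 0 ≤ b) :
    ∫ c', f (Gd x (srt a b) c') ∂mD =
      (J_AS (fun a b => f (srt a b)) x.1.1 a x.1.2 b + J_AS (fun a b => f (srt a b)) x.1.1 b x.1.2 a) / 2 := by
  rw [inner_AS hf]
  rcases srt_cases ha hb with h | h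
  · rw [h]
  · rw [h, add_comm]

private theorem split_AS {F G : I → I → ℝ} (hF : Continuous fun p : I × I => F p.1 p.2)
    (hG : Continuous fun p : I × I => G p.1 p.2) :
    ∫ g, ∫ g', (F g g' + G g g') / 2 = ((∫ g, ∫ g', F g g') + ∫ g, ∫ g', G g g') / 2 := by
  have h1 : ∀ g : I, ∫ g' : I, (F g g' + G g g') / 2 = ((∫ g', F g g') + ∫ g', G g g') / 2 := by
    intro g
    have i1 : Integrable fun g' : I => F g g' := integrable_cont _ (hF.comp (Continuous.prodMk_right g))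
    have i2 : Integrable fun g' : I => G g g' := integrable_cont _ (hG.comp (Continuous.prodMk_right g))
    rw [integral_div, integral_add i1 i2]
  simp only [h1]
  have i1 : Integrable fun g : I => ∫ g' : I, F g g' := integrable_cont _ (continuous_int volume hF)
  have i2 : Integrable fun g : I => ∫ g' : I, G g g' := integrable_cont _ (continuous_int volume hG)
  rw [integral_div, integral_add i1 i2]

private theorem contA_AS {φ : ℝ → ℝ → ℝ} (hφ : Continuous fun p : ℝ × ℝ => φ p.1 p.2) (a r s b r' s' : ℝ) :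
    Continuous fun p : I × I => J_AS φ (tt a r p.1) s (tt b r' p.2) s' := by
  have ht := continuous_tt
  have e1 : Continuous fun q : I × I => tt a r q.1 :=
    ht.comp (Continuous.prodMk (by fun_prop) (Continuous.prodMk (by fun_prop) (by fun_prop)))
  have e2 : Continuous fun q : I × I => tt b r' q.2 :=
    ht.comp (Continuous.prodMk (by fun_prop) (Continuous.prodMk (by fun_prop) (by fun_prop)))
  exact (contJ_AS hφ).comp (e1.prodMk (Continuous.prodMk (by fun_prop) (e2.prodMk (by fun_prop))))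

private theorem contB_AS {φ : ℝ → ℝ → ℝ} (hφ : Continuous fun p : ℝ × ℝ => φ p.1 p.2) (a r s b r' s' : ℝ) :
    Continuous fun p : I × I => J_AS φ a (tt r s p.1) b (tt r' s' p.2) := by
  have ht := continuous_tt
  have e1 : Continuous fun q : I × I => tt r s q.1 :=
    ht.comp (Continuous.prodMk (by fun_prop) (Continuous.prodMk (by fun_prop) (by fun_prop)))
  have e2 : Continuous fun q : I × I => tt r' s' q.2 :=
    ht.comp (Continuous.prodMk (by fun_prop) (Continuous.prodMk (by fun_prop) (by fun_prop)))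
  exact (contJ_AS hφ).comp (Continuous.prodMk (by fun_prop) (e1.prodMk (Continuous.prodMk (by fun_prop) e2)))

theorem hAS : StAS := by
  intro hTT F x y z f hf
  have hφ : Continuous fun p : ℝ × ℝ => f (srt p.1 p.2) := hf.comp continuous_srt
  have hx1 : 0 ≤ x.1.1 := x.2.1.trans x.2.2
  have hx2 : 0 ≤ x.1.2 := x.2.1
  have hy1 : 0 ≤ y.1.1 := y.2.1.trans y.2.2
  have hy2 : 0 ≤ y.1.2 := y.2.1
  have hz1 : 0 ≤ z.1.1 := z.2.1.trans z.2.2
  have hz2 : 0 ≤ z.1.2 := z.2.1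
  set φ : ℝ → ℝ → ℝ := fun a b => f (srt a b) with hφd
  -- the left side
  have hL : ∫ c, ∫ c', f (Gd (Gd x y c) z c') ∂mD ∂mD =
      ((A_AS φ x.1.1 y.1.1 z.1.1 x.1.2 y.1.2 z.1.2 + A_AS φ x.1.1 y.1.1 z.1.2 x.1.2 y.1.2 z.1.1) / 2 +
        (A_AS φ x.1.1 y.1.2 z.1.1 x.1.2 y.1.1 z.1.2 + A_AS φ x.1.1 y.1.2 z.1.2 x.1.2 y.1.1 z.1.1) / 2) / 2 := by
    have hc : Continuous fun c : CD => ∫ c', f (Gd (Gd x y c) z c') ∂mD := by
      have e1 : Continuous fun q : CD × CD => f (Gd (Gd x y q.1) z q.2) := by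
        have e2 : Continuous fun q : CD × CD => Gd x y q.1 :=
          continuous_Gd.comp (f := fun q : CD × CD => ((x, y), q.1))
            (Continuous.prodMk continuous_const continuous_fst)
        exact (contGd_AS hf).comp (Continuous.prodMk (e2.prodMk continuous_const) continuous_snd)
      exact continuous_int mD (f := fun (c c' : CD) => f (Gd (Gd x y c) z c')) e1
    rw [int_mD hc]
    have e1 : ∀ g g' : I, ∫ c', f (Gd (Gd x y (g, g', false)) z c') ∂mD =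
        (J_AS φ (tt x.1.1 y.1.1 g) z.1.1 (tt x.1.2 y.1.2 g') z.1.2 +
          J_AS φ (tt x.1.1 y.1.1 g) z.1.2 (tt x.1.2 y.1.2 g') z.1.1) / 2 := fun g g' =>
      left_AS hf z (tt_nonneg _ _ _) (tt_nonneg _ _ _)
    have e2 : ∀ g g' : I, ∫ c', f (Gd (Gd x y (g, g', true)) z c') ∂mD =
        (J_AS φ (tt x.1.1 y.1.2 g) z.1.1 (tt x.1.2 y.1.1 g') z.1.2 +
          J_AS φ (tt x.1.1 y.1.2 g) z.1.2 (tt x.1.2 y.1.1 g') z.1.1) / 2 := fun g g' =>
      left_AS hf z (tt_nonneg _ _ _) (tt_nonneg _ _ _)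
    simp only [e1, e2]
    rw [split_AS (contA_AS hφ _ _ _ _ _ _) (contA_AS hφ _ _ _ _ _ _),
      split_AS (contA_AS hφ _ _ _ _ _ _) (contA_AS hφ _ _ _ _ _ _)]
    rfl
  have hR : ∫ c, ∫ c', f (Gd x (Gd y z c) c') ∂mD ∂mD =
      ((B_AS φ x.1.1 y.1.1 z.1.1 x.1.2 y.1.2 z.1.2 + B_AS φ x.1.1 y.1.2 z.1.2 x.1.2 y.1.1 z.1.1) / 2 +
        (B_AS φ x.1.1 y.1.1 z.1.2 x.1.2 y.1.2 z.1.1 + B_AS φ x.1.1 y.1.2 z.1.1 x.1.2 y.1.1 z.1.2) / 2) / 2 := by
    have hc : Continuous fun c : CD => ∫ c', f (Gd x (Gd y z c) c') ∂mD := by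
      have e1 : Continuous fun q : CD × CD => f (Gd x (Gd y z q.1) q.2) := by
        have e2 : Continuous fun q : CD × CD => Gd y z q.1 :=
          continuous_Gd.comp (f := fun q : CD × CD => ((y, z), q.1))
            (Continuous.prodMk continuous_const continuous_fst)
        exact (contGd_AS hf).comp (Continuous.prodMk (Continuous.prodMk continuous_const e2) continuous_snd)
      exact continuous_int mD (f := fun (c c' : CD) => f (Gd x (Gd y z c) c')) e1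
    rw [int_mD hc]
    have e1 : ∀ g g' : I, ∫ c', f (Gd x (Gd y z (g, g', false)) c') ∂mD =
        (J_AS φ x.1.1 (tt y.1.1 z.1.1 g) x.1.2 (tt y.1.2 z.1.2 g') +
          J_AS φ x.1.1 (tt y.1.2 z.1.2 g') x.1.2 (tt y.1.1 z.1.1 g)) / 2 := fun g g' =>
      right_AS hf x (tt_nonneg _ _ _) (tt_nonneg _ _ _)
    have e2 : ∀ g g' : I, ∫ c', f (Gd x (Gd y z (g, g', true)) c') ∂mD =
        (J_AS φ x.1.1 (tt y.1.1 z.1.2 g) x.1.2 (tt y.1.2 z.1.1 g') +
          J_AS φ x.1.1 (tt y.1.2 z.1.1 g') x.1.2 (tt y.1.1 z.1.2 g)) / 2 := fun g g' =>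
      right_AS hf x (tt_nonneg _ _ _) (tt_nonneg _ _ _)
    have hsw : ∀ r s r' s' : ℝ, Continuous fun p : I × I =>
        J_AS φ x.1.1 (tt r' s' p.2) x.1.2 (tt r s p.1) := fun r s r' s' =>
      (contB_AS hφ x.1.1 r' s' x.1.2 r s).comp continuous_swap
    simp only [e1, e2]
    rw [split_AS (contB_AS hφ _ _ _ _ _ _) (hsw _ _ _ _),
      split_AS (contB_AS hφ _ _ _ _ _ _) (hsw _ _ _ _),
      swap_AS (F := fun g g' => J_AS φ x.1.1 (tt y.1.2 z.1.2 g') x.1.2 (tt y.1.1 z.1.1 g)) (hsw _ _ _ _),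
      swap_AS (F := fun g g' => J_AS φ x.1.1 (tt y.1.2 z.1.1 g') x.1.2 (tt y.1.1 z.1.2 g)) (hsw _ _ _ _)]
    rfl
  rw [hL, hR, AB_AS hTT F hφ hx1 hy1 hz1 hx2 hy2 hz2, AB_AS hTT F hφ hx1 hy1 hz2 hx2 hy2 hz1,
    AB_AS hTT F hφ hx1 hy2 hz1 hx2 hy1 hz2, AB_AS hTT F hφ hx1 hy2 hz2 hx2 hy1 hz1]
  ring

end Pool.Agent.Helper94.CM
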