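import Pool.Agent.Helper94.CM.St

/-!
# Project CM (MP_466bd8), module BB: the sphere as an orbit
-/

set_option autoImplicit false

namespace Pool.Agent.Helper94.CM

open MeasureTheory TopologicalSpace Set Filter Topology Matrix
open scoped unitInterval

/-- the unitary matrix `diag(1, w)` -/
private noncomputable def dg_BB (w : ℂ) (hw : ‖w‖ = 1) : K :=
  ⟨!![1, 0; 0, w], by
    have h1 : star w * w = 1 := by
      rw [Complex.star_def, Complex.conj_mul', hw]
      norm_num
    have h2 : w * star w = 1 := by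
      rw [mul_comm]
      exact h1
    rw [Unitary.mem_iff]
    constructor
    · ext i j
      fin_cases i <;> fin_cases j <;>
        simp [Matrix.mul_apply, Fin.sum_univ_two, Matrix.star_eq_conjTranspose,
          Matrix.conjTranspose_apply] at h1 h2 ⊢
      exact h1
    · ext i j
      fin_cases i <;> fin_cases j <;>
        simp [Matrix.mul_apply, Fin.sum_univ_two, Matrix.star_eq_conjTranspose,
          Matrix.conjTranspose_apply] at h1 h2 ⊢
      exact h2⟩

private theorem nn_dg_BB (w : ℂ) (hw : ‖w‖ = 1) (k : K) :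
    nn (dg_BB w hw * k) = ((nn k).1, w * (nn k).2) := by
  have e00 : (dg_BB w hw * k).1 0 0 = k.1 0 0 := by
    show ((!![1, 0; 0, w] : Matrix (Fin 2) (Fin 2) ℂ) * k.1) 0 0 = _
    simp [Matrix.mul_apply, Fin.sum_univ_two]
  have e01 : (dg_BB w hw * k).1 0 1 = k.1 0 1 := by
    show ((!![1, 0; 0, w] : Matrix (Fin 2) (Fin 2) ℂ) * k.1) 0 1 = _
    simp [Matrix.mul_apply, Fin.sum_univ_two]
  have e10 : (dg_BB w hw * k).1 1 0 = w * k.1 1 0 := by
    show ((!![1, 0; 0, w] : Matrix (Fin 2) (Fin 2) ℂ) * k.1) 1 0 = _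
    simp [Matrix.mul_apply, Fin.sum_univ_two]
  have e11 : (dg_BB w hw * k).1 1 1 = w * k.1 1 1 := by
    show ((!![1, 0; 0, w] : Matrix (Fin 2) (Fin 2) ℂ) * k.1) 1 1 = _
    simp [Matrix.mul_apply, Fin.sum_univ_two]
  unfold nn
  rw [e00, e01, e10, e11]
  ext
  · rfl
  · simp only
    ring

theorem hBB : StBB := by
  intro hTR hUU hRO μ hμ hK F hF
  obtain ⟨hprob, hleft, hright⟩ := hμ
  obtain ⟨-, hT2, -, -, -, hcont⟩ := id hTR
  have hnn1 : Continuous fun k : K => (nn k).1 := continuous_fst.comp hcont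
  have hnn2 : Continuous fun k : K => (nn k).2 := continuous_snd.comp hcont
  have hci := continuous_ci
  -- the function `G`
  obtain ⟨G, hG⟩ : ∃ G : ℝ → ℝ, ∀ x, G x = ∫ v : I, F (x, (Real.sqrt (1 - x ^ 2) : ℂ) * ci v) :=
    ⟨_, fun _ => rfl⟩
  have hGcont : Continuous G := by
    have h1 : Continuous fun p : ℝ × I => F (p.1, (Real.sqrt (1 - p.1 ^ 2) : ℂ) * ci p.2) := by
      refine hF.comp (continuous_fst.prodMk ?_)
      refine Continuous.mul ?_ (hci.comp continuous_snd)
      refine Complex.continuous_ofReal.comp ?_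
      exact Real.continuous_sqrt.comp (by fun_prop)
    have h2 := continuous_int (volume : Measure I)
      (f := fun (x : ℝ) (v : I) => F (x, (Real.sqrt (1 - x ^ 2) : ℂ) * ci v)) h1
    have h3 : G = fun x => ∫ v : I, F (x, (Real.sqrt (1 - x ^ 2) : ℂ) * ci v) := funext hG
    rw [h3]
    exact h2
  -- step 1
  have s1 : ∀ v : I, ∫ k, F ((nn k).1, ci v * (nn k).2) ∂μ = ∫ k, F (nn k) ∂μ := by
    intro v
    have h := hleft (dg_BB (ci v) (norm_ci v)) (fun k => F (nn k)) (hF.comp hcont)
    rw [← h]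
    refine integral_congr_ae (Eventually.of_forall fun k => ?_)
    simp only
    rw [nn_dg_BB]
  -- step 2: Fubini
  have s2 : ∫ k, F (nn k) ∂μ = ∫ k, (∫ v : I, F ((nn k).1, ci v * (nn k).2)) ∂μ := by
    have h1 : (∫ v : I, (∫ k, F ((nn k).1, ci v * (nn k).2) ∂μ)) = ∫ k, F (nn k) ∂μ := by
      rw [integral_congr_ae (Eventually.of_forall fun v => s1 v)]
      simp
    rw [← h1]
    refine integral_integral_swap (f := fun (v : I) (k : K) => F ((nn k).1, ci v * (nn k).2)) ?_
    refine integrable_cont ((volume : Measure I).prod μ) ?_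
    show Continuous fun p : I × K => F ((nn p.2).1, ci p.1 * (nn p.2).2)
    exact hF.comp ((hnn1.comp continuous_snd).prodMk
      ((hci.comp continuous_fst).mul (hnn2.comp continuous_snd)))
  -- step 3: the inner integral
  have s3 : ∀ k : K, ∫ v : I, F ((nn k).1, ci v * (nn k).2) = G (nn k).1 := by
    intro k
    have hsq := hT2 k
    have hn : ‖(nn k).2‖ = Real.sqrt (1 - (nn k).1 ^ 2) := by
      rw [eq_comm, Real.sqrt_eq_iff_eq_sq]
      · linarith
      · nlinarith [sq_nonneg ‖(nn k).2‖]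
      · exact norm_nonneg _
    obtain ⟨w, hw, hw'⟩ : ∃ w : ℂ, ‖w‖ = 1 ∧ (nn k).2 = (‖(nn k).2‖ : ℂ) * w := by
      by_cases h0 : (nn k).2 = 0
      · exact ⟨1, by simp, by rw [h0]; simp⟩
      · refine ⟨(nn k).2 / (‖(nn k).2‖ : ℂ), ?_, ?_⟩
        · rw [norm_div, Complex.norm_real, norm_norm, div_self (norm_ne_zero_iff.2 h0)]
        · rw [mul_div_cancel₀]
          exact_mod_cast norm_ne_zero_iff.2 h0
    have h1 := hRO w hw (fun z => F ((nn k).1, (‖(nn k).2‖ : ℂ) * z)) (by fun_prop)
    rw [hG, ← hn, ← h1]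
    refine integral_congr_ae (Eventually.of_forall fun v => ?_)
    simp only
    congr 2
    nth_rewrite 1 [hw']
    ring
  rw [s2, integral_congr_ae (Eventually.of_forall fun k => s3 k), hUU hTR μ ⟨hprob, hleft, hright⟩ hK G hGcont]
  rw [Measure.volume_eq_prod, integral_prod (fun p : C0 => F (sph p))
    (integrable_cont _ (hF.comp continuous_sph))]
  refine integral_congr_ae (Eventually.of_forall fun g => ?_)
  simp only
  rw [hG]
  rfl

end Pool.Agent.Helper94.CM
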