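import Pool.Agent.Helper94.CM.St

/-!
# Project CM, module CP: composition of kernels
-/

set_option autoImplicit false

namespace Pool.Agent.Helper94.CM

open MeasureTheory TopologicalSpace Set Filter Topology Pool.Agent.Helper95.CAS
open scoped unitInterval

/-- The mean over two spheres. -/
private noncomputable def J_CP (F₁ F₂ : Fac) (f : S × S → ℝ) (x : S × S) (a b : ℝ) : ℝ :=
  ∫ p : C0, ∫ q : C0, f (F₁.mul x.1 (F₁.P a p), F₂.mul x.2 (F₂.P b q))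

/-- Fubini for continuous functions on compact spaces. -/
private theorem swap_CP {C C' : Type} [TopologicalSpace C] [CompactSpace C] [SecondCountableTopology C]
    [MeasurableSpace C] [BorelSpace C] [TopologicalSpace C'] [CompactSpace C'] [SecondCountableTopology C']
    [MeasurableSpace C'] [BorelSpace C'] (m : Measure C) [IsFiniteMeasure m] (m' : Measure C') [IsFiniteMeasure m']
    (f : C → C' → ℝ) (hf : Continuous fun p : C × C' => f p.1 p.2) :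
    ∫ x, ∫ y, f x y ∂m' ∂m = ∫ y, ∫ x, f x y ∂m ∂m' := by
  refine integral_integral_swap ?_
  exact integrable_cont _ hf

private theorem cJ_CP (F₁ F₂ : Fac) (f : S × S → ℝ) (hf : Continuous f) :
    Continuous fun z : (S × S) × ℝ × ℝ => J_CP F₁ F₂ f z.1 z.2.1 z.2.2 := by
  unfold J_CP
  refine continuous_int (Y := (S × S) × ℝ × ℝ) _ (f := fun z p => ∫ q : C0, f (F₁.mul z.1.1 (F₁.P z.2.1 p), F₂.mul z.1.2 (F₂.P z.2.2 q))) ?_
  refine continuous_int (Y := ((S × S) × ℝ × ℝ) × C0) _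
    (f := fun z q => f (F₁.mul z.1.1.1 (F₁.P z.1.2.1 z.2), F₂.mul z.1.1.2 (F₂.P z.1.2.2 q))) ?_
  refine hf.comp (Continuous.prodMk ?_ ?_)
  · exact F₁.cont_mul.comp (Continuous.prodMk (by fun_prop) (F₁.cont_P.comp (Continuous.prodMk (by fun_prop) (by fun_prop))))
  · exact F₂.cont_mul.comp (Continuous.prodMk (by fun_prop) (F₂.cont_P.comp (Continuous.prodMk (by fun_prop) (by fun_prop))))

private theorem cGx_CP (F₁ F₂ : Fac) (x : S × S) (h : DD) : Continuous fun c : CX => Gx F₁ F₂ x h c := by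
  have h1 : Continuous fun c : CX => (((x, h), c) : ((S × S) × DD) × CX) := Continuous.prodMk_right _
  exact (continuous_Gx F₁ F₂).comp h1

private theorem cGd_CP (h₁ h₂ : DD) : Continuous fun c : CD => Gd h₁ h₂ c := by
  have h1 : Continuous fun c : CD => (((h₁, h₂), c) : (DD × DD) × CD) := Continuous.prodMk_right _
  exact continuous_Gd.comp h1

private theorem cJJ_CP (F₁ F₂ : Fac) (f : S × S → ℝ) (hf : Continuous f) {Y : Type} [TopologicalSpace Y]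
    (u : Y → S × S) (a b : Y → ℝ) (hu : Continuous u) (ha : Continuous a) (hb : Continuous b) :
    Continuous fun y => J_CP F₁ F₂ f (u y) (a y) (b y) := by
  have h1 : Continuous fun y => ((u y, a y, b y) : (S × S) × ℝ × ℝ) := hu.prodMk (ha.prodMk hb)
  exact (cJ_CP F₁ F₂ f hf).comp h1

private theorem ctt_CP {Y : Type} [TopologicalSpace Y] (r s : ℝ) (g : Y → I) (hg : Continuous g) :
    Continuous fun y => tt r s (g y) := by
  have h1 : Continuous fun y => ((r, s, g y) : ℝ × ℝ × I) := continuous_const.prodMk (continuous_const.prodMk hg)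
  exact continuous_tt.comp h1

private theorem inner_CP (F₁ F₂ : Fac) (f : S × S → ℝ) (hf : Continuous f) (x : S × S) (h : DD) :
    ∫ c, f (Gx F₁ F₂ x h c) ∂mX = (J_CP F₁ F₂ f x h.1.1 h.1.2 + J_CP F₁ F₂ f x h.1.2 h.1.1) / 2 := by
  have hc : Continuous fun c : CX => f (Gx F₁ F₂ x h c) :=
    hf.comp (cGx_CP F₁ F₂ x h)
  rw [int_mX hc]
  rfl

private theorem comp_CP (F₁ F₂ : Fac) (f : S × S → ℝ) (hf : Continuous f) (x : S × S) (a b c d : ℝ)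
    (ha : 0 ≤ a) (hb : 0 ≤ b) (hc : 0 ≤ c) (hd : 0 ≤ d) :
    ∫ p : C0, ∫ q : C0, J_CP F₁ F₂ f (F₁.mul x.1 (F₁.P a p), F₂.mul x.2 (F₂.P b q)) c d =
      ∫ g : I, ∫ g' : I, J_CP F₁ F₂ f x (tt a c g) (tt b d g') := by
  have hm₁ : Continuous fun p : S × S => F₁.mul p.1 p.2 := F₁.cont_mul
  have hm₂ : Continuous fun p : S × S => F₂.mul p.1 p.2 := F₂.cont_mul
  have hP₁ : Continuous fun q : ℝ × C0 => F₁.P q.1 q.2 := F₁.cont_P
  have hP₂ : Continuous fun q : ℝ × C0 => F₂.P q.1 q.2 := F₂.cont_P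
  have cP₁ : ∀ {Y : Type} [TopologicalSpace Y] (r : Y → ℝ) (p : Y → C0), Continuous r → Continuous p →
      Continuous fun y => F₁.P (r y) (p y) := fun r p h1 h2 => hP₁.comp (h1.prodMk h2)
  have cP₂ : ∀ {Y : Type} [TopologicalSpace Y] (r : Y → ℝ) (p : Y → C0), Continuous r → Continuous p →
      Continuous fun y => F₂.P (r y) (p y) := fun r p h1 h2 => hP₂.comp (h1.prodMk h2)
  have cm₁ : ∀ {Y : Type} [TopologicalSpace Y] (u v : Y → S), Continuous u → Continuous v →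
      Continuous fun y => F₁.mul (u y) (v y) := fun u v h1 h2 => hm₁.comp (h1.prodMk h2)
  have cm₂ : ∀ {Y : Type} [TopologicalSpace Y] (u v : Y → S), Continuous u → Continuous v →
      Continuous fun y => F₂.mul (u y) (v y) := fun u v h1 h2 => hm₂.comp (h1.prodMk h2)
  have ctt : ∀ {Y : Type} [TopologicalSpace Y] (r s : ℝ) (g : Y → I), Continuous g →
      Continuous fun y => tt r s (g y) := fun r s g h1 =>
    continuous_tt.comp (continuous_const.prodMk (continuous_const.prodMk h1))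
  -- the function of the first component
  have hΦ : Continuous fun u : S => ∫ q : C0, ∫ q₂ : C0, f (u, F₂.mul x.2 (F₂.mul (F₂.P b q) (F₂.P d q₂))) := by
    refine continuous_int (Y := S) _ (f := fun u q => ∫ q₂ : C0, f (u, F₂.mul x.2 (F₂.mul (F₂.P b q) (F₂.P d q₂)))) ?_
    refine continuous_int (Y := S × C0) _
      (f := fun u q₂ => f (u.1, F₂.mul x.2 (F₂.mul (F₂.P b u.2) (F₂.P d q₂)))) ?_
    exact hf.comp (Continuous.prodMk (by fun_prop) (cm₂ _ _ continuous_const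
      (cm₂ _ _ (cP₂ _ _ continuous_const (by fun_prop)) (cP₂ _ _ continuous_const (by fun_prop)))))
  have h1 : ∀ p : C0, ∫ q : C0, J_CP F₁ F₂ f (F₁.mul x.1 (F₁.P a p), F₂.mul x.2 (F₂.P b q)) c d =
      ∫ p₂ : C0, ∫ q : C0, ∫ q₂ : C0, f (F₁.mul x.1 (F₁.mul (F₁.P a p) (F₁.P c p₂)), F₂.mul x.2 (F₂.mul (F₂.P b q) (F₂.P d q₂))) := by
    intro p
    unfold J_CP
    have h2 := swap_CP (volume : Measure C0) (volume : Measure C0)
      (fun q p₂ => ∫ q₂ : C0, f (F₁.mul (F₁.mul x.1 (F₁.P a p)) (F₁.P c p₂), F₂.mul (F₂.mul x.2 (F₂.P b q)) (F₂.P d q₂))) (by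
        refine continuous_int (Y := C0 × C0) _
          (f := fun z q₂ => f (F₁.mul (F₁.mul x.1 (F₁.P a p)) (F₁.P c z.2), F₂.mul (F₂.mul x.2 (F₂.P b z.1)) (F₂.P d q₂))) ?_
        exact hf.comp (Continuous.prodMk
          (cm₁ _ _ continuous_const (cP₁ _ _ continuous_const (by fun_prop)))
          (cm₂ _ _ (cm₂ _ _ continuous_const (cP₂ _ _ continuous_const (by fun_prop)))
            (cP₂ _ _ continuous_const (by fun_prop)))))
    rw [h2]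
    simp only [F₁.mul_assoc, F₂.mul_assoc]
  have h3 : ∀ u : S, ∫ q : C0, ∫ q₂ : C0, f (u, F₂.mul x.2 (F₂.mul (F₂.P b q) (F₂.P d q₂))) =
      ∫ g' : I, ∫ q : C0, f (u, F₂.mul x.2 (F₂.P (tt b d g') q)) := by
    intro u
    exact F₂.comp b d hb hd (fun y => f (u, F₂.mul x.2 y))
      (hf.comp (continuous_const.prodMk (cm₂ _ _ continuous_const continuous_id)))
  have h4 := F₁.comp a c ha hc (fun y => ∫ q : C0, ∫ q₂ : C0, f (F₁.mul x.1 y, F₂.mul x.2 (F₂.mul (F₂.P b q) (F₂.P d q₂))))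
    (hΦ.comp (cm₁ _ _ continuous_const continuous_id))
  simp only [h1]
  rw [h4]
  refine integral_congr_ae (Eventually.of_forall fun g => ?_)
  change ∫ p : C0, ∫ q : C0, ∫ q₂ : C0, f (F₁.mul x.1 (F₁.P (tt a c g) p), F₂.mul x.2 (F₂.mul (F₂.P b q) (F₂.P d q₂))) = ∫ g' : I, J_CP F₁ F₂ f x (tt a c g) (tt b d g')
  simp only [h3]
  unfold J_CP
  refine swap_CP (volume : Measure C0) (volume : Measure I)
      (fun p g' => ∫ q : C0, f (F₁.mul x.1 (F₁.P (tt a c g) p), F₂.mul x.2 (F₂.P (tt b d g') q))) ?_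
  refine continuous_int (Y := C0 × I) _
    (f := fun z q => f (F₁.mul x.1 (F₁.P (tt a c g) z.1), F₂.mul x.2 (F₂.P (tt b d z.2) q))) ?_
  exact hf.comp (Continuous.prodMk
    (cm₁ _ _ continuous_const (cP₁ _ _ continuous_const (by fun_prop)))
    (cm₂ _ _ continuous_const (cP₂ _ _ (ctt _ _ _ (by fun_prop)) (by fun_prop))))

/-- The average over the parameters of the triangles. -/
private noncomputable def L_CP (F₁ F₂ : Fac) (f : S × S → ℝ) (x : S × S) (a b c d : ℝ) : ℝ :=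
  ∫ g : I, ∫ g' : I, J_CP F₁ F₂ f x (tt a c g) (tt b d g')

private theorem cL_CP (F₁ F₂ : Fac) (f : S × S → ℝ) (hf : Continuous f) (x : S × S) (a b c d : ℝ) :
    Continuous fun z : I × I => J_CP F₁ F₂ f x (tt a c z.1) (tt b d z.2) :=
  cJJ_CP F₁ F₂ f hf _ _ _ continuous_const (ctt_CP _ _ _ continuous_fst) (ctt_CP _ _ _ continuous_snd)

private theorem cJx_CP (F₁ F₂ : Fac) (f : S × S → ℝ) (hf : Continuous f) (x : S × S) (a b c d : ℝ) :
    Continuous fun z : C0 × C0 => J_CP F₁ F₂ f (F₁.mul x.1 (F₁.P a z.1), F₂.mul x.2 (F₂.P b z.2)) c d := by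
  refine cJJ_CP F₁ F₂ f hf _ _ _ (Continuous.prodMk ?_ ?_) continuous_const continuous_const
  · exact F₁.cont_mul.comp (continuous_const.prodMk (F₁.cont_P.comp (continuous_const.prodMk continuous_fst)))
  · exact F₂.cont_mul.comp (continuous_const.prodMk (F₂.cont_P.comp (continuous_const.prodMk continuous_snd)))

/-- Integral of the mean of two functions. -/
private theorem mean_CP {C C' : Type} [TopologicalSpace C] [CompactSpace C] [SecondCountableTopology C]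
    [LocallyCompactSpace C]
    [MeasurableSpace C] [BorelSpace C] [TopologicalSpace C'] [CompactSpace C'] [SecondCountableTopology C']
    [MeasurableSpace C'] [BorelSpace C'] (m : Measure C) [IsFiniteMeasure m] (m' : Measure C') [IsFiniteMeasure m']
    (f f' : C → C' → ℝ) (hf : Continuous fun p : C × C' => f p.1 p.2) (hf' : Continuous fun p : C × C' => f' p.1 p.2) :
    ∫ x, ∫ y, (f x y + f' x y) / 2 ∂m' ∂m = ((∫ x, ∫ y, f x y ∂m' ∂m) + ∫ x, ∫ y, f' x y ∂m' ∂m) / 2 := by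
  have h1 : ∀ x, ∫ y, (f x y + f' x y) / 2 ∂m' = ((∫ y, f x y ∂m') + ∫ y, f' x y ∂m') / 2 := by
    intro x
    rw [integral_div, integral_add]
    · exact integrable_cont _ (hf.comp (Continuous.prodMk_right x))
    · exact integrable_cont _ (hf'.comp (Continuous.prodMk_right x))
  simp only [h1]
  rw [integral_div, integral_add]
  · exact integrable_cont _ (continuous_int _ (f := f) hf)
  · exact integrable_cont _ (continuous_int _ (f := f') hf')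

private theorem left_CP (F₁ F₂ : Fac) (f : S × S → ℝ) (hf : Continuous f) (x : S × S) (h₁ h₂ : DD) :
    ∫ c, ∫ c', f (Gx F₁ F₂ (Gx F₁ F₂ x h₁ c) h₂ c') ∂mX ∂mX =
      ((L_CP F₁ F₂ f x h₁.1.1 h₁.1.2 h₂.1.1 h₂.1.2 + L_CP F₁ F₂ f x h₁.1.1 h₁.1.2 h₂.1.2 h₂.1.1) / 2 +
        (L_CP F₁ F₂ f x h₁.1.2 h₁.1.1 h₂.1.1 h₂.1.2 + L_CP F₁ F₂ f x h₁.1.2 h₁.1.1 h₂.1.2 h₂.1.1) / 2) / 2 := by
  have ha := h₁.2.1.trans h₁.2.2
  have hb := h₁.2.1
  have hc := h₂.2.1.trans h₂.2.2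
  have hd := h₂.2.1
  simp only [inner_CP F₁ F₂ f hf]
  have hG : Continuous fun c : CX => Gx F₁ F₂ x h₁ c := cGx_CP F₁ F₂ x h₁
  have hJ := cJ_CP F₁ F₂ f hf
  rw [int_mX (f := fun c => (J_CP F₁ F₂ f (Gx F₁ F₂ x h₁ c) h₂.1.1 h₂.1.2 + J_CP F₁ F₂ f (Gx F₁ F₂ x h₁ c) h₂.1.2 h₂.1.1) / 2)
    (((cJJ_CP F₁ F₂ f hf _ _ _ hG continuous_const continuous_const).add
      (cJJ_CP F₁ F₂ f hf _ _ _ hG continuous_const continuous_const)).div_const 2)]
  have e1 := mean_CP (volume : Measure C0) (volume : Measure C0)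
    (fun p q => J_CP F₁ F₂ f (Gx F₁ F₂ x h₁ (p, q, false)) h₂.1.1 h₂.1.2)
    (fun p q => J_CP F₁ F₂ f (Gx F₁ F₂ x h₁ (p, q, false)) h₂.1.2 h₂.1.1)
    (cJx_CP F₁ F₂ f hf x h₁.1.1 h₁.1.2 h₂.1.1 h₂.1.2) (cJx_CP F₁ F₂ f hf x h₁.1.1 h₁.1.2 h₂.1.2 h₂.1.1)
  have e2 := mean_CP (volume : Measure C0) (volume : Measure C0)
    (fun p q => J_CP F₁ F₂ f (Gx F₁ F₂ x h₁ (p, q, true)) h₂.1.1 h₂.1.2)
    (fun p q => J_CP F₁ F₂ f (Gx F₁ F₂ x h₁ (p, q, true)) h₂.1.2 h₂.1.1)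
    (cJx_CP F₁ F₂ f hf x h₁.1.2 h₁.1.1 h₂.1.1 h₂.1.2) (cJx_CP F₁ F₂ f hf x h₁.1.2 h₁.1.1 h₂.1.2 h₂.1.1)
  rw [e1, e2]
  have k1 := comp_CP F₁ F₂ f hf x h₁.1.1 h₁.1.2 h₂.1.1 h₂.1.2 ha hb hc hd
  have k2 := comp_CP F₁ F₂ f hf x h₁.1.1 h₁.1.2 h₂.1.2 h₂.1.1 ha hb hd hc
  have k3 := comp_CP F₁ F₂ f hf x h₁.1.2 h₁.1.1 h₂.1.1 h₂.1.2 hb ha hc hd
  have k4 := comp_CP F₁ F₂ f hf x h₁.1.2 h₁.1.1 h₂.1.2 h₂.1.1 hb ha hd hc
  unfold L_CP
  rw [← k1, ← k2, ← k3, ← k4]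
  rfl

private theorem sym_CP (F₁ F₂ : Fac) (f : S × S → ℝ) (hf : Continuous f) (x : S × S) {u v : ℝ} (hu : 0 ≤ u) (hv : 0 ≤ v) :
    ∫ c, f (Gx F₁ F₂ x (srt u v) c) ∂mX = (J_CP F₁ F₂ f x u v + J_CP F₁ F₂ f x v u) / 2 := by
  rw [inner_CP F₁ F₂ f hf]
  rcases srt_cases hu hv with h | h <;> rw [h]
  ring

private theorem right_CP (F₁ F₂ : Fac) (f : S × S → ℝ) (hf : Continuous f) (x : S × S) (h₁ h₂ : DD) :
    ∫ c, ∫ c', f (Gx F₁ F₂ x (Gd h₁ h₂ c) c') ∂mX ∂mD =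
      ((L_CP F₁ F₂ f x h₁.1.1 h₁.1.2 h₂.1.1 h₂.1.2 + L_CP F₁ F₂ f x h₁.1.2 h₁.1.1 h₂.1.2 h₂.1.1) / 2 +
        (L_CP F₁ F₂ f x h₁.1.1 h₁.1.2 h₂.1.2 h₂.1.1 + L_CP F₁ F₂ f x h₁.1.2 h₁.1.1 h₂.1.1 h₂.1.2) / 2) / 2 := by
  have hJ := cJ_CP F₁ F₂ f hf
  have hG : Continuous fun c : CD => Gd h₁ h₂ c := cGd_CP h₁ h₂
  have hcont : Continuous fun c : CD => ∫ c', f (Gx F₁ F₂ x (Gd h₁ h₂ c) c') ∂mX := by
    simp only [inner_CP F₁ F₂ f hf]
    have g1 : Continuous fun c : CD => (Gd h₁ h₂ c).1.1 := continuous_fst.comp (continuous_subtype_val.comp hG)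
    have g2 : Continuous fun c : CD => (Gd h₁ h₂ c).1.2 := continuous_snd.comp (continuous_subtype_val.comp hG)
    exact ((cJJ_CP F₁ F₂ f hf _ _ _ continuous_const g1 g2).add (cJJ_CP F₁ F₂ f hf _ _ _ continuous_const g2 g1)).div_const 2
  rw [int_mD hcont]
  have s1 : ∀ g g' : I, ∫ c', f (Gx F₁ F₂ x (Gd h₁ h₂ (g, g', false)) c') ∂mX =
      (J_CP F₁ F₂ f x (tt h₁.1.1 h₂.1.1 g) (tt h₁.1.2 h₂.1.2 g') + J_CP F₁ F₂ f x (tt h₁.1.2 h₂.1.2 g') (tt h₁.1.1 h₂.1.1 g)) / 2 :=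
    fun g g' => sym_CP F₁ F₂ f hf x (tt_nonneg _ _ _) (tt_nonneg _ _ _)
  have s2 : ∀ g g' : I, ∫ c', f (Gx F₁ F₂ x (Gd h₁ h₂ (g, g', true)) c') ∂mX =
      (J_CP F₁ F₂ f x (tt h₁.1.1 h₂.1.2 g) (tt h₁.1.2 h₂.1.1 g') + J_CP F₁ F₂ f x (tt h₁.1.2 h₂.1.1 g') (tt h₁.1.1 h₂.1.2 g)) / 2 :=
    fun g g' => sym_CP F₁ F₂ f hf x (tt_nonneg _ _ _) (tt_nonneg _ _ _)
  simp only [s1, s2]
  have cs : ∀ a b c d : ℝ, Continuous fun z : I × I => J_CP F₁ F₂ f x (tt b d z.2) (tt a c z.1) := fun a b c d =>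
    (cL_CP F₁ F₂ f hf x b a d c).comp continuous_swap
  rw [mean_CP (volume : Measure I) (volume : Measure I)
    (fun g g' => J_CP F₁ F₂ f x (tt h₁.1.1 h₂.1.1 g) (tt h₁.1.2 h₂.1.2 g'))
    (fun g g' => J_CP F₁ F₂ f x (tt h₁.1.2 h₂.1.2 g') (tt h₁.1.1 h₂.1.1 g))
    (cL_CP F₁ F₂ f hf x _ _ _ _) (cs _ _ _ _),
    mean_CP (volume : Measure I) (volume : Measure I)
    (fun g g' => J_CP F₁ F₂ f x (tt h₁.1.1 h₂.1.2 g) (tt h₁.1.2 h₂.1.1 g'))
    (fun g g' => J_CP F₁ F₂ f x (tt h₁.1.2 h₂.1.1 g') (tt h₁.1.1 h₂.1.2 g))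
    (cL_CP F₁ F₂ f hf x _ _ _ _) (cs _ _ _ _)]
  rw [swap_CP (volume : Measure I) (volume : Measure I)
    (fun g g' => J_CP F₁ F₂ f x (tt h₁.1.2 h₂.1.2 g') (tt h₁.1.1 h₂.1.1 g)) (cs _ _ _ _),
    swap_CP (volume : Measure I) (volume : Measure I)
    (fun g g' => J_CP F₁ F₂ f x (tt h₁.1.2 h₂.1.1 g') (tt h₁.1.1 h₂.1.2 g)) (cs _ _ _ _)]
  rfl

theorem hCP : StCP := by
  intro F₁ F₂ x h₁ h₂ f hf
  rw [left_CP F₁ F₂ f hf, right_CP F₁ F₂ f hf]
  ring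

end Pool.Agent.Helper94.CM

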