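import Pool.Agent.Helper94.CM.St

/-!
# Project CM, module FN: the final contradiction by volume growth
-/

set_option autoImplicit false

namespace Pool.Agent.Helper94.CM

open MeasureTheory TopologicalSpace Set Filter Topology Matrix Pool.Agent.Helper95.CAS
open scoped unitInterval

/-- The cut-off function. -/
private noncomputable def ph (R t : ℝ) : ℝ := max 0 (min 1 (R + 1 - t))

private theorem ph_nonneg (R t : ℝ) : 0 ≤ ph R t := le_max_left _ _

private theorem ph_le_one (R t : ℝ) : ph R t ≤ 1 := max_le zero_le_one (min_le_left _ _)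

private theorem ph_one {R t : ℝ} (h : t ≤ R) : ph R t = 1 := by
  unfold ph
  rw [min_eq_left (by linarith), max_eq_right zero_le_one]

private theorem ph_zero {R t : ℝ} (h : R + 1 < t) : ph R t = 0 := by
  unfold ph
  exact max_eq_left ((min_le_right _ _).trans (by linarith))

private theorem continuous_ph (R : ℝ) : Continuous (ph R) := by
  unfold ph
  fun_prop

private theorem inv_zero_FN (F : Fac) : F.inv 0 = 0 := by
  rw [← F.mul_zero (F.inv 0)]
  exact F.inv_mul 0

/-- The integrand of the two point function. -/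
private noncomputable def gg (F : Fac) (R : ℝ) (w y : S) : ℝ :=
  ph R (F.len y) * ph R (F.len (F.mul (F.inv y) w))

private theorem gg_cont2 (F : Fac) (R : ℝ) : Continuous fun p : S × S => gg F R p.1 p.2 := by
  unfold gg
  have h1 : Continuous fun p : S × S => F.len p.2 := F.cont_len.comp continuous_snd
  have h2 : Continuous fun p : S × S => F.len (F.mul (F.inv p.2) p.1) :=
    F.cont_len.comp (F.cont_mul.comp ((F.cont_inv.comp continuous_snd).prodMk continuous_fst))
  exact ((continuous_ph R).comp h1).mul ((continuous_ph R).comp h2)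

private theorem gg_cont (F : Fac) (R : ℝ) (w : S) : Continuous (gg F R w) :=
  (gg_cont2 F R).comp (Continuous.prodMk_right w)

private theorem gg_nonneg (F : Fac) (R : ℝ) (w y : S) : 0 ≤ gg F R w y :=
  mul_nonneg (ph_nonneg _ _) (ph_nonneg _ _)

private theorem gg_le_one (F : Fac) (R : ℝ) (w y : S) : gg F R w y ≤ 1 :=
  mul_le_one₀ (ph_le_one _ _) (ph_nonneg _ _) (ph_le_one _ _)

private theorem finC (F : Fac) (R : ℝ) : F.lv {x | F.len x ≤ R} < ⊤ := by
  haveI := F.lv_reg
  exact (F.proper R).measure_lt_top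

private theorem measC (F : Fac) (R : ℝ) : MeasurableSet {x | F.len x ≤ R} :=
  measurableSet_le F.cont_len.measurable measurable_const

private theorem gg_int (F : Fac) (R : ℝ) (w : S) : Integrable (gg F R w) F.lv := by
  haveI := F.lv_reg
  refine (gg_cont F R w).integrable_of_hasCompactSupport ?_
  refine HasCompactSupport.intro (F.proper (R + 1)) fun y hy => ?_
  simp only [mem_ofPred_eq, not_le] at hy
  unfold gg
  rw [ph_zero hy, zero_mul]

/-- The two point function of a factor. -/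
private noncomputable def Ph (F : Fac) (R : ℝ) (w : S) : ℝ := ∫ y, gg F R w y ∂F.lv

private theorem Ph_lower (F : Fac) (R : ℝ) (w : S) (B : Set S) (hB : MeasurableSet B)
    (hBw : ∀ y ∈ B, F.len y ≤ R ∧ F.len (F.mul (F.inv y) w) ≤ R) : (F.lv B).toReal ≤ Ph F R w := by
  have hfin : F.lv B < ⊤ :=
    lt_of_le_of_lt (measure_mono fun y hy => (hBw y hy).1) (finC F R)
  have h1 : (F.lv B).toReal = ∫ y in B, (1 : ℝ) ∂F.lv := by
    rw [setIntegral_const, smul_eq_mul, mul_one]
    rfl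
  rw [h1]
  calc ∫ y in B, (1 : ℝ) ∂F.lv = ∫ y in B, gg F R w y ∂F.lv := by
        refine setIntegral_congr_fun hB fun y hy => ?_
        unfold gg
        rw [ph_one (hBw y hy).1, ph_one (hBw y hy).2, mul_one]
    _ ≤ ∫ y, gg F R w y ∂F.lv :=
        setIntegral_le_integral (gg_int F R w) (Eventually.of_forall fun y => gg_nonneg F R w y)

private theorem Ph_upper (F : Fac) (R : ℝ) (w : S) :
    Ph F R w ≤ (F.lv {x | F.len x ≤ R + 1}).toReal := by
  have h1 : (F.lv {x | F.len x ≤ R + 1}).toReal = ∫ y in {x | F.len x ≤ R + 1}, (1 : ℝ) ∂F.lv := by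
    rw [setIntegral_const, smul_eq_mul, mul_one]
    rfl
  rw [h1, ← integral_indicator (measC F _)]
  refine integral_mono (gg_int F R w) ?_ fun y => ?_
  · exact (integrable_indicator_iff (measC F _)).2 (integrableOn_const (finC F _).ne)
  · by_cases hy : F.len y ≤ R + 1
    · rw [indicator_of_mem (by exact hy)]
      exact gg_le_one F R w y
    · rw [indicator_of_notMem (by exact hy)]
      simp only [not_le] at hy
      unfold gg
      rw [ph_zero hy, zero_mul]

/-- The test function. -/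
private noncomputable def ff (R : ℝ) (h : DD) : ℝ := ph R h.1.1 * ph R h.1.2

private theorem ff_cont (R : ℝ) : Continuous (ff R) := by
  unfold ff
  exact ((continuous_ph R).comp (continuous_fst.comp continuous_subtype_val)).mul
    ((continuous_ph R).comp (continuous_snd.comp continuous_subtype_val))

private theorem ff_nonneg (R : ℝ) (h : DD) : 0 ≤ ff R h := mul_nonneg (ph_nonneg _ _) (ph_nonneg _ _)

private theorem ff_comp (R : ℝ) : HasCompactSupport (ff R) := by
  have hcl : IsClosed {p : ℝ × ℝ | 0 ≤ p.2 ∧ p.2 ≤ p.1} :=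
    (isClosed_le continuous_const continuous_snd).inter (isClosed_le continuous_snd continuous_fst)
  have hK : IsCompact ((Subtype.val : DD → ℝ × ℝ) ⁻¹' (Icc (0 : ℝ) (R + 1) ×ˢ Icc (0 : ℝ) (R + 1))) :=
    hcl.isClosedEmbedding_subtypeVal.isCompact_preimage (isCompact_Icc.prod isCompact_Icc)
  refine HasCompactSupport.intro hK fun h hh => ?_
  have h1 : R + 1 < h.1.1 := by
    by_contra hc
    apply hh
    have h2 := h.2.1
    have h3 := h.2.2
    rw [not_lt] at hc
    exact ⟨⟨h2.trans h3, hc⟩, ⟨h2, h3.trans hc⟩⟩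
  unfold ff
  rw [ph_zero h1, zero_mul]

private theorem ff_srt (R : ℝ) {a b : ℝ} (ha : 0 ≤ a) (hb : 0 ≤ b) : ff R (srt a b) = ph R a * ph R b := by
  unfold ff
  rcases srt_cases ha hb with h | h
  · rw [h]
  · rw [h, mul_comm]

private theorem kk_eq (F₁ F₂ : Fac) (R : ℝ) (w : S × S) :
    kk F₁ F₂ (vX F₁ F₂) (ff R) (ff R) 0 w = Ph F₁ R w.1 * Ph F₂ R w.2 := by
  haveI := F₁.lv_reg
  haveI := F₂.lv_reg
  unfold kk vX Ph
  rw [← integral_prod_mul]
  refine integral_congr_ae (Eventually.of_forall fun y => ?_)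
  simp only
  unfold prt
  rw [ff_srt R (F₁.len_nonneg _) (F₂.len_nonneg _), ff_srt R (F₁.len_nonneg _) (F₂.len_nonneg _)]
  have e1 : F₁.mul (F₁.inv (0 : S × S).1) y.1 = y.1 := by
    rw [Prod.fst_zero, inv_zero_FN, F₁.zero_mul]
  have e2 : F₂.mul (F₂.inv (0 : S × S).2) y.2 = y.2 := by
    rw [Prod.snd_zero, inv_zero_FN, F₂.zero_mul]
  rw [e1, e2]
  unfold gg
  ring

private theorem prt_eq (F₁ F₂ : Fac) (w : S × S) : prt F₁ F₂ 0 w = srt (F₁.len w.1) (F₂.len w.2) := by
  unfold prt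
  have e1 : F₁.mul (F₁.inv (0 : S × S).1) w.1 = w.1 := by
    rw [Prod.fst_zero, inv_zero_FN, F₁.zero_mul]
  have e2 : F₂.mul (F₂.inv (0 : S × S).2) w.2 = w.2 := by
    rw [Prod.snd_zero, inv_zero_FN, F₂.zero_mul]
  rw [e1, e2]

private theorem len_zero_FN (F : Fac) : F.len 0 = 0 := by
  have h := F.len_P 0 le_rfl (0, 0)
  rwa [F.P_zero] at h

/-- The total mass of the two point function. -/
private theorem mass (F : Fac) (R : ℝ) (A : Set S) (hA : MeasurableSet A) (c : ℝ) (hc : 0 ≤ c)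
    (h : ∀ w ∈ A, c ≤ Ph F R w) : ENNReal.ofReal c * F.lv A ≤ F.lv {x | F.len x ≤ R + 1} * F.lv {x | F.len x ≤ R + 1} := by
  haveI := F.lv_reg
  set ψ : S → ENNReal := fun y => ‖ph R (F.len y)‖ₑ with hψ
  have hψc : Continuous ψ := by
    rw [hψ]
    exact ((continuous_ph R).comp F.cont_len).enorm
  have hb : ∫⁻ y, ψ y ∂F.lv ≤ F.lv {x | F.len x ≤ R + 1} := by
    rw [← lintegral_indicator_one (measC F _)]
    refine lintegral_mono fun y => ?_
    by_cases hy : F.len y ≤ R + 1
    · rw [indicator_of_mem (by exact hy), hψ]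
      simp only [Pi.one_apply]
      rw [Real.enorm_eq_ofReal (ph_nonneg _ _)]
      exact (ENNReal.ofReal_le_ofReal (ph_le_one _ _)).trans (by simp)
    · rw [indicator_of_notMem (by exact hy)]
      simp only [not_le] at hy
      rw [hψ]
      simp only
      rw [ph_zero hy]
      simp
  have h1 : ∀ w ∈ A, ENNReal.ofReal c ≤ ∫⁻ y, ψ y * ψ (F.mul (F.inv y) w) ∂F.lv := by
    intro w hw
    have h2 : ENNReal.ofReal c ≤ ‖Ph F R w‖ₑ := by
      rw [Real.enorm_eq_ofReal (hc.trans (h w hw))]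
      exact ENNReal.ofReal_le_ofReal (h w hw)
    refine h2.trans ((enorm_integral_le_lintegral_enorm _).trans (le_of_eq ?_))
    refine lintegral_congr fun y => ?_
    rw [hψ]
    unfold gg
    simp only
    rw [enorm_mul]
  calc ENNReal.ofReal c * F.lv A = ∫⁻ _ in A, ENNReal.ofReal c ∂F.lv := by rw [setLIntegral_const]
    _ ≤ ∫⁻ w in A, ∫⁻ y, ψ y * ψ (F.mul (F.inv y) w) ∂F.lv ∂F.lv := setLIntegral_mono' hA h1
    _ ≤ ∫⁻ w, ∫⁻ y, ψ y * ψ (F.mul (F.inv y) w) ∂F.lv ∂F.lv := setLIntegral_le_lintegral _ _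
    _ = ∫⁻ y, ∫⁻ w, ψ y * ψ (F.mul (F.inv y) w) ∂F.lv ∂F.lv := by
        refine lintegral_lintegral_swap (Continuous.aemeasurable ?_)
        have e1 : Continuous fun p : S × S => ‖ph R (F.len p.2)‖ₑ :=
          ((continuous_ph R).comp (F.cont_len.comp continuous_snd)).enorm
        have e2 : Continuous fun p : S × S => ph R (F.len p.2) * ph R (F.len (F.mul (F.inv p.2) p.1)) :=
          gg_cont2 F R
        have e3 : (Function.uncurry fun w y => ψ y * ψ (F.mul (F.inv y) w)) =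
            fun p : S × S => ‖ph R (F.len p.2) * ph R (F.len (F.mul (F.inv p.2) p.1))‖ₑ := by
          funext p
          rw [enorm_mul]
          rfl
        rw [e3]
        exact e2.enorm
    _ = ∫⁻ y, ψ y * ∫⁻ w, ψ w ∂F.lv ∂F.lv := by
        refine lintegral_congr fun y => ?_
        rw [lintegral_const_mul' _ _ (by rw [hψ]; simp)]
        congr 1
        exact (F.left_inv (F.inv y)).lintegral_comp hψc.measurable
    _ = (∫⁻ y, ψ y ∂F.lv) * ∫⁻ w, ψ w ∂F.lv := by
        rw [lintegral_mul_const _ hψc.measurable]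
    _ ≤ F.lv {x | F.len x ≤ R + 1} * F.lv {x | F.len x ≤ R + 1} := mul_le_mul' hb hb

private theorem lenR_add (x y : S) : lenR (x + y) ≤ lenR x + lenR y := by
  unfold lenR
  have hx : 0 ≤ x.1 ^ 2 + ‖x.2‖ ^ 2 := by positivity
  have hy : 0 ≤ y.1 ^ 2 + ‖y.2‖ ^ 2 := by positivity
  have h0 : 0 ≤ √(x.1 ^ 2 + ‖x.2‖ ^ 2) + √(y.1 ^ 2 + ‖y.2‖ ^ 2) := by positivity
  rw [Real.sqrt_le_left h0]
  have hn : ‖(x + y).2‖ ≤ ‖x.2‖ + ‖y.2‖ := norm_add_le _ _
  have hn2 : ‖(x + y).2‖ ^ 2 ≤ (‖x.2‖ + ‖y.2‖) ^ 2 := by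
    gcongr
  have hs : (x + y).1 = x.1 + y.1 := rfl
  rw [hs]
  have hcs : x.1 * y.1 + ‖x.2‖ * ‖y.2‖ ≤ √(x.1 ^ 2 + ‖x.2‖ ^ 2) * √(y.1 ^ 2 + ‖y.2‖ ^ 2) := by
    rw [← Real.sqrt_mul hx]
    refine Real.le_sqrt_of_sq_le ?_
    nlinarith [sq_nonneg (x.1 * ‖y.2‖ - y.1 * ‖x.2‖)]
  have e1 := Real.sq_sqrt hx
  have e2 := Real.sq_sqrt hy
  nlinarith [hcs, hn2, e1, e2]

private theorem lenR_neg (x : S) : lenR (-x) = lenR x := by
  unfold lenR
  simp

private theorem lenR_cont : Continuous lenR := by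
  unfold lenR
  fun_prop

theorem hFN : StFN := by
  intro _ hVH hVR F₁ F₂ m1 i1 l1 v1 m2 i2 l2 v2 H
  obtain ⟨a, b, ha, hb, hab⟩ := hVH
  -- the choice of the radius
  obtain ⟨R, hR2, hRbig⟩ : ∃ R : ℝ, 2 ≤ R ∧ 512 * (b ^ 2 * Real.exp 4) < a ^ 2 * Real.exp R := by
    have h1 : Tendsto (fun R : ℝ => a ^ 2 * Real.exp R) atTop atTop :=
      Real.tendsto_exp_atTop.const_mul_atTop (by positivity)
    obtain ⟨R, h2, h3⟩ := ((h1.eventually_gt_atTop (512 * (b ^ 2 * Real.exp 4))).and
      (eventually_ge_atTop (2 : ℝ))).exists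
    exact ⟨R, h3, h2⟩
  have hkk := H (ff R) (ff R) (ff_cont R) (ff_comp R) (ff_nonneg R) (ff_cont R) (ff_comp R) (ff_nonneg R) 0
  -- comparison
  have hcmp : ∀ w₁ w₂ : S, F₁.len w₁ = F₂.len w₂ → Ph F₁ R w₁ * Ph F₂ R 0 = Ph F₁ R 0 * Ph F₂ R w₂ := by
    intro w₁ w₂ hw
    have h1 := hkk (w₁, 0) (0, w₂) (by
      rw [prt_eq, prt_eq]
      simp only
      rw [len_zero_FN, len_zero_FN, hw, srt_comm])
    rw [kk_eq, kk_eq] at h1
    exact h1
  -- the euclidean factor
  have hV1 := hVR (R / 4) (by linarith)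
  set V := (volume {x : S | lenR x ≤ R / 4}).toReal with hV
  have hup : Ph F₁ R 0 ≤ 512 * V := by
    have h1 := Ph_upper F₁ R 0
    rw [l1, v1] at h1
    have h2 := hV1.2.2 8 (by norm_num)
    have h3 : (volume {x : S | lenR x ≤ R + 1}).toReal ≤ (volume {x : S | lenR x ≤ 8 * (R / 4)}).toReal := by
      refine ENNReal.toReal_mono ?_ (measure_mono fun x hx => ?_)
      · have := (hVR (8 * (R / 4)) (by linarith)).2.1
        exact this.ne
      · simp only [mem_ofPred_eq] at hx ⊢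
        linarith
    rw [h2] at h3
    norm_num at h3
    linarith
  have hlow : ∀ t : ℝ, 0 ≤ t → t ≤ 3 * R / 2 → V ≤ Ph F₁ R (t, 0) := by
    intro t ht0 ht
    have hlt : lenR (t / 2, 0) = t / 2 := by
      unfold lenR
      simp only [norm_zero]
      rw [show (t / 2) ^ 2 + (0 : ℝ) ^ 2 = (t / 2) ^ 2 by ring, Real.sqrt_sq (by linarith)]
    have hm : MeasurableSet {y : S | lenR (y + (-(t / 2), 0)) ≤ R / 4} := by
      refine measurableSet_le (Continuous.measurable ?_) measurable_const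
      exact lenR_cont.comp (by fun_prop)
    have h1 := Ph_lower F₁ R (t, 0) {y : S | lenR (y + (-(t / 2), 0)) ≤ R / 4} hm (by
      intro y hy
      simp only [mem_ofPred_eq] at hy
      rw [l1, m1, i1]
      simp only
      constructor
      · have e : y = (y + (-(t / 2), 0)) + (t / 2, 0) := by
          rw [add_assoc]
          ext <;> simp
        rw [e]
        have := lenR_add (y + (-(t / 2), 0)) (t / 2, 0)
        linarith
      · have e : -y + (t, 0) = -(y + (-(t / 2), 0)) + (t / 2, 0) := by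
          ext
          · simp
            ring
          · simp
        rw [e]
        have := lenR_add (-(y + (-(t / 2), 0))) (t / 2, 0)
        rw [lenR_neg] at this
        linarith)
    rw [v1] at h1
    have h2 : volume {y : S | lenR (y + (-(t / 2), 0)) ≤ R / 4} = volume {y : S | lenR y ≤ R / 4} :=
      measure_preimage_add_right volume ((-(t / 2), 0) : S) {y : S | lenR y ≤ R / 4}
    rw [h2] at h1
    exact h1
  have hVpos : 0 < V := hV1.1
  have hP0 : 0 < Ph F₁ R 0 := by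
    have := hlow 0 le_rfl (by linarith)
    exact lt_of_lt_of_le hVpos this
  -- the hyperbolic factor
  have hH0 : (lvH {x | lenH x ≤ R}).toReal ≤ Ph F₂ R 0 := by
    have h1 := Ph_lower F₂ R 0 {x | F₂.len x ≤ R} (measC F₂ R) (by
      intro y hy
      rw [F₂.mul_zero, F₂.len_inv]
      exact ⟨hy, hy⟩)
    rw [v2, l2] at h1
    exact h1
  set W := (lvH {x | lenH x ≤ R}).toReal with hW
  have hWn : 0 ≤ W := ENNReal.toReal_nonneg
  have hmain : ∀ w ∈ {x | F₂.len x ≤ 3 * R / 2}, W / 512 ≤ Ph F₂ R w := by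
    intro w hw
    simp only [mem_ofPred_eq] at hw
    have hln : F₁.len (F₂.len w, 0) = F₂.len w := by
      rw [l1]
      unfold lenR
      simp only [norm_zero]
      rw [show (F₂.len w) ^ 2 + (0 : ℝ) ^ 2 = (F₂.len w) ^ 2 by ring, Real.sqrt_sq (F₂.len_nonneg _)]
    have h1 := hcmp (F₂.len w, 0) w hln
    have h2 := hlow (F₂.len w) (F₂.len_nonneg _) hw
    -- `V * W ≤ Ph₁ w₁ * Ph₂ 0 = Ph₁ 0 * Ph₂ w ≤ 512 V * Ph₂ w`
    have h3 : V * W ≤ Ph F₁ R 0 * Ph F₂ R w := by
      rw [← h1]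
      exact mul_le_mul h2 hH0 hWn (hVpos.le.trans h2)
    have h4 : 0 ≤ Ph F₂ R w := integral_nonneg fun y => gg_nonneg F₂ R w y
    have h5 : V * W ≤ 512 * V * Ph F₂ R w := h3.trans (mul_le_mul_of_nonneg_right hup h4)
    have h6 : V * (W / 512) ≤ V * Ph F₂ R w := by linarith
    exact le_of_mul_le_mul_left h6 hVpos
  have hmass := mass F₂ R {x | F₂.len x ≤ 3 * R / 2} (measC F₂ _) (W / 512) (by positivity) hmain
  rw [v2, l2] at hmass
  have hfR := hab R hR2
  have hf1 := hab (R + 1) (by linarith)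
  have hf3 := hab (3 * R / 2) (by linarith)
  have hreal : W / 512 * (lvH {x | lenH x ≤ 3 * R / 2}).toReal ≤
      (lvH {x | lenH x ≤ R + 1}).toReal * (lvH {x | lenH x ≤ R + 1}).toReal := by
    have h1 := ENNReal.toReal_mono (ENNReal.mul_ne_top hf1.1.ne hf1.1.ne) hmass
    rw [ENNReal.toReal_mul, ENNReal.toReal_mul, ENNReal.toReal_ofReal (by positivity)] at h1
    exact h1
  have k1 : a * Real.exp (2 * R) ≤ W := hfR.2.1
  have k2 : a * Real.exp (3 * R) ≤ (lvH {x | lenH x ≤ 3 * R / 2}).toReal := by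
    have := hf3.2.1
    rwa [show 2 * (3 * R / 2) = 3 * R by ring] at this
  have k3 := hf1.2.2
  have k4 : (lvH {x | lenH x ≤ R + 1}).toReal * (lvH {x | lenH x ≤ R + 1}).toReal ≤
      (b * Real.exp (2 * (R + 1))) * (b * Real.exp (2 * (R + 1))) :=
    mul_le_mul k3 k3 ENNReal.toReal_nonneg (by positivity)
  have k5 : a * Real.exp (2 * R) / 512 * (a * Real.exp (3 * R)) ≤
      W / 512 * (lvH {x | lenH x ≤ 3 * R / 2}).toReal :=
    mul_le_mul (by linarith) k2 (by positivity) (by positivity)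
  have k6 : a * Real.exp (2 * R) / 512 * (a * Real.exp (3 * R)) ≤
      (b * Real.exp (2 * (R + 1))) * (b * Real.exp (2 * (R + 1))) := k5.trans (hreal.trans k4)
  have e1 : Real.exp (2 * R) * Real.exp (3 * R) = Real.exp (4 * R) * Real.exp R := by
    rw [← Real.exp_add, ← Real.exp_add]
    ring_nf
  have e2 : Real.exp (2 * (R + 1)) * Real.exp (2 * (R + 1)) = Real.exp (4 * R) * Real.exp 4 := by
    rw [← Real.exp_add, ← Real.exp_add]
    ring_nf
  have k7 : Real.exp (4 * R) * (a ^ 2 * Real.exp R) ≤ Real.exp (4 * R) * (512 * (b ^ 2 * Real.exp 4)) := by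
    have l1 : a * Real.exp (2 * R) / 512 * (a * Real.exp (3 * R)) =
        Real.exp (4 * R) * (a ^ 2 * Real.exp R) / 512 := by
      calc a * Real.exp (2 * R) / 512 * (a * Real.exp (3 * R)) =
          a ^ 2 / 512 * (Real.exp (2 * R) * Real.exp (3 * R)) := by ring
        _ = _ := by rw [e1]; ring
    have l2 : (b * Real.exp (2 * (R + 1))) * (b * Real.exp (2 * (R + 1))) =
        Real.exp (4 * R) * (b ^ 2 * Real.exp 4) := by
      calc (b * Real.exp (2 * (R + 1))) * (b * Real.exp (2 * (R + 1))) =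
          b ^ 2 * (Real.exp (2 * (R + 1)) * Real.exp (2 * (R + 1))) := by ring
        _ = _ := by rw [e2]; ring
    rw [l1, l2] at k6
    linarith
  have k8 := le_of_mul_le_mul_left k7 (Real.exp_pos _)
  linarith

end Pool.Agent.Helper94.CM
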