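import Pool.Agent.Helper94.CM.St

/-!
# Project CM (MP_466bd8), module HA: Haar measure of the unitary group
-/

set_option autoImplicit false

namespace Pool.Agent.Helper94.CM

open MeasureTheory TopologicalSpace Set Filter Topology Matrix

private theorem compact_HA : CompactSpace K := by
  have h1 : IsCompact {A : Matrix (Fin 2) (Fin 2) ℂ | ∀ i j, A i j ∈ Metric.closedBall (0 : ℂ) 1} := by
    have h2 : IsCompact (Set.pi univ fun _ : Fin 2 => Set.pi univ fun _ : Fin 2 =>
        Metric.closedBall (0 : ℂ) 1) :=
      isCompact_univ_pi fun _ => isCompact_univ_pi fun _ => isCompact_closedBall _ _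
    have h3 : {A : Matrix (Fin 2) (Fin 2) ℂ | ∀ i j, A i j ∈ Metric.closedBall (0 : ℂ) 1} =
        (Set.pi univ fun _ : Fin 2 => Set.pi univ fun _ : Fin 2 => Metric.closedBall (0 : ℂ) 1) := by
      ext A
      exact ⟨fun h i _ j _ => h i j, fun h i j => h i (mem_univ i) j (mem_univ j)⟩
    rw [h3]
    exact h2
  have h4 : IsCompact (unitary (Matrix (Fin 2) (Fin 2) ℂ) : Set (Matrix (Fin 2) (Fin 2) ℂ)) := by
    refine h1.of_isClosed_subset isClosed_unitary ?_
    intro A hA i j
    rw [mem_closedBall_zero_iff]
    exact entry_norm_bound_of_unitary hA i j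
  exact isCompact_iff_compactSpace.1 h4

theorem hHA : StHA := by
  have hc : CompactSpace K := compact_HA
  refine ⟨hc, Measure.haarMeasure (⊤ : PositiveCompacts K), ?_⟩
  obtain ⟨μ, hμ⟩ : ∃ μ : Measure K, μ = Measure.haarMeasure (⊤ : PositiveCompacts K) := ⟨_, rfl⟩
  rw [← hμ]
  have hhaar : μ.IsHaarMeasure := by
    rw [hμ]
    infer_instance
  have huniv : μ univ = 1 := by
    have := Measure.haarMeasure_self (K₀ := (⊤ : PositiveCompacts K))
    rw [hμ]
    simpa using this
  have hprob : IsProbabilityMeasure μ := ⟨huniv⟩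
  refine ⟨hprob, ?_, ?_⟩
  · intro k₀ F hF
    exact integral_mul_left_eq_self F k₀
  · intro k₀ F hF
    have hm : Measurable fun k : K => k * k₀ := (continuous_mul_const k₀).measurable
    have hinv : (μ.map fun k => k * k₀).IsMulLeftInvariant := by
      refine ⟨fun g => ?_⟩
      have hg : Measurable fun k : K => g * k := (continuous_const_mul g).measurable
      rw [Measure.map_map hg hm]
      have h1 : ((fun k : K => g * k) ∘ fun k => k * k₀) = (fun k => k * k₀) ∘ fun k => g * k := by
        funext k
        simp only [Function.comp_apply, mul_assoc]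
      rw [h1, ← Measure.map_map hm hg, map_mul_left_eq_self]
    have hfin : IsFiniteMeasure (μ.map fun k => k * k₀) := by infer_instance
    have h2 := Measure.isMulInvariant_eq_smul_of_compactSpace (μ.map fun k => k * k₀) μ
    have h3 : Measure.haarScalarFactor (μ.map fun k => k * k₀) μ = 1 := by
      have h4 := congrArg (fun m : Measure K => m univ) h2
      simp only [Measure.smul_apply] at h4
      rw [Measure.map_apply hm MeasurableSet.univ, preimage_univ, huniv] at h4
      rw [ENNReal.smul_def, smul_eq_mul, mul_one] at h4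
      exact_mod_cast h4.symm
    rw [h3, one_smul] at h2
    have h5 : ∫ k, F k ∂(μ.map fun k => k * k₀) = ∫ k, F (k * k₀) ∂μ :=
      integral_map hm.aemeasurable hF.aestronglyMeasurable
    rw [← h5, h2]

end Pool.Agent.Helper94.CM
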