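import Pool.Agent.Helper94.CM.St

set_option autoImplicit false

namespace Pool.Agent.Helper94.CM

open MeasureTheory TopologicalSpace Set Filter Topology Matrix Pool.Agent.Helper95.CAS
open scoped unitInterval

private theorem int_I_HB (F : ℝ → ℝ) : ∫ u : I, F (u : ℝ) = ∫ x in (0 : ℝ)..1, F x := by
  rw [intervalIntegral.integral_of_le zero_le_one, ← integral_Icc_eq_integral_Ioc]
  exact integral_subtype_comap (measurableSet_Icc (a := (0 : ℝ)) (b := 1)) F

private theorem mat_00_HB (α : ℝ) (ν : S) : mat α ν 0 0 = ((α + ν.1 : ℝ) : ℂ) := rfl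

private theorem mat_10_HB (α : ℝ) (ν : S) : mat α ν 1 0 = ν.2 := rfl

private noncomputable def yy_HB (r x : ℝ) : ℝ := Real.cosh r + Real.sinh r * (2 * x - 1)

private noncomputable def pt_HB (r : ℝ) (v : I) (x : ℝ) : S :=
  (Real.log (yy_HB r x),
    ((Real.sinh r * Real.sqrt (1 - (2 * x - 1) ^ 2) / yy_HB r x : ℝ) : ℂ) * ci v)

private theorem QH_HB (r : ℝ) (p : C0) : QH r p = pt_HB r p.2 (p.1 : ℝ) := by
  unfold QH Psi pt_HB yy_HB
  rw [mat_00_HB, mat_10_HB, Complex.ofReal_re]
  have h1 : (Real.sinh r • sph p).1 = Real.sinh r * (2 * (p.1 : ℝ) - 1) := rfl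
  have h2 : (Real.sinh r • sph p).2
      = (Real.sinh r : ℂ) * ((Real.sqrt (1 - (2 * (p.1 : ℝ) - 1) ^ 2) : ℂ) * ci p.2) := by
    show Real.sinh r • ((Real.sqrt (1 - cc p ^ 2) : ℂ) * ci p.2) = _
    rw [Complex.real_smul]
    rfl
  rw [h1, h2]
  refine Prod.ext rfl ?_
  push_cast
  ring

private theorem yy_pos_HB (r : ℝ) (x : ℝ) (h0 : 0 ≤ x) (h1 : x ≤ 1) : 0 < yy_HB r x := by
  unfold yy_HB
  have h2 : Real.cosh r + Real.sinh r = Real.exp r := Real.cosh_add_sinh r
  have h3 : Real.cosh r - Real.sinh r = Real.exp (-r) := Real.cosh_sub_sinh r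
  have h4 := Real.exp_pos r
  have h5 := Real.exp_pos (-r)
  have h6 : Real.cosh r + Real.sinh r * (2 * x - 1)
      = x * Real.exp r + (1 - x) * Real.exp (-r) := by
    rw [← h2, ← h3]; ring
  rw [h6]
  rcases h0.eq_or_lt with h | h
  · rw [← h]; simpa using h5
  · have : 0 ≤ (1 - x) * Real.exp (-r) := mul_nonneg (by linarith) h5.le
    have : 0 < x * Real.exp r := mul_pos h h4
    linarith

private theorem cont_pt_HB (r : ℝ) (v : I) (s : Set ℝ) (hs : ∀ x ∈ s, 0 < yy_HB r x) :
    ContinuousOn (fun x => pt_HB r v x) s := by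
  have hy : Continuous (yy_HB r) := by unfold yy_HB; fun_prop
  unfold pt_HB
  refine ContinuousOn.prodMk ?_ ?_
  · exact hy.continuousOn.log fun x hx => (hs x hx).ne'
  · refine ContinuousOn.mul ?_ continuousOn_const
    refine Complex.continuous_ofReal.comp_continuousOn ?_
    refine ContinuousOn.div ?_ hy.continuousOn fun x hx => (hs x hx).ne'
    fun_prop

private theorem cont_QH_HB (r : ℝ) : Continuous (QH r) := by
  have hy : Continuous (yy_HB r) := by unfold yy_HB; fun_prop
  have hpos : ∀ p : C0, yy_HB r (p.1 : ℝ) ≠ 0 := fun p => (yy_pos_HB r _ p.1.2.1 p.1.2.2).ne'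
  have h1 : QH r = fun p : C0 => pt_HB r p.2 (p.1 : ℝ) := funext (QH_HB r)
  rw [h1]
  unfold pt_HB
  have hy2 : Continuous fun p : C0 => yy_HB r (p.1 : ℝ) := hy.comp (by fun_prop)
  refine Continuous.prodMk (hy2.log hpos) ?_
  refine Continuous.mul ?_ (continuous_ci.comp continuous_snd)
  refine Complex.continuous_ofReal.comp ?_
  refine Continuous.div ?_ hy2 hpos
  fun_prop

private theorem cont_PH_HB (r : ℝ) : Continuous (PH r) := by
  have h1 := continuous_cc
  have h2 := continuous_ci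
  unfold PH
  fun_prop

private theorem sq_id_HB (r s : ℝ) (hr : Real.sinh r ≠ 0) :
    Real.sinh r ^ 2 * (1 - ((Real.exp s - Real.cosh r) / Real.sinh r) ^ 2)
      = 2 * Real.exp s * (Real.cosh r - Real.cosh s) := by
  have h1 : Real.sinh r ^ 2 * (1 - ((Real.exp s - Real.cosh r) / Real.sinh r) ^ 2)
      = Real.sinh r ^ 2 - (Real.exp s - Real.cosh r) ^ 2 := by
    field_simp
  rw [h1]
  have h2 := Real.cosh_sq r
  have h3 : Real.exp s * Real.exp (-s) = 1 := by rw [← Real.exp_add]; simp
  rw [Real.cosh_eq s]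
  nlinarith [h2, h3]

/-- The pointwise identity after the substitution. -/
private theorem key_HB (r : ℝ) (hr : 0 < r) (v : I) (x : ℝ) (h0 : 0 ≤ x) (h1 : x ≤ 1) :
    yy_HB r (((Real.exp (r * (2 * x - 1)) - Real.cosh r) / Real.sinh r + 1) / 2)
        = Real.exp (r * (2 * x - 1)) ∧
    pt_HB r v (((Real.exp (r * (2 * x - 1)) - Real.cosh r) / Real.sinh r + 1) / 2)
      = (r * (2 * x - 1), (Real.sqrt (2 * Real.exp (-(r * (2 * x - 1))) *
          (Real.cosh r - Real.cosh (r * (2 * x - 1)))) : ℂ) * ci v) := by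
  have hsr : 0 < Real.sinh r := Real.sinh_pos_iff.mpr hr
  set s : ℝ := r * (2 * x - 1) with hs
  have hy : yy_HB r (((Real.exp s - Real.cosh r) / Real.sinh r + 1) / 2) = Real.exp s := by
    unfold yy_HB
    field_simp
    ring
  refine ⟨hy, ?_⟩
  have hc : 2 * (((Real.exp s - Real.cosh r) / Real.sinh r + 1) / 2) - 1
      = (Real.exp s - Real.cosh r) / Real.sinh r := by ring
  have hab : |s| ≤ |r| := by
    rw [hs, abs_mul]
    have : |2 * x - 1| ≤ 1 := by rw [abs_le]; constructor <;> linarith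
    nlinarith [abs_nonneg r]
  have hcosh : Real.cosh s ≤ Real.cosh r := Real.cosh_le_cosh.mpr hab
  have hid := sq_id_HB r s hsr.ne'
  have hes := Real.exp_pos s
  have hnn : 0 ≤ 1 - ((Real.exp s - Real.cosh r) / Real.sinh r) ^ 2 := by
    have h2 : 0 ≤ Real.sinh r ^ 2 * (1 - ((Real.exp s - Real.cosh r) / Real.sinh r) ^ 2) := by
      rw [hid]
      have : 0 ≤ Real.cosh r - Real.cosh s := by linarith
      positivity
    exact nonneg_of_mul_nonneg_right h2 (by positivity)
  have hmain : Real.sinh r * Real.sqrt (1 - ((Real.exp s - Real.cosh r) / Real.sinh r) ^ 2)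
      / Real.exp s = Real.sqrt (2 * Real.exp (-s) * (Real.cosh r - Real.cosh s)) := by
    have hB : 0 ≤ Real.sinh r * Real.sqrt (1 - ((Real.exp s - Real.cosh r) / Real.sinh r) ^ 2)
      / Real.exp s := by positivity
    rw [← Real.sqrt_sq hB]
    congr 1
    rw [div_pow, mul_pow, Real.sq_sqrt hnn, hid, Real.exp_neg]
    field_simp
  unfold pt_HB
  rw [hy, hc, Real.log_exp, hmain]

theorem hHB : StHB := by
  intro r hr f hf
  rcases hr.eq_or_lt with h | hr
  · -- the case `r = 0`
    subst h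
    have h1 : ∀ p : C0, QH 0 p = 0 := by
      intro p
      rw [QH_HB]
      unfold pt_HB yy_HB
      simp
    have h2 : ∀ p : C0, PH 0 p = 0 := by
      intro p
      unfold PH
      simp
    simp only [h1, h2]
    simp [sc]
  have hsr : 0 < Real.sinh r := Real.sinh_pos_iff.mpr hr
  have hsc : sc r = r / Real.sinh r := by rw [sc, if_neg hr.ne']
  have hcQ := cont_QH_HB r
  have hcP := cont_PH_HB r
  have hc1 : Continuous fun p : C0 => Real.exp (-(QH r p).1) * f (QH r p) :=
    (Real.continuous_exp.comp (continuous_fst.comp hcQ).neg).mul (hf.comp hcQ)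
  have hc2 : Continuous fun p : C0 => f (PH r p) := hf.comp hcP
  have e1 : ∫ p : C0, Real.exp (-(QH r p).1) * f (QH r p)
      = ∫ v : I, ∫ u : I, Real.exp (-(QH r (u, v)).1) * f (QH r (u, v)) :=
    integral_prod_symm (μ := (volume : Measure I)) (ν := (volume : Measure I)) _
      (integrable_cont _ hc1)
  have e2 : ∫ p : C0, f (PH r p) = ∫ v : I, ∫ u : I, f (PH r (u, v)) :=
    integral_prod_symm (μ := (volume : Measure I)) (ν := (volume : Measure I)) _
      (integrable_cont _ hc2)
  rw [e1, e2, ← integral_const_mul]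
  refine integral_congr_ae (Eventually.of_forall fun v => ?_)
  show ∫ u : I, Real.exp (-(QH r (u, v)).1) * f (QH r (u, v)) = sc r * ∫ u : I, f (PH r (u, v))
  set φ : ℝ → ℝ := fun x => ((Real.exp (r * (2 * x - 1)) - Real.cosh r) / Real.sinh r + 1) / 2
    with hφ
  set g : ℝ → ℝ := fun x => Real.exp (-(pt_HB r v x).1) * f (pt_HB r v x) with hg
  have e3 : ∫ u : I, Real.exp (-(QH r (u, v)).1) * f (QH r (u, v)) = ∫ x in (0 : ℝ)..1, g x := by
    rw [← int_I_HB]
    refine integral_congr_ae (Eventually.of_forall fun u => ?_)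
    simp only [hg, QH_HB]
  have e4 : ∫ u : I, f (PH r (u, v)) = ∫ x in (0 : ℝ)..1,
      f (r * (2 * x - 1), (Real.sqrt (2 * Real.exp (-(r * (2 * x - 1))) *
          (Real.cosh r - Real.cosh (r * (2 * x - 1)))) : ℂ) * ci v) := by
    rw [← int_I_HB]
    rfl
  have hφ0 : φ 0 = 0 := by
    simp only [hφ]
    rw [show r * (2 * 0 - 1) = -r by ring, ← Real.cosh_sub_sinh]
    field_simp
    ring
  have hφ1 : φ 1 = 1 := by
    simp only [hφ]
    rw [show r * (2 * 1 - 1) = r by ring, ← Real.cosh_add_sinh]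
    field_simp
    ring
  have hsub := intervalIntegral.integral_comp_mul_deriv' (a := (0 : ℝ)) (b := 1) (f := φ)
    (f' := fun x => r / Real.sinh r * Real.exp (r * (2 * x - 1))) (g := g) ?_ ?_ ?_
  · rw [hφ0, hφ1] at hsub
    rw [e3, e4, ← hsub, ← intervalIntegral.integral_const_mul]
    refine intervalIntegral.integral_congr fun x hx => ?_
    rw [uIcc_of_le zero_le_one] at hx
    obtain ⟨k1, k2⟩ := key_HB r hr v x hx.1 hx.2
    simp only [Function.comp_def, hg, hφ]
    rw [k2, hsc]
    simp only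
    rw [Real.exp_neg]
    have := Real.exp_pos (r * (2 * x - 1))
    field_simp
  · intro x _
    have h1 : HasDerivAt (fun x : ℝ => r * (2 * x - 1)) (r * 2) x := by
      have := ((hasDerivAt_id x).const_mul (2 : ℝ)).sub_const 1
      simpa using this.const_mul r
    have h2 := (((h1.exp.sub_const (Real.cosh r)).div_const (Real.sinh r)).add_const 1).div_const 2
    have h3 : Real.exp (r * (2 * x - 1)) * (r * 2) / Real.sinh r / 2
        = r / Real.sinh r * Real.exp (r * (2 * x - 1)) := by ring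
    rw [h3] at h2
    exact h2
  · fun_prop
  · have hcp := cont_pt_HB r v (φ '' uIcc 0 1) (by
      rintro _ ⟨x, hx, rfl⟩
      rw [uIcc_of_le zero_le_one] at hx
      rw [(key_HB r hr v x hx.1 hx.2).1]
      exact Real.exp_pos _)
    exact (Real.continuous_exp.comp_continuousOn (continuous_fst.comp_continuousOn hcp).neg).mul
      (hf.comp_continuousOn hcp)

end Pool.Agent.Helper94.CM
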