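import Pool.Agent.Helper94.CM.St

/-!
# Project CM, module HC: the composition property of `H^3`
-/

set_option autoImplicit false

namespace Pool.Agent.Helper94.CM

open MeasureTheory TopologicalSpace Set Filter Topology
open scoped unitInterval

private theorem continuous_mulH_HC : Continuous fun p : S × S => mulH p.1 p.2 := by
  unfold mulH
  fun_prop

private theorem continuous_PH_HC : Continuous fun p : ℝ × C0 => PH p.1 p.2 := by
  unfold PH
  have h1 := continuous_cc
  have h2 := continuous_ci
  fun_prop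

private theorem sc_pos_HC {t : ℝ} (ht : 0 ≤ t) : 0 < sc t := by
  unfold sc
  split_ifs with h
  · exact one_pos
  · have h1 : 0 < t := lt_of_le_of_ne ht (Ne.symm h)
    exact div_pos h1 (Real.sinh_pos_iff.2 h1)

private theorem tH_nonneg_HC {r s : ℝ} (hr : 0 ≤ r) (hs : 0 ≤ s) (g : I) : 0 ≤ tH r s g := by
  unfold tH
  apply Real.arcosh_nonneg
  have h1 : (0 : ℝ) ≤ g := g.2.1
  have h2 : 0 ≤ Real.sinh r * Real.sinh s :=
    mul_nonneg (Real.sinh_nonneg_iff.2 hr) (Real.sinh_nonneg_iff.2 hs)
  have h3 : 1 ≤ Real.cosh (r - s) := Real.one_le_cosh _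
  rw [Real.cosh_sub] at h3
  nlinarith [mul_nonneg h2 h1]

theorem hHC : StHC := by
  intro hHB hHS hQ r s hr hs f hf
  have hA : Continuous fun x : S => ∫ q : C0, f (mulH x (PH s q)) := by
    apply continuous_int (volume : Measure C0) (f := fun (x : S) (q : C0) => f (mulH x (PH s q)))
    exact hf.comp (continuous_mulH_HC.comp
      (continuous_fst.prodMk (continuous_PH_HC.comp (continuous_const.prodMk continuous_snd))))
  have hG : Continuous fun t : ℝ => ∫ p : C0, f (PH t p) := by
    apply continuous_int (volume : Measure C0) (f := fun (t : ℝ) (q : C0) => f (PH t q))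
    exact hf.comp continuous_PH_HC
  have hhf : Continuous fun x : S => Real.exp (-x.1) * f x :=
    (Real.continuous_exp.comp continuous_fst.neg).mul hf
  have e1 := hHB r hr _ hA
  have e2 : ∀ x : S, ∫ q : C0, Real.exp (-(QH s q).1) * f (mulH x (QH s q)) =
      sc s * ∫ q : C0, f (mulH x (PH s q)) := fun x =>
    hHB s hs (fun y => f (mulH x y)) (hf.comp (continuous_mulH_HC.comp (continuous_const.prodMk continuous_id)))
  have e3 := hQ r s hr hs _ hhf
  have e4 := hHS r s hr hs _ hG
  have e5 : ∀ t, 0 ≤ t → ∫ p : C0, Real.exp (-(QH t p).1) * f (QH t p) = sc t * ∫ p : C0, f (PH t p) :=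
    fun t ht => hHB t ht f hf
  have e6 : ∫ g : I, ∫ p : C0, Real.exp (-(QH (tH r s g) p).1) * f (QH (tH r s g) p) =
      ∫ g : I, sc (tH r s g) * ∫ p : C0, f (PH (tH r s g) p) := by
    congr 1
    funext g
    exact e5 _ (tH_nonneg_HC hr hs g)
  have e7 : ∫ p : C0, ∫ q : C0, Real.exp (-(mulH (QH r p) (QH s q)).1) * f (mulH (QH r p) (QH s q)) =
      sc s * ∫ p : C0, Real.exp (-(QH r p).1) * ∫ q : C0, f (mulH (QH r p) (PH s q)) := by
    rw [← integral_const_mul]
    congr 1
    funext p
    have e8 : ∀ q : C0, Real.exp (-(mulH (QH r p) (QH s q)).1) * f (mulH (QH r p) (QH s q)) =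
        Real.exp (-(QH r p).1) * (Real.exp (-(QH s q).1) * f (mulH (QH r p) (QH s q))) := by
      intro q
      have : Real.exp (-(mulH (QH r p) (QH s q)).1) = Real.exp (-(QH r p).1) * Real.exp (-(QH s q).1) := by
        rw [← Real.exp_add]
        congr 1
        show -((QH r p).1 + (QH s q).1) = _
        ring
      rw [this]
      ring
    simp only [e8]
    rw [integral_const_mul, e2]
    ring
  have hrp := sc_pos_HC hr
  have hsp := sc_pos_HC hs
  have key : sc r * sc s * (∫ p : C0, ∫ q : C0, f (mulH (PH r p) (PH s q))) =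
      sc r * sc s * ∫ g : I, ∫ p : C0, f (PH (tt r s g) p) := by
    rw [← e4, ← e6, ← e3, e7, e1]
    ring
  exact mul_left_cancel₀ (mul_pos hrp hsp).ne' key

end Pool.Agent.Helper94.CM
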