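import Pool.Agent.Helper94.CM.St

/-!
# Project CM, module HF: the factor `H^3`
-/

set_option autoImplicit false

namespace Pool.Agent.Helper94.CM

open MeasureTheory TopologicalSpace Set Filter Topology Matrix Pool.Agent.Helper95.CAS
open scoped unitInterval

theorem one_le_chH_HF (x : S) : 1 ≤ chH x := by
  unfold chH
  have h1 := Real.one_le_cosh x.1
  have h2 : 0 ≤ Real.exp x.1 * ‖x.2‖ ^ 2 / 2 := by positivity
  linarith

theorem cosh_lenH_HF (x : S) : Real.cosh (lenH x) = chH x := Real.cosh_arcosh (one_le_chH_HF x)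

theorem continuous_chH_HF : Continuous chH := by
  unfold chH
  fun_prop

theorem continuous_lenH_HF : Continuous lenH := by
  have h : ContinuousOn Real.arcosh (Ici 1) := Real.continuousOn_arcosh
  rw [← continuousOn_univ]
  exact h.comp continuous_chH_HF.continuousOn fun x _ => one_le_chH_HF x

theorem ci_surj_HF (z : ℂ) : ∃ v : I, (‖z‖ : ℂ) * ci v = z := by
  have hpi : (0 : ℝ) < 2 * Real.pi := by positivity
  have h1 := Complex.neg_pi_lt_arg z
  have h2 := Complex.arg_le_pi z
  have hz := Complex.norm_mul_exp_arg_mul_I z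
  by_cases h : 0 ≤ Complex.arg z
  · refine ⟨⟨Complex.arg z / (2 * Real.pi), by positivity, ?_⟩, ?_⟩
    · rw [div_le_one hpi]
      linarith [Real.pi_pos]
    · unfold ci
      have h3 : 2 * Real.pi * (Complex.arg z / (2 * Real.pi)) = Complex.arg z := by
        field_simp
      change (‖z‖ : ℂ) * Complex.exp (((2 * Real.pi * (Complex.arg z / (2 * Real.pi)) : ℝ) : ℂ) *
        Complex.I) = z
      rw [h3]
      exact hz
  · push Not at h
    refine ⟨⟨Complex.arg z / (2 * Real.pi) + 1, ?_, ?_⟩, ?_⟩
    · have h4 : -1 ≤ Complex.arg z / (2 * Real.pi) := by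
        rw [le_div_iff₀ hpi]
        linarith [Real.pi_pos]
      linarith
    · have h4 : Complex.arg z / (2 * Real.pi) ≤ 0 := div_nonpos_of_nonpos_of_nonneg h.le hpi.le
      linarith
    · unfold ci
      have h3 : 2 * Real.pi * (Complex.arg z / (2 * Real.pi) + 1) =
          Complex.arg z + 2 * Real.pi := by
        field_simp
      change (‖z‖ : ℂ) * Complex.exp (((2 * Real.pi * (Complex.arg z / (2 * Real.pi) + 1) : ℝ) : ℂ) *
        Complex.I) = z
      rw [h3]
      push_cast
      rw [add_mul, Complex.exp_add, Complex.exp_two_pi_mul_I, mul_one]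
      exact hz

theorem rad_nonneg_HF (r : ℝ) (p : C0) :
    0 ≤ 2 * Real.exp (-(r * cc p)) * (Real.cosh r - Real.cosh (r * cc p)) := by
  have h1 : Real.cosh (r * cc p) ≤ Real.cosh r := by
    rw [Real.cosh_le_cosh, abs_mul]
    have h2 : |cc p| ≤ 1 := abs_le.2 (cc_mem p)
    nlinarith [abs_nonneg r]
  have h3 := Real.exp_pos (-(r * cc p))
  have h4 : 0 ≤ Real.cosh r - Real.cosh (r * cc p) := by linarith
  positivity

theorem chH_PH_HF (r : ℝ) (p : C0) : chH (PH r p) = Real.cosh r := by
  have h1 := rad_nonneg_HF r p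
  have h2 : ‖(PH r p).2‖ ^ 2 = 2 * Real.exp (-(r * cc p)) * (Real.cosh r - Real.cosh (r * cc p)) := by
    unfold PH
    rw [norm_mul, norm_ci, mul_one, Complex.norm_real, Real.norm_eq_abs, sq_abs, Real.sq_sqrt h1]
  unfold chH
  rw [h2]
  change Real.cosh (r * cc p) + Real.exp (r * cc p) * _ / 2 = _
  have h3 : Real.exp (r * cc p) * Real.exp (-(r * cc p)) = 1 := by
    rw [← Real.exp_add, add_neg_cancel, Real.exp_zero]
  linear_combination (Real.cosh r - Real.cosh (r * cc p)) * h3

theorem lenH_PH_HF (r : ℝ) (hr : 0 ≤ r) (p : C0) : lenH (PH r p) = r := by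
  unfold lenH
  rw [chH_PH_HF r p, Real.arcosh_cosh hr]

theorem chH_inv_HF (x : S) : chH (invH x) = chH x := by
  unfold chH invH
  simp only [Real.cosh_neg, norm_neg, norm_mul, Complex.norm_real, Real.norm_eq_abs,
    abs_of_pos (Real.exp_pos x.1)]
  have h3 : Real.exp (-x.1) * Real.exp x.1 = 1 := by
    rw [← Real.exp_add, neg_add_cancel, Real.exp_zero]
  linear_combination (Real.exp x.1 * ‖x.2‖ ^ 2 / 2) * h3

theorem PH_zero_HF (p : C0) : PH 0 p = 0 := by
  unfold PH
  simp

theorem surj_HF (x : S) : ∃ p, PH (lenH x) p = x := by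
  have h0 : 0 ≤ lenH x := Real.arcosh_nonneg (one_le_chH_HF x)
  have hc := cosh_lenH_HF x
  have h1 : 0 ≤ Real.exp x.1 * ‖x.2‖ ^ 2 / 2 := by positivity
  have h2 := Real.one_le_cosh x.1
  have hle : |x.1| ≤ lenH x := by
    have h3 : Real.cosh x.1 ≤ Real.cosh (lenH x) := by
      rw [hc]
      unfold chH
      linarith
    rw [Real.cosh_le_cosh, abs_of_nonneg h0] at h3
    exact h3
  rcases h0.eq_or_lt with h | h
  · refine ⟨(0, 0), ?_⟩
    rw [← h, PH_zero_HF]
    rw [← h, Real.cosh_zero] at hc
    have h4 : x.1 = 0 := by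
      rw [← h] at hle
      exact abs_eq_zero.1 (le_antisymm hle (abs_nonneg _))
    have h5 : x.2 = 0 := by
      have h6 : Real.exp x.1 * ‖x.2‖ ^ 2 / 2 = 0 := by
        unfold chH at hc
        linarith
      have h7 : ‖x.2‖ ^ 2 = 0 := by
        have h8 := Real.exp_pos x.1
        have h9 : Real.exp x.1 * ‖x.2‖ ^ 2 = 0 := by linarith
        rcases mul_eq_zero.1 h9 with h10 | h10
        · exact absurd h10 h8.ne'
        · exact h10
      exact norm_eq_zero.1 (pow_eq_zero_iff two_ne_zero |>.1 h7)
    exact Prod.ext h4.symm h5.symm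
  · obtain ⟨v, hv⟩ := ci_surj_HF x.2
    have hab := abs_le.1 hle
    have h3 : -1 ≤ x.1 / lenH x := by
      rw [le_div_iff₀ h]
      linarith
    have h4 : x.1 / lenH x ≤ 1 := by
      rw [div_le_one h]
      exact hab.2
    refine ⟨(⟨(x.1 / lenH x + 1) / 2, by linarith, by linarith⟩, v), ?_⟩
    have hcc : cc (⟨(x.1 / lenH x + 1) / 2, by linarith, by linarith⟩, v) = x.1 / lenH x := by
      unfold cc
      change 2 * ((x.1 / lenH x + 1) / 2) - 1 = _
      ring
    have hrc : lenH x * (x.1 / lenH x) = x.1 := by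
      field_simp
    unfold PH
    rw [hcc, hrc, hc]
    refine Prod.ext rfl ?_
    change ((Real.sqrt (2 * Real.exp (-x.1) * (chH x - Real.cosh x.1)) : ℝ) : ℂ) * ci v = x.2
    have h5 : 2 * Real.exp (-x.1) * (chH x - Real.cosh x.1) = ‖x.2‖ ^ 2 := by
      unfold chH
      have h6 : Real.exp (-x.1) * Real.exp x.1 = 1 := by
        rw [← Real.exp_add, neg_add_cancel, Real.exp_zero]
      linear_combination ‖x.2‖ ^ 2 * h6
    rw [h5, Real.sqrt_sq (norm_nonneg _)]
    exact hv

theorem proper_HF (R : ℝ) : IsCompact {x | lenH x ≤ R} := by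
  have hcl : IsClosed {x | lenH x ≤ R} := isClosed_le continuous_lenH_HF continuous_const
  refine IsCompact.of_isClosed_subset
    ((isCompact_Icc (a := -R) (b := R)).prod (isCompact_closedBall (0 : ℂ)
      (Real.sqrt (2 * Real.exp R * Real.cosh R)))) hcl ?_
  intro x hx
  have hx' : lenH x ≤ R := hx
  have h0 : 0 ≤ lenH x := Real.arcosh_nonneg (one_le_chH_HF x)
  have hR : 0 ≤ R := h0.trans hx'
  have hc := cosh_lenH_HF x
  have h1 : 0 ≤ Real.exp x.1 * ‖x.2‖ ^ 2 / 2 := by positivity
  have h2 : chH x ≤ Real.cosh R := by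
    rw [← hc, Real.cosh_le_cosh, abs_of_nonneg h0, abs_of_nonneg hR]
    exact hx'
  have h3 : |x.1| ≤ R := by
    have h4 : Real.cosh x.1 ≤ Real.cosh R := by
      unfold chH at h2
      linarith
    rw [Real.cosh_le_cosh, abs_of_nonneg hR] at h4
    exact h4
  refine ⟨abs_le.1 h3, ?_⟩
  change x.2 ∈ Metric.closedBall (0 : ℂ) _
  rw [mem_closedBall_zero_iff]
  refine Real.le_sqrt_of_sq_le ?_
  have h5 : Real.exp x.1 * ‖x.2‖ ^ 2 ≤ 2 * Real.cosh R := by
    have h6 := Real.one_le_cosh x.1
    unfold chH at h2
    linarith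
  have h6 : Real.exp (-R) ≤ Real.exp x.1 := Real.exp_le_exp.2 (abs_le.1 h3).1
  have h7 : Real.exp (-R) * ‖x.2‖ ^ 2 ≤ 2 * Real.cosh R :=
    (mul_le_mul_of_nonneg_right h6 (by positivity)).trans h5
  have h8 : Real.exp R * Real.exp (-R) = 1 := by
    rw [← Real.exp_add, add_neg_cancel, Real.exp_zero]
  calc ‖x.2‖ ^ 2 = Real.exp R * (Real.exp (-R) * ‖x.2‖ ^ 2) := by
        linear_combination -(‖x.2‖ ^ 2) * h8
    _ ≤ Real.exp R * (2 * Real.cosh R) := mul_le_mul_of_nonneg_left h7 (Real.exp_pos R).le
    _ = 2 * Real.exp R * Real.cosh R := by ring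

theorem continuous_PH_HF : Continuous fun q : ℝ × C0 => PH q.1 q.2 := by
  unfold PH
  have h1 := continuous_cc
  have h2 := continuous_ci
  fun_prop

theorem inv_PH_HF (r : ℝ) (u v : I) : invH (PH r (u, v)) =
    (r * cc (unitInterval.symm u, v), (Real.sqrt (2 * Real.exp (-(r * cc (unitInterval.symm u, v))) *
      (Real.cosh r - Real.cosh (r * cc (unitInterval.symm u, v)))) : ℂ) * ((-1) * ci v)) := by
  have hcc : cc (unitInterval.symm u, v) = - cc (u, v) := by
    unfold cc
    rw [unitInterval.coe_symm_eq]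
    ring
  rw [hcc]
  unfold invH PH
  refine Prod.ext ?_ ?_
  · change -(r * cc (u, v)) = r * -cc (u, v)
    ring
  · change -((Real.exp (r * cc (u, v)) : ℂ) * (_ * ci v)) = _
    have h1 : Real.exp (r * cc (u, v)) *
        Real.sqrt (2 * Real.exp (-(r * cc (u, v))) * (Real.cosh r - Real.cosh (r * cc (u, v)))) =
        Real.sqrt (2 * Real.exp (-(r * -cc (u, v))) *
          (Real.cosh r - Real.cosh (r * -cc (u, v)))) := by
      have h2 : 2 * Real.exp (-(r * -cc (u, v))) * (Real.cosh r - Real.cosh (r * -cc (u, v))) =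
          Real.exp (r * cc (u, v)) ^ 2 *
          (2 * Real.exp (-(r * cc (u, v))) * (Real.cosh r - Real.cosh (r * cc (u, v)))) := by
        have h3 : Real.exp (r * cc (u, v)) * Real.exp (-(r * cc (u, v))) = 1 := by
          rw [← Real.exp_add, add_neg_cancel, Real.exp_zero]
        rw [mul_neg, neg_neg, Real.cosh_neg]
        linear_combination -(Real.exp (r * cc (u, v)) * 2 *
          (Real.cosh r - Real.cosh (r * cc (u, v)))) * h3
      rw [h2, Real.sqrt_mul (sq_nonneg _), Real.sqrt_sq (Real.exp_pos _).le]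
    rw [← h1]
    push_cast
    ring

theorem symm_HF (hRO : StRO) (r : ℝ) (f : S → ℝ) (hf : Continuous f) :
    ∫ p : C0, f (invH (PH r p)) = ∫ p : C0, f (PH r p) := by
  have hcP : Continuous fun p : C0 => PH r p :=
    continuous_PH_HF.comp (Continuous.prodMk_right r)
  have hci : Continuous invH := by
    unfold invH
    fun_prop
  have h1 : Integrable (fun p : C0 => f (invH (PH r p))) ((volume : Measure I).prod volume) :=
    integrable_cont _ (hf.comp (hci.comp hcP))
  have h2 : Integrable (fun p : C0 => f (PH r p)) ((volume : Measure I).prod volume) :=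
    integrable_cont _ (hf.comp hcP)
  change ∫ p, f (invH (PH r p)) ∂((volume : Measure I).prod volume) =
    ∫ p, f (PH r p) ∂((volume : Measure I).prod volume)
  rw [integral_prod _ h1, integral_prod _ h2]
  have h3 : ∀ u : I, ∫ v : I, f (invH (PH r (u, v))) =
      (fun u' : I => ∫ v : I, f (PH r (u', v))) (unitInterval.symm u) := by
    intro u
    simp only [inv_PH_HF]
    have hcc : ∀ v, cc (unitInterval.symm u, v) = cc (unitInterval.symm u, 0) := fun v => rfl
    simp only [PH, hcc]
    exact hRO (-1) (by simp) (fun z => f (r * cc (unitInterval.symm u, 0),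
      (Real.sqrt (2 * Real.exp (-(r * cc (unitInterval.symm u, 0))) *
      (Real.cosh r - Real.cosh (r * cc (unitInterval.symm u, 0)))) : ℂ) * z)) (by fun_prop)
  simp only [h3]
  exact unitInterval.measurePreserving_symm.integral_comp
    (unitInterval.symmMeasurableEquiv.measurableEmbedding) (fun u' : I => ∫ v : I, f (PH r (u', v)))

theorem right_HF (y : S) : MeasurePreserving (fun x => mulH x y) volume volume := by
  have h1 : MeasurePreserving (fun a : ℝ => a + y.1) volume volume :=
    measurePreserving_add_right volume y.1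
  have h2 : Measurable (Function.uncurry fun (a : ℝ) (c : ℂ) => c + (Real.exp (-a) : ℂ) * y.2) := by
    have : Continuous (Function.uncurry fun (a : ℝ) (c : ℂ) => c + (Real.exp (-a) : ℂ) * y.2) := by
      unfold Function.uncurry
      fun_prop
    exact this.measurable
  exact MeasurePreserving.skew_product (μc := (volume : Measure ℂ)) (μd := (volume : Measure ℂ)) h1 h2
    (Eventually.of_forall fun a => (measurePreserving_add_right (volume : Measure ℂ) _).map_eq)

theorem map_vol_HF (g : S) : (volume : Measure S).map (mulH g) =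
    ENNReal.ofReal (Real.exp (2 * g.1)) • (volume : Measure S) := by
  have h1 : MeasurePreserving (fun a : ℝ => g.1 + a) volume volume :=
    measurePreserving_add_left volume g.1
  have h2 : Measurable (Function.uncurry fun (_ : ℝ) (c : ℂ) => g.2 + (Real.exp (-g.1) : ℂ) * c) := by
    have : Continuous (Function.uncurry fun (_ : ℝ) (c : ℂ) => g.2 + (Real.exp (-g.1) : ℂ) * c) := by
      unfold Function.uncurry
      fun_prop
    exact this.measurable
  have hscal : (volume : Measure ℂ).map (fun c => g.2 + (Real.exp (-g.1) : ℂ) * c) =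
      ENNReal.ofReal (Real.exp (2 * g.1)) • (volume : Measure ℂ) := by
    have h3 : (fun c : ℂ => g.2 + (Real.exp (-g.1) : ℂ) * c) =
        (fun c => g.2 + c) ∘ fun c => Real.exp (-g.1) • c := by
      funext c
      simp [Complex.real_smul]
    rw [h3, ← Measure.map_map (measurable_const_add _) (measurable_const_smul _),
      Measure.map_addHaar_smul _ (Real.exp_pos _).ne', Measure.map_smul,
      (measurePreserving_add_left (volume : Measure ℂ) g.2).map_eq]
    congr 2
    rw [Complex.finrank_real_complex, abs_of_pos (by positivity), ← Real.exp_nat_mul, ← Real.exp_neg]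
    congr 1
    push_cast
    ring
  have h4 := MeasurePreserving.skew_product (μc := (volume : Measure ℂ))
    (μd := ENNReal.ofReal (Real.exp (2 * g.1)) • (volume : Measure ℂ)) h1 h2
    (Eventually.of_forall fun a => hscal)
  have h5 := h4.map_eq
  rw [Measure.prod_smul_right] at h5
  exact h5

theorem left_HF (g : S) : MeasurePreserving (mulH g) lvH lvH := by
  have hc : Continuous (mulH g) := by
    unfold mulH
    fun_prop
  have hd : Measurable fun x : S => ENNReal.ofReal (Real.exp (2 * x.1)) := by fun_prop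
  refine ⟨hc.measurable, ?_⟩
  ext A hA
  rw [Measure.map_apply hc.measurable hA]
  unfold lvH
  rw [withDensity_apply _ (hc.measurable hA), withDensity_apply _ hA]
  rw [← lintegral_indicator (hc.measurable hA), ← lintegral_indicator hA]
  have h1 : ∀ x : S, (mulH g ⁻¹' A).indicator (fun x : S => ENNReal.ofReal (Real.exp (2 * x.1))) x =
      (fun y : S => ENNReal.ofReal (Real.exp (-(2 * g.1))) *
        A.indicator (fun x : S => ENNReal.ofReal (Real.exp (2 * x.1))) y) (mulH g x) := by
    intro x
    by_cases hx : mulH g x ∈ A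
    · have hx' : x ∈ mulH g ⁻¹' A := hx
      simp only [indicator_of_mem hx, indicator_of_mem hx']
      rw [← ENNReal.ofReal_mul (Real.exp_pos _).le, ← Real.exp_add]
      congr 2
      change 2 * x.1 = -(2 * g.1) + 2 * (g.1 + x.1)
      ring
    · have hx' : x ∉ mulH g ⁻¹' A := hx
      simp only [indicator_of_notMem hx, indicator_of_notMem hx', mul_zero]
  simp only [h1]
  rw [← lintegral_map (f := fun y : S => ENNReal.ofReal (Real.exp (-(2 * g.1))) *
        A.indicator (fun x : S => ENNReal.ofReal (Real.exp (2 * x.1))) y)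
        ((hd.indicator hA).const_mul _) hc.measurable, map_vol_HF, lintegral_smul_measure,
    lintegral_const_mul _ (hd.indicator hA), smul_eq_mul, ← mul_assoc,
    ← ENNReal.ofReal_mul (Real.exp_pos _).le, ← Real.exp_add, add_neg_cancel, Real.exp_zero,
    ENNReal.ofReal_one, one_mul]

theorem hHF : StHF := by
  intro hRO hC
  have hloc : IsLocallyFiniteMeasure lvH :=
    IsLocallyFiniteMeasure.withDensity_ofReal (f := fun x : S => Real.exp (2 * x.1)) (by fun_prop)
  have hpos : lvH.IsOpenPosMeasure := by
    have h1 : (volume : Measure S) ≪ lvH := by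
      refine withDensity_absolutelyContinuous' (by fun_prop) (Eventually.of_forall fun x => ?_)
      exact (ENNReal.ofReal_pos.2 (Real.exp_pos _)).ne'
    exact h1.isOpenPosMeasure
  have hmulexp : ∀ a b : ℝ, (Real.exp (-(a + b)) : ℂ) = Real.exp (-a) * Real.exp (-b) := by
    intro a b
    rw [neg_add, Real.exp_add]
    push_cast
    rfl
  have hinv : ∀ a : ℝ, (Real.exp (-a) : ℂ) * Real.exp a = 1 := by
    intro a
    have h : Real.exp (-a) * Real.exp a = 1 := by
      rw [← Real.exp_add, neg_add_cancel, Real.exp_zero]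
    exact_mod_cast h
  exact ⟨{
    mul := mulH
    inv := invH
    len := lenH
    P := PH
    mul_assoc := by
      intro x y z
      unfold mulH
      refine Prod.ext ?_ ?_
      · change x.1 + y.1 + z.1 = x.1 + (y.1 + z.1)
        ring
      · change x.2 + (Real.exp (-x.1) : ℂ) * y.2 + (Real.exp (-(x.1 + y.1)) : ℂ) * z.2 =
          x.2 + (Real.exp (-x.1) : ℂ) * (y.2 + (Real.exp (-y.1) : ℂ) * z.2)
        rw [hmulexp]
        ring
    zero_mul := by
      intro x
      unfold mulH
      simp
    mul_zero := by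
      intro x
      unfold mulH
      simp
    inv_mul := by
      intro x
      unfold mulH invH
      simp
    mul_inv := by
      intro x
      unfold mulH invH
      refine Prod.ext ?_ ?_
      · change x.1 + -x.1 = 0
        ring
      · change x.2 + (Real.exp (-x.1) : ℂ) * -((Real.exp x.1 : ℂ) * x.2) = 0
        linear_combination -x.2 * hinv x.1
    cont_mul := by
      unfold mulH
      fun_prop
    cont_inv := by
      unfold invH
      fun_prop
    cont_len := continuous_lenH_HF
    len_nonneg := fun x => Real.arcosh_nonneg (one_le_chH_HF x)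
    len_inv := fun x => by
      unfold lenH
      rw [chH_inv_HF]
    proper := proper_HF
    cont_P := continuous_PH_HF
    len_P := lenH_PH_HF
    surj_P := surj_HF
    P_zero := PH_zero_HF
    comp := hC
    symm := fun r _ f hf => symm_HF hRO r f hf
    right_inv := right_HF
    lv := lvH
    lv_reg := inferInstance
    lv_pos := hpos
    left_inv := left_HF }, rfl, rfl, rfl, rfl, rfl⟩

end Pool.Agent.Helper94.CM
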