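import Pool.Agent.Helper94.CM.St

/-!
# Project CM, module HS: hyperbolic and euclidean triangles
-/

set_option autoImplicit false

namespace Pool.Agent.Helper94.CM

open MeasureTheory Set
open scoped unitInterval

private theorem int_I_HS (F : ℝ → ℝ) : ∫ g : I, F g = ∫ y in (0 : ℝ)..1, F y := by
  rw [intervalIntegral.integral_of_le zero_le_one, ← integral_Icc_eq_integral_Ioc,
    ← integral_subtype measurableSet_Icc F]

private theorem sc_mul_sinh_HS (t : ℝ) : sc t * Real.sinh t = t := by
  unfold sc
  split_ifs with h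
  · rw [h]; simp
  · have h1 : Real.sinh t ≠ 0 := fun h2 => h (Real.sinh_eq_zero.1 h2)
    field_simp

/-- the common change of variables -/
private theorem cov_HS (a b : ℝ) (hab : a ≤ b) (ha : 0 ≤ a) (f f' q H : ℝ → ℝ)
    (hf : ∀ x, HasDerivAt f (f' x) x) (hf' : ∀ x, 0 ≤ x → 0 ≤ f' x) (h0 : f a = 0) (h1 : f b = 1)
    (hq : ∀ t, 0 ≤ t → q (f t) = t) :
    ∫ g : I, H (q g) = ∫ t in a..b, H t * f' t := by
  rw [int_I_HS (fun y => H (q y))]
  have h := intervalIntegral.integral_comp_mul_deriv_of_deriv_nonneg (a := a) (b := b) (f := f)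
    (f' := f') (g := fun y => H (q y)) (fun x _ => (hf x).continuousAt.continuousWithinAt)
    (fun x _ => hf x) (fun x hx => by
      rw [min_eq_left hab, max_eq_right hab] at hx
      exact hf' x (ha.trans hx.1.le))
  rw [h0, h1] at h
  rw [← h]
  apply intervalIntegral.integral_congr
  intro t ht
  rw [uIcc_of_le hab] at ht
  have ht0 : 0 ≤ t := ha.trans ht.1
  simp only [Function.comp_apply]
  rw [hq t ht0]

theorem hHS : StHS := by
  intro r s hr hs G _
  rcases hr.eq_or_lt with h0 | hr0
  · subst h0
    have h1 : ∀ g : I, tH 0 s g = s := by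
      intro g
      unfold tH
      rw [Real.cosh_zero, Real.sinh_zero, one_mul, zero_mul, zero_mul, add_zero, Real.arcosh_cosh hs]
    have h2 : ∀ g : I, tt 0 s g = s := by
      intro g
      unfold tt
      have : (0 : ℝ) ^ 2 + s ^ 2 + 2 * 0 * s * (2 * (g : ℝ) - 1) = s ^ 2 := by ring
      rw [this, Real.sqrt_sq hs]
    simp only [h1, h2]
    simp [sc]
  rcases hs.eq_or_lt with h0 | hs0
  · subst h0
    have h1 : ∀ g : I, tH r 0 g = r := by
      intro g
      unfold tH
      rw [Real.cosh_zero, Real.sinh_zero, mul_one, mul_zero, zero_mul, add_zero, Real.arcosh_cosh hr]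
    have h2 : ∀ g : I, tt r 0 g = r := by
      intro g
      unfold tt
      have : r ^ 2 + (0 : ℝ) ^ 2 + 2 * r * 0 * (2 * (g : ℝ) - 1) = r ^ 2 := by ring
      rw [this, Real.sqrt_sq hr]
    simp only [h1, h2]
    simp [sc]
  have hab : |r - s| ≤ r + s := by
    rw [abs_le]; constructor <;> linarith
  have ha : 0 ≤ |r - s| := abs_nonneg _
  have hS : 0 < Real.sinh r * Real.sinh s := mul_pos (Real.sinh_pos_iff.2 hr0) (Real.sinh_pos_iff.2 hs0)
  have hsr : Real.sinh r ≠ 0 := (Real.sinh_pos_iff.2 hr0).ne'
  have hss : Real.sinh s ≠ 0 := (Real.sinh_pos_iff.2 hs0).ne'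
  have hcm : Real.cosh (r - s) = Real.cosh r * Real.cosh s - Real.sinh r * Real.sinh s := Real.cosh_sub r s
  have hcp : Real.cosh (r + s) = Real.cosh r * Real.cosh s + Real.sinh r * Real.sinh s := Real.cosh_add r s
  -- euclidean side
  have hE : ∫ g : I, G (tt r s g) = ∫ t in |r - s|..(r + s), G t * (t / (2 * r * s)) := by
    refine cov_HS (|r - s|) (r + s) hab ha (fun t => (t ^ 2 - (r - s) ^ 2) / (4 * r * s))
      (fun t => t / (2 * r * s)) (fun y => Real.sqrt (r ^ 2 + s ^ 2 + 2 * r * s * (2 * y - 1))) G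
      ?_ ?_ ?_ ?_ ?_
    · intro x
      have h1 : HasDerivAt (fun t : ℝ => t ^ 2 - (r - s) ^ 2) (2 * x) x := by
        have := (hasDerivAt_pow 2 x).sub_const ((r - s) ^ 2)
        simpa using this
      have h2 := h1.div_const (4 * r * s)
      have h3 : 2 * x / (4 * r * s) = x / (2 * r * s) := by
        rw [div_eq_div_iff (by positivity) (by positivity)]
        ring
      rwa [h3] at h2
    · intro x hx
      positivity
    · simp only [sq_abs, sub_self, zero_div]
    · rw [div_eq_one_iff_eq (by positivity)]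
      ring
    · intro t ht
      have : r ^ 2 + s ^ 2 + 2 * r * s * (2 * ((t ^ 2 - (r - s) ^ 2) / (4 * r * s)) - 1) = t ^ 2 := by
        field_simp
        ring
      rw [this, Real.sqrt_sq ht]
  -- hyperbolic side
  have hH : ∫ g : I, sc (tH r s g) * G (tH r s g) =
      ∫ t in |r - s|..(r + s), sc t * G t * (Real.sinh t / (2 * (Real.sinh r * Real.sinh s))) := by
    refine cov_HS (|r - s|) (r + s) hab ha
      (fun t => (Real.cosh t - Real.cosh (r - s)) / (2 * (Real.sinh r * Real.sinh s)))
      (fun t => Real.sinh t / (2 * (Real.sinh r * Real.sinh s)))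
      (fun y => Real.arcosh (Real.cosh r * Real.cosh s + Real.sinh r * Real.sinh s * (2 * y - 1)))
      (fun t => sc t * G t) ?_ ?_ ?_ ?_ ?_
    · intro x
      exact ((Real.hasDerivAt_cosh x).sub_const _).div_const _
    · intro x hx
      have := Real.sinh_nonneg_iff.2 hx
      positivity
    · simp only [Real.cosh_abs, sub_self, zero_div]
    · rw [div_eq_one_iff_eq (by positivity), hcp, hcm]
      ring
    · intro t ht
      have : Real.cosh r * Real.cosh s + Real.sinh r * Real.sinh s *
          (2 * ((Real.cosh t - Real.cosh (r - s)) / (2 * (Real.sinh r * Real.sinh s))) - 1) = Real.cosh t := by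
        rw [hcm]
        field_simp
        ring
      rw [this, Real.arcosh_cosh ht]
  rw [hE, hH, ← intervalIntegral.integral_const_mul]
  apply intervalIntegral.integral_congr
  intro t _
  simp only
  have h1 := sc_mul_sinh_HS t
  have h2 : sc r = r / Real.sinh r := by unfold sc; rw [if_neg hr0.ne']
  have h3 : sc s = s / Real.sinh s := by unfold sc; rw [if_neg hs0.ne']
  rw [h2, h3]
  have h4 : sc t * G t * (Real.sinh t / (2 * (Real.sinh r * Real.sinh s))) =
      (sc t * Real.sinh t) * G t / (2 * (Real.sinh r * Real.sinh s)) := by ring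
  rw [h4, h1]
  field_simp

end Pool.Agent.Helper94.CM
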