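import Pool.Agent.Helper94.CM.St

set_option autoImplicit false

namespace Pool.Agent.Helper94.CM

open MeasureTheory TopologicalSpace Set Filter Topology Matrix Pool.Agent.Helper95.CAS
open scoped unitInterval

namespace HU

/-- the `0 0` entry, made positive -/
noncomputable def mx (r : ℝ) (ν : S) : ℝ := max (Real.exp (-r)) (Real.cosh r + Real.sinh r * ν.1)

/-- continuous version of `ν ↦ Psi (mat (cosh r) (sinh r • ν))` -/
noncomputable def Wc (r : ℝ) (ν : S) : S :=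
  (Real.log (mx r ν), ((Real.sinh r / mx r ν : ℝ) : ℂ) * ν.2)

theorem mx_pos (r : ℝ) (ν : S) : 0 < mx r ν := lt_max_of_lt_left (Real.exp_pos _)

theorem cont_mx : Continuous fun p : ℝ × S => mx p.1 p.2 := by
  unfold mx
  fun_prop

theorem cont_Wc : Continuous fun p : ℝ × S => Wc p.1 p.2 := by
  unfold Wc
  have h := cont_mx
  refine Continuous.prodMk (h.log fun p => (mx_pos _ _).ne') ?_
  refine Continuous.mul ?_ (by fun_prop)
  exact Complex.continuous_ofReal.comp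
    ((by fun_prop : Continuous fun p : ℝ × S => Real.sinh p.1).div h fun p => (mx_pos _ _).ne')

theorem lower (r : ℝ) (hr : 0 ≤ r) (c : ℝ) (hc : -1 ≤ c) :
    Real.exp (-r) ≤ Real.cosh r + Real.sinh r * c := by
  have h1 : Real.exp (-r) = Real.cosh r - Real.sinh r := (Real.cosh_sub_sinh r).symm
  have h2 : 0 ≤ Real.sinh r := Real.sinh_nonneg_iff.2 hr
  nlinarith

theorem mat00 (α ρ : ℝ) (ν : S) : (mat α (ρ • ν)) 0 0 = ((α + ρ * ν.1 : ℝ) : ℂ) := by
  simp [mat]

theorem mat10 (α ρ : ℝ) (ν : S) : (mat α (ρ • ν)) 1 0 = (ρ : ℂ) * ν.2 := by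
  simp [mat]

theorem psi_mat (r : ℝ) (hr : 0 ≤ r) (ν : S) (hν : -1 ≤ ν.1) :
    Psi (mat (Real.cosh r) (Real.sinh r • ν)) = Wc r ν := by
  have h1 : mx r ν = Real.cosh r + Real.sinh r * ν.1 := max_eq_right (lower r hr _ hν)
  unfold Psi Wc
  rw [mat00, mat10, ← h1, Complex.ofReal_re]
  congr 1
  push_cast
  ring

theorem sph_fst (p : C0) : -1 ≤ (sph p).1 := (cc_mem p).1

theorem QH_eq (r : ℝ) (hr : 0 ≤ r) (p : C0) : QH r p = Wc r (sph p) := psi_mat r hr _ (sph_fst p)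

/-- claim A -/
theorem claimA (x : S) (Y : Matrix (Fin 2) (Fin 2) ℂ) (y : ℝ) (hy : 0 < y) (hY : Y 0 0 = (y : ℂ)) :
    mulH x (Psi Y) = Psi (Lw x * Y * (Lw x)ᴴ) := by
  have he : Real.exp (x.1 / 2) * Real.exp (x.1 / 2) = Real.exp x.1 := by
    rw [← Real.exp_add]; ring_nf
  have he' : Real.exp (x.1 / 2) * Real.exp (-(x.1 / 2)) = 1 := by
    rw [← Real.exp_add]; simp
  have hc1 : ((Real.exp (x.1 / 2) : ℝ) : ℂ) * ((Real.exp (x.1 / 2) : ℝ) : ℂ) = ((Real.exp x.1 : ℝ) : ℂ) := by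
    rw [← he]; push_cast; ring
  have hc2 : ((Real.exp (x.1 / 2) : ℝ) : ℂ) * ((Real.exp (-(x.1 / 2)) : ℝ) : ℂ) = 1 := by
    rw [← Complex.ofReal_mul, he']; simp
  have h00 : (Lw x * Y * (Lw x)ᴴ) 0 0 = ((Real.exp x.1 * y : ℝ) : ℂ) := by
    rw [Matrix.mul_apply, Fin.sum_univ_two, Matrix.mul_apply, Matrix.mul_apply, Fin.sum_univ_two, Fin.sum_univ_two]
    simp only [Matrix.conjTranspose_apply, Lw, Matrix.of_apply, Matrix.cons_val', Matrix.cons_val_zero,
      Matrix.cons_val_one, Matrix.cons_val_fin_one, hY]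
    simp only [Complex.star_def, Complex.conj_ofReal, map_zero, mul_zero, zero_mul, add_zero]
    push_cast
    rw [← Complex.ofReal_exp, ← hc1]
    push_cast
    ring
  have h10 : (Lw x * Y * (Lw x)ᴴ) 1 0 = ((Real.exp x.1 * y : ℝ) : ℂ) * x.2 + Y 1 0 := by
    rw [Matrix.mul_apply, Fin.sum_univ_two, Matrix.mul_apply, Matrix.mul_apply, Fin.sum_univ_two, Fin.sum_univ_two]
    simp only [Matrix.conjTranspose_apply, Lw, Matrix.of_apply, Matrix.cons_val', Matrix.cons_val_zero,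
      Matrix.cons_val_one, Matrix.cons_val_fin_one, hY]
    simp only [Complex.star_def, Complex.conj_ofReal, map_zero, mul_zero, add_zero]
    rw [Complex.ofReal_mul, ← hc1]
    linear_combination (Y 1 0) * hc2
  unfold Psi mulH
  rw [h00, h10, hY, Complex.ofReal_re, Complex.ofReal_re]
  have hx : (0 : ℝ) < Real.exp x.1 := Real.exp_pos _
  refine Prod.ext ?_ ?_
  · change x.1 + Real.log y = Real.log (Real.exp x.1 * y)
    rw [Real.log_mul hx.ne' hy.ne', Real.log_exp]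
  · change x.2 + (Real.exp (-x.1) : ℂ) * (Y 1 0 / (y : ℂ)) = (((Real.exp x.1 * y : ℝ) : ℂ) * x.2 + Y 1 0) / ((Real.exp x.1 * y : ℝ) : ℂ)
    have h1 : ((Real.exp x.1 : ℝ) : ℂ) ≠ 0 := Complex.ofReal_ne_zero.2 hx.ne'
    have h2 : (y : ℂ) ≠ 0 := Complex.ofReal_ne_zero.2 hy.ne'
    rw [Real.exp_neg, Complex.ofReal_inv, Complex.ofReal_mul]
    field_simp

/-- the matrix `diag (e^(r/2), e^(-r/2))` -/
noncomputable def aa (r : ℝ) : Matrix (Fin 2) (Fin 2) ℂ :=
  !![((Real.exp (r / 2) : ℝ) : ℂ), 0; 0, ((Real.exp (-(r / 2)) : ℝ) : ℂ)]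

theorem ehalf (r : ℝ) : ((Real.exp (r / 2) : ℝ) : ℂ) * ((Real.exp (r / 2) : ℝ) : ℂ) =
    ((Real.cosh r + Real.sinh r : ℝ) : ℂ) := by
  rw [← Complex.ofReal_mul, ← Real.exp_add, Real.cosh_add_sinh]
  ring_nf

theorem ehalf' (r : ℝ) : ((Real.exp (-(r / 2)) : ℝ) : ℂ) * ((Real.exp (-(r / 2)) : ℝ) : ℂ) =
    ((Real.cosh r - Real.sinh r : ℝ) : ℂ) := by
  rw [← Complex.ofReal_mul, ← Real.exp_add, Real.cosh_sub_sinh]
  ring_nf

theorem ehalf1 (r : ℝ) : ((Real.exp (r / 2) : ℝ) : ℂ) * ((Real.exp (-(r / 2)) : ℝ) : ℂ) = 1 := by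
  rw [← Complex.ofReal_mul, ← Real.exp_add]
  simp

theorem aa_herm (r : ℝ) : (aa r)ᴴ = aa r := by
  ext i j
  fin_cases i <;> fin_cases j <;>
    simp only [aa, Matrix.conjTranspose_apply, Matrix.of_apply, Matrix.cons_val', Matrix.cons_val_zero,
      Matrix.cons_val_one, Matrix.cons_val_fin_one, Fin.zero_eta, Fin.mk_one, Complex.star_def,
      Complex.conj_ofReal, map_zero]

theorem aa_mul (r : ℝ) : aa r * aa (-r) = 1 := by
  have h := ehalf1 r
  have h2 : -r / 2 = -(r / 2) := by ring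
  have h3 : -(-(r / 2)) = r / 2 := by ring
  ext i j
  fin_cases i <;> fin_cases j <;> simp only [aa, Matrix.mul_apply, Fin.sum_univ_two, h2, h3] <;>
    simp only [Matrix.of_apply, Matrix.cons_val', Matrix.cons_val_zero, Matrix.cons_val_one,
      Matrix.cons_val_fin_one, Fin.zero_eta, Fin.mk_one, mul_zero, zero_mul, add_zero, zero_add]
  · rw [h]; simp
  · simp
  · simp
  · rw [mul_comm, h]; simp

theorem aa_mid (r α : ℝ) (ν : S) : aa r * mat α ν * aa r =
    mat (Real.cosh r * α + Real.sinh r * ν.1) (Real.sinh r * α + Real.cosh r * ν.1, ν.2) := by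
  have h := ehalf1 r
  have h1 := ehalf r
  have h2 := ehalf' r
  ext i j
  fin_cases i <;> fin_cases j <;>
    simp only [aa, mat, Matrix.mul_apply, Fin.sum_univ_two] <;>
    simp only [Matrix.of_apply, Matrix.cons_val', Matrix.cons_val_zero, Matrix.cons_val_one,
      Matrix.cons_val_fin_one, Fin.zero_eta, Fin.mk_one, mul_zero, zero_mul, add_zero, zero_add]
  · push_cast at h1 ⊢
    linear_combination (α + ν.1 : ℂ) * h1
  · linear_combination ((starRingEnd ℂ) ν.2) * h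
  · linear_combination (ν.2) * h
  · push_cast at h2 ⊢
    linear_combination (α - ν.1 : ℂ) * h2

theorem aa_sq (r : ℝ) : aa r * aa r = mat (Real.cosh r) (Real.sinh r • ((1, 0) : S)) := by
  have h := ehalf r
  have h' := ehalf' r
  ext i j
  fin_cases i <;> fin_cases j <;>
    simp only [aa, mat, Matrix.mul_apply, Fin.sum_univ_two] <;>
    simp only [Matrix.of_apply, Matrix.cons_val', Matrix.cons_val_zero, Matrix.cons_val_one,
      Matrix.cons_val_fin_one, Fin.zero_eta, Fin.mk_one, mul_zero, zero_mul, add_zero, zero_add]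
  · rw [h]; simp
  · simp
  · simp
  · rw [h']; simp

/-- `Lw (Psi X) (Lw (Psi X))ᴴ = X` -/
theorem lw_psi (α : ℝ) (ν : S) (h0 : 0 < α + ν.1) (h1 : α ^ 2 - ν.1 ^ 2 - ‖ν.2‖ ^ 2 = 1) :
    Lw (Psi (mat α ν)) * (Lw (Psi (mat α ν)))ᴴ = mat α ν := by
  have e1 : Psi (mat α ν) = (Real.log (α + ν.1), ν.2 / ((α + ν.1 : ℝ) : ℂ)) := by
    simp [Psi, mat]
  set y := α + ν.1 with hy
  have hyc : (y : ℂ) ≠ 0 := Complex.ofReal_ne_zero.2 h0.ne'
  have he : Real.exp (Real.log y / 2) * Real.exp (Real.log y / 2) = y := by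
    rw [← Real.exp_add, add_halves, Real.exp_log h0]
  have he' : Real.exp (-(Real.log y / 2)) * Real.exp (-(Real.log y / 2)) = y⁻¹ := by
    rw [← Real.exp_add, ← neg_add, add_halves, Real.exp_neg, Real.exp_log h0]
  have hec : ((Real.exp (Real.log y / 2) : ℝ) : ℂ) * ((Real.exp (Real.log y / 2) : ℝ) : ℂ) = (y : ℂ) := by
    rw [← Complex.ofReal_mul, he]
  have hec' : ((Real.exp (-(Real.log y / 2)) : ℝ) : ℂ) * ((Real.exp (-(Real.log y / 2)) : ℝ) : ℂ) = (y : ℂ)⁻¹ := by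
    rw [← Complex.ofReal_mul, he', Complex.ofReal_inv]
  have hn : ν.2 * (starRingEnd ℂ) ν.2 = ((y * (α - ν.1) - 1 : ℝ) : ℂ) := by
    rw [Complex.mul_conj, Complex.normSq_eq_norm_sq]
    congr 1
    rw [hy]
    linarith
  rw [e1]
  ext i j
  fin_cases i <;> fin_cases j <;>
    simp only [Lw, mat, Matrix.mul_apply, Fin.sum_univ_two, Matrix.conjTranspose_apply] <;>
    simp only [Matrix.of_apply, Matrix.cons_val', Matrix.cons_val_zero, Matrix.cons_val_one,
      Matrix.cons_val_fin_one, Fin.zero_eta, Fin.mk_one, mul_zero, zero_mul, add_zero,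
      Complex.star_def, Complex.conj_ofReal, map_zero, map_mul, map_div₀]
  · exact hec
  · have h3 : ((Real.exp (Real.log y / 2) : ℝ) : ℂ) * ((Real.exp (Real.log y / 2) : ℝ) : ℂ) *
        ((starRingEnd ℂ) ν.2 / (y : ℂ)) = (starRingEnd ℂ) ν.2 := by
      rw [hec]
      field_simp
    linear_combination h3
  · have h3 : ((Real.exp (Real.log y / 2) : ℝ) : ℂ) * ((Real.exp (Real.log y / 2) : ℝ) : ℂ) *
        (ν.2 / (y : ℂ)) = ν.2 := by
      rw [hec]
      field_simp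
    linear_combination h3
  · have h4 : ((α - ν.1 : ℝ) : ℂ) = (ν.2 * (starRingEnd ℂ) ν.2) / (y : ℂ) + (y : ℂ)⁻¹ := by
      rw [hn]
      push_cast
      field_simp
      ring
    have h3 : ((Real.exp (Real.log y / 2) : ℝ) : ℂ) * ((Real.exp (Real.log y / 2) : ℝ) : ℂ) *
        (ν.2 / (y : ℂ)) * ((starRingEnd ℂ) ν.2 / (y : ℂ)) = (ν.2 * (starRingEnd ℂ) ν.2) / (y : ℂ) := by
      rw [hec]
      field_simp
    rw [h4, hec']
    linear_combination h3

/-- the point `Psi (k a M a k*)` -/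
noncomputable def Ph (r s : ℝ) (k k' : K) : S :=
  Psi (k.1 * (aa r * mat (Real.cosh s) (Real.sinh s • nn k') * aa r) * (k.1)ᴴ)

/-- `cosh` of the third side -/
noncomputable def Ch (r s c : ℝ) : ℝ := Real.cosh r * Real.cosh s + Real.sinh r * Real.sinh s * c

theorem Ch_ge (r s c : ℝ) (hr : 0 ≤ r) (hs : 0 ≤ s) (hc : -1 ≤ c) : 1 ≤ Ch r s c := by
  have h1 := Real.one_le_cosh (r - s)
  rw [Real.cosh_sub] at h1
  have h2 : 0 ≤ Real.sinh r * Real.sinh s :=
    mul_nonneg (Real.sinh_nonneg_iff.2 hr) (Real.sinh_nonneg_iff.2 hs)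
  unfold Ch
  nlinarith

theorem abs_le_of_sq {n : S} (h : n.1 ^ 2 + ‖n.2‖ ^ 2 = 1) : -1 ≤ n.1 := by
  nlinarith [sq_nonneg ‖n.2‖, sq_nonneg (n.1 - 1), sq_nonneg (n.1 + 1)]

theorem norm_smul_sq (ρ : ℝ) (ν : S) : ‖(ρ • ν).2‖ ^ 2 = ρ ^ 2 * ‖ν.2‖ ^ 2 := by
  rw [Prod.smul_snd, norm_smul, mul_pow, Real.norm_eq_abs, sq_abs]

theorem mulVec_unit (k : K) : (k.1)ᴴ * k.1 = 1 := (Unitary.mem_iff.1 k.2).1

theorem mulVec_unit' (k : K) : k.1 * (k.1)ᴴ = 1 := (Unitary.mem_iff.1 k.2).2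

/-- claim C -/
theorem claimC (hTR : StTR) (r s : ℝ) (hr : 0 ≤ r) (hs : 0 ≤ s) (k' : K) : ∃ u : K, ∀ k : K,
    k.1 * (aa r * mat (Real.cosh s) (Real.sinh s • nn k') * aa r) * (k.1)ᴴ =
      mat (Real.cosh (Real.arcosh (Ch r s (nn k').1)))
        (Real.sinh (Real.arcosh (Ch r s (nn k').1)) • nn (k * u)) := by
  obtain ⟨h1, h2, h3, h4, h5, h6⟩ := hTR
  have hn := h2 k'
  have hC := Ch_ge r s (nn k').1 hr hs (abs_le_of_sq hn)
  set C := Ch r s (nn k').1 with hCd
  have e1 := Real.cosh_arcosh hC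
  have e2 := Real.sinh_arcosh hC
  have hcs := Real.cosh_sq s
  have hcr := Real.cosh_sq r
  set ν : S := (Real.sinh r * Real.cosh s + Real.cosh r * (Real.sinh s • nn k').1, (Real.sinh s • nn k').2) with hν
  have hν2 : ‖ν.2‖ ^ 2 = Real.sinh s ^ 2 * ‖(nn k').2‖ ^ 2 := norm_smul_sq _ _
  have hν1 : ν.1 = Real.sinh r * Real.cosh s + Real.cosh r * (Real.sinh s * (nn k').1) := by
    simp [hν]
  have e3 : ν.1 ^ 2 + ‖ν.2‖ ^ 2 = Real.sinh (Real.arcosh C) ^ 2 := by
    rw [e2, Real.sq_sqrt (by nlinarith), hν2, hν1, hCd, Ch]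
    have h7 : ‖(nn k').2‖ ^ 2 = 1 - (nn k').1 ^ 2 := by linarith
    rw [h7]
    linear_combination (Real.sinh s ^ 2 * (nn k').1 ^ 2 - Real.cosh s ^ 2) * hcr - hcs
  obtain ⟨u, hu⟩ := h4 ν (Real.sinh (Real.arcosh C)) (Real.sinh_nonneg_iff.2 (Real.arcosh_nonneg hC)) e3
  refine ⟨u, fun k => ?_⟩
  rw [← h3 k u, aa_mid, ← hu, e1]
  congr 3
  · simp [hCd, Ch]
    ring

/-- claim B -/
theorem claimB (hTR : StTR) (r s : ℝ) (hr : 0 ≤ r) (hs : 0 ≤ s) (k : K) : ∃ k₀ : K, ∀ k' : K,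
    mulH (Wc r (nn k)) (Wc s (nn k')) = Ph r s k (k₀ * k') := by
  obtain ⟨h1, h2, h3, h4, h5, h6⟩ := hTR
  have hX : k.1 * (aa r * aa r) * (k.1)ᴴ = mat (Real.cosh r) (Real.sinh r • nn k) := by
    rw [aa_sq, ← h5, h3, mul_one]
  have hn := h2 k
  have hpm := psi_mat r hr (nn k) (abs_le_of_sq hn)
  have hL : Lw (Wc r (nn k)) * (Lw (Wc r (nn k)))ᴴ = mat (Real.cosh r) (Real.sinh r • nn k) := by
    rw [← hpm]
    refine lw_psi _ _ ?_ ?_
    · have h7 := lower r hr (nn k).1 (abs_le_of_sq hn)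
      have h8 := Real.exp_pos (-r)
      have h9 : (Real.sinh r • nn k).1 = Real.sinh r * (nn k).1 := by simp
      rw [h9]
      linarith
    · have h7 := Real.cosh_sq r
      have h8 : ‖(Real.sinh r • nn k).2‖ ^ 2 = Real.sinh r ^ 2 * ‖(nn k).2‖ ^ 2 := norm_smul_sq _ _
      have h9 : (Real.sinh r • nn k).1 = Real.sinh r * (nn k).1 := by simp
      rw [h8, h9]
      nlinarith
  have haa := aa_mul r
  have haa' : aa (-r) * aa r = 1 := mul_eq_one_comm.1 haa
  set A := aa (-r) * (k.1)ᴴ * Lw (Wc r (nn k)) with hA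
  have hAA : A * Aᴴ = 1 := by
    have e1 : A * Aᴴ = aa (-r) * (k.1)ᴴ * (Lw (Wc r (nn k)) * (Lw (Wc r (nn k)))ᴴ) * k.1 * aa (-r) := by
      rw [hA]
      simp only [Matrix.conjTranspose_mul, Matrix.conjTranspose_conjTranspose, aa_herm, Matrix.mul_assoc]
    rw [e1, hL, ← hX]
    have e2 : aa (-r) * (k.1)ᴴ * (k.1 * (aa r * aa r) * (k.1)ᴴ) * k.1 * aa (-r) =
        aa (-r) * ((k.1)ᴴ * k.1) * (aa r * aa r) * ((k.1)ᴴ * k.1) * aa (-r) := by
      simp only [Matrix.mul_assoc]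
    rw [e2, mulVec_unit]
    have e3 : aa (-r) * 1 * (aa r * aa r) * 1 * aa (-r) = (aa (-r) * aa r) * (aa r * aa (-r)) := by
      simp only [Matrix.mul_assoc, mul_one]
    rw [e3, haa, haa', mul_one]
  have hAK : A ∈ unitary (Matrix (Fin 2) (Fin 2) ℂ) := Matrix.mem_unitaryGroup_iff.2 hAA
  refine ⟨⟨A, hAK⟩, fun k' => ?_⟩
  have hgA : k.1 * aa r * A = Lw (Wc r (nn k)) := by
    have e1 : k.1 * aa r * A = k.1 * (aa r * aa (-r)) * (k.1)ᴴ * Lw (Wc r (nn k)) := by
      rw [hA]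
      simp only [Matrix.mul_assoc]
    rw [e1, haa, mul_one, mulVec_unit', one_mul]
  rw [← psi_mat s hs (nn k') (abs_le_of_sq (h2 k')),
    claimA _ _ (Real.cosh s + Real.sinh s * (nn k').1) ?_ (mat00 _ _ _)]
  · unfold Ph
    congr 1
    have e1 := h3 ⟨A, hAK⟩ k' (Real.cosh s) (Real.sinh s)
    rw [← e1, ← hgA]
    simp only [Matrix.conjTranspose_mul, aa_herm, Matrix.mul_assoc]
  · have h7 := lower s hs (nn k').1 (abs_le_of_sq (h2 k'))
    have h8 := Real.exp_pos (-s)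
    linarith

/-- the third side as a continuous function -/
noncomputable def Tc (r s c : ℝ) : ℝ := Real.arcosh (max 1 (Ch r s c))

theorem cont_Tc (r s : ℝ) : Continuous fun c => Tc r s c := by
  unfold Tc Ch
  refine Real.continuousOn_arcosh.comp_continuous (by fun_prop) fun c => ?_
  exact Set.mem_Ici.2 (le_max_left _ _)

theorem Tc_nonneg (r s c : ℝ) : 0 ≤ Tc r s c := Real.arcosh_nonneg (le_max_left _ _)

theorem Tc_eq (r s c : ℝ) (hr : 0 ≤ r) (hs : 0 ≤ s) (hc : -1 ≤ c) : Tc r s c = Real.arcosh (Ch r s c) := by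
  unfold Tc
  rw [max_eq_right (Ch_ge r s c hr hs hc)]

theorem cont_mat (r : ℝ) : Continuous fun ν : S => mat (Real.cosh r) (Real.sinh r • ν) := by
  unfold mat
  refine continuous_matrix fun i j => ?_
  fin_cases i <;> fin_cases j <;>
    simp only [Matrix.of_apply, Matrix.cons_val', Matrix.cons_val_zero, Matrix.cons_val_one,
      Matrix.cons_val_fin_one, Fin.zero_eta, Fin.mk_one] <;> fun_prop

theorem cont_Ph (hTR : StTR) (r s : ℝ) (hr : 0 ≤ r) (hs : 0 ≤ s) :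
    Continuous fun p : K × K => Ph r s p.1 p.2 := by
  have h6 : Continuous nn := hTR.2.2.2.2.2
  have h2 := hTR.2.1
  set Y : K × K → Matrix (Fin 2) (Fin 2) ℂ := fun p =>
    p.1.1 * (aa r * mat (Real.cosh s) (Real.sinh s • nn p.2) * aa r) * (p.1.1)ᴴ with hY
  have hYc : Continuous Y := by
    have e1 : Continuous fun p : K × K => mat (Real.cosh s) (Real.sinh s • nn p.2) :=
      (cont_mat s).comp (h6.comp continuous_snd)
    have e2 : Continuous fun p : K × K => (p.1.1 : Matrix (Fin 2) (Fin 2) ℂ) :=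
      continuous_subtype_val.comp continuous_fst
    have e3 : Continuous fun p : K × K => (p.1.1 : Matrix (Fin 2) (Fin 2) ℂ)ᴴ := e2.matrix_conjTranspose
    exact (e2.mul ((continuous_const.mul e1).mul continuous_const)).mul e3
  have h00 : ∀ p : K × K, ∃ y : ℝ, 0 < y ∧ Y p 0 0 = (y : ℂ) := by
    intro p
    obtain ⟨u, hu⟩ := claimC hTR r s hr hs p.2
    refine ⟨_, ?_, by rw [hY]; simp only; rw [hu p.1]; exact mat00 _ _ _⟩
    have h7 := lower (Real.arcosh (Ch r s (nn p.2).1))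
      (Real.arcosh_nonneg (Ch_ge r s _ hr hs (abs_le_of_sq (h2 p.2)))) _ (abs_le_of_sq (h2 (p.1 * u)))
    exact (Real.exp_pos _).trans_le h7
  have c0 : Continuous fun p => Y p 0 0 := hYc.matrix_elem 0 0
  have c1 : Continuous fun p => Y p 1 0 := hYc.matrix_elem 1 0
  change Continuous fun p : K × K => Psi (Y p)
  unfold Psi
  refine Continuous.prodMk ((Complex.continuous_re.comp c0).log fun p => ?_) (c1.div c0 fun p => ?_)
  · obtain ⟨y, hy, h⟩ := h00 p
    change (Y p 0 0).re ≠ 0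
    rw [h, Complex.ofReal_re]
    exact hy.ne'
  · obtain ⟨y, hy, h⟩ := h00 p
    rw [h]
    exact Complex.ofReal_ne_zero.2 hy.ne'

theorem cont_Ph_right (hTR : StTR) (r s : ℝ) (hr : 0 ≤ r) (hs : 0 ≤ s) (k : K) :
    Continuous fun k' : K => Ph r s k k' := by
  have h := cont_Ph hTR r s hr hs
  have h2 : Continuous fun k' : K => ((k, k') : K × K) := Continuous.prodMk_right k
  have h3 := Continuous.comp h h2
  have h4 : (fun k' : K => Ph r s k k') = ((fun p : K × K => Ph r s p.1 p.2) ∘ fun k' : K => ((k, k') : K × K)) := by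
    funext k'
    simp only [Function.comp]
  rw [h4]
  exact h3

theorem swapK (μ : Measure K) [IsFiniteMeasure μ] [CompactSpace K] (g : K × K → ℝ) (hg : Continuous g) :
    ∫ k, ∫ k', g (k, k') ∂μ ∂μ = ∫ k', ∫ k, g (k, k') ∂μ ∂μ := by
  refine integral_integral_swap_of_hasCompactSupport (f := fun k k' => g (k, k')) ?_ ?_
  · exact hg
  · exact isClosed_closure.isCompact

end HU


open HU in
theorem hHU : StHU := by
  intro hTR μ hμ hK hB r s hr hs f hf
  obtain ⟨hprob, hL, hR⟩ := hμ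
  have := hprob
  have := hK
  have h6 : Continuous nn := hTR.2.2.2.2.2
  have h2 := hTR.2.1
  -- multiplication is continuous
  have hmul : Continuous fun p : S × S => mulH p.1 p.2 := by
    unfold mulH
    fun_prop
  have hW : ∀ t : ℝ, Continuous fun ν : S => Wc t ν := fun t =>
    cont_Wc.comp (continuous_const.prodMk continuous_id)
  have hF0 : Continuous fun p : S × S => f (mulH (Wc r p.1) (Wc s p.2)) :=
    hf.comp (hmul.comp (((hW r).comp continuous_fst).prodMk ((hW s).comp continuous_snd)))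
  -- step 1: to the group
  have s1 : ∫ p : C0, ∫ q : C0, f (mulH (QH r p) (QH s q)) =
      ∫ k, ∫ k', f (mulH (Wc r (nn k)) (Wc s (nn k'))) ∂μ ∂μ := by
    have e1 : ∀ p : C0, ∫ q : C0, f (mulH (QH r p) (QH s q)) =
        ∫ k', f (mulH (Wc r (sph p)) (Wc s (nn k'))) ∂μ := by
      intro p
      rw [hB (fun ν => f (mulH (Wc r (sph p)) (Wc s ν))) (hF0.comp (continuous_const.prodMk continuous_id))]
      refine integral_congr_ae (Eventually.of_forall fun q => ?_)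
      simp only [QH_eq r hr, QH_eq s hs]
    simp only [e1]
    have hc : Continuous fun ν : S => ∫ k', f (mulH (Wc r ν) (Wc s (nn k'))) ∂μ :=
      continuous_int μ (f := fun ν k' => f (mulH (Wc r ν) (Wc s (nn k'))))
        (hF0.comp (continuous_fst.prodMk (h6.comp continuous_snd)))
    rw [hB _ hc]
  -- step 2: left invariance
  have hPc : Continuous fun p : K × K => f (Ph r s p.1 p.2) := hf.comp (cont_Ph hTR r s hr hs)
  have s2 : ∀ k : K, ∫ k', f (mulH (Wc r (nn k)) (Wc s (nn k'))) ∂μ = ∫ k', f (Ph r s k k') ∂μ := by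
    intro k
    obtain ⟨k₀, hk₀⟩ := claimB hTR r s hr hs k
    simp only [hk₀]
    have hc : Continuous fun k' : K => f (Ph r s k k') := hf.comp (cont_Ph_right hTR r s hr hs k)
    exact hL k₀ (fun k' => f (Ph r s k k')) hc
  -- step 3: Fubini
  have s3 : ∫ k, ∫ k', f (Ph r s k k') ∂μ ∂μ = ∫ k', ∫ k, f (Ph r s k k') ∂μ ∂μ := by
    have e1 := swapK μ (fun p => f (Ph r s p.1 p.2)) hPc
    simp only at e1
    exact e1
  -- step 4: right invariance
  set G : ℝ → ℝ := fun t => ∫ k, f (Wc t (nn k)) ∂μ with hG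
  have hGc : Continuous G := continuous_int μ (f := fun t k => f (Wc t (nn k)))
    (hf.comp (cont_Wc.comp (continuous_fst.prodMk (h6.comp continuous_snd))))
  have s4 : ∀ k' : K, ∫ k, f (Ph r s k k') ∂μ = G (Tc r s (nn k').1) := by
    intro k'
    obtain ⟨u, hu⟩ := claimC hTR r s hr hs k'
    have hge := Ch_ge r s (nn k').1 hr hs (abs_le_of_sq (h2 k'))
    have e1 : ∀ k : K, Ph r s k k' = Wc (Tc r s (nn k').1) (nn (k * u)) := by
      intro k
      unfold Ph
      rw [hu k, psi_mat _ (Real.arcosh_nonneg hge) _ (abs_le_of_sq (h2 _)),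
        Tc_eq r s _ hr hs (abs_le_of_sq (h2 k'))]
    simp only [e1]
    exact hR u (fun k => f (Wc (Tc r s (nn k').1) (nn k))) (hf.comp ((hW _).comp h6))
  -- step 5: back to the sphere
  have s5 : ∫ k', G (Tc r s (nn k').1) ∂μ = ∫ p : C0, G (Tc r s (cc p)) := by
    rw [hB (fun ν => G (Tc r s ν.1)) (hGc.comp ((cont_Tc r s).comp continuous_fst))]
    rfl
  have s6 : ∫ p : C0, G (Tc r s (cc p)) = ∫ g : I, G (tH r s g) := by
    have hi : Integrable (fun p : I × I => G (Tc r s (2 * (p.1 : ℝ) - 1)))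
        ((volume : Measure I).prod (volume : Measure I)) := by
      refine integrable_cont _ ?_
      refine hGc.comp ((cont_Tc r s).comp ?_)
      fun_prop
    have e1 : ∫ p : C0, G (Tc r s (cc p)) =
        ∫ p : I × I, G (Tc r s (2 * (p.1 : ℝ) - 1)) ∂((volume : Measure I).prod (volume : Measure I)) := rfl
    rw [e1, integral_prod _ hi]
    refine integral_congr_ae (Eventually.of_forall fun g => ?_)
    simp only [integral_const, probReal_univ, one_smul]
    congr 1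
    have hg : (0 : ℝ) ≤ g := g.2.1
    rw [Tc_eq r s _ hr hs (by linarith)]
    rfl
  have s7 : ∀ g : I, G (tH r s g) = ∫ p : C0, f (QH (tH r s g) p) := by
    intro g
    have hg : (0 : ℝ) ≤ g := g.2.1
    have ht : 0 ≤ tH r s g := Real.arcosh_nonneg (Ch_ge r s (2 * (g : ℝ) - 1) hr hs (by linarith))
    rw [hG]
    simp only
    rw [hB (fun ν => f (Wc (tH r s g) ν)) (hf.comp (hW _))]
    refine integral_congr_ae (Eventually.of_forall fun p => ?_)
    simp only [QH_eq _ ht]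
  rw [s1]
  simp only [s2]
  rw [s3]
  simp only [s4]
  rw [s5, s6]
  simp only [s7]

end Pool.Agent.Helper94.CM
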