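import Pool.Agent.Helper94.CM.St

/-!
# Project CM, module KP: the two point function depends only on the partition map
-/

set_option autoImplicit false

namespace Pool.Agent.Helper94.CM

open MeasureTheory TopologicalSpace Set Filter Topology Pool.Agent.Helper95.CAS ProbabilityTheory
open scoped unitInterval NNReal ENNReal

/-- A weakly continuous family of probability measures is a measurable family. -/
private theorem meas_KP {Y Z : Type} [TopologicalSpace Y] [MeasurableSpace Y] [BorelSpace Y]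
    [TopologicalSpace Z] [MeasurableSpace Z] [BorelSpace Z] [HasOuterApproxClosed Z]
    (κ : Y → ProbabilityMeasure Z) (hκ : Continuous κ) : Measurable fun y => (κ y : Measure Z) := by
  have hgen : (inferInstance : MeasurableSpace Z) = MeasurableSpace.generateFrom {s : Set Z | IsClosed s} := by
    rw [← borel_eq_generateFrom_isClosed]
    exact BorelSpace.measurable_eq
  refine Measurable.measure_of_isPiSystem_of_isProbabilityMeasure hgen isPiSystem_isClosed ?_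
  intro s hs
  have hs' : IsClosed s := hs
  refine measurable_of_tendsto_metrizable (f := fun n y => ∫⁻ z, hs'.apprSeq n z ∂(κ y : Measure Z)) ?_ ?_
  · intro n
    exact (ProbabilityMeasure.continuous_iff_forall_continuous_lintegral.1 hκ (hs'.apprSeq n)).measurable
  · rw [tendsto_pi_nhds]
    intro y
    exact HasOuterApproxClosed.tendsto_lintegral_apprSeq hs' (κ y : Measure Z)

/-- Two compositions of kernels which agree on sets agree on integrals. -/
private theorem bind_KP {Y₁ Y₂ Z : Type} [TopologicalSpace Y₁] [MeasurableSpace Y₁] [BorelSpace Y₁]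
    [TopologicalSpace Y₂] [MeasurableSpace Y₂] [BorelSpace Y₂]
    [TopologicalSpace Z] [MeasurableSpace Z] [BorelSpace Z] [HasOuterApproxClosed Z]
    (κ₁ : Y₁ → ProbabilityMeasure Z) (hκ₁ : Continuous κ₁) (κ₂ : Y₂ → ProbabilityMeasure Z)
    (hκ₂ : Continuous κ₂) (μ₁ : ProbabilityMeasure Y₁) (μ₂ : ProbabilityMeasure Y₂)
    (h : ∀ A : Set Z, MeasurableSet A → ∫⁻ w, (κ₁ w : Measure Z) A ∂(μ₁ : Measure Y₁) =
      ∫⁻ w, (κ₂ w : Measure Z) A ∂(μ₂ : Measure Y₂))
    (f : Z → ℝ) (hf : Continuous f) (C : ℝ) (hC : ∀ z, ‖f z‖ ≤ C) :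
    ∫ w, (∫ z, f z ∂(κ₁ w : Measure Z)) ∂(μ₁ : Measure Y₁) = ∫ w, (∫ z, f z ∂(κ₂ w : Measure Z)) ∂(μ₂ : Measure Y₂) := by
  let η₁ : Kernel Y₁ Z := ⟨fun y => (κ₁ y : Measure Z), meas_KP κ₁ hκ₁⟩
  let η₂ : Kernel Y₂ Z := ⟨fun y => (κ₂ y : Measure Z), meas_KP κ₂ hκ₂⟩
  have hm₁ : IsMarkovKernel η₁ := ⟨fun y => inferInstanceAs (IsProbabilityMeasure (κ₁ y : Measure Z))⟩
  have hm₂ : IsMarkovKernel η₂ := ⟨fun y => inferInstanceAs (IsProbabilityMeasure (κ₂ y : Measure Z))⟩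
  have e : (η₁ ∘ₖ Kernel.const Unit (μ₁ : Measure Y₁)) () = (η₂ ∘ₖ Kernel.const Unit (μ₂ : Measure Y₂)) () := by
    ext A hA
    rw [Kernel.comp_apply' _ _ _ hA, Kernel.comp_apply' _ _ _ hA, Kernel.const_apply, Kernel.const_apply]
    exact h A hA
  have i₁ : Integrable f ((η₁ ∘ₖ Kernel.const Unit (μ₁ : Measure Y₁)) ()) :=
    Integrable.of_bound hf.aestronglyMeasurable C (Eventually.of_forall hC)
  have i₂ : Integrable f ((η₂ ∘ₖ Kernel.const Unit (μ₂ : Measure Y₂)) ()) :=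
    Integrable.of_bound hf.aestronglyMeasurable C (Eventually.of_forall hC)
  have h1 := Kernel.integral_comp i₁
  have h2 := Kernel.integral_comp i₂
  rw [Kernel.const_apply] at h1 h2
  change ∫ w, (∫ z, f z ∂(η₁ w)) ∂(μ₁ : Measure Y₁) = ∫ w, (∫ z, f z ∂(η₂ w)) ∂(μ₂ : Measure Y₂)
  rw [← h1, ← h2, e]

/-- The averages of a compactly supported continuous function are continuous. -/
private theorem contK_KP {H' : Hypergroup DD} (C' : PreCAS (S × S) DD H') (g : S × S → ℝ) (hg : Continuous g)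
    (hgc : HasCompactSupport g) : Continuous fun p : (S × S) × DD => C'.T p.2 g p.1 := by
  obtain ⟨C, hC⟩ := hg.bounded_above_of_compact_support hgc
  let g' : BoundedContinuousFunction (S × S) ℝ := BoundedContinuousFunction.ofNormedAddCommGroup g hg C hC
  exact ProbabilityMeasure.continuous_iff_forall_continuous_integral.1 C'.K_continuous g'

/-- The kernel is carried by its support. -/
private theorem loc_KP {H' : Hypergroup DD} (C' : PreCAS (S × S) DD H') (x : S × S) (h : DD) (f g : S × S → ℝ)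
    (hfg : ∀ y, C'.part x y = h → f y = g y) : C'.T h f x = C'.T h g x := by
  refine integral_congr_ae ?_
  filter_upwards [Measure.support_mem_ae (μ := (C'.K x h : Measure (S × S)))] with y hy
  exact hfg y ((C'.mem_support_iff x y h).1 hy)

/-- The composition axiom for functions. -/
private theorem comp_KP {H' : Hypergroup DD} (C' : PreCAS (S × S) DD H') (x : S × S) (h₁ h₂ : DD) (g : S × S → ℝ)
    (hg : Continuous g) (hgc : HasCompactSupport g) :
    ∫ h, C'.T h g x ∂(H'.conv h₁ h₂ : Measure DD) = ∫ w, C'.T h₂ g w ∂(C'.K x h₁ : Measure (S × S)) := by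
  obtain ⟨C, hC⟩ := hg.bounded_above_of_compact_support hgc
  exact (bind_KP (fun w => C'.K w h₂) (C'.K_continuous.comp (Continuous.prodMk_left h₂)) (fun h => C'.K x h)
    (C'.K_continuous.comp (Continuous.prodMk_right x)) (C'.K x h₁) (H'.conv h₁ h₂) (C'.comp x h₁ h₂) g hg C hC).symm

/-- Uniform control of supports. -/
private theorem supp_KP (hPR : StPR) (F₁ F₂ : Fac) (f : DD → ℝ) (hfc : HasCompactSupport f) (g : S × S → ℝ)
    (hgc : HasCompactSupport g) :
    ∃ B : Set (S × S), IsCompact B ∧ ∀ w, w ∉ B → ∀ y, f (prt F₁ F₂ w y) * g y = 0 := by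
  obtain ⟨hsym, hinv, hprop, -⟩ := hPR F₁ F₂
  have hc1 : Continuous fun h : DD => h.1.1 := continuous_fst.comp continuous_subtype_val
  obtain ⟨R, hR⟩ := (IsCompact.image hfc hc1).bddAbove
  have hR' : ∀ h, f h ≠ 0 → h.1.1 ≤ R := fun h hh => hR (mem_image_of_mem _ (subset_tsupport f hh))
  let m : (S × S) × (S × S) → S × S := fun p => (F₁.mul p.1.1 p.2.1, F₂.mul p.1.2 p.2.2)
  have hm1 : Continuous fun p : (S × S) × (S × S) => F₁.mul p.1.1 p.2.1 :=
    F₁.cont_mul.comp (f := fun p : (S × S) × (S × S) => (p.1.1, p.2.1)) (by fun_prop)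
  have hm2 : Continuous fun p : (S × S) × (S × S) => F₂.mul p.1.2 p.2.2 :=
    F₂.cont_mul.comp (f := fun p : (S × S) × (S × S) => (p.1.2, p.2.2)) (by fun_prop)
  have hm : Continuous m := hm1.prodMk hm2
  refine ⟨m '' (tsupport g ×ˢ {z | (prt F₁ F₂ 0 z).1.1 ≤ R}), (IsCompact.prod hgc (hprop R 0)).image hm, ?_⟩
  intro w hw y
  by_contra hne
  have hf : f (prt F₁ F₂ w y) ≠ 0 := left_ne_zero_of_mul hne
  have hg : g y ≠ 0 := right_ne_zero_of_mul hne
  apply hw
  have e1 : m (y, (F₁.mul (F₁.inv y.1) w.1, F₂.mul (F₂.inv y.2) w.2)) = w := by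
    change (F₁.mul y.1 (F₁.mul (F₁.inv y.1) w.1), F₂.mul y.2 (F₂.mul (F₂.inv y.2) w.2)) = w
    rw [← F₁.mul_assoc, ← F₂.mul_assoc, F₁.mul_inv, F₂.mul_inv, F₁.zero_mul, F₂.zero_mul]
  refine ⟨(y, (F₁.mul (F₁.inv y.1) w.1, F₂.mul (F₂.inv y.2) w.2)), ⟨subset_tsupport g hg, ?_⟩, e1⟩
  have e2 := hinv y 0 (F₁.mul (F₁.inv y.1) w.1, F₂.mul (F₂.inv y.2) w.2)
  change prt F₁ F₂ (F₁.mul y.1 0, F₂.mul y.2 0) (m (y, (F₁.mul (F₁.inv y.1) w.1, F₂.mul (F₂.inv y.2) w.2))) = _ at e2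
  rw [e1, F₁.mul_zero, F₂.mul_zero] at e2
  change (prt F₁ F₂ 0 (F₁.mul (F₁.inv y.1) w.1, F₂.mul (F₂.inv y.2) w.2)).1.1 ≤ R
  rw [← e2, hsym]
  exact hR' _ hf

/-- Continuity and compact support of the transforms. -/
private theorem G_KP (hPR : StPR) (F₁ F₂ : Fac) (ω : Measure (S × S)) (hω : ω.Regular) (f : DD → ℝ) (hf : Continuous f)
    (hfc : HasCompactSupport f) (g : S × S → ℝ) (hg : Continuous g) (hgc : HasCompactSupport g) :
    (Continuous fun w => ∫ y, f (prt F₁ F₂ w y) * g y ∂ω) ∧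
      HasCompactSupport fun w => ∫ y, f (prt F₁ F₂ w y) * g y ∂ω := by
  constructor
  · have h1 : ∀ w, ∫ y, f (prt F₁ F₂ w y) * g y ∂ω = ∫ y in tsupport g, f (prt F₁ F₂ w y) * g y ∂ω := by
      intro w
      refine (setIntegral_eq_integral_of_forall_compl_eq_zero fun y hy => ?_).symm
      rw [image_eq_zero_of_notMem_tsupport hy, mul_zero]
    simp only [h1]
    refine continuous_parametric_integral_of_continuous (μ := ω) (f := fun w y => f (prt F₁ F₂ w y) * g y) ?_ hgc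
    exact (hf.comp (continuous_prt F₁ F₂)).mul (hg.comp continuous_snd)
  · obtain ⟨B, hB, hB0⟩ := supp_KP hPR F₁ F₂ f hfc g hgc
    refine HasCompactSupport.intro hB fun w hw => ?_
    simp only [hB0 w hw, integral_zero]

/-- The integral over the hypergroup. -/
private noncomputable def N_KP (H' : Hypergroup DD) (ωD : Measure DD) (f₁ f₂ Ψ : DD → ℝ) : ℝ :=
  ∫ h₁, (∫ h₂, (∫ h, Ψ h ∂(H'.conv h₁ h₂ : Measure DD)) * f₂ h₂ ∂ωD) * f₁ h₁ ∂ωD

/-- The identity (2). -/
private theorem two_KP (hPR : StPR) (F₁ F₂ : Fac) {H' : Hypergroup DD} (C' : PreCAS (S × S) DD H')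
    (ω : Measure (S × S)) (ωD : Measure DD) (hT : T2id F₁ F₂ C' ω ωD)
    (f₁ f₂ : DD → ℝ) (hf₁ : Continuous f₁) (hf₁c : HasCompactSupport f₁)
    (hf₂ : Continuous f₂) (hf₂c : HasCompactSupport f₂)
    (ψ : DD → ℝ) (hψ : Continuous ψ) (g : S × S → ℝ) (hg : Continuous g) (hgc : HasCompactSupport g) (x : S × S) :
    N_KP H' ωD f₁ f₂ (fun h => ψ h * C'.T h g x) =
      ∫ y, kk F₁ F₂ ω f₁ f₂ x y * (ψ (prt F₁ F₂ x y) * g y) ∂ω := by
  have hω := hT.reg
  have hωD := hT.regD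
  have hπ := continuous_prt F₁ F₂
  set gt : S × S → ℝ := fun y => ψ (prt F₁ F₂ x y) * g y with hgt
  have hgtc : Continuous gt := (hψ.comp (hπ.comp (Continuous.prodMk_right x))).mul hg
  have hgts : HasCompactSupport gt := hgc.mul_left
  have h1 : ∀ h, ψ h * C'.T h g x = C'.T h gt x := by
    intro h
    have e0 : ∀ y, C'.part x y = h → gt y = ψ h * g y := by
      intro y hy
      rw [hT.part] at hy
      change ψ (prt F₁ F₂ x y) * g y = ψ h * g y
      rw [hy]
    rw [loc_KP C' x h gt (fun y => ψ h * g y) e0]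
    unfold PreCAS.T
    rw [integral_const_mul]
  set G : S × S → ℝ := fun w => ∫ y, f₂ (prt F₁ F₂ w y) * gt y ∂ω with hG
  obtain ⟨hGc, hGs⟩ := G_KP hPR F₁ F₂ ω hω f₂ hf₂ hf₂c gt hgtc hgts
  have hGT : ∀ w, ∫ h₂, C'.T h₂ gt w * f₂ h₂ ∂ωD = G w := fun w => hT.t2 f₂ gt hf₂ hf₂c hgtc hgts w
  obtain ⟨C, hC⟩ := hgtc.bounded_above_of_compact_support hgts
  have hTb : ∀ h w, ‖C'.T h gt w‖ ≤ C := by
    intro h w
    unfold PreCAS.T
    have := norm_integral_le_of_norm_le_const (μ := (C'.K w h : Measure (S × S))) (Eventually.of_forall hC)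
    simpa using this
  have h3 : ∀ h₁, ∫ h₂, (∫ h, ψ h * C'.T h g x ∂(H'.conv h₁ h₂ : Measure DD)) * f₂ h₂ ∂ωD = C'.T h₁ G x := by
    intro h₁
    have e1 : ∀ h₂, (∫ h, ψ h * C'.T h g x ∂(H'.conv h₁ h₂ : Measure DD)) * f₂ h₂ =
        ∫ w, C'.T h₂ gt w * f₂ h₂ ∂(C'.K x h₁ : Measure (S × S)) := by
      intro h₂
      simp only [h1]
      rw [comp_KP C' x h₁ h₂ gt hgtc hgts, integral_mul_const]
    simp only [e1]
    rw [integral_integral_swap]
    · simp only [hGT]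
      rfl
    · have e2 : Integrable (fun p : DD × (S × S) => C * ‖f₂ p.1‖) (ωD.prod (C'.K x h₁ : Measure (S × S))) := by
        have e3 : Integrable f₂ ωD := hf₂.integrable_of_hasCompactSupport hf₂c
        exact (e3.comp_fst _).norm.const_mul C
      refine e2.mono' ?_ ?_
      · refine Continuous.aestronglyMeasurable ?_
        exact ((contK_KP C' gt hgtc hgts).comp continuous_swap).mul (hf₂.comp continuous_fst)
      · refine Eventually.of_forall fun p => ?_
        change ‖C'.T p.1 gt p.2 * f₂ p.1‖ ≤ C * ‖f₂ p.1‖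
        rw [norm_mul]
        exact mul_le_mul_of_nonneg_right (hTb _ _) (norm_nonneg _)
  unfold N_KP
  simp only [h3]
  rw [hT.t2 f₁ G hf₁ hf₁c hGc hGs x]
  have e4 : ∀ w, f₁ (prt F₁ F₂ x w) * G w = ∫ y, f₁ (prt F₁ F₂ x w) * (f₂ (prt F₁ F₂ w y) * gt y) ∂ω := by
    intro w
    rw [integral_const_mul]
  simp only [e4]
  rw [integral_integral_swap_of_hasCompactSupport]
  · refine integral_congr_ae (Eventually.of_forall fun y => ?_)
    change ∫ w, f₁ (prt F₁ F₂ x w) * (f₂ (prt F₁ F₂ w y) * gt y) ∂ω = kk F₁ F₂ ω f₁ f₂ x y * gt y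
    unfold kk
    rw [← integral_mul_const]
    refine integral_congr_ae (Eventually.of_forall fun w => ?_)
    change f₁ (prt F₁ F₂ x w) * (f₂ (prt F₁ F₂ w y) * gt y) = f₁ (prt F₁ F₂ x w) * f₂ (prt F₁ F₂ w y) * gt y
    ring
  · exact (hf₁.comp (hπ.comp (continuous_const.prodMk continuous_fst))).mul
      ((hf₂.comp hπ).mul (hgtc.comp continuous_snd))
  · obtain ⟨B, hB, hB0⟩ := supp_KP hPR F₁ F₂ f₂ hf₂c gt hgts
    refine HasCompactSupport.intro (hB.prod hgts) fun p hp => ?_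
    change f₁ (prt F₁ F₂ x p.1) * (f₂ (prt F₁ F₂ p.1 p.2) * gt p.2) = 0
    by_cases h : p.1 ∈ B
    · have : p.2 ∉ tsupport gt := fun h' => hp ⟨h, h'⟩
      rw [image_eq_zero_of_notMem_tsupport this, mul_zero, mul_zero]
    · rw [hB0 p.1 h p.2, mul_zero]

/-- Continuity of the two point function. -/
private theorem kkc_KP (hPR : StPR) (F₁ F₂ : Fac) (ω : Measure (S × S)) (hω : ω.Regular) (f₁ f₂ : DD → ℝ)
    (hf₁ : Continuous f₁) (hf₁c : HasCompactSupport f₁) (hf₂ : Continuous f₂) (x : S × S) :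
    Continuous fun w => kk F₁ F₂ ω f₁ f₂ x w := by
  obtain ⟨hsym, hinv, hprop, -⟩ := hPR F₁ F₂
  have hπ := continuous_prt F₁ F₂
  have hc1 : Continuous fun h : DD => h.1.1 := continuous_fst.comp continuous_subtype_val
  obtain ⟨R, hR⟩ := (IsCompact.image hf₁c hc1).bddAbove
  have h1 : ∀ w, kk F₁ F₂ ω f₁ f₂ x w =
      ∫ y in {y | (prt F₁ F₂ x y).1.1 ≤ R}, f₁ (prt F₁ F₂ x y) * f₂ (prt F₁ F₂ y w) ∂ω := by
    intro w
    refine (setIntegral_eq_integral_of_forall_compl_eq_zero fun y hy => ?_).symm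
    have : f₁ (prt F₁ F₂ x y) = 0 := by
      by_contra hne
      exact hy (hR (mem_image_of_mem _ (subset_tsupport f₁ hne)))
    rw [this, zero_mul]
  simp only [h1]
  refine continuous_parametric_integral_of_continuous (μ := ω)
    (f := fun w y => f₁ (prt F₁ F₂ x y) * f₂ (prt F₁ F₂ y w)) ?_ (hprop R x)
  exact (hf₁.comp (hπ.comp (continuous_const.prodMk continuous_snd))).mul (hf₂.comp (hπ.comp continuous_swap))

/-- The inequality. -/
private theorem ineq_KP (hPR : StPR) (F₁ F₂ : Fac) {H' : Hypergroup DD} (C' : PreCAS (S × S) DD H')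
    (ω : Measure (S × S)) (ωD : Measure DD) (hT : T2id F₁ F₂ C' ω ωD)
    (f₁ f₂ : DD → ℝ) (hf₁ : Continuous f₁) (hf₁c : HasCompactSupport f₁)
    (hf₂ : Continuous f₂) (hf₂c : HasCompactSupport f₂) (x w w' : S × S)
    (hww : prt F₁ F₂ x w = prt F₁ F₂ x w') : ¬ kk F₁ F₂ ω f₁ f₂ x w < kk F₁ F₂ ω f₁ f₂ x w' := by
  intro hlt
  have hω := hT.reg
  have hωD := hT.regD
  have hπ := continuous_prt F₁ F₂
  have hkc := kkc_KP hPR F₁ F₂ ω hω f₁ f₂ hf₁ hf₁c hf₂ x
  obtain ⟨c, hc1, hc2⟩ := exists_between hlt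
  obtain ⟨c', hc'1, hc'2⟩ := exists_between hc2
  -- bump functions
  have bump : ∀ (Y : Type) [TopologicalSpace Y] [T2Space Y] [LocallyCompactSpace Y] (U : Set Y) (y : Y),
      IsOpen U → y ∈ U → ∃ g : Y → ℝ, Continuous g ∧ HasCompactSupport g ∧ (∀ z, 0 ≤ g z) ∧ 0 < g y ∧
        ∀ z, g z ≠ 0 → z ∈ U := by
    intro Y _ _ _ U y hU hy
    obtain ⟨g, hg1, hg0, hgc, hg⟩ := exists_continuous_one_zero_of_isCompact (isCompact_singleton (x := y))
      hU.isClosed_compl (disjoint_compl_right_iff_subset.2 (singleton_subset_iff.2 hy))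
    refine ⟨g, g.continuous, hgc, fun z => (hg z).1, ?_, ?_⟩
    · rw [hg1 (mem_singleton y)]
      exact one_pos
    · intro z hz
      by_contra hzU
      exact hz (hg0 hzU)
  obtain ⟨g, hg, hgc, hg0, hgw, hgU⟩ := bump (S × S) {y | kk F₁ F₂ ω f₁ f₂ x y < c} w
    (isOpen_lt hkc continuous_const) hc1
  obtain ⟨g', hg', hgc', hg0', hgw', hgU'⟩ := bump (S × S) {y | c' < kk F₁ F₂ ω f₁ f₂ x y} w'
    (isOpen_lt continuous_const hkc) hc'2
  obtain ⟨ψ, hψ, hψc, hψ0, hψw, -⟩ := bump DD univ (prt F₁ F₂ x w) isOpen_univ (mem_univ _)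
  have hA : Continuous fun h => C'.T h g x := (contK_KP C' g hg hgc).comp (Continuous.prodMk_right x)
  have hA' : Continuous fun h => C'.T h g' x := (contK_KP C' g' hg' hgc').comp (Continuous.prodMk_right x)
  have hA0 : ∀ h, 0 ≤ C'.T h g x := fun h => integral_nonneg hg0
  have hA0' : ∀ h, 0 ≤ C'.T h g' x := fun h => integral_nonneg hg0'
  have hmem : w' ∈ (C'.K x (prt F₁ F₂ x w) : Measure (S × S)).support := by
    rw [C'.mem_support_iff, hT.part, hww]
  -- the average of `g'` over the sphere is positive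
  have hApos : 0 < C'.T (prt F₁ F₂ x w) g' x := by
    unfold PreCAS.T
    rw [integral_pos_iff_support_of_nonneg hg0' (hg'.integrable_of_hasCompactSupport hgc')]
    exact (Measure.mem_support_iff_forall w').1 hmem _ (hg'.isOpen_support.mem_nhds hgw'.ne')
  have N1 := two_KP hPR F₁ F₂ C' ω ωD hT f₁ f₂ hf₁ hf₁c hf₂ hf₂c (fun h => ψ h * C'.T h g' x) (hψ.mul hA') g hg hgc x
  have N2 := two_KP hPR F₁ F₂ C' ω ωD hT f₁ f₂ hf₁ hf₁c hf₂ hf₂c (fun h => ψ h * C'.T h g x) (hψ.mul hA) g' hg' hgc' x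
  have Q1 := hT.t2 (fun h => ψ h * C'.T h g' x) g (hψ.mul hA') (hψc.mul_right) hg hgc x
  have Q2 := hT.t2 (fun h => ψ h * C'.T h g x) g' (hψ.mul hA) (hψc.mul_right) hg' hgc' x
  have hπx : Continuous fun y => prt F₁ F₂ x y := hπ.comp (Continuous.prodMk_right x)
  -- names for the integrands
  set u : S × S → ℝ := fun y => ψ (prt F₁ F₂ x y) * C'.T (prt F₁ F₂ x y) g' x * g y with hu
  set v : S × S → ℝ := fun y => ψ (prt F₁ F₂ x y) * C'.T (prt F₁ F₂ x y) g x * g' y with hv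
  have huc : Continuous u := ((hψ.comp hπx).mul (hA'.comp hπx)).mul hg
  have hvc : Continuous v := ((hψ.comp hπx).mul (hA.comp hπx)).mul hg'
  have hus : HasCompactSupport u := hgc.mul_left
  have hvs : HasCompactSupport v := hgc'.mul_left
  have hu0 : ∀ y, 0 ≤ u y := fun y => mul_nonneg (mul_nonneg (hψ0 _) (hA0' _)) (hg0 _)
  have hv0 : ∀ y, 0 ≤ v y := fun y => mul_nonneg (mul_nonneg (hψ0 _) (hA0 _)) (hg0' _)
  have eN : (fun h => (ψ h * C'.T h g' x) * C'.T h g x) = fun h => (ψ h * C'.T h g x) * C'.T h g' x := by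
    funext h
    ring
  have eQ : ∫ h, C'.T h g x * (ψ h * C'.T h g' x) ∂ωD = ∫ h, C'.T h g' x * (ψ h * C'.T h g x) ∂ωD := by
    refine integral_congr_ae (Eventually.of_forall fun h => ?_)
    change C'.T h g x * (ψ h * C'.T h g' x) = C'.T h g' x * (ψ h * C'.T h g x)
    ring
  rw [eQ, Q2] at Q1
  rw [eN, N2] at N1
  change ∫ y, v y ∂ω = ∫ y, u y ∂ω at Q1
  change ∫ y, kk F₁ F₂ ω f₁ f₂ x y * v y ∂ω = ∫ y, kk F₁ F₂ ω f₁ f₂ x y * u y ∂ω at N1
  have iu : Integrable u ω := huc.integrable_of_hasCompactSupport hus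
  have iv : Integrable v ω := hvc.integrable_of_hasCompactSupport hvs
  have iku : Integrable (fun y => kk F₁ F₂ ω f₁ f₂ x y * u y) ω :=
    (hkc.mul huc).integrable_of_hasCompactSupport hus.mul_left
  have ikv : Integrable (fun y => kk F₁ F₂ ω f₁ f₂ x y * v y) ω :=
    (hkc.mul hvc).integrable_of_hasCompactSupport hvs.mul_left
  have b1 : ∫ y, kk F₁ F₂ ω f₁ f₂ x y * u y ∂ω ≤ c * ∫ y, u y ∂ω := by
    rw [← integral_const_mul]
    refine integral_mono iku (iu.const_mul c) fun y => ?_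
    change kk F₁ F₂ ω f₁ f₂ x y * u y ≤ c * u y
    by_cases hy : g y = 0
    · have : u y = 0 := by rw [hu]; simp only [hy, mul_zero]
      rw [this, mul_zero, mul_zero]
    · exact mul_le_mul_of_nonneg_right (le_of_lt (hgU y hy)) (hu0 y)
  have b2 : c' * ∫ y, v y ∂ω ≤ ∫ y, kk F₁ F₂ ω f₁ f₂ x y * v y ∂ω := by
    rw [← integral_const_mul]
    refine integral_mono (iv.const_mul c') ikv fun y => ?_
    change c' * v y ≤ kk F₁ F₂ ω f₁ f₂ x y * v y
    by_cases hy : g' y = 0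
    · have : v y = 0 := by rw [hv]; simp only [hy, mul_zero]
      rw [this, mul_zero, mul_zero]
    · exact mul_le_mul_of_nonneg_right (le_of_lt (hgU' y hy)) (hv0 y)
  have hpos : ω.IsOpenPosMeasure := by
    refine ⟨fun U hU hne h0 => ?_⟩
    obtain ⟨y, hy⟩ := hne
    have h1 : y ∈ ω.support := by
      rw [hT.supp]
      exact mem_univ _
    exact absurd ((Measure.mem_support_iff_forall y).1 h1 U (hU.mem_nhds hy)) (by rw [h0]; exact lt_irrefl _)
  have hQ : 0 < ∫ y, u y ∂ω := by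
    refine huc.integral_pos_of_hasCompactSupport_nonneg_nonzero hus hu0 (x := w) ?_
    exact (mul_pos (mul_pos hψw hApos) hgw).ne'
  rw [N1, Q1] at b2
  nlinarith

theorem hKP : StKP := by
  intro hPR F₁ F₂ H' C' ω ωD hT f₁ f₂ hf₁ hf₁c _ hf₂ hf₂c _ x w w' hww
  exact le_antisymm (not_lt.1 (ineq_KP hPR F₁ F₂ C' ω ωD hT f₁ f₂ hf₁ hf₁c hf₂ hf₂c x w' w hww.symm))
    (not_lt.1 (ineq_KP hPR F₁ F₂ C' ω ωD hT f₁ f₂ hf₁ hf₁c hf₂ hf₂c x w w' hww))

end Pool.Agent.Helper94.CM
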