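import Pool.Agent.Helper94.CM.St

/-!
# Project CM: module PR (elementary properties of the partition map)
-/

set_option autoImplicit false

namespace Pool.Agent.Helper94.CM

open MeasureTheory TopologicalSpace Set Filter Topology Matrix Pool.Agent.Helper95.CAS
open scoped unitInterval

private theorem eq_inv_PR (F : Fac) {a b : S} (h : F.mul a b = 0) : a = F.inv b := by
  have h1 : F.mul (F.mul a b) (F.inv b) = F.mul a (F.mul b (F.inv b)) := F.mul_assoc _ _ _
  rw [h, F.zero_mul, F.mul_inv, F.mul_zero] at h1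
  exact h1.symm

private theorem len_comm_PR (F : Fac) (x y : S) : F.len (F.mul (F.inv x) y) = F.len (F.mul (F.inv y) x) := by
  have h1 : F.mul (F.mul (F.inv y) x) (F.mul (F.inv x) y) = 0 := by
    rw [F.mul_assoc, ← F.mul_assoc x, F.mul_inv, F.zero_mul, F.inv_mul]
  rw [eq_inv_PR F h1, F.len_inv]

private theorem left_PR (F : Fac) (g x y : S) : F.mul (F.inv (F.mul g x)) (F.mul g y) = F.mul (F.inv x) y := by
  have h1 : F.mul (F.mul (F.inv x) (F.inv g)) (F.mul g x) = 0 := by
    rw [F.mul_assoc, ← F.mul_assoc (F.inv g), F.inv_mul, F.zero_mul, F.inv_mul]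
  rw [← eq_inv_PR F h1, F.mul_assoc, ← F.mul_assoc (F.inv g), F.inv_mul, F.zero_mul]

theorem hPR : StPR := by
  intro F₁ F₂
  have := F₁.lv_reg
  have := F₂.lv_reg
  have := F₁.lv_pos
  have := F₂.lv_pos
  have hsf : ∀ F : Fac, SigmaFinite F.lv := by
    intro F
    have := F.lv_reg
    infer_instance
  have := hsf F₁
  have := hsf F₂
  have hsf2 : SigmaFinite (vX F₁ F₂) := by
    unfold vX
    infer_instance
  have hlf : IsLocallyFiniteMeasure (vX F₁ F₂) := by
    unfold vX
    infer_instance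
  refine ⟨?_, ?_, ?_, ?_, ?_, ?_, hsf2⟩
  · intro x y
    unfold prt
    rw [len_comm_PR F₁, len_comm_PR F₂]
  · intro g x y
    unfold prt
    rw [left_PR F₁, left_PR F₂]
  · intro R x
    have hK : IsCompact ({z : S | F₁.len z ≤ R} ×ˢ {z : S | F₂.len z ≤ R}) := (F₁.proper R).prod (F₂.proper R)
    have hc : Continuous fun z : S × S => (F₁.mul x.1 z.1, F₂.mul x.2 z.2) := by
      refine Continuous.prodMk ?_ ?_
      · exact F₁.cont_mul.comp (continuous_const.prodMk continuous_fst)
      · exact F₂.cont_mul.comp (continuous_const.prodMk continuous_snd)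
    have himg := hK.image hc
    convert himg using 1
    ext y
    constructor
    · intro hy
      have hy' : max |F₁.len (F₁.mul (F₁.inv x.1) y.1)| |F₂.len (F₂.mul (F₂.inv x.2) y.2)| ≤ R := hy
      refine ⟨(F₁.mul (F₁.inv x.1) y.1, F₂.mul (F₂.inv x.2) y.2), ⟨?_, ?_⟩, ?_⟩
      · exact (le_abs_self _).trans ((le_max_left _ _).trans hy')
      · exact (le_abs_self _).trans ((le_max_right _ _).trans hy')
      · apply Prod.ext
        · show F₁.mul x.1 (F₁.mul (F₁.inv x.1) y.1) = y.1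
          rw [← F₁.mul_assoc, F₁.mul_inv, F₁.zero_mul]
        · show F₂.mul x.2 (F₂.mul (F₂.inv x.2) y.2) = y.2
          rw [← F₂.mul_assoc, F₂.mul_inv, F₂.zero_mul]
    · rintro ⟨z, ⟨hz1, hz2⟩, rfl⟩
      show max |F₁.len (F₁.mul (F₁.inv x.1) (F₁.mul x.1 z.1))| |F₂.len (F₂.mul (F₂.inv x.2) (F₂.mul x.2 z.2))| ≤ R
      rw [← F₁.mul_assoc, ← F₂.mul_assoc, F₁.inv_mul, F₂.inv_mul, F₁.zero_mul, F₂.zero_mul,
        abs_of_nonneg (F₁.len_nonneg _), abs_of_nonneg (F₂.len_nonneg _)]
      exact max_le hz1 hz2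
  · intro g
    exact (F₁.left_inv g.1).prod (F₂.left_inv g.2)
  · infer_instance
  · unfold vX
    infer_instance

end Pool.Agent.Helper94.CM
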