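import Pool.Agent.Helper94.CM.St

/-!
# Project CM (MP_466bd8), module RC: the composition property of `R^3`
-/

set_option autoImplicit false

namespace Pool.Agent.Helper94.CM

open MeasureTheory TopologicalSpace Set Filter Topology Matrix Pool.Agent.Helper95.CAS
open scoped unitInterval

private theorem mat_add_RC (x y : S) : mat 0 (x + y) = mat 0 x + mat 0 y := by
  ext i j
  fin_cases i <;> fin_cases j <;> simp [mat] <;> ring

private theorem mat_inj_RC {x y : S} (h : mat 0 x = mat 0 y) : x = y := by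
  have h1 := congrFun (congrFun h 0) 0
  have h2 := congrFun (congrFun h 1) 0
  simp only [mat, Matrix.of_apply, Matrix.cons_val', Matrix.cons_val_zero, Matrix.cons_val_one,
    Matrix.cons_val_fin_one] at h1 h2
  have h3 : (0 : ℝ) + x.1 = 0 + y.1 := by exact_mod_cast h1
  exact Prod.ext (by linarith) h2

private theorem rot_RC (hmat : ∀ (k u : K) (α ρ : ℝ),
      k.1 * mat α (ρ • nn u) * (k.1)ᴴ = mat α (ρ • nn (k * u)))
    (k k' u : K) (r s t : ℝ) (h : r • nn 1 + s • nn k' = t • nn u) :
    r • nn k + s • nn (k * k') = t • nn (k * u) := by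
  apply mat_inj_RC
  have h1 := hmat k 1 0 r
  rw [mul_one] at h1
  rw [mat_add_RC, ← h1, ← hmat k k' 0 s, ← hmat k u 0 t, ← h, mat_add_RC, mul_add, add_mul]

theorem hRC : StRC := by
  intro hTR μ hμ hK hB r s hr hs f hf
  obtain ⟨hprob, hL, hR⟩ := hμ
  obtain ⟨-, hnorm, hmat, hex, hone, hcont⟩ := hTR
  have hp := hprob
  have hsph := continuous_sph
  set G : ℝ → ℝ := fun t => ∫ p : C0, f (t • sph p) with hG
  have hGc : Continuous G :=
    continuous_int (volume : Measure C0) (f := fun (t : ℝ) (p : C0) => f (t • sph p))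
      (hf.comp (continuous_fst.smul (hsph.comp continuous_snd)))
  have hGk : ∀ t : ℝ, ∫ k, f (t • nn k) ∂μ = G t := fun t =>
    hB (fun ν => f (t • ν)) (hf.comp (continuous_const_smul t))
  -- the left side as an integral over `K`
  have e1 : ∀ x : S, ∫ k, f (r • x + s • nn k) ∂μ = ∫ q : C0, f (r • x + s • sph q) := fun x =>
    hB (fun ν => f (r • x + s • ν)) (hf.comp (continuous_const.add (continuous_const_smul s)))
  have hAc : Continuous fun x : S => ∫ q : C0, f (r • x + s • sph q) :=
    continuous_int (volume : Measure C0) (f := fun (x : S) (q : C0) => f (r • x + s • sph q))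
      (hf.comp ((continuous_fst.const_smul r).add ((hsph.comp continuous_snd).const_smul s)))
  have e2 : ∫ p : C0, ∫ q : C0, f (PR r p + PR s q) =
      ∫ k, ∫ k', f (r • nn k + s • nn k') ∂μ ∂μ := by
    have h1 := hB (fun x => ∫ q : C0, f (r • x + s • sph q)) hAc
    calc ∫ p : C0, ∫ q : C0, f (PR r p + PR s q) =
        ∫ p : C0, (fun x => ∫ q : C0, f (r • x + s • sph q)) (sph p) := rfl
      _ = ∫ k, (∫ q : C0, f (r • nn k + s • sph q)) ∂μ := h1.symm
      _ = _ := integral_congr_ae (Eventually.of_forall fun k => (e1 (nn k)).symm)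
  have e3 : ∀ k : K, ∫ k', f (r • nn k + s • nn k') ∂μ =
      ∫ k', f (r • nn k + s • nn (k * k')) ∂μ := fun k =>
    (hL k (fun k' => f (r • nn k + s • nn k'))
      (hf.comp (continuous_const.add (hcont.const_smul s)))).symm
  -- Fubini
  have e4 : ∫ k, ∫ k', f (r • nn k + s • nn (k * k')) ∂μ ∂μ =
      ∫ k', ∫ k, f (r • nn k + s • nn (k * k')) ∂μ ∂μ := by
    refine integral_integral_swap_of_hasCompactSupport
      (f := fun k k' : K => f (r • nn k + s • nn (k * k'))) ?_ ?_
    · exact hf.comp (((hcont.comp continuous_fst).const_smul r).add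
        ((hcont.comp continuous_mul).const_smul s))
    · exact HasCompactSupport.of_compactSpace _
  have e5 : ∀ k' : K, ∫ k, f (r • nn k + s • nn (k * k')) ∂μ =
      G (Real.sqrt (r ^ 2 + s ^ 2 + 2 * r * s * (nn k').1)) := by
    intro k'
    set t := Real.sqrt (r ^ 2 + s ^ 2 + 2 * r * s * (nn k').1) with ht
    have hn := hnorm k'
    have habs : (nn k').1 ^ 2 ≤ 1 := by nlinarith [sq_nonneg ‖(nn k').2‖]
    have hlow : -1 ≤ (nn k').1 := by nlinarith
    have ht2 : t ^ 2 = r ^ 2 + s ^ 2 + 2 * r * s * (nn k').1 := by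
      refine Real.sq_sqrt ?_
      nlinarith [mul_nonneg hr hs, sq_nonneg (r - s)]
    obtain ⟨u, hu⟩ := hex (r • nn 1 + s • nn k') t (Real.sqrt_nonneg _) (by
      rw [hone, ht2]
      have a1 : (r • ((1, 0) : S) + s • nn k').1 = r + s * (nn k').1 := by simp
      have a2 : (r • ((1, 0) : S) + s • nn k').2 = (s : ℂ) * (nn k').2 := by simp
      rw [a1, a2, norm_mul, Complex.norm_real, Real.norm_of_nonneg hs, mul_pow]
      have a3 : ‖(nn k').2‖ ^ 2 = 1 - (nn k').1 ^ 2 := by linarith
      rw [a3]
      ring)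
    have h1 : ∀ k : K, f (r • nn k + s • nn (k * k')) = f (t • nn (k * u)) := fun k => by
      rw [rot_RC hmat k k' u r s t hu]
    simp only [h1]
    rw [hR u (fun k => f (t • nn k)) (hf.comp (hcont.const_smul t))]
    exact hGk t
  have e6 : ∫ k', G (Real.sqrt (r ^ 2 + s ^ 2 + 2 * r * s * (nn k').1)) ∂μ =
      ∫ p : C0, G (tt r s p.1) := by
    refine (hB (fun ν => G (Real.sqrt (r ^ 2 + s ^ 2 + 2 * r * s * ν.1))) ?_).trans ?_
    · exact hGc.comp (by fun_prop)
    · rfl
  have e7 : ∫ p : C0, G (tt r s p.1) = ∫ g : I, G (tt r s g) := by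
    have h := integral_fun_fst (μ := (volume : Measure I)) (ν := (volume : Measure I))
      (fun g : I => G (tt r s g))
    rw [probReal_univ, one_smul] at h
    exact h
  rw [e2, integral_congr_ae (Eventually.of_forall e3), e4,
    integral_congr_ae (Eventually.of_forall e5), e6, e7]
  rfl

end Pool.Agent.Helper94.CM
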