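import Pool.Agent.Helper94.CM.St

/-!
# Project CM, module RF: the factor `R^3`
-/

set_option autoImplicit false

namespace Pool.Agent.Helper94.CM

open MeasureTheory TopologicalSpace Set Filter Topology Matrix Pool.Agent.Helper95.CAS
open scoped unitInterval

private theorem len_sph_RF (p : C0) : (sph p).1 ^ 2 + ‖(sph p).2‖ ^ 2 = 1 := by
  have h := cc_mem p
  have h1 : 0 ≤ 1 - cc p ^ 2 := by nlinarith [h.1, h.2]
  have h2 : ‖(sph p).2‖ = Real.sqrt (1 - cc p ^ 2) := by
    simp only [sph]
    rw [norm_mul, norm_ci, mul_one, Complex.norm_real, Real.norm_of_nonneg (Real.sqrt_nonneg _)]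
  rw [h2, Real.sq_sqrt h1]
  simp [sph]

private theorem lenR_smul_RF (r : ℝ) (x : S) : lenR (r • x) = |r| * lenR x := by
  unfold lenR
  have h1 : (r • x).1 ^ 2 + ‖(r • x).2‖ ^ 2 = r ^ 2 * (x.1 ^ 2 + ‖x.2‖ ^ 2) := by
    rw [Prod.smul_fst, Prod.smul_snd, norm_smul, Real.norm_eq_abs, mul_pow, sq_abs, smul_eq_mul]
    ring
  rw [h1, Real.sqrt_mul (sq_nonneg r), Real.sqrt_sq_eq_abs]

private theorem len_PR_RF (r : ℝ) (hr : 0 ≤ r) (p : C0) : lenR (PR r p) = r := by
  rw [PR, lenR_smul_RF, abs_of_nonneg hr]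
  have h : lenR (sph p) = 1 := by
    unfold lenR
    rw [len_sph_RF, Real.sqrt_one]
  rw [h, mul_one]

private theorem continuous_lenR_RF : Continuous lenR := by
  unfold lenR
  fun_prop

private theorem proper_RF (R : ℝ) : IsCompact {x : S | lenR x ≤ R} := by
  have hcl : IsClosed {x : S | lenR x ≤ R} := isClosed_le continuous_lenR_RF continuous_const
  refine Metric.isCompact_of_isClosed_isBounded hcl ?_
  refine (Metric.isBounded_closedBall (x := (0 : S)) (r := R)).subset ?_
  intro x hx
  rw [Metric.mem_closedBall, dist_zero_right, Prod.norm_def]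
  have hx' : lenR x ≤ R := hx
  have h1 : ‖x.1‖ ≤ lenR x := by
    rw [Real.norm_eq_abs]
    exact Real.abs_le_sqrt (by nlinarith [sq_nonneg ‖x.2‖])
  have h2 : ‖x.2‖ ≤ lenR x := by
    have h3 := Real.abs_le_sqrt (x := ‖x.2‖) (y := x.1 ^ 2 + ‖x.2‖ ^ 2) (by nlinarith [sq_nonneg x.1])
    rwa [abs_of_nonneg (norm_nonneg _)] at h3
  exact max_le (h1.trans hx') (h2.trans hx')

/-- Every unit complex number is a `ci v`. -/
private theorem exists_ci_RF (w : ℂ) (hw : ‖w‖ = 1) : ∃ v : I, ci v = w := by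
  have hpi := Real.pi_pos
  have hw0 : (‖w‖ : ℂ) * Complex.exp (Complex.arg w * Complex.I) = w := Complex.norm_mul_exp_arg_mul_I w
  rw [hw, Complex.ofReal_one, one_mul] at hw0
  have h1 := Complex.neg_pi_lt_arg w
  have h2 := Complex.arg_le_pi w
  by_cases h : 0 ≤ Complex.arg w
  · refine ⟨⟨Complex.arg w / (2 * Real.pi), div_nonneg h (by positivity), ?_⟩, ?_⟩
    · rw [div_le_one (by positivity)]
      linarith
    · unfold ci
      have h3 : 2 * Real.pi * (Complex.arg w / (2 * Real.pi)) = Complex.arg w := by field_simp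
      simp only [h3]
      exact hw0
  · push Not at h
    refine ⟨⟨(Complex.arg w + 2 * Real.pi) / (2 * Real.pi), div_nonneg (by linarith) (by positivity), ?_⟩, ?_⟩
    · rw [div_le_one (by positivity)]
      linarith
    · unfold ci
      have h3 : 2 * Real.pi * ((Complex.arg w + 2 * Real.pi) / (2 * Real.pi)) = Complex.arg w + 2 * Real.pi := by
        field_simp
      simp only [h3]
      rw [Complex.ofReal_add, add_mul, Complex.exp_add]
      have h4 : Complex.exp (((2 * Real.pi : ℝ) : ℂ) * Complex.I) = 1 := by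
        push_cast
        exact Complex.exp_two_pi_mul_I
      rw [h4, mul_one, hw0]

private theorem surj_RF (x : S) : ∃ p, PR (lenR x) p = x := by
  have hr0 : 0 ≤ lenR x := Real.sqrt_nonneg _
  have hsq : lenR x ^ 2 = x.1 ^ 2 + ‖x.2‖ ^ 2 := Real.sq_sqrt (by positivity)
  by_cases hr : lenR x = 0
  · refine ⟨0, ?_⟩
    rw [hr] at hsq
    have h1 : x.1 = 0 := by nlinarith [sq_nonneg x.1, sq_nonneg ‖x.2‖]
    have h2 : ‖x.2‖ = 0 := by nlinarith [sq_nonneg x.1, sq_nonneg ‖x.2‖]
    rw [hr, PR, zero_smul]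
    exact Prod.ext h1.symm (norm_eq_zero.1 h2).symm
  · have hr1 : 0 < lenR x := lt_of_le_of_ne hr0 (Ne.symm hr)
    set r := lenR x with hrdef
    have habs : |x.1 / r| ≤ 1 := by
      rw [abs_div, abs_of_pos hr1, div_le_one hr1]
      exact abs_le_of_sq_le_sq (by nlinarith [sq_nonneg ‖x.2‖]) hr0
    have hc := abs_le.1 habs
    -- the angle
    obtain ⟨v, hv⟩ : ∃ v : I, ((‖x.2‖ : ℝ) : ℂ) * ci v = x.2 := by
      by_cases h2 : x.2 = 0
      · refine ⟨0, ?_⟩
        rw [h2, norm_zero]
        simp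
      · have h3 : (0 : ℝ) < ‖x.2‖ := norm_pos_iff.2 h2
        have h3' : ((‖x.2‖ : ℝ) : ℂ) ≠ 0 := by exact_mod_cast h3.ne'
        obtain ⟨v, hv⟩ := exists_ci_RF (x.2 / (‖x.2‖ : ℝ)) (by
          rw [norm_div, Complex.norm_real, norm_norm, div_self h3.ne'])
        refine ⟨v, ?_⟩
        rw [hv]
        field_simp
    refine ⟨(⟨(1 + x.1 / r) / 2, by linarith [hc.1], by linarith [hc.2]⟩, v), ?_⟩
    have hcc : cc ((⟨(1 + x.1 / r) / 2, by linarith [hc.1], by linarith [hc.2]⟩, v) : C0) = x.1 / r := by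
      unfold cc
      simp only
      ring
    unfold PR sph
    rw [hcc]
    have h5 : Real.sqrt (1 - (x.1 / r) ^ 2) = ‖x.2‖ / r := by
      have h6 : 1 - (x.1 / r) ^ 2 = (‖x.2‖ / r) ^ 2 := by
        rw [div_pow, div_pow]
        field_simp
        linarith
      rw [h6, Real.sqrt_sq (div_nonneg (norm_nonneg _) hr0)]
    rw [h5]
    refine Prod.ext ?_ ?_
    · simp only [Prod.smul_fst, smul_eq_mul]
      field_simp
    · simp only [Prod.smul_snd]
      rw [Complex.real_smul, Complex.ofReal_div, ← mul_assoc]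
      have h7 : (r : ℂ) ≠ 0 := by exact_mod_cast hr1.ne'
      rw [mul_div_cancel₀ _ h7, hv]

private theorem symm_RF (hRO : StRO) (r : ℝ) (f : S → ℝ) (hf : Continuous f) :
    ∫ p : C0, f (-(PR r p)) = ∫ p : C0, f (PR r p) := by
  have hc : Continuous fun p : C0 => PR r p := by
    unfold PR
    exact continuous_sph.const_smul r
  have i1 : Integrable (fun p : C0 => f (-(PR r p))) ((volume : Measure I).prod (volume : Measure I)) :=
    integrable_cont (volume : Measure C0) (hf.comp hc.neg)
  have i2 : Integrable (fun p : C0 => f (PR r p)) ((volume : Measure I).prod (volume : Measure I)) :=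
    integrable_cont (volume : Measure C0) (hf.comp hc)
  have e1 : ∫ p : C0, f (-(PR r p)) = ∫ u : I, ∫ v : I, f (-(PR r (u, v))) := integral_prod _ i1
  have e2 : ∫ p : C0, f (PR r p) = ∫ u : I, ∫ v : I, f (PR r (u, v)) := integral_prod _ i2
  rw [e1, e2]
  have key : ∀ u : I, ∫ v : I, f (-(PR r (u, v))) = ∫ v : I, f (PR r (unitInterval.symm u, v)) := by
    intro u
    have hcc : ∀ v : I, cc (unitInterval.symm u, v) = -cc (u, v) := by
      intro v
      unfold cc
      simp only [unitInterval.coe_symm_eq]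
      ring
    have hcu : ∀ v : I, cc (u, v) = 2 * (u : ℝ) - 1 := fun v => rfl
    have h1 := hRO (-1) (by simp) (fun w => f (r • ((-(2 * (u : ℝ) - 1),
      (Real.sqrt (1 - (2 * (u : ℝ) - 1) ^ 2) : ℂ) * w) : S))) (by fun_prop)
    have h2 : ∀ v : I, f (-(PR r (u, v))) = f (r • ((-(2 * (u : ℝ) - 1),
        (Real.sqrt (1 - (2 * (u : ℝ) - 1) ^ 2) : ℂ) * (-1 * ci v)) : S)) := by
      intro v
      congr 1
      unfold PR sph
      rw [← smul_neg, hcu]
      congr 1
      refine Prod.ext ?_ ?_
      · simp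
      · simp
    have h3 : ∀ v : I, f (PR r (unitInterval.symm u, v)) = f (r • ((-(2 * (u : ℝ) - 1),
        (Real.sqrt (1 - (2 * (u : ℝ) - 1) ^ 2) : ℂ) * (ci v)) : S)) := by
      intro v
      congr 1
      unfold PR sph
      rw [hcc, hcu, neg_sq]
    simp only [h2, h3]
    exact h1
  simp only [key]
  exact unitInterval.measurePreserving_symm.integral_comp
    (g := fun u : I => ∫ v : I, f (PR r (u, v))) unitInterval.symmMeasurableEquiv.measurableEmbedding

/-- The factor `R^3`. -/
private noncomputable def fac_RF (hRO : StRO) (hC : CompR) : Fac where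
  mul := fun x y => x + y
  inv := fun x => -x
  len := lenR
  P := PR
  mul_assoc := add_assoc
  zero_mul := zero_add
  mul_zero := add_zero
  inv_mul := neg_add_cancel
  mul_inv := add_neg_cancel
  cont_mul := continuous_add
  cont_inv := continuous_neg
  cont_len := continuous_lenR_RF
  len_nonneg := fun _ => Real.sqrt_nonneg _
  len_inv := fun x => by simp [lenR]
  proper := proper_RF
  cont_P := continuous_fst.smul (continuous_sph.comp continuous_snd)
  len_P := len_PR_RF
  surj_P := surj_RF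
  P_zero := fun p => by simp [PR]
  comp := hC
  symm := fun r _ f hf => symm_RF hRO r f hf
  right_inv := fun y => measurePreserving_add_right volume y
  lv := volume
  lv_reg := inferInstance
  lv_pos := inferInstance
  left_inv := fun g => measurePreserving_add_left volume g

theorem hRF : StRF := by
  intro hRO hC
  exact ⟨fac_RF hRO hC, rfl, rfl, rfl, rfl, rfl⟩

end Pool.Agent.Helper94.CM
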