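import Pool.Agent.Helper94.CM.St

/-!
# Project CM, module RO: rotations of the circle
-/

set_option autoImplicit false

namespace Pool.Agent.Helper94.CM

open MeasureTheory TopologicalSpace Set Filter Topology Pool.Agent.Helper95.CAS
open scoped unitInterval

private theorem int_I_RO (F : ℝ → ℝ) : ∫ v : I, F (v : ℝ) = ∫ x in (0 : ℝ)..1, F x := by
  rw [intervalIntegral.integral_of_le zero_le_one, ← integral_Icc_eq_integral_Ioc]
  exact integral_subtype_comap (measurableSet_Icc (a := (0 : ℝ)) (b := 1)) F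

theorem hRO : StRO := by
  intro w hw F _
  obtain ⟨θ, hθ⟩ : ∃ θ : ℝ, w = Complex.exp ((θ : ℂ) * Complex.I) := by
    refine ⟨w.arg, ?_⟩
    have h := Complex.norm_mul_exp_arg_mul_I w
    rw [hw] at h
    simpa using h.symm
  have hpi : (2 * Real.pi : ℝ) ≠ 0 := by positivity
  let G : ℝ → ℝ := fun x => F (Complex.exp (((2 * Real.pi * x : ℝ) : ℂ) * Complex.I))
  have hper : Function.Periodic G 1 := by
    intro x
    show F _ = F _
    congr 1
    have h1 : (((2 * Real.pi * (x + 1) : ℝ) : ℂ)) * Complex.I =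
        ((2 * Real.pi * x : ℝ) : ℂ) * Complex.I + 2 * Real.pi * Complex.I := by
      push_cast
      ring
    rw [h1, Complex.exp_add, Complex.exp_two_pi_mul_I, mul_one]
  have e1 : ∫ v : I, F (ci v) = ∫ x in (0 : ℝ)..1, G x := int_I_RO G
  have e2 : ∫ v : I, F (w * ci v) = ∫ x in (0 : ℝ)..1, G (x + θ / (2 * Real.pi)) := by
    rw [← int_I_RO]
    refine integral_congr_ae (Eventually.of_forall fun v => ?_)
    show F _ = F _
    congr 1
    rw [hθ, ci, ← Complex.exp_add]
    congr 1
    push_cast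
    have hc : (2 * (Real.pi : ℂ)) ≠ 0 := by exact_mod_cast hpi
    field_simp
    ring
  rw [e1, e2, intervalIntegral.integral_comp_add_right]
  have h := hper.intervalIntegral_add_eq (0 + θ / (2 * Real.pi)) 0
  have e3 : (1 : ℝ) + θ / (2 * Real.pi) = 0 + θ / (2 * Real.pi) + 1 := by ring
  rw [e3, h, zero_add]

end Pool.Agent.Helper94.CM
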