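import Pool.Agent.Helper94.CM.St

/-!
# Project CM (MP_466bd8), module SP: the support of the kernel
-/

set_option autoImplicit false

namespace Pool.Agent.Helper94.CM

open MeasureTheory TopologicalSpace Set Filter Topology Matrix Pool.Agent.Helper95.CAS
open scoped unitInterval

private theorem cancel_SP (F : Fac) (x z : S) : F.mul (F.inv x) (F.mul x z) = z := by
  rw [← F.mul_assoc, F.inv_mul, F.zero_mul]

private theorem cancel'_SP (F : Fac) (x z : S) : F.mul x (F.mul (F.inv x) z) = z := by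
  rw [← F.mul_assoc, F.mul_inv, F.zero_mul]

private theorem srt_fs_SP (ε : Bool) (h : DD) : srt (fs ε h) (fs (!ε) h) = h := by
  cases ε with
  | false => exact srt_self h
  | true =>
    rw [srt_comm]
    exact srt_self h

private theorem fs_nonneg_SP (ε : Bool) (h : DD) : 0 ≤ fs ε h := by
  unfold fs
  split_ifs
  · exact h.2.1
  · exact h.2.1.trans h.2.2

theorem hSP : StSP := by
  intro F₁ F₂ x y h
  constructor
  · rintro ⟨⟨p, q, ε⟩, rfl⟩
    unfold prt Gx
    rw [cancel_SP, cancel_SP, F₁.len_P _ (fs_nonneg_SP _ _), F₂.len_P _ (fs_nonneg_SP _ _)]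
    exact srt_fs_SP ε h
  · intro hp
    have h1 := F₁.len_nonneg (F₁.mul (F₁.inv x.1) y.1)
    have h2 := F₂.len_nonneg (F₂.mul (F₂.inv x.2) y.2)
    obtain ⟨p, hp1⟩ := F₁.surj_P (F₁.mul (F₁.inv x.1) y.1)
    obtain ⟨q, hq1⟩ := F₂.surj_P (F₂.mul (F₂.inv x.2) y.2)
    rcases srt_cases h1 h2 with hc | hc
    · refine ⟨(p, q, false), ?_⟩
      have e1 : fs false h = F₁.len (F₁.mul (F₁.inv x.1) y.1) := by
        rw [← hp]
        exact congrArg Prod.fst hc
      have e2 : fs (!false) h = F₂.len (F₂.mul (F₂.inv x.2) y.2) := by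
        rw [← hp]
        exact congrArg Prod.snd hc
      unfold Gx
      rw [e1, e2, hp1, hq1, cancel'_SP, cancel'_SP]
    · refine ⟨(p, q, true), ?_⟩
      have e1 : fs true h = F₁.len (F₁.mul (F₁.inv x.1) y.1) := by
        rw [← hp]
        exact congrArg Prod.snd hc
      have e2 : fs (!true) h = F₂.len (F₂.mul (F₂.inv x.2) y.2) := by
        rw [← hp]
        exact congrArg Prod.fst hc
      unfold Gx
      rw [e1, e2, hp1, hq1, cancel'_SP, cancel'_SP]

end Pool.Agent.Helper94.CM
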