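import Pool.Agent.Helper94.CM.St

/-!
# Project CM, module TR: the action of the unitary group on the sphere
-/

set_option autoImplicit false

namespace Pool.Agent.Helper94.CM

open MeasureTheory TopologicalSpace Set Filter Topology Matrix Pool.Agent.Helper95.CAS
open scoped unitInterval

private theorem mul_star_TR (k : K) : k.1 * (k.1)ᴴ = 1 := by
  have := (Unitary.mem_iff.1 k.2).2
  rwa [Matrix.star_eq_conjTranspose] at this

private theorem star_mul_TR (k : K) : (k.1)ᴴ * k.1 = 1 := by
  have := (Unitary.mem_iff.1 k.2).1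
  rwa [Matrix.star_eq_conjTranspose] at this

private theorem nsq_TR (z : ℂ) : ((‖z‖ ^ 2 : ℝ) : ℂ) = z * (starRingEnd ℂ) z := by
  rw [Complex.mul_conj, Complex.normSq_eq_norm_sq]

private theorem one_TR (k : K) : k.1 * mat 0 (1, 0) * (k.1)ᴴ = mat 0 (nn k) := by
  have h1 := mul_star_TR k
  have h2 := star_mul_TR k
  have r0 : k.1 0 0 * (starRingEnd ℂ) (k.1 0 0) + k.1 0 1 * (starRingEnd ℂ) (k.1 0 1) = 1 := by
    have := congrFun (congrFun h1 0) 0
    simpa [Matrix.mul_apply, Fin.sum_univ_two] using this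
  have r1 : k.1 1 0 * (starRingEnd ℂ) (k.1 1 0) + k.1 1 1 * (starRingEnd ℂ) (k.1 1 1) = 1 := by
    have := congrFun (congrFun h1 1) 1
    simpa [Matrix.mul_apply, Fin.sum_univ_two] using this
  have c0 : (starRingEnd ℂ) (k.1 0 0) * k.1 0 0 + (starRingEnd ℂ) (k.1 1 0) * k.1 1 0 = 1 := by
    have := congrFun (congrFun h2 0) 0
    simpa [Matrix.mul_apply, Fin.sum_univ_two] using this
  have c1 : (starRingEnd ℂ) (k.1 0 1) * k.1 0 1 + (starRingEnd ℂ) (k.1 1 1) * k.1 1 1 = 1 := by
    have := congrFun (congrFun h2 1) 1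
    simpa [Matrix.mul_apply, Fin.sum_univ_two] using this
  ext i j
  fin_cases i <;> fin_cases j
  · simp only [mat, nn, Matrix.mul_apply, Fin.sum_univ_two, Matrix.conjTranspose_apply]
    simp [← nsq_TR]
    ring_nf
  · simp only [mat, nn, Matrix.mul_apply, Fin.sum_univ_two, Matrix.conjTranspose_apply]
    simp
    ring
  · simp only [mat, nn, Matrix.mul_apply, Fin.sum_univ_two, Matrix.conjTranspose_apply]
    simp
    ring
  · simp only [mat, nn, Matrix.mul_apply, Fin.sum_univ_two, Matrix.conjTranspose_apply]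
    simp
    rw [← Complex.ofReal_pow, ← Complex.ofReal_pow, nsq_TR, nsq_TR]
    linear_combination c0 - c1

private theorem det_mat_TR (α : ℝ) (ν : S) : (mat α ν).det = ((α ^ 2 - ν.1 ^ 2 - ‖ν.2‖ ^ 2 : ℝ) : ℂ) := by
  rw [mat, Matrix.det_fin_two_of]
  have := nsq_TR ν.2
  push_cast at this ⊢
  rw [this]
  ring

private theorem mat_smul_TR (α ρ : ℝ) (ν : S) :
    mat α (ρ • ν) = (α : ℂ) • (1 : Matrix (Fin 2) (Fin 2) ℂ) + (ρ : ℂ) • mat 0 ν := by
  ext i j
  fin_cases i <;> fin_cases j <;> simp [mat]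
  ring

theorem hTR : StTR := by
  refine ⟨one_TR, ?_, ?_, ?_, ?_, ?_⟩
  · intro k
    have h1 := congrArg Matrix.det (one_TR k)
    rw [Matrix.det_mul, Matrix.det_mul, mul_right_comm, ← Matrix.det_mul, mul_star_TR,
      Matrix.det_one, one_mul, det_mat_TR, det_mat_TR] at h1
    have h2 := Complex.ofReal_injective h1
    simp at h2
    linarith
  · intro k u α ρ
    rw [mat_smul_TR, mat_smul_TR, ← one_TR, ← one_TR]
    have h1 : ((k * u : K) : Matrix (Fin 2) (Fin 2) ℂ) = k.1 * u.1 := rfl
    have h1' : (k * u : K).1 = k.1 * u.1 := rfl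
    rw [h1', Matrix.conjTranspose_mul, Matrix.mul_add, Matrix.add_mul, Matrix.mul_smul,
      Matrix.smul_mul, Matrix.mul_one, mul_star_TR, Matrix.mul_smul, Matrix.smul_mul]
    simp only [Matrix.mul_assoc]
  · intro ν ρ hρ hν
    rcases eq_or_lt_of_le hρ with h0 | h0
    · refine ⟨1, ?_⟩
      rw [← h0] at hν ⊢
      rw [zero_smul]
      have h1 : ν.1 ^ 2 = 0 := by nlinarith [sq_nonneg ν.1, sq_nonneg ‖ν.2‖]
      have h2 : ‖ν.2‖ ^ 2 = 0 := by nlinarith [sq_nonneg ν.1, sq_nonneg ‖ν.2‖]
      exact Prod.ext (pow_eq_zero_iff (two_ne_zero) |>.1 h1)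
        (norm_eq_zero.1 (pow_eq_zero_iff (two_ne_zero) |>.1 h2))
    · -- normalise
      set n₁ : ℝ := ν.1 / ρ with hn₁
      set n₂ : ℂ := ν.2 / ρ with hn₂
      have hn : n₁ ^ 2 + ‖n₂‖ ^ 2 = 1 := by
        rw [hn₁, hn₂, norm_div, Complex.norm_real, Real.norm_eq_abs, abs_of_pos h0, div_pow, div_pow,
          ← add_div, hν]
        field_simp
      have hle : n₁ ^ 2 ≤ 1 := by nlinarith [sq_nonneg ‖n₂‖]
      obtain ⟨hl, hr⟩ := abs_le.1 ((sq_le_one_iff_abs_le_one n₁).1 hle)
      set a : ℝ := Real.sqrt ((1 + n₁) / 2) with ha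
      set b : ℝ := Real.sqrt ((1 - n₁) / 2) with hb
      have ha2 : a ^ 2 = (1 + n₁) / 2 := Real.sq_sqrt (by linarith)
      have hb2 : b ^ 2 = (1 - n₁) / 2 := Real.sq_sqrt (by linarith)
      have hab : ‖n₂‖ = 2 * a * b := by
        have h1 : ‖n₂‖ ^ 2 = (2 * a * b) ^ 2 := by
          rw [mul_pow, mul_pow, ha2, hb2]; nlinarith
        exact (pow_left_inj₀ (norm_nonneg _) (by positivity) two_ne_zero).1 h1
      obtain ⟨e, he, hne⟩ : ∃ e : ℂ, ‖e‖ = 1 ∧ n₂ = ‖n₂‖ * e := by
        by_cases h : n₂ = 0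
        · exact ⟨1, by simp, by simp [h]⟩
        · refine ⟨n₂ / ‖n₂‖, ?_, ?_⟩
          · rw [norm_div, Complex.norm_real, norm_norm, div_self (norm_ne_zero_iff.2 h)]
          · rw [mul_div_cancel₀]
            exact_mod_cast norm_ne_zero_iff.2 h
      have hee : e * (starRingEnd ℂ) e = 1 := by
        rw [← nsq_TR, he]; simp
      have hab1 : (a : ℂ) * a + b * b = 1 := by
        have : a * a + b * b = 1 := by nlinarith
        exact_mod_cast this
      refine ⟨⟨!![(a : ℂ), -(b : ℂ) * (starRingEnd ℂ) e; (b : ℂ) * e, (a : ℂ)], ?_⟩, ?_⟩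
      · rw [Unitary.mem_iff]
        constructor
        · ext i j
          fin_cases i <;> fin_cases j <;>
            simp [Matrix.mul_apply, Fin.sum_univ_two, Matrix.star_apply]
          · linear_combination hab1 + (b : ℂ) * b * hee
          · ring
          · ring
          · linear_combination hab1 + (b : ℂ) * b * hee
        · ext i j
          fin_cases i <;> fin_cases j <;>
            simp [Matrix.mul_apply, Fin.sum_univ_two, Matrix.star_apply]
          · linear_combination hab1 + (b : ℂ) * b * hee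
          · ring
          · ring
          · linear_combination hab1 + (b : ℂ) * b * hee
      · have hρ0 : (ρ : ℂ) ≠ 0 := by exact_mod_cast h0.ne'
        apply Prod.ext
        · simp only [nn, Prod.smul_fst, smul_eq_mul]
          simp [he]
          rw [ha2, hb2, hn₁]
          field_simp
          ring
        · simp only [nn, Prod.smul_snd, Complex.real_smul]
          simp
          have h3 : ν.2 = ρ * n₂ := by rw [hn₂]; field_simp
          rw [h3, hne, hab]
          push_cast
          ring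
  · simp [nn]
  · have hc : ∀ i j : Fin 2, Continuous fun k : K => k.1 i j := fun i j =>
      (continuous_apply j).comp ((continuous_apply i).comp continuous_subtype_val)
    unfold nn
    refine Continuous.prodMk ?_ ?_
    · exact ((hc 0 0).norm.pow 2).sub ((hc 0 1).norm.pow 2)
    · exact ((hc 1 0).mul (Complex.continuous_conj.comp (hc 0 0))).sub
        ((hc 1 1).mul (Complex.continuous_conj.comp (hc 0 1)))

end Pool.Agent.Helper94.CM
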