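import Pool.Agent.Helper94.CM.St

/-!
# Project CM, module TT: associativity for triangles
-/

set_option autoImplicit false

namespace Pool.Agent.Helper94.CM

open MeasureTheory TopologicalSpace Set Filter Topology Pool.Agent.Helper95.CAS
open scoped unitInterval

/-- The composition property for functions of the length. -/
private theorem len_TT (F : Fac) {r s : ℝ} (hr : 0 ≤ r) (hs : 0 ≤ s) {f : ℝ → ℝ}
    (hf : Continuous f) :
    ∫ p : C0, ∫ q : C0, f (F.len (F.mul (F.P r p) (F.P s q))) = ∫ g : I, f (tt r s g) := by
  have h := F.comp r s hr hs (fun x => f (F.len x)) (hf.comp F.cont_len)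
  rw [h]
  refine integral_congr_ae (Eventually.of_forall fun g => ?_)
  simp only [F.len_P _ (tt_nonneg r s g)]
  simp

theorem hTT : StTT := by
  intro F r s t hr hs ht f hf
  have hPt : Continuous (F.P t) := F.cont_P.comp (Continuous.prodMk_right t)
  have hPr : Continuous (F.P r) := F.cont_P.comp (Continuous.prodMk_right r)
  have hPs : Continuous (F.P s) := F.cont_P.comp (Continuous.prodMk_right s)
  -- first product
  have hφ : Continuous fun x : S => ∫ w : C0, f (F.len (F.mul x (F.P t w))) := by
    refine continuous_int volume (f := fun (x : S) (w : C0) => f (F.len (F.mul x (F.P t w)))) ?_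
    exact hf.comp (F.cont_len.comp (F.cont_mul.comp
      (continuous_fst.prodMk (hPt.comp continuous_snd))))
  have h1 := F.comp r s hr hs _ hφ
  have h2 : ∀ g : I, ∫ p : C0, ∫ w : C0, f (F.len (F.mul (F.P (tt r s g) p) (F.P t w))) =
      ∫ g' : I, f (tt (tt r s g) t g') := fun g => len_TT F (tt_nonneg r s g) ht hf
  simp only [h2] at h1
  -- second product
  have h3 : ∀ p : C0, ∫ q : C0, ∫ w : C0, f (F.len (F.mul (F.mul (F.P r p) (F.P s q)) (F.P t w))) =
      ∫ g : I, ∫ u : C0, f (F.len (F.mul (F.P r p) (F.P (tt s t g) u))) := by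
    intro p
    have h4 := F.comp s t hs ht (fun y => f (F.len (F.mul (F.P r p) y)))
      (hf.comp (F.cont_len.comp (F.cont_mul.comp (continuous_const.prodMk continuous_id))))
    rw [← h4]
    simp only [F.mul_assoc]
  simp only [h3] at h1
  rw [← h1]
  have hc : Continuous fun z : (C0 × I) × C0 =>
      f (F.len (F.mul (F.P r z.1.1) (F.P (tt s t z.1.2) z.2))) := by
    have h5 : Continuous fun z : (C0 × I) × C0 => tt s t z.1.2 :=
      continuous_tt.comp (Continuous.prodMk continuous_const
        (Continuous.prodMk continuous_const (continuous_snd.comp continuous_fst)))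
    exact hf.comp (F.cont_len.comp (F.cont_mul.comp
      ((hPr.comp (continuous_fst.comp continuous_fst)).prodMk
        (F.cont_P.comp (h5.prodMk continuous_snd)))))
  have hc2 : Continuous fun z : C0 × I =>
      ∫ u : C0, f (F.len (F.mul (F.P r z.1) (F.P (tt s t z.2) u))) :=
    continuous_int volume (f := fun (z : C0 × I) (u : C0) =>
      f (F.len (F.mul (F.P r z.1) (F.P (tt s t z.2) u)))) hc
  have hswap := integral_integral_swap (μ := (volume : Measure C0)) (ν := (volume : Measure I))
    (f := fun (p : C0) (g : I) => ∫ u : C0, f (F.len (F.mul (F.P r p) (F.P (tt s t g) u))))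
    (integrable_cont _ hc2)
  rw [hswap]
  refine integral_congr_ae (Eventually.of_forall fun g => ?_)
  exact len_TT F hr (tt_nonneg s t g) hf

end Pool.Agent.Helper94.CM
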