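import Pool.Agent.Helper94.CM.St

/-!
# Project CM, module UN: uniqueness of the measure
-/

set_option autoImplicit false

namespace Pool.Agent.Helper94.CM

open MeasureTheory TopologicalSpace Set Filter Topology Pool.Agent.Helper95.CAS
open scoped unitInterval

/-- The group product. -/
private noncomputable def mm (F₁ F₂ : Fac) (p : (S × S) × (S × S)) : S × S :=
  (F₁.mul p.1.1 p.2.1, F₂.mul p.1.2 p.2.2)

private theorem cont_mm (F₁ F₂ : Fac) : Continuous (mm F₁ F₂) := by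
  have hm1 : Continuous fun p : (S × S) × (S × S) => F₁.mul p.1.1 p.2.1 :=
    F₁.cont_mul.comp (f := fun p : (S × S) × (S × S) => (p.1.1, p.2.1)) (by fun_prop)
  have hm2 : Continuous fun p : (S × S) × (S × S) => F₂.mul p.1.2 p.2.2 :=
    F₂.cont_mul.comp (f := fun p : (S × S) × (S × S) => (p.1.2, p.2.2)) (by fun_prop)
  exact hm1.prodMk hm2

private theorem prt_nonneg (F₁ F₂ : Fac) (x y : S × S) : 0 ≤ (prt F₁ F₂ x y).1.1 := by
  have h := (prt F₁ F₂ x y).2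
  exact h.1.trans h.2

private theorem mul_cancel_UN (F : Fac) (a b : S) : F.mul a (F.mul (F.inv a) b) = b := by
  rw [← F.mul_assoc, F.mul_inv, F.zero_mul]

private theorem len_zero_UN (F : Fac) (x : S) (h : F.len x = 0) : x = 0 := by
  obtain ⟨p, hp⟩ := F.surj_P x
  rw [h, F.P_zero] at hp
  exact hp.symm

private theorem eq_of_prt (F₁ F₂ : Fac) (x y : S × S) (h : (prt F₁ F₂ x y).1.1 ≤ 0) : x = y := by
  unfold prt at h
  rw [srt_coe] at h
  have h1 := (le_max_left _ _).trans h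
  have h2 := (le_max_right _ _).trans h
  have e1 := len_zero_UN F₁ _ (abs_nonpos_iff.1 h1)
  have e2 := len_zero_UN F₂ _ (abs_nonpos_iff.1 h2)
  have f1 := mul_cancel_UN F₁ x.1 y.1
  have f2 := mul_cancel_UN F₂ x.2 y.2
  rw [e1, F₁.mul_zero] at f1
  rw [e2, F₂.mul_zero] at f2
  exact Prod.ext f1 f2

/-- Neighbourhoods of compact sets. -/
private theorem ball_UN (hPR : StPR) (F₁ F₂ : Fac) (A : Set (S × S)) (hA : IsCompact A) (R : ℝ) :
    ∃ B : Set (S × S), IsCompact B ∧ A ⊆ B ∧ ∀ w, ∀ y ∈ A, (prt F₁ F₂ w y).1.1 ≤ R → w ∈ B := by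
  obtain ⟨hsym, hinv, hprop, -⟩ := hPR F₁ F₂
  refine ⟨A ∪ mm F₁ F₂ '' (A ×ˢ {z | (prt F₁ F₂ 0 z).1.1 ≤ R}),
    hA.union ((hA.prod (hprop R 0)).image (cont_mm F₁ F₂)), subset_union_left, ?_⟩
  intro w y hy hw
  right
  have e1 : mm F₁ F₂ (y, (F₁.mul (F₁.inv y.1) w.1, F₂.mul (F₂.inv y.2) w.2)) = w := by
    change (F₁.mul y.1 (F₁.mul (F₁.inv y.1) w.1), F₂.mul y.2 (F₂.mul (F₂.inv y.2) w.2)) = w
    rw [mul_cancel_UN, mul_cancel_UN]
  refine ⟨(y, (F₁.mul (F₁.inv y.1) w.1, F₂.mul (F₂.inv y.2) w.2)), ⟨hy, ?_⟩, e1⟩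
  have e2 := hinv y 0 (F₁.mul (F₁.inv y.1) w.1, F₂.mul (F₂.inv y.2) w.2)
  change prt F₁ F₂ (F₁.mul y.1 0, F₂.mul y.2 0)
    (mm F₁ F₂ (y, (F₁.mul (F₁.inv y.1) w.1, F₂.mul (F₂.inv y.2) w.2))) = _ at e2
  rw [e1, F₁.mul_zero, F₂.mul_zero] at e2
  change (prt F₁ F₂ 0 (F₁.mul (F₁.inv y.1) w.1, F₂.mul (F₂.inv y.2) w.2)).1.1 ≤ R
  rw [← e2, hsym]
  exact hw

/-- Uniform continuity. -/
private theorem unif_UN (hPR : StPR) (F₁ F₂ : Fac) (g : S × S → ℝ) (hg : Continuous g) (hgc : HasCompactSupport g)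
    (η : ℝ) (hη : 0 < η) :
    ∃ δ : ℝ, 0 < δ ∧ δ ≤ 1 ∧ ∀ x y, (prt F₁ F₂ x y).1.1 ≤ δ → |g x - g y| ≤ η := by
  obtain ⟨B, hB, hAB, hB'⟩ := ball_UN hPR F₁ F₂ (tsupport g) hgc 1
  obtain ⟨hsym, -, -, -⟩ := hPR F₁ F₂
  have hπ := continuous_prt F₁ F₂
  have hπ1 : Continuous fun p : (S × S) × (S × S) => (prt F₁ F₂ p.1 p.2).1.1 :=
    continuous_fst.comp (continuous_subtype_val.comp hπ)
  have hZ : IsCompact ((B ×ˢ B) ∩ {p : (S × S) × (S × S) | η ≤ |g p.1 - g p.2|}) := by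
    refine (hB.prod hB).inter_right ?_
    exact isClosed_le continuous_const ((hg.comp continuous_fst).sub (hg.comp continuous_snd)).abs
  -- the minimum of the distance on the bad set
  have hmin : ∃ δ₀ : ℝ, 0 < δ₀ ∧ ∀ p ∈ (B ×ˢ B) ∩ {p : (S × S) × (S × S) | η ≤ |g p.1 - g p.2|},
      δ₀ ≤ (prt F₁ F₂ p.1 p.2).1.1 := by
    rcases (((B ×ˢ B) ∩ {p : (S × S) × (S × S) | η ≤ |g p.1 - g p.2|})).eq_empty_or_nonempty with h | h
    · exact ⟨1, one_pos, fun p hp => by rw [h] at hp; exact absurd hp (notMem_empty _)⟩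
    · obtain ⟨p, hp, hpm⟩ := hZ.exists_isMinOn h hπ1.continuousOn
      refine ⟨(prt F₁ F₂ p.1 p.2).1.1, ?_, fun q hq => hpm hq⟩
      refine lt_of_not_ge fun h0 => ?_
      have := eq_of_prt F₁ F₂ p.1 p.2 h0
      have h3 : η ≤ |g p.1 - g p.2| := hp.2
      rw [this, sub_self, abs_zero] at h3
      linarith
  obtain ⟨δ₀, hδ₀, hδ₀'⟩ := hmin
  refine ⟨min (δ₀ / 2) 1, lt_min (half_pos hδ₀) one_pos, min_le_right _ _, ?_⟩
  intro x y hxy
  by_contra hlt
  rw [not_le] at hlt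
  have h1 : (prt F₁ F₂ x y).1.1 ≤ δ₀ / 2 := hxy.trans (min_le_left _ _)
  have h2 : (prt F₁ F₂ x y).1.1 ≤ 1 := hxy.trans (min_le_right _ _)
  have hne : g x ≠ 0 ∨ g y ≠ 0 := by
    by_contra hcon
    rw [not_or, not_not, not_not] at hcon
    rw [hcon.1, hcon.2, sub_zero, abs_zero] at hlt
    linarith
  have hxB : x ∈ B ∧ y ∈ B := by
    rcases hne with h | h
    · refine ⟨hAB (subset_tsupport g h), hB' y x (subset_tsupport g h) ?_⟩
      rw [hsym]; exact h2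
    · exact ⟨hB' x y (subset_tsupport g h) h2, hAB (subset_tsupport g h)⟩
  have h3 := hδ₀' (x, y) ⟨⟨hxB.1, hxB.2⟩, hlt.le⟩
  have h4 : δ₀ ≤ (prt F₁ F₂ x y).1.1 := h3
  linarith

/-- (a) -/
private theorem a_UN (hPR : StPR) (F₁ F₂ : Fac) {H' : Hypergroup DD} (C' : PreCAS (S × S) DD H')
    (ω : Measure (S × S)) (ωD : Measure DD) (hT : T2id F₁ F₂ C' ω ωD) (f : DD → ℝ) (hf : Continuous f)
    (hfc : HasCompactSupport f) (x : S × S) : ∫ y, f (prt F₁ F₂ x y) ∂ω = ∫ h, f h ∂ωD := by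
  obtain ⟨hsym, hinv, hprop, -⟩ := hPR F₁ F₂
  have hc1 : Continuous fun h : DD => h.1.1 := continuous_fst.comp continuous_subtype_val
  obtain ⟨R, hR⟩ := (IsCompact.image hfc hc1).bddAbove
  have hR' : ∀ h, f h ≠ 0 → h.1.1 ≤ R := fun h hh => hR (mem_image_of_mem _ (subset_tsupport f hh))
  obtain ⟨g, hg1, -, hgc, hg⟩ := exists_continuous_one_zero_of_isCompact (hprop R x)
      (isClosed_empty (X := S × S)) (disjoint_empty _)
  have h := hT.t2 f g hf hfc g.continuous hgc x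
  have e1 : ∀ h, C'.T h g x * f h = f h := by
    intro h
    by_cases hh : f h = 0
    · rw [hh, mul_zero]
    · have h1 : C'.T h g x = ∫ y, (1 : ℝ) ∂(C'.K x h : Measure (S × S)) := by
        refine integral_congr_ae ?_
        filter_upwards [Measure.support_mem_ae (μ := (C'.K x h : Measure (S × S)))] with y hy
        have h2 := (C'.mem_support_iff x y h).1 hy
        rw [hT.part] at h2
        have h3 : y ∈ {y | (prt F₁ F₂ x y).1.1 ≤ R} := by
          change (prt F₁ F₂ x y).1.1 ≤ R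
          rw [h2]
          exact hR' h hh
        exact hg1 h3
      rw [h1]
      simp
  have e2 : ∀ y, f (prt F₁ F₂ x y) * g y = f (prt F₁ F₂ x y) := by
    intro y
    by_cases hh : f (prt F₁ F₂ x y) = 0
    · rw [hh, zero_mul]
    · have h3 : y ∈ {y | (prt F₁ F₂ x y).1.1 ≤ R} := hR' _ hh
      have h4 : g y = 1 := hg1 h3
      rw [h4, mul_one]
  simp only [e1, e2] at h
  exact h.symm

/-- (b) -/
private theorem b_UN (hPR : StPR) (F₁ F₂ : Fac) (f : DD → ℝ) (hf : Continuous f) (x : S × S) :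
    ∫ y, f (prt F₁ F₂ x y) ∂(vX F₁ F₂) = ∫ y, f (prt F₁ F₂ 0 y) ∂(vX F₁ F₂) := by
  obtain ⟨hsym, hinv, hprop, hmp, -⟩ := hPR F₁ F₂
  have hπ := continuous_prt F₁ F₂
  have h1 := hmp x
  have hc : Continuous fun y => f (prt F₁ F₂ x y) := hf.comp (hπ.comp (Continuous.prodMk_right x))
  have h2 := integral_map (μ := vX F₁ F₂) h1.measurable.aemeasurable (f := fun y => f (prt F₁ F₂ x y))
    hc.aestronglyMeasurable
  rw [h1.map_eq] at h2
  rw [h2]
  refine integral_congr_ae (Eventually.of_forall fun y => ?_)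
  change f (prt F₁ F₂ x (F₁.mul x.1 y.1, F₂.mul x.2 y.2)) = f (prt F₁ F₂ 0 y)
  have h3 := hinv x 0 y
  change prt F₁ F₂ (F₁.mul x.1 0, F₂.mul x.2 0) _ = _ at h3
  rw [F₁.mul_zero, F₂.mul_zero] at h3
  rw [← h3]

/-- (c) -/
private theorem c_UN (hPR : StPR) (F₁ F₂ : Fac) {H' : Hypergroup DD} (C' : PreCAS (S × S) DD H')
    (ω : Measure (S × S)) (ωD : Measure DD) (hT : T2id F₁ F₂ C' ω ωD) (g : S × S → ℝ) (hg : Continuous g)
    (hgc : HasCompactSupport g) :
    ∃ C : ℝ, 0 ≤ C ∧ ∀ η : ℝ, 0 ≤ η → ∀ δ : ℝ, δ ≤ 1 →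
      (∀ x y, (prt F₁ F₂ x y).1.1 ≤ δ → |g x - g y| ≤ η) →
      ∀ f : DD → ℝ, Continuous f → HasCompactSupport f → (∀ h, 0 ≤ f h) → (∀ h, f h ≠ 0 → h.1.1 ≤ δ) →
      |(∫ h, f h ∂ωD) * (∫ y, g y ∂(vX F₁ F₂)) - (∫ y, f (prt F₁ F₂ 0 y) ∂(vX F₁ F₂)) * ∫ y, g y ∂ω| ≤
        η * (∫ y, f (prt F₁ F₂ 0 y) ∂(vX F₁ F₂)) * C := by
  obtain ⟨B, hB, hAB, hB'⟩ := ball_UN hPR F₁ F₂ (tsupport g) hgc 1
  have hPR' := hPR
  obtain ⟨hsym, hinv, hprop, hmp, hreg, hpos, hsf⟩ := hPR' F₁ F₂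
  have hω := hT.reg
  have hπ := continuous_prt F₁ F₂
  refine ⟨(ω B).toReal, ENNReal.toReal_nonneg, ?_⟩
  intro η hη δ hδ hδg f hf hfc hf0 hfδ
  set v := vX F₁ F₂ with hv
  set m := ∫ y, f (prt F₁ F₂ 0 y) ∂v with hm
  have hmx : ∀ y, ∫ x, f (prt F₁ F₂ x y) ∂v = m := by
    intro y
    rw [hm, ← b_UN hPR F₁ F₂ f hf y]
    simp only [hsym _ y]
    rfl
  have hfx : ∀ y, Continuous fun x => f (prt F₁ F₂ x y) := fun y => hf.comp (hπ.comp (Continuous.prodMk_left y))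
  have hfxs : ∀ y, HasCompactSupport fun x => f (prt F₁ F₂ x y) := by
    intro y
    refine HasCompactSupport.intro (hprop 1 y) fun x hx => ?_
    by_contra hne
    have h1 : (prt F₁ F₂ x y).1.1 ≤ δ := hfδ _ hne
    rw [hsym] at h1
    exact hx (h1.trans hδ)
  have hifx : ∀ y, Integrable (fun x => f (prt F₁ F₂ x y)) v := fun y =>
    (hfx y).integrable_of_hasCompactSupport (hfxs y)
  have hgi : Integrable g ω := hg.integrable_of_hasCompactSupport hgc
  -- left side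
  have e1 : (∫ h, f h ∂ωD) * (∫ y, g y ∂v) = ∫ y, ∫ x, g x * f (prt F₁ F₂ x y) ∂v ∂ω := by
    have e2 : (∫ h, f h ∂ωD) * (∫ y, g y ∂v) = ∫ x, ∫ y, g x * f (prt F₁ F₂ x y) ∂ω ∂v := by
      have e3 : ∀ x, ∫ y, g x * f (prt F₁ F₂ x y) ∂ω = g x * ∫ h, f h ∂ωD := by
        intro x
        rw [integral_const_mul, a_UN hPR F₁ F₂ C' ω ωD hT f hf hfc x]
      simp only [e3]
      rw [integral_mul_const, mul_comm]
    rw [e2]
    refine integral_integral_swap_of_hasCompactSupport ?_ ?_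
    · exact (hg.comp continuous_fst).mul (hf.comp hπ)
    · refine HasCompactSupport.intro (IsCompact.prod hgc hB) fun p hp => ?_
      change g p.1 * f (prt F₁ F₂ p.1 p.2) = 0
      by_contra hne
      have h1 := subset_tsupport g (left_ne_zero_of_mul hne)
      have h2 := hfδ _ (right_ne_zero_of_mul hne)
      rw [hsym] at h2
      exact hp ⟨h1, hB' _ _ h1 (h2.trans hδ)⟩
  have hGc : (Continuous fun y => ∫ x, g x * f (prt F₁ F₂ x y) ∂v) := by
    have h1 : ∀ y, ∫ x, g x * f (prt F₁ F₂ x y) ∂v = ∫ x in tsupport g, g x * f (prt F₁ F₂ x y) ∂v := by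
      intro w
      refine (setIntegral_eq_integral_of_forall_compl_eq_zero fun y hy => ?_).symm
      rw [image_eq_zero_of_notMem_tsupport hy, zero_mul]
    simp only [h1]
    refine continuous_parametric_integral_of_continuous (μ := v) (f := fun y x => g x * f (prt F₁ F₂ x y)) ?_ hgc
    exact (hg.comp continuous_snd).mul (hf.comp (hπ.comp continuous_swap))
  have hGs : HasCompactSupport fun y => ∫ x, g x * f (prt F₁ F₂ x y) ∂v := by
    refine HasCompactSupport.intro hB fun y hy => ?_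
    have : ∀ x, g x * f (prt F₁ F₂ x y) = 0 := by
      intro x
      by_contra hne
      have h1 := subset_tsupport g (left_ne_zero_of_mul hne)
      have h2 := hfδ _ (right_ne_zero_of_mul hne)
      rw [hsym] at h2
      exact hy (hB' _ _ h1 (h2.trans hδ))
    simp only [this, integral_zero]
  have hGi : Integrable (fun y => ∫ x, g x * f (prt F₁ F₂ x y) ∂v) ω := hGc.integrable_of_hasCompactSupport hGs
  have e4 : m * ∫ y, g y ∂ω = ∫ y, m * g y ∂ω := by rw [integral_const_mul]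
  rw [e1, e4, ← integral_sub hGi (hgi.const_mul m)]
  have e5 : ∀ y, (∫ x, g x * f (prt F₁ F₂ x y) ∂v) - m * g y = ∫ x, (g x - g y) * f (prt F₁ F₂ x y) ∂v := by
    intro y
    have i1 : Integrable (fun x => g x * f (prt F₁ F₂ x y)) v :=
      (hg.mul (hfx y)).integrable_of_hasCompactSupport (hfxs y).mul_left
    have i2 : Integrable (fun x => g y * f (prt F₁ F₂ x y)) v := (hifx y).const_mul _
    have e6 : m * g y = ∫ x, g y * f (prt F₁ F₂ x y) ∂v := by rw [integral_const_mul, hmx y, mul_comm]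
    rw [e6, ← integral_sub i1 i2]
    refine integral_congr_ae (Eventually.of_forall fun x => ?_)
    change g x * f (prt F₁ F₂ x y) - g y * f (prt F₁ F₂ x y) = (g x - g y) * f (prt F₁ F₂ x y)
    ring
  simp only [e5]
  have e7 : ∫ y, ∫ x, (g x - g y) * f (prt F₁ F₂ x y) ∂v ∂ω =
      ∫ y in B, ∫ x, (g x - g y) * f (prt F₁ F₂ x y) ∂v ∂ω := by
    refine (setIntegral_eq_integral_of_forall_compl_eq_zero fun y hy => ?_).symm
    have : ∀ x, (g x - g y) * f (prt F₁ F₂ x y) = 0 := by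
      intro x
      by_cases hh : f (prt F₁ F₂ x y) = 0
      · rw [hh, mul_zero]
      · have h2 := hfδ _ hh
        rw [hsym] at h2
        have hx : g x = 0 := by
          by_contra hne
          exact hy (hB' _ _ (subset_tsupport g hne) (h2.trans hδ))
        have hy' : g y = 0 := by
          by_contra hne
          exact hy (hAB (subset_tsupport g hne))
        rw [hx, hy', sub_zero, zero_mul]
    simp only [this, integral_zero]
  rw [e7, ← Real.norm_eq_abs]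
  refine norm_setIntegral_le_of_norm_le_const hB.measure_lt_top fun y _ => ?_
  have e8 : η * m = ∫ x, η * f (prt F₁ F₂ x y) ∂v := by rw [integral_const_mul, hmx y]
  rw [e8]
  refine norm_integral_le_of_norm_le ((hifx y).const_mul η) (Eventually.of_forall fun x => ?_)
  rw [norm_mul, Real.norm_eq_abs, Real.norm_eq_abs, abs_of_nonneg (hf0 _)]
  by_cases hh : f (prt F₁ F₂ x y) = 0
  · rw [hh, mul_zero, mul_zero]
  · exact mul_le_mul_of_nonneg_right (hδg x y (hfδ _ hh)) (hf0 _)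

theorem hUN : StUN := by
  intro hPR F₁ F₂ H' C' ω ωD hT
  have hPR' := hPR
  obtain ⟨hsym, hinv, hprop, hmp, hreg, hpos, hsf⟩ := hPR' F₁ F₂
  have hω := hT.reg
  have hπ := continuous_prt F₁ F₂
  have hωpos : ω.IsOpenPosMeasure := by
    refine ⟨fun U hU hne h0 => ?_⟩
    obtain ⟨y, hy⟩ := hne
    have h1 : y ∈ ω.support := by
      rw [hT.supp]
      exact mem_univ _
    exact absurd ((Measure.mem_support_iff_forall y).1 h1 U (hU.mem_nhds hy)) (by rw [h0]; exact lt_irrefl _)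
  -- proportionality
  have key : ∀ g₁ g₂ : S × S → ℝ, Continuous g₁ → HasCompactSupport g₁ → Continuous g₂ → HasCompactSupport g₂ →
      (∫ y, g₁ y ∂ω) * (∫ y, g₂ y ∂(vX F₁ F₂)) = (∫ y, g₂ y ∂ω) * ∫ y, g₁ y ∂(vX F₁ F₂) := by
    intro g₁ g₂ hg₁ hg₁c hg₂ hg₂c
    obtain ⟨C₁, hC₁, h₁⟩ := c_UN hPR F₁ F₂ C' ω ωD hT g₁ hg₁ hg₁c
    obtain ⟨C₂, hC₂, h₂⟩ := c_UN hPR F₁ F₂ C' ω ωD hT g₂ hg₂ hg₂c
    set v₁ := ∫ y, g₁ y ∂(vX F₁ F₂)
    set v₂ := ∫ y, g₂ y ∂(vX F₁ F₂)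
    set w₁ := ∫ y, g₁ y ∂ω
    set w₂ := ∫ y, g₂ y ∂ω
    have hmain : ∀ η : ℝ, 0 < η → |w₁ * v₂ - w₂ * v₁| ≤ η * (C₁ * |v₂| + C₂ * |v₁|) := by
      intro η hη
      obtain ⟨δ₁, hδ₁, hδ₁', hu₁⟩ := unif_UN hPR F₁ F₂ g₁ hg₁ hg₁c η hη
      obtain ⟨δ₂, hδ₂, hδ₂', hu₂⟩ := unif_UN hPR F₁ F₂ g₂ hg₂ hg₂c η hη
      set δ := min δ₁ δ₂ with hδ
      have hδ0 : 0 < δ := lt_min hδ₁ hδ₂
      have hc1 : Continuous fun h : DD => h.1.1 := continuous_fst.comp continuous_subtype_val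
      have hU : IsOpen {h : DD | h.1.1 < δ} := isOpen_lt hc1 continuous_const
      have h00 : prt F₁ F₂ 0 0 ∈ {h : DD | h.1.1 < δ} := by
        change (prt F₁ F₂ 0 0).1.1 < δ
        unfold prt
        rw [srt_coe]
        have e : ∀ F : Fac, F.len (F.mul (F.inv 0) 0) = 0 := by
          intro F
          rw [F.inv_mul]
          have := F.len_P 0 le_rfl (0, 0)
          rwa [F.P_zero] at this
        have e1 := e F₁
        have e2 := e F₂
        change max |F₁.len (F₁.mul (F₁.inv 0) 0)| |F₂.len (F₂.mul (F₂.inv 0) 0)| < δ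
        rw [e1, e2]
        simpa using hδ0
      obtain ⟨f, hf1, hf0, hfc, hf⟩ := exists_continuous_one_zero_of_isCompact
        (isCompact_singleton (x := prt F₁ F₂ 0 0)) hU.isClosed_compl
        (disjoint_compl_right_iff_subset.2 (singleton_subset_iff.2 h00))
      have hfδ : ∀ h, f h ≠ 0 → h.1.1 ≤ δ := by
        intro h hh
        by_contra hcon
        refine hh (hf0 ?_)
        change ¬ (h.1.1 < δ)
        intro h3
        exact hcon h3.le
      have b₁ := h₁ η hη.le δ ((min_le_left _ _).trans hδ₁') (fun x y h => hu₁ x y (h.trans (min_le_left _ _))) f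
        f.continuous hfc (fun h => (hf h).1) hfδ
      have b₂ := h₂ η hη.le δ ((min_le_left _ _).trans hδ₁') (fun x y h => hu₂ x y (h.trans (min_le_right _ _))) f
        f.continuous hfc (fun h => (hf h).1) hfδ
      set Ω := ∫ h, f h ∂ωD
      set m := ∫ y, f (prt F₁ F₂ 0 y) ∂(vX F₁ F₂) with hm
      have hm0 : 0 < m := by
        have hcx : Continuous fun y => f (prt F₁ F₂ 0 y) := f.continuous.comp (hπ.comp (Continuous.prodMk_right 0))
        have hcs : HasCompactSupport fun y => f (prt F₁ F₂ 0 y) := by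
          refine HasCompactSupport.intro (hprop δ 0) fun y hy => ?_
          by_contra hne
          exact hy (hfδ _ hne)
        refine hcx.integral_pos_of_hasCompactSupport_nonneg_nonzero hcs (fun y => (hf _).1) (x := 0) ?_
        have : f (prt F₁ F₂ 0 0) = 1 := hf1 (mem_singleton _)
        rw [this]
        exact one_ne_zero
      -- combine
      have e1 : m * (w₁ * v₂ - w₂ * v₁) = -((Ω * v₁ - m * w₁) * v₂) + (Ω * v₂ - m * w₂) * v₁ := by ring
      have e2 : m * |w₁ * v₂ - w₂ * v₁| ≤ m * (η * (C₁ * |v₂| + C₂ * |v₁|)) := by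
        rw [← abs_of_pos hm0, ← abs_mul, abs_of_pos hm0, e1]
        calc |-((Ω * v₁ - m * w₁) * v₂) + (Ω * v₂ - m * w₂) * v₁|
            ≤ |-((Ω * v₁ - m * w₁) * v₂)| + |(Ω * v₂ - m * w₂) * v₁| := abs_add_le _ _
          _ = |Ω * v₁ - m * w₁| * |v₂| + |Ω * v₂ - m * w₂| * |v₁| := by rw [abs_neg, abs_mul, abs_mul]
          _ ≤ (η * m * C₁) * |v₂| + (η * m * C₂) * |v₁| :=
            add_le_add (mul_le_mul_of_nonneg_right b₁ (abs_nonneg _))
              (mul_le_mul_of_nonneg_right b₂ (abs_nonneg _))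
          _ = m * (η * (C₁ * |v₂| + C₂ * |v₁|)) := by ring
      exact le_of_mul_le_mul_left e2 hm0
    have hD : 0 ≤ C₁ * |v₂| + C₂ * |v₁| := by positivity
    have hz : |w₁ * v₂ - w₂ * v₁| ≤ 0 := by
      refine le_of_forall_pos_le_add fun ε hε => ?_
      have h1 := hmain (ε / (C₁ * |v₂| + C₂ * |v₁| + 1)) (by positivity)
      refine h1.trans ?_
      rw [zero_add, div_mul_eq_mul_div, div_le_iff₀ (by positivity)]
      nlinarith
    exact sub_eq_zero.1 (abs_nonpos_iff.1 hz)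
  -- a test function
  obtain ⟨g₀, hg1, -, hg₀c, hg₀⟩ := exists_continuous_one_zero_of_isCompact (isCompact_singleton (x := (0 : S × S)))
      (isClosed_empty (X := S × S)) (disjoint_empty _)
  have hg00 : g₀ 0 ≠ 0 := by
    have : g₀ 0 = 1 := hg1 (mem_singleton _)
    rw [this]
    exact one_ne_zero
  have p1 : 0 < ∫ y, g₀ y ∂ω :=
    g₀.continuous.integral_pos_of_hasCompactSupport_nonneg_nonzero hg₀c (fun y => (hg₀ y).1) hg00
  have p2 : 0 < ∫ y, g₀ y ∂(vX F₁ F₂) :=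
    g₀.continuous.integral_pos_of_hasCompactSupport_nonneg_nonzero hg₀c (fun y => (hg₀ y).1) hg00
  refine ⟨(∫ y, g₀ y ∂ω) / ∫ y, g₀ y ∂(vX F₁ F₂), div_pos p1 p2, fun g hg hgc => ?_⟩
  have h := key g g₀ hg hgc g₀.continuous hg₀c
  rw [div_mul_eq_mul_div, eq_div_iff p2.ne']
  exact h

end Pool.Agent.Helper94.CM
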