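import Pool.Agent.Helper94.CM.St

/-!
# Project CM, module UU: the theorem of Archimedes for the Haar measure of `U(2)`
-/

set_option autoImplicit false

namespace Pool.Agent.Helper94.CM

open MeasureTheory TopologicalSpace Set Filter Topology Matrix Pool.Agent.Helper95.CAS
open scoped unitInterval

/-- Rotations. -/
private noncomputable def rot (c s : ℝ) (h : c ^ 2 + s ^ 2 = 1) : K :=
  ⟨!![(c : ℂ), -(s : ℂ); (s : ℂ), (c : ℂ)], by
    have h' : (c : ℂ) * c + s * s = 1 := by
      have h1 : ((c ^ 2 + s ^ 2 : ℝ) : ℂ) = 1 := by rw [h]; simp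
      push_cast at h1
      rw [← h1]; ring
    rw [Unitary.mem_iff]
    constructor
    · ext i j
      fin_cases i <;> fin_cases j <;>
        simp [Matrix.mul_apply, Fin.sum_univ_two, Matrix.star_apply] <;>
        first | ring1 | linear_combination h'
    · ext i j
      fin_cases i <;> fin_cases j <;>
        simp [Matrix.mul_apply, Fin.sum_univ_two, Matrix.star_apply] <;>
        first | ring1 | linear_combination h'⟩

/-- `diag (1, i)`. -/
private noncomputable def dia : K :=
  ⟨!![1, 0; 0, Complex.I], by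
    rw [Unitary.mem_iff]
    constructor
    · ext i j
      fin_cases i <;> fin_cases j <;>
        simp [Matrix.mul_apply, Fin.sum_univ_two, Matrix.star_apply]
    · ext i j
      fin_cases i <;> fin_cases j <;>
        simp [Matrix.mul_apply, Fin.sum_univ_two, Matrix.star_apply]⟩

/-- Columns. -/
private theorem col (k : K) (j : Fin 2) : ‖k.1 0 j‖ ^ 2 + ‖k.1 1 j‖ ^ 2 = 1 := by
  have h := (Unitary.mem_iff.1 k.2).1
  have h1 : (star k.1 * k.1) j j = 1 := by rw [h]; simp
  rw [Matrix.mul_apply, Fin.sum_univ_two, Matrix.star_apply, Matrix.star_apply] at h1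
  have h2 : ∀ z : ℂ, star z * z = ((‖z‖ ^ 2 : ℝ) : ℂ) := by
    intro z
    have := Complex.conj_mul' z
    rw [Complex.star_def, this]
    push_cast; rfl
  rw [h2, h2, ← Complex.ofReal_add] at h1
  exact_mod_cast h1

private theorem nn_rot (c s : ℝ) (h : c ^ 2 + s ^ 2 = 1) (k : K) :
    (nn (rot c s h * k)).1 = (c ^ 2 - s ^ 2) * (nn k).1 - 2 * c * s * (nn k).2.re := by
  have e0 : ∀ j, (rot c s h * k).1 0 j = (c : ℂ) * k.1 0 j - s * k.1 1 j := by
    intro j
    change (!![(c : ℂ), -(s : ℂ); (s : ℂ), (c : ℂ)] * k.1) 0 j = _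
    rw [Matrix.mul_apply, Fin.sum_univ_two]
    simp
    ring
  have h0 := col k 0
  have h1 := col k 1
  have hn : ∀ z : ℂ, ‖z‖ ^ 2 = z.re ^ 2 + z.im ^ 2 := by
    intro z
    rw [← Complex.normSq_eq_norm_sq, Complex.normSq_apply]; ring
  simp only [nn]
  rw [e0, e0]
  simp only [hn] at h0 h1 ⊢
  simp only [Complex.sub_re, Complex.sub_im, Complex.mul_re, Complex.mul_im, Complex.ofReal_re, Complex.ofReal_im,
    Complex.conj_re, Complex.conj_im]
  linear_combination s ^ 2 * h0 - s ^ 2 * h1

private theorem nn_dia (k : K) :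
    nn (dia * k) = ((nn k).1, Complex.I * (nn k).2) := by
  have e0 : ∀ j, (dia * k).1 0 j = k.1 0 j := by
    intro j
    change (!![1, 0; 0, Complex.I] * k.1) 0 j = _
    rw [Matrix.mul_apply, Fin.sum_univ_two]
    simp
  have e1 : ∀ j, (dia * k).1 1 j = Complex.I * k.1 1 j := by
    intro j
    change (!![1, 0; 0, Complex.I] * k.1) 1 j = _
    rw [Matrix.mul_apply, Fin.sum_univ_two]
    simp
  simp only [nn, e0, e1]
  congr 1
  ring

private theorem int_I_UU (F : ℝ → ℝ) : ∫ v : I, F (v : ℝ) = ∫ x in (0 : ℝ)..1, F x := by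
  rw [intervalIntegral.integral_of_le zero_le_one, ← integral_Icc_eq_integral_Ioc]
  exact integral_subtype_comap (measurableSet_Icc (a := (0 : ℝ)) (b := 1)) F

private theorem mom_I (n : ℕ) : ∫ g : I, (2 * (g : ℝ) - 1) ^ n = (1 - (-1) ^ (n + 1)) / (2 * (n + 1)) := by
  rw [int_I_UU (fun x => (2 * x - 1) ^ n),
    intervalIntegral.integral_comp_mul_sub (fun x : ℝ => x ^ n) (two_ne_zero) 1, integral_pow]
  have h : ((n : ℝ) + 1) ≠ 0 := by positivity
  norm_num
  field_simp

private theorem coeff_two (m : ℕ) : ((1 + Polynomial.X ^ 2 : Polynomial ℝ) ^ m).coeff 2 = m := by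
  have h : (1 + Polynomial.X ^ 2 : Polynomial ℝ) ^ m = Polynomial.expand ℝ 2 ((1 + Polynomial.X) ^ m) := by
    rw [map_pow, map_add, map_one, Polynomial.expand_X]
  rw [h, Polynomial.coeff_expand two_pos]
  simp [Polynomial.coeff_one_add_X_pow]

/-- The moments. -/
private theorem mom (hTR : StTR) (μ : Measure K) (hμ : IsHaarK μ) (hK : CompactSpace K) (n : ℕ) :
    ∫ k, (nn k).1 ^ n ∂μ = (1 - (-1) ^ (n + 1)) / (2 * (n + 1)) := by
  obtain ⟨_, hn1, _, _, _, hcn⟩ := hTR
  obtain ⟨hP, hL, _⟩ := hμ
  have hX : Continuous fun k : K => (nn k).1 := hcn.fst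
  have hY : Continuous fun k : K => (nn k).2.re := Complex.continuous_re.comp hcn.snd
  have hZ : Continuous fun k : K => (nn k).2.im := Complex.continuous_im.comp hcn.snd
  set M : ℕ → ℝ := fun n => ∫ k, (nn k).1 ^ n ∂μ with hM
  have hrot : ∀ (c s : ℝ), c ^ 2 + s ^ 2 = 1 → ∀ n : ℕ,
      ∫ k, ((c ^ 2 - s ^ 2) * (nn k).1 - 2 * c * s * (nn k).2.re) ^ n ∂μ = M n := by
    intro c s h n
    have h1 := hL (rot c s h) (fun k => (nn k).1 ^ n) (hX.pow n)
    simp only [nn_rot] at h1
    exact h1
  have hodd : ∀ n, Odd n → M n = 0 := by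
    intro n hn
    have h1 := hrot 0 1 (by norm_num) n
    have h2 : ∀ k : K, (((0 : ℝ) ^ 2 - 1 ^ 2) * (nn k).1 - 2 * 0 * 1 * (nn k).2.re) ^ n = -((nn k).1 ^ n) := by
      intro k
      rw [← hn.neg_pow]
      ring
    simp only [h2] at h1
    rw [integral_neg] at h1
    change -(M n) = M n at h1
    linarith
  have hyz : ∀ n : ℕ, ∫ k, (nn k).1 ^ n * (nn k).2.re ^ 2 ∂μ = ∫ k, (nn k).1 ^ n * (nn k).2.im ^ 2 ∂μ := by
    intro n
    have h1 := hL dia (fun k => (nn k).1 ^ n * (nn k).2.im ^ 2) ((hX.pow n).mul (hZ.pow 2))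
    simp only [nn_dia] at h1
    rw [← h1]
    refine integral_congr_ae (Eventually.of_forall fun k => ?_)
    simp
  have hI : ∀ {f : K → ℝ}, Continuous f → Integrable f μ := fun hf => integrable_cont μ hf
  have hy2 : ∀ n : ℕ, ∫ k, (nn k).1 ^ n * (nn k).2.re ^ 2 ∂μ = (M n - M (n + 2)) / 2 := by
    intro n
    have h1 : (∫ k, (nn k).1 ^ n * (nn k).2.re ^ 2 ∂μ) + ∫ k, (nn k).1 ^ n * (nn k).2.im ^ 2 ∂μ = M n - M (n + 2) := by
      have i1 : Integrable (fun k : K => (nn k).1 ^ n * (nn k).2.re ^ 2) μ := hI ((hX.pow n).mul (hY.pow 2))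
      have i2 : Integrable (fun k : K => (nn k).1 ^ n * (nn k).2.im ^ 2) μ := hI ((hX.pow n).mul (hZ.pow 2))
      have i3 : Integrable (fun k : K => (nn k).1 ^ n) μ := hI (hX.pow n)
      have i4 : Integrable (fun k : K => (nn k).1 ^ (n + 2)) μ := hI (hX.pow (n + 2))
      rw [← integral_add i1 i2, hM]
      simp only
      rw [← integral_sub i3 i4]
      refine integral_congr_ae (Eventually.of_forall fun k => ?_)
      have h2 := hn1 k
      rw [← Complex.normSq_eq_norm_sq, Complex.normSq_apply] at h2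
      simp only
      linear_combination (nn k).1 ^ n * h2
    rw [← hyz n] at h1
    linarith
  have hM0 : M 0 = 1 := by
    simp [hM]
  -- comparison of coefficients
  have hrec : ∀ p : ℕ, (2 * p + 3) * M (2 * p + 2) = (2 * p + 1) * M (2 * p) := by
    intro p
    set n := 2 * (p + 1) with hn
    set a : ℕ → ℝ := fun j => ∫ k, (-(nn k).2.re) ^ j * (nn k).1 ^ (n - j) * (n.choose j : ℝ) ∂μ with ha
    have hint : ∀ j, Continuous fun k : K => (-(nn k).2.re) ^ j * (nn k).1 ^ (n - j) * (n.choose j : ℝ) := by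
      intro j
      exact (((hY.neg).pow j).mul (hX.pow (n - j))).mul continuous_const
    have hpol : (∑ j ∈ Finset.range (n + 1), Polynomial.C (a j) * Polynomial.X ^ j) =
        Polynomial.C (M n) * (1 + Polynomial.X ^ 2) ^ (p + 1) := by
      refine Polynomial.funext fun τ => ?_
      rw [Polynomial.eval_finsetSum]
      simp only [Polynomial.eval_mul, Polynomial.eval_C, Polynomial.eval_pow, Polynomial.eval_X, Polynomial.eval_add,
        Polynomial.eval_one]
      have h1 : ∑ j ∈ Finset.range (n + 1), a j * τ ^ j = ∫ k, ((nn k).1 - τ * (nn k).2.re) ^ n ∂μ := by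
        simp only [ha]
        simp_rw [← integral_mul_const]
        have i1 : ∀ j ∈ Finset.range (n + 1), Integrable
            (fun k : K => (-(nn k).2.re) ^ j * (nn k).1 ^ (n - j) * (n.choose j : ℝ) * τ ^ j) μ :=
          fun j _ => hI ((hint j).mul continuous_const)
        rw [← integral_finsetSum _ i1]
        refine integral_congr_ae (Eventually.of_forall fun k => ?_)
        have h2 : (nn k).1 - τ * (nn k).2.re = (-(nn k).2.re * τ) + (nn k).1 := by ring
        simp only
        rw [h2, add_pow]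
        refine Finset.sum_congr rfl fun j _ => ?_
        rw [mul_pow]
        ring
      rw [h1]
      set φ := Real.arctan τ / 2 with hφ
      have h3 := hrot (Real.cos φ) (Real.sin φ) (Real.cos_sq_add_sin_sq φ) n
      have h4 : Real.cos φ ^ 2 - Real.sin φ ^ 2 = 1 / Real.sqrt (1 + τ ^ 2) := by
        rw [← Real.cos_two_mul', hφ, mul_div_cancel₀ _ (two_ne_zero), Real.cos_arctan]
      have h5 : 2 * Real.cos φ * Real.sin φ = τ / Real.sqrt (1 + τ ^ 2) := by
        rw [mul_right_comm, ← Real.sin_two_mul, hφ, mul_div_cancel₀ _ (two_ne_zero), Real.sin_arctan]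
      rw [h4, h5] at h3
      have hs : 0 < Real.sqrt (1 + τ ^ 2) := Real.sqrt_pos.2 (by positivity)
      have h6 : ∀ k : K, ((nn k).1 - τ * (nn k).2.re) ^ n =
          (1 + τ ^ 2) ^ (p + 1) *
            (1 / Real.sqrt (1 + τ ^ 2) * (nn k).1 - τ / Real.sqrt (1 + τ ^ 2) * (nn k).2.re) ^ n := by
        intro k
        have h7 : (1 + τ ^ 2) ^ (p + 1) = Real.sqrt (1 + τ ^ 2) ^ n := by
          rw [hn, pow_mul, Real.sq_sqrt (by positivity)]
        rw [h7, ← mul_pow]
        congr 1
        field_simp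
      simp_rw [h6]
      rw [integral_const_mul, h3]
      ring
    have hc := congrArg (fun q => Polynomial.coeff q 2) hpol
    simp only [Polynomial.finsetSum_coeff, Polynomial.coeff_C_mul, coeff_two] at hc
    rw [Finset.sum_eq_single 2] at hc
    · have h8 : a 2 = (p + 1) * (2 * p + 1) * ((M (2 * p) - M (2 * p + 2)) / 2) := by
        rw [← hy2 (2 * p)]
        simp only [ha]
        rw [← integral_const_mul]
        refine integral_congr_ae (Eventually.of_forall fun k => ?_)
        have h9 : n - 2 = 2 * p := by omega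
        simp only
        rw [h9, hn, Nat.cast_choose_two]
        push_cast
        ring
      rw [Polynomial.coeff_X_pow_self, mul_one, h8] at hc
      have h10 : ((p : ℝ) + 1) ≠ 0 := by positivity
      have h11 : n = 2 * p + 2 := by omega
      rw [h11] at hc
      push_cast at hc
      have h12 : (2 * p + 1) * ((M (2 * p) - M (2 * p + 2)) / 2) = M (2 * p + 2) := by
        apply mul_left_cancel₀ h10
        linear_combination hc
      linarith
    · intro j _ hj
      rw [Polynomial.coeff_X_pow, if_neg (by omega), mul_zero]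
    · intro h
      exact absurd (Finset.mem_range.2 (by omega)) h
  have heven : ∀ p : ℕ, M (2 * p) = 1 / (2 * p + 1) := by
    intro p
    induction p with
    | zero => simp [hM0]
    | succ p ih =>
      have h1 := hrec p
      rw [ih] at h1
      have h2 : (2 * (p : ℝ) + 3) ≠ 0 := by positivity
      have h3 : (2 * (p : ℝ) + 1) ≠ 0 := by positivity
      have h4 : 2 * (p + 1) = 2 * p + 2 := by ring
      rw [h4]
      push_cast
      rw [eq_div_iff (by positivity)]
      field_simp at h1
      linear_combination h1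
  change M n = _
  rcases Nat.even_or_odd' n with ⟨p, hp | hp⟩
  · rw [hp, heven p]
    rw [(odd_two_mul_add_one p).neg_one_pow]
    push_cast
    field_simp
    norm_num
  · rw [hodd n ⟨p, hp⟩, hp]
    have : (-1 : ℝ) ^ (2 * p + 1 + 1) = 1 := by
      rw [show 2 * p + 1 + 1 = 2 * (p + 1) by ring, pow_mul]; norm_num
    rw [this]
    simp

theorem hUU : StUU := by
  intro hTR μ hμ hK F hF
  have hmom := mom hTR μ hμ hK
  obtain ⟨_, hn1, _, _, _, hcn⟩ := hTR
  obtain ⟨hP, _, _⟩ := hμ
  have hX : Continuous fun k : K => (nn k).1 := hcn.fst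
  have hI : ∀ {f : K → ℝ}, Continuous f → Integrable f μ := fun hf => integrable_cont μ hf
  have hI' : ∀ {f : I → ℝ}, Continuous f → Integrable f (volume : Measure I) := fun hf => integrable_cont _ hf
  -- polynomials
  have hpol : ∀ q : Polynomial ℝ, ∫ k, q.eval (nn k).1 ∂μ = ∫ g : I, q.eval (2 * (g : ℝ) - 1) := by
    intro q
    induction q using Polynomial.induction_on' with
    | add q r hq hr =>
      simp only [Polynomial.eval_add]
      have i1 : ∀ q : Polynomial ℝ, Integrable (fun k : K => q.eval (nn k).1) μ := fun q => hI (q.continuous.comp hX)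
      have hcg : Continuous fun g : I => 2 * (g : ℝ) - 1 := by fun_prop
      have i2 : ∀ q : Polynomial ℝ, Integrable (fun g : I => q.eval (2 * (g : ℝ) - 1)) := fun q =>
        hI' (q.continuous.comp hcg)
      rw [integral_add (i1 q) (i1 r), integral_add (i2 q) (i2 r), hq, hr]
    | monomial n a =>
      simp only [Polynomial.eval_monomial]
      rw [integral_const_mul, integral_const_mul, hmom n, mom_I n]
  have hXm : ∀ k : K, (nn k).1 ∈ Set.Icc (-1 : ℝ) 1 := by
    intro k
    have h := hn1 k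
    constructor
    · nlinarith [sq_nonneg ‖(nn k).2‖]
    · nlinarith [sq_nonneg ‖(nn k).2‖]
  have hgm : ∀ g : I, 2 * (g : ℝ) - 1 ∈ Set.Icc (-1 : ℝ) 1 := by
    intro g
    have h1 : (0 : ℝ) ≤ g := g.2.1
    have h2 : (g : ℝ) ≤ 1 := g.2.2
    constructor <;> linarith
  have hcg : Continuous fun g : I => 2 * (g : ℝ) - 1 := by fun_prop
  refine eq_of_abs_sub_le_all fun ε hε => ?_
  obtain ⟨q, hq⟩ := exists_polynomial_near_of_continuousOn (-1) 1 F hF.continuousOn (ε / 2) (half_pos hε)
  have h1 : |(∫ k, F (nn k).1 ∂μ) - ∫ k, q.eval (nn k).1 ∂μ| ≤ ε / 2 := by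
    have i1 : Integrable (fun k : K => F (nn k).1) μ := hI (hF.comp hX)
    have i2 : Integrable (fun k : K => q.eval (nn k).1) μ := hI (q.continuous.comp hX)
    rw [← integral_sub i1 i2, ← Real.norm_eq_abs]
    refine (norm_integral_le_of_norm_le_const (C := ε / 2) (Eventually.of_forall fun k => ?_)).trans ?_
    · have := hq _ (hXm k)
      rw [Real.norm_eq_abs, abs_sub_comm]
      exact this.le
    · simp
  have h2 : |(∫ g : I, F (2 * (g : ℝ) - 1)) - ∫ g : I, q.eval (2 * (g : ℝ) - 1)| ≤ ε / 2 := by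
    have i1 : Integrable (fun g : I => F (2 * (g : ℝ) - 1)) := hI' (hF.comp hcg)
    have i2 : Integrable (fun g : I => q.eval (2 * (g : ℝ) - 1)) := hI' (q.continuous.comp hcg)
    rw [← integral_sub i1 i2, ← Real.norm_eq_abs]
    refine (norm_integral_le_of_norm_le_const (C := ε / 2) (Eventually.of_forall fun g => ?_)).trans ?_
    · have := hq _ (hgm g)
      rw [Real.norm_eq_abs, abs_sub_comm]
      exact this.le
    · simp
  rw [hpol q] at h1
  rw [abs_le] at h1 h2 ⊢
  constructor <;> linarith [h1.1, h1.2, h2.1, h2.2]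

end Pool.Agent.Helper94.CM
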