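import Pool.Agent.Helper94.CM.St

/-!
# Project CM, module VH: volume growth of `H^3`
-/

set_option autoImplicit false

namespace Pool.Agent.Helper94.CM

open MeasureTheory TopologicalSpace Set Filter Topology Matrix Pool.Agent.Helper95.CAS
open scoped unitInterval

private theorem one_le_chH_VH (x : S) : 1 ≤ chH x := by
  unfold chH
  have h1 := Real.one_le_cosh x.1
  have h2 : 0 ≤ Real.exp x.1 * ‖x.2‖ ^ 2 / 2 := by positivity
  linarith

private theorem set_eq_VH {R : ℝ} (hR : 0 ≤ R) : {x : S | lenH x ≤ R} = {x : S | chH x ≤ Real.cosh R} := by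
  ext x
  simp only [mem_ofPred_eq, lenH]
  rw [← Real.arcosh_le_arcosh (lt_of_lt_of_le one_pos (one_le_chH_VH x)) (Real.cosh_pos R), Real.arcosh_cosh hR]

private theorem cont_chH_VH : Continuous chH := by
  unfold chH
  fun_prop

private theorem meas_VH (R : ℝ) : MeasurableSet {x : S | chH x ≤ Real.cosh R} :=
  (isClosed_le cont_chH_VH continuous_const).measurableSet

private theorem upper_VH {R : ℝ} (hR : 0 ≤ R) :
    lvH {x : S | chH x ≤ Real.cosh R} ≤ ENNReal.ofReal (Real.pi * Real.exp (2 * R)) := by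
  have hw : Measurable (fun x : S => ENNReal.ofReal (Real.exp (2 * x.1))) := by fun_prop
  have hA := meas_VH R
  unfold lvH
  rw [withDensity_apply _ hA, ← lintegral_indicator hA, Measure.volume_eq_prod,
    lintegral_prod _ (hw.indicator hA).aemeasurable]
  have key : ∀ τ : ℝ, ∫⁻ z : ℂ, {x : S | chH x ≤ Real.cosh R}.indicator
      (fun x : S => ENNReal.ofReal (Real.exp (2 * x.1))) (τ, z) ≤
      (Icc (-R) R).indicator (fun τ => ENNReal.ofReal (2 * Real.pi * Real.cosh R * Real.exp τ)) τ := by
    intro τ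
    by_cases hτ : τ ∈ Icc (-R) R
    · rw [indicator_of_mem hτ]
      set ρ : ℝ := Real.sqrt (2 * Real.exp (-τ) * Real.cosh R) with hρ
      have hpos : 0 ≤ 2 * Real.exp (-τ) * Real.cosh R := by
        have := Real.cosh_pos R
        positivity
      have hρ0 : 0 ≤ ρ := Real.sqrt_nonneg _
      have hρ2 : ρ ^ 2 = 2 * Real.exp (-τ) * Real.cosh R := Real.sq_sqrt hpos
      calc ∫⁻ z : ℂ, {x : S | chH x ≤ Real.cosh R}.indicator
            (fun x : S => ENNReal.ofReal (Real.exp (2 * x.1))) (τ, z)
          ≤ ∫⁻ z : ℂ, (Metric.closedBall (0 : ℂ) ρ).indicator (fun _ => ENNReal.ofReal (Real.exp (2 * τ))) z := by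
            refine lintegral_mono fun z => ?_
            by_cases hz : (τ, z) ∈ {x : S | chH x ≤ Real.cosh R}
            · have hz' : z ∈ Metric.closedBall (0 : ℂ) ρ := by
                rw [mem_closedBall_zero_iff]
                refine Real.le_sqrt_of_sq_le ?_
                have h1 : Real.cosh τ + Real.exp τ * ‖z‖ ^ 2 / 2 ≤ Real.cosh R := hz
                have h2 := Real.cosh_pos τ
                have h3 : Real.exp τ * ‖z‖ ^ 2 ≤ 2 * Real.cosh R := by linarith
                have h4 : Real.exp (-τ) * Real.exp τ = 1 := by rw [← Real.exp_add]; simp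
                calc ‖z‖ ^ 2 = Real.exp (-τ) * (Real.exp τ * ‖z‖ ^ 2) := by rw [← mul_assoc, h4, one_mul]
                  _ ≤ Real.exp (-τ) * (2 * Real.cosh R) := by
                    exact mul_le_mul_of_nonneg_left h3 (Real.exp_pos _).le
                  _ = 2 * Real.exp (-τ) * Real.cosh R := by ring
              rw [indicator_of_mem hz, indicator_of_mem hz']
            · rw [indicator_of_notMem hz]
              exact zero_le
        _ = ENNReal.ofReal (Real.exp (2 * τ)) * (ENNReal.ofReal ρ ^ 2 * NNReal.pi) := by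
            rw [lintegral_indicator Metric.isClosed_closedBall.measurableSet, setLIntegral_const,
              Complex.volume_closedBall]
        _ = ENNReal.ofReal (2 * Real.pi * Real.cosh R * Real.exp τ) := by
            have hpi : ((NNReal.pi : NNReal) : ENNReal) = ENNReal.ofReal Real.pi := by
              rw [← NNReal.coe_real_pi, ENNReal.ofReal_coe_nnreal]
            rw [hpi, ← ENNReal.ofReal_pow hρ0, hρ2, ← ENNReal.ofReal_mul hpos,
              ← ENNReal.ofReal_mul (Real.exp_pos _).le]
            congr 1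
            have h5 : Real.exp (2 * τ) * Real.exp (-τ) = Real.exp τ := by
              rw [← Real.exp_add]
              ring_nf
            calc Real.exp (2 * τ) * (2 * Real.exp (-τ) * Real.cosh R * Real.pi)
                = (Real.exp (2 * τ) * Real.exp (-τ)) * (2 * Real.cosh R * Real.pi) := by ring
              _ = 2 * Real.pi * Real.cosh R * Real.exp τ := by rw [h5]; ring
        _ ≤ _ := le_rfl
    · rw [indicator_of_notMem hτ]
      refine le_of_eq ?_
      rw [lintegral_eq_zero_iff' (by
        exact ((hw.indicator hA).comp measurable_prodMk_left).aemeasurable)]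
      refine Filter.Eventually.of_forall fun z => ?_
      have : (τ, z) ∉ {x : S | chH x ≤ Real.cosh R} := by
        intro hz
        apply hτ
        have h1 : Real.cosh τ + Real.exp τ * ‖z‖ ^ 2 / 2 ≤ Real.cosh R := hz
        have h2 : 0 ≤ Real.exp τ * ‖z‖ ^ 2 / 2 := by positivity
        have h3 : |τ| ≤ |R| := by
          rw [← Real.cosh_le_cosh]
          linarith
        rw [abs_of_nonneg hR] at h3
        exact abs_le.1 h3
      simp only [Pi.zero_apply]
      rw [indicator_of_notMem this]
  calc _ ≤ ∫⁻ τ : ℝ, (Icc (-R) R).indicator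
        (fun τ => ENNReal.ofReal (2 * Real.pi * Real.cosh R * Real.exp τ)) τ := lintegral_mono key
    _ = ∫⁻ τ in Icc (-R) R, ENNReal.ofReal (2 * Real.pi * Real.cosh R * Real.exp τ) :=
        lintegral_indicator measurableSet_Icc _
    _ = ENNReal.ofReal (∫ τ in Icc (-R) R, 2 * Real.pi * Real.cosh R * Real.exp τ) := by
        rw [ofReal_integral_eq_lintegral_ofReal]
        · exact (by fun_prop : Continuous fun τ : ℝ => 2 * Real.pi * Real.cosh R * Real.exp τ).continuousOn.integrableOn_compact isCompact_Icc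
        · refine Filter.Eventually.of_forall fun τ => ?_
          have := Real.cosh_pos R
          simp only [Pi.zero_apply]
          positivity
    _ ≤ ENNReal.ofReal (Real.pi * Real.exp (2 * R)) := by
        apply ENNReal.ofReal_le_ofReal
        rw [integral_Icc_eq_integral_Ioc, ← intervalIntegral.integral_of_le (by linarith),
          intervalIntegral.integral_const_mul, integral_exp]
        have h1 : Real.cosh R = (Real.exp R + Real.exp (-R)) / 2 := Real.cosh_eq R
        have h2 : Real.exp (2 * R) = Real.exp R * Real.exp R := by rw [← Real.exp_add]; ring_nf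
        rw [h1, h2]
        have h3 : 0 < Real.exp (-R) := Real.exp_pos _
        have h4 : 2 * Real.pi * ((Real.exp R + Real.exp (-R)) / 2) * (Real.exp R - Real.exp (-R)) =
            Real.pi * (Real.exp R * Real.exp R) - Real.pi * (Real.exp (-R) * Real.exp (-R)) := by ring
        rw [h4]
        have h5 : 0 ≤ Real.pi * (Real.exp (-R) * Real.exp (-R)) := by positivity
        linarith

private theorem incl_VH {R : ℝ} (hR : 2 ≤ R) :
    Icc (R - 2) (R - 1) ×ˢ Metric.closedBall (0 : ℂ) 1 ⊆ {x : S | chH x ≤ Real.cosh R} := by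
  rintro ⟨τ, z⟩ ⟨hτ, hz⟩
  simp only [mem_ofPred_eq, chH]
  simp only [mem_closedBall_zero_iff] at hz
  have hτ1 : R - 2 ≤ τ := hτ.1
  have hτ2 : τ ≤ R - 1 := hτ.2
  have h1 : Real.cosh τ ≤ Real.cosh (R - 1) := by
    rw [Real.cosh_le_cosh, abs_of_nonneg (by linarith), abs_of_nonneg (by linarith)]
    exact hτ2
  have h2 : Real.exp τ ≤ Real.exp (R - 1) := Real.exp_le_exp.2 hτ2
  have h3 : ‖z‖ ^ 2 ≤ 1 := by
    have := norm_nonneg z
    nlinarith
  have h4 : Real.exp τ * ‖z‖ ^ 2 / 2 ≤ Real.exp (R - 1) / 2 := by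
    have : Real.exp τ * ‖z‖ ^ 2 ≤ Real.exp (R - 1) * 1 :=
      mul_le_mul h2 h3 (by positivity) (Real.exp_pos _).le
    linarith
  have h5 : Real.cosh (R - 1) = (Real.exp (R - 1) + Real.exp (-(R - 1))) / 2 := Real.cosh_eq _
  have h6 : Real.cosh R = (Real.exp R + Real.exp (-R)) / 2 := Real.cosh_eq _
  have h7 : Real.exp R = Real.exp 1 * Real.exp (R - 1) := by rw [← Real.exp_add]; ring_nf
  have h8 : Real.exp (-(R - 1)) ≤ Real.exp (R - 1) * (1 / 2) := by
    have h9 : Real.exp (-(R - 1)) = Real.exp (R - 1) * Real.exp (-(2 * (R - 1))) := by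
      rw [← Real.exp_add]; ring_nf
    rw [h9]
    refine mul_le_mul_of_nonneg_left ?_ (Real.exp_pos _).le
    have h10 : Real.exp (-(2 * (R - 1))) ≤ Real.exp (-1) := Real.exp_le_exp.2 (by linarith)
    have h11 : Real.exp (-1) * Real.exp 1 = 1 := by rw [← Real.exp_add]; simp
    have h12 : 2 < Real.exp 1 := by
      have := Real.exp_one_gt_d9
      linarith
    have h13 : 0 < Real.exp (-1) := Real.exp_pos _
    nlinarith
  have h14 : 0 < Real.exp (-R) := Real.exp_pos _
  have h15 : 2.5 < Real.exp 1 := by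
    have := Real.exp_one_gt_d9
    norm_num
    linarith
  have h16 : 0 < Real.exp (R - 1) := Real.exp_pos _
  have h17 : 2.5 * Real.exp (R - 1) ≤ Real.exp R := by
    rw [h7]
    exact mul_le_mul_of_nonneg_right h15.le h16.le
  rw [h6]
  rw [h5] at h1
  linarith

private theorem lower_VH {R : ℝ} (hR : 2 ≤ R) :
    ENNReal.ofReal (Real.exp (-4) * Real.exp (2 * R)) ≤ lvH {x : S | chH x ≤ Real.cosh R} := by
  have hB : MeasurableSet (Icc (R - 2) (R - 1) ×ˢ Metric.closedBall (0 : ℂ) 1) :=
    measurableSet_Icc.prod Metric.isClosed_closedBall.measurableSet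
  refine le_trans ?_ (measure_mono (incl_VH hR))
  unfold lvH
  rw [withDensity_apply _ hB]
  have hvol : (volume : Measure S) (Icc (R - 2) (R - 1) ×ˢ Metric.closedBall (0 : ℂ) 1) = ENNReal.ofReal Real.pi := by
    rw [Measure.volume_eq_prod, Measure.prod_prod, Real.volume_Icc, Complex.volume_closedBall,
      ← NNReal.coe_real_pi, ENNReal.ofReal_coe_nnreal]
    have : R - 1 - (R - 2) = 1 := by ring
    rw [this]
    simp
  calc ENNReal.ofReal (Real.exp (-4) * Real.exp (2 * R))
      ≤ ENNReal.ofReal (Real.exp (2 * (R - 2))) * ENNReal.ofReal Real.pi := by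
        rw [← ENNReal.ofReal_mul (Real.exp_pos _).le]
        apply ENNReal.ofReal_le_ofReal
        have h1 : Real.exp (2 * (R - 2)) = Real.exp (-4) * Real.exp (2 * R) := by
          rw [← Real.exp_add]; ring_nf
        rw [h1]
        have h2 : 1 ≤ Real.pi := by linarith [Real.pi_gt_three]
        exact le_mul_of_one_le_right (by positivity) h2
    _ = ∫⁻ _ in Icc (R - 2) (R - 1) ×ˢ Metric.closedBall (0 : ℂ) 1, ENNReal.ofReal (Real.exp (2 * (R - 2))) := by
        rw [setLIntegral_const, hvol]
    _ ≤ ∫⁻ x in Icc (R - 2) (R - 1) ×ˢ Metric.closedBall (0 : ℂ) 1, ENNReal.ofReal (Real.exp (2 * x.1)) := by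
        refine setLIntegral_mono (by fun_prop) fun x hx => ?_
        apply ENNReal.ofReal_le_ofReal
        apply Real.exp_le_exp.2
        have : R - 2 ≤ x.1 := hx.1.1
        linarith

theorem hVH : StVH := by
  refine ⟨Real.exp (-4), Real.pi, Real.exp_pos _, Real.pi_pos, fun R hR => ?_⟩
  have hR0 : 0 ≤ R := by linarith
  rw [set_eq_VH hR0]
  have hu := upper_VH hR0
  have hl := lower_VH hR
  have hlt : lvH {x : S | chH x ≤ Real.cosh R} < ⊤ := lt_of_le_of_lt hu ENNReal.ofReal_lt_top
  refine ⟨hlt, ?_, ?_⟩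
  · exact (ENNReal.ofReal_le_iff_le_toReal hlt.ne).1 hl
  · exact ENNReal.toReal_le_of_le_ofReal (by positivity) hu

end Pool.Agent.Helper94.CM
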