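import Pool.Agent.Helper94.CM.St

set_option autoImplicit false

namespace Pool.Agent.Helper94.CM

open MeasureTheory TopologicalSpace Pool.Agent.Helper95.CAS
open scoped Pointwise

theorem lenR_smul_VR (c : ℝ) (hc : 0 ≤ c) (x : S) : lenR (c • x) = c * lenR x := by
  unfold lenR
  have h1 : (c • x).1 = c * x.1 := rfl
  have h2 : (c • x).2 = c • x.2 := rfl
  rw [h1, h2, norm_smul, Real.norm_eq_abs, abs_of_nonneg hc]
  have : (c * x.1) ^ 2 + (c * ‖x.2‖) ^ 2 = c ^ 2 * (x.1 ^ 2 + ‖x.2‖ ^ 2) := by ring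
  rw [this, Real.sqrt_mul (sq_nonneg c), Real.sqrt_sq hc]

theorem ball_smul_VR (c R : ℝ) (hc : 0 < c) : {x : S | lenR x ≤ c * R} = c • {x : S | lenR x ≤ R} := by
  ext x
  rw [Set.mem_smul_set_iff_inv_smul_mem₀ hc.ne']
  simp only [Set.mem_setOf_eq]
  rw [lenR_smul_VR c⁻¹ (inv_nonneg.mpr hc.le), inv_mul_le_iff₀ hc]

theorem hVR : StVR := by
  intro R hR
  have hsub : {x : S | lenR x ≤ R} ⊆ Metric.closedBall (0 : S) R := by
    intro x hx
    have hx' : Real.sqrt (x.1 ^ 2 + ‖x.2‖ ^ 2) ≤ R := hx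
    rw [mem_closedBall_zero_iff]
    rw [Prod.norm_def]
    refine max_le ?_ ?_
    · refine le_trans ?_ hx'
      rw [Real.norm_eq_abs, ← Real.sqrt_sq_eq_abs]
      exact Real.sqrt_le_sqrt (by nlinarith [sq_nonneg ‖x.2‖])
    · refine le_trans ?_ hx'
      refine Real.le_sqrt_of_sq_le ?_
      nlinarith [sq_nonneg x.1]
  have hfin : volume {x : S | lenR x ≤ R} < ⊤ :=
    lt_of_le_of_lt (measure_mono hsub) measure_closedBall_lt_top
  have hsup : Metric.ball (0 : S) (R / 2) ⊆ {x : S | lenR x ≤ R} := by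
    intro x hx
    rw [mem_ball_zero_iff, Prod.norm_def, max_lt_iff] at hx
    obtain ⟨h1, h2⟩ := hx
    change Real.sqrt (x.1 ^ 2 + ‖x.2‖ ^ 2) ≤ R
    rw [Real.sqrt_le_left hR.le]
    rw [Real.norm_eq_abs] at h1
    have h3 : x.1 ^ 2 ≤ (R / 2) ^ 2 := sq_le_sq' (by linarith [(abs_lt.mp h1).1]) (abs_lt.mp h1).2.le
    have h4 : ‖x.2‖ ^ 2 ≤ (R / 2) ^ 2 := by
      have := norm_nonneg x.2
      nlinarith
    nlinarith
  have hpos : 0 < volume {x : S | lenR x ≤ R} :=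
    lt_of_lt_of_le (Metric.measure_ball_pos volume (0 : S) (by linarith)) (measure_mono hsup)
  refine ⟨ENNReal.toReal_pos hpos.ne' hfin.ne, hfin, ?_⟩
  intro c hc
  rw [ball_smul_VR c R hc, Measure.addHaar_smul, ENNReal.toReal_mul]
  have hd : Module.finrank ℝ S = 3 := by
    rw [Module.finrank_prod, Complex.finrank_real_complex, Module.finrank_self]
  rw [hd, abs_of_pos (pow_pos hc 3), ENNReal.toReal_ofReal (pow_pos hc 3).le]

end Pool.Agent.Helper94.CM
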