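import Pool.Agent.Helper94.CM.Basic

/-!
# Project CM (MP_466bd8): statements of the modules

Module XX proves `theorem hXX : StXX` in the file `Pool/Agent/Helper94/CM/M_XX.lean` (`import Pool.Agent.Helper94.CM.St`).
Definitions: `Defs.lean`; proved lemmas on integrals over compact parameter spaces, `tt`, `srt`, ...: `Basic.lean`
(`integrable_cont`, `continuous_int`, `map_eq`, `int_mD`, `int_mX`, `tt_sq`, `continuous_*`, ...).
-/

set_option autoImplicit false

namespace Pool.Agent.Helper94.CM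

open MeasureTheory TopologicalSpace Set Filter Topology Matrix Pool.Agent.Helper95.CAS
open scoped unitInterval

noncomputable instance : MeasurableSpace K := borel K
instance : BorelSpace K := ⟨rfl⟩

/-- Normalised Haar measure on the unitary group (tested on continuous functions). -/
def IsHaarK (μ : Measure K) : Prop := IsProbabilityMeasure μ ∧
  (∀ (k₀ : K) (F : K → ℝ), Continuous F → ∫ k, F (k₀ * k) ∂μ = ∫ k, F k ∂μ) ∧
  ∀ (k₀ : K) (F : K → ℝ), Continuous F → ∫ k, F (k * k₀) ∂μ = ∫ k, F k ∂μ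

/-- `t / sinh t`. -/
noncomputable def sc (t : ℝ) : ℝ := if t = 0 then 1 else t / Real.sinh t

/-! ### Rotations, Haar measure and the sphere -/

/-- HA.  Proof.  `K` is closed in the matrices (`A * star A = 1`, `star A * A = 1`) and the entries of a unitary matrix have
norm at most one (`entry_norm_bound_of_unitary`), so `K` is compact (closed subset of the compact set of matrices with all entries
in the closed unit ball, `isCompact_pi_infinite` or a closed embedding).  `μ = haarMeasure ⊤` (`⊤ : PositiveCompacts K`,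
`haarMeasure_self`) is a left invariant probability measure.  Right invariance: the image of `μ` under `k ↦ k * k₀` is a
left invariant probability measure, hence equal to `μ` (uniqueness of Haar measure, e.g. `isMulInvariant_eq_smul_of_compactSpace`,
or `isHaarMeasure_eq_of_isProbabilityMeasure`). -/
def StHA : Prop := CompactSpace K ∧ ∃ μ : Measure K, IsHaarK μ

/-- RO (rotations of the circle).  Proof.  `w = exp (i θ)`, `θ = 2 π a`.  `∫ v : I, F (ci v) = ∫ v in 0..1, F (exp (2 π i v))`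
(`unitInterval.measurePreserving_coe` or `volume_def`), and the function `v ↦ F (exp (2 π i v))` on `ℝ` has period one:
`Function.Periodic.intervalIntegral_add_eq`. -/
def StRO : Prop := ∀ w : ℂ, ‖w‖ = 1 → ∀ F : ℂ → ℝ, Continuous F → ∫ v : I, F (w * ci v) = ∫ v : I, F (ci v)

/-- TR (the action of the unitary group on the sphere).  Proof.  (1) `mat 0 (nn k) = k * diag(1,-1) * kᴴ` (compute, for the entry
`1 1` use that the rows are unit vectors: `|k 0 0|² + |k 0 1|² = 1`, `|k 1 0|² + |k 1 1|² = 1`).  (2) the determinant of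
`mat 0 (nn k)` is `-1` (the determinant of `k` has norm one) and equals `-((nn k).1² + |(nn k).2|²)`.  (3) `mat α (ρ • nn u) =
α • 1 + ρ • (u diag(1,-1) uᴴ)` and `nn` of a product by (1) and injectivity of `mat 0`.  (4) `a = √((1 + n₁)/2)`, `b = √((1 - n₁)/2)`, `e`
with `|e| = 1`, `n₂ = |n₂| e` (`|n₂| = 2 a b`): `u = [a, -b conj e; b e, a]` is unitary and `nn u = (a² - b², 2 a b e) = n`; for
general `ν` use `n = ν / ρ` (`ρ ≠ 0`), and any `u` for `ρ = 0`. -/
def StTR : Prop :=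
  (∀ k : K, k.1 * mat 0 (1, 0) * (k.1)ᴴ = mat 0 (nn k)) ∧
  (∀ k : K, (nn k).1 ^ 2 + ‖(nn k).2‖ ^ 2 = 1) ∧
  (∀ (k u : K) (α ρ : ℝ), k.1 * mat α (ρ • nn u) * (k.1)ᴴ = mat α (ρ • nn (k * u))) ∧
  (∀ (ν : S) (ρ : ℝ), 0 ≤ ρ → ν.1 ^ 2 + ‖ν.2‖ ^ 2 = ρ ^ 2 → ∃ u : K, ν = ρ • nn u) ∧
  nn 1 = (1, 0) ∧ Continuous nn

/-- UU (theorem of Archimedes for the Haar measure).  Use `StTR` (as a hypothesis).  Proof.  Put `x = (nn k).1`, `y = Re (nn k).2`,
`z = Im (nn k).2`, `x² + y² + z² = 1`, `E = ∫ · dμ`.  Left multiplication by `diag(1, i)` maps `(x, y + i z)` to `(x, i (y + i z))`, so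
`E x^m y² = E x^m z² = E x^m (1 - x²) / 2`.  Left multiplication by `[cos φ, -sin φ; sin φ, cos φ]` replaces `x` by
`cos (2φ) x - sin (2φ) y` (compute with `mat`), so for `n = 2 m` and every real `τ` (divide by `cos^n`, `τ = tan (2φ)`):
`E (x - τ y)^(2m) = (1 + τ²)^m E x^(2m)`.  Both sides are polynomials in `τ`; comparing the coefficients of `τ²`:
`m (2m-1) E x^(2m-2) y² = m E x^(2m)`, hence `(2m+1) E x^(2m) = (2m-1) E x^(2m-2)` for `m ≥ 1` and `E x^(2m) = 1/(2m+1)`.  Left multiplication by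
`[0, 1; 1, 0]` maps `x` to `-x`, so the odd moments vanish.  The same moments for `∫ g : I, (2 g - 1)^n`.  So the claim
holds for polynomials, and for continuous `F` by Weierstrass (`polynomialFunctions_closure_eq_top`, or
`exists_polynomial_near_of_continuousOn` on `[-1, 1]`). -/
def StUU : Prop := StTR → ∀ μ : Measure K, IsHaarK μ → CompactSpace K → ∀ F : ℝ → ℝ, Continuous F →
  ∫ k, F (nn k).1 ∂μ = ∫ g : I, F (2 * (g : ℝ) - 1)

/-- BB.  Use the conclusions of `StTR`, `StUU`, `StRO`.  Proof.  Left multiplication of `k` by `diag(1, w)`, `|w| = 1`, maps `nn k = (n₁, n₂)` to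
`(n₁, w n₂)`.  So `∫ F (nn k) = ∫ v : I, ∫ k, F (n₁, ci v * n₂) = ∫ k, ∫ v : I, F (n₁, ci v * n₂)` (Fubini, continuous functions on
compact spaces; `K` is second countable as a subspace of matrices), and by `StRO`, `n₂ = |n₂| w` with `|w| = 1`: the inner integral is
`G (n₁) = ∫ v : I, F (n₁, √(1 - n₁²) ci v)`, as `|n₂| = √(1 - n₁²)`.  `StUU` for (a continuous function equal to `G` on `[-1, 1]`;
`G` itself is continuous on `ℝ`) gives `∫ g : I, G (2 g - 1) = ∫ p : C0, F (sph p)` (Fubini on `C0 = I × I`). -/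
def StBB : Prop := StTR → StUU → StRO → ∀ μ : Measure K, IsHaarK μ → CompactSpace K → ∀ F : S → ℝ, Continuous F →
  ∫ k, F (nn k) ∂μ = ∫ p : C0, F (sph p)

/-! ### The factor `R^3` -/

/-- RC.  Proof.  `μ` a Haar measure.  By `hB` (twice) the left side is `∫ k, ∫ k', f (r • nn k + s • nn k')`, by left invariance `= ∫ k, ∫ k', f (r • nn k + s • nn (k * k'))`.
Let `ν = r • (1, 0) + s • nn k'`, `t = √(r² + s² + 2 r s (nn k').1)`; `ν = t • nn u` by `StTR` (4), so `r • nn k + s • nn (k * k') = t • nn (k * u)` (apply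
`mat 0`, which is additive and injective, and `StTR` (3)).  By Fubini and right invariance: `∫ k', ∫ k, f (t(k') • nn (k * u)) = ∫ k', G (√(r² + s² + 2 r s (nn k').1))` with
`G t = ∫ k, f (t • nn k) = ∫ p, f (t • sph p)`; again by `hB` (function `ν ↦ G (√(r² + s² + 2 r s ν.1))`) this is the integral over `C0` of a function of `p.1` only. -/
def StRC : Prop := StTR → ∀ μ : Measure K, IsHaarK μ → CompactSpace K →
  (∀ F : S → ℝ, Continuous F → ∫ k, F (nn k) ∂μ = ∫ p : C0, F (sph p)) →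
  ∀ r s, 0 ≤ r → 0 ≤ s → ∀ f : S → ℝ, Continuous f →
    ∫ p : C0, ∫ q : C0, f (PR r p + PR s q) = ∫ g : I, ∫ p : C0, f (PR (tt r s g) p)

/-- The composition property of `R^3`. -/
def CompR : Prop := ∀ r s, 0 ≤ r → 0 ≤ s → ∀ f : S → ℝ, Continuous f →
    ∫ p : C0, ∫ q : C0, f (PR r p + PR s q) = ∫ g : I, ∫ p : C0, f (PR (tt r s g) p)

/-- RF (the factor `R^3`).  All fields are elementary.  `|sph p|² = 1`.  `surj_P`: `x ≠ 0`, `r = lenR x`, `c = x.1 / r`, `p.1 = (1 + c)/2`, `p.2 = ` argument of `x.2` divided by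
`2 π` and shifted to `[0, 1]`.  `symm`: `- sph (u, v) = (cc, √(1 - cc²) (- ci v))` with `cc` replaced by `- cc`: change `u` to `1 - u` (`unitInterval.measurePreserving_symm`) and
`StRO` with `w = -1`.  Left and right invariance: translations. -/
def StRF : Prop := StRO → CompR → ∃ F : Fac, F.mul = (fun x y => x + y) ∧ F.inv = (fun x => -x) ∧ F.len = lenR ∧ F.P = PR ∧
  F.lv = volume

/-! ### The factor `H^3` -/

/-- HB.  Proof.  `r = 0`: both sides are `f 0`.  `r > 0`: `QH r p = (log y, sinh r √(1 - c²) ci v / y)`, `y = cosh r + sinh r c > 0`, `c = cc p`, and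
`exp (-(QH r p).1) = 1/y`.  For fixed `v` the left side is `∫ c in -1..1, (1/2) (1/y) f (log y, ..)`; substitute `y = exp (r c')`, i.e. `c = (exp (r c') - cosh r)/sinh r`,
`dc = (r / sinh r) exp (r c') dc'` (`intervalIntegral.integral_comp_mul_deriv`); `sinh² r (1 - c²) = 2 y (cosh r - cosh (r c'))` for `y = exp (r c')`, so
`sinh r √(1 - c²) / y = √(2 exp (-r c') (cosh r - cosh (r c')))`.  (Integrals over `C0`: `integral_prod`, order of integration free.) -/
def StHB : Prop := ∀ r, 0 ≤ r → ∀ f : S → ℝ, Continuous f →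
  ∫ p : C0, Real.exp (-(QH r p).1) * f (QH r p) = sc r * ∫ p : C0, f (PH r p)

/-- HS.  Proof.  `r = 0` or `s = 0`: `tH 0 s g = s = tt 0 s g`.  `r, s > 0`: both sides are `sc r * sc s * ∫ t in |r-s|..(r+s), G t * t / (2 r s)`.  Right side: substitute `g = (t² - (r-s)²)/(4 r s)`
(`intervalIntegral.integral_comp_mul_deriv` with `f := ` this polynomial, `f' t = t/(2 r s)`, `g := fun y => G (√(r² + s² + 2 r s (2 y - 1)))`, and `√(..) = t` for `t ≥ 0`).  Left side: the same with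
`g = (cosh t - cosh (r-s))/(2 sinh r sinh s)`, `f' t = sinh t / (2 sinh r sinh s)` and `arcosh (cosh t) = t`, `sc t * sinh t = t`.  (`y ↦ arcosh ..` is continuous where its argument is `≥ 1`;
`ContinuousOn` versions of the substitution rule.) -/
def StHS : Prop := ∀ r s, 0 ≤ r → 0 ≤ s → ∀ G : ℝ → ℝ, Continuous G →
  ∫ g : I, sc (tH r s g) * G (tH r s g) = sc r * sc s * ∫ g : I, G (tt r s g)

/-- HU (unweighted composition on `H^3`).  Proof.  For `x : S`: `Lw x * (Lw x)ᴴ = [e^τ, e^τ conj z; e^τ z, e^τ |z|² + e^(-τ)]`, `Psi` of it is `x`, `Lw (mulH x y) = Lw x * Lw y`, and every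
hermitian `Y` with determinant one and `Y 0 0 > 0` is `Lw (Psi Y) * (Lw (Psi Y))ᴴ`.  Hence `mulH x (Psi Y) = Psi (Lw x * Y * (Lw x)ᴴ)`.  By `hB` the left side is
`∫ k, ∫ k', f (mulH (Psi X) (Psi Y'))` with `X = mat (cosh r) (sinh r • nn k) = g gᴴ`, `g = k * diag(e^(r/2), e^(-r/2))`, `Y' = mat (cosh s) (sinh s • nn k')`.
`g⁻¹ * Lw (Psi X) = k₀` is unitary (as `g gᴴ = Lw Lwᴴ`), so `Lw Y' Lwᴴ = g * mat (cosh s) (sinh s • nn (k₀ * k')) * gᴴ` and by left invariance the inner integral is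
`∫ k', f (Psi (g * mat (cosh s) (sinh s • nn k') * gᴴ))`.  Here `g M gᴴ = k Z kᴴ` with `Z = a M a`, `a = diag(e^(r/2), e^(-r/2))`, hermitian with determinant one and trace `2 C`, `C = cosh r cosh s + sinh r sinh s (nn k').1`
`≥ 1`, so `Z = mat C ν` with `ν.1² + |ν.2|² = C² - 1 = sinh² t`, `t = arcosh C`, `Z = mat (cosh t) (sinh t • nn u)` and `k Z kᴴ = mat (cosh t) (sinh t • nn (k * u))` (`StTR`).  Fubini, right invariance:
`∫ k', G(t(k'))`, `G t = ∫ k, f (Psi (mat (cosh t) (sinh t • nn k))) = ∫ p, f (QH t p)`; again `hB`.  (The integrals with `Psi` are of continuous functions because the `0 0` entries are positive; for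
`hB` one needs continuous functions on all of `S`: replace `ν` by its radial projection or use that `ν ↦ Psi (mat (cosh r) (sinh r • ν))` is continuous on the unit ball and compose with the
retraction `ν ↦ ν / max 1 |ν|`.) -/
def StHU : Prop := StTR → ∀ μ : Measure K, IsHaarK μ → CompactSpace K →
  (∀ F : S → ℝ, Continuous F → ∫ k, F (nn k) ∂μ = ∫ p : C0, F (sph p)) →
  ∀ r s, 0 ≤ r → 0 ≤ s → ∀ f : S → ℝ, Continuous f →
    ∫ p : C0, ∫ q : C0, f (mulH (QH r p) (QH s q)) = ∫ g : I, ∫ p : C0, f (QH (tH r s g) p)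

/-- The composition property of `H^3`. -/
def CompH : Prop := ∀ r s, 0 ≤ r → 0 ≤ s → ∀ f : S → ℝ, Continuous f →
    ∫ p : C0, ∫ q : C0, f (mulH (PH r p) (PH s q)) = ∫ g : I, ∫ p : C0, f (PH (tt r s g) p)

/-- HC.  Proof.  `h x = exp (-x.1)` satisfies `h (mulH x y) = h x * h y`.  `sc r * sc s * (left side) = sc r * ∫ p, F (PH r p)` with `F x = ∫ q, h (QH s q) * f (mulH x (QH s q))` (`StHB` for
`y ↦ f (mulH x y)`), `= ∫ p, h (QH r p) * F (QH r p) = ∫ p, ∫ q, (h f) (mulH (QH r p) (QH s q)) = ∫ g, ∫ p, (h f) (QH (tH r s g) p)` (hypothesis) `= ∫ g, sc (tH r s g) * G (tH r s g)` with `G t = ∫ p, f (PH t p)`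
(`StHB`, `tH ≥ 0`) `= sc r * sc s * ∫ g, G (tt r s g)` (`StHS`), and `sc > 0`.  (`F` is continuous: `QH s` is bounded and continuous, as `cosh s + sinh s c > 0`.) -/
def StHC : Prop := StHB → StHS →
  (∀ r s, 0 ≤ r → 0 ≤ s → ∀ f : S → ℝ, Continuous f →
    ∫ p : C0, ∫ q : C0, f (mulH (QH r p) (QH s q)) = ∫ g : I, ∫ p : C0, f (QH (tH r s g) p)) → CompH

/-- HF (the factor `H^3`).  All fields are elementary.  `chH (PH r p) = cosh r`, `chH (invH x) = chH x`, `arcosh (cosh r) = r` for `r ≥ 0`, `chH x ≥ cosh x.1 ≥ 1`.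
`proper`: closed, and `|x.1| ≤ R`, `|x.2|² ≤ 2 e^R cosh R`.  `surj_P`: `r = lenH x`, `cosh r = chH x`, `|x.1| ≤ r`; `r = 0` gives `x = 0`; `r > 0`: `c = x.1 / r`,
`|x.2|² = 2 e^(-x.1) (cosh r - cosh x.1)`, argument of `x.2`.  `symm`: `invH (PH r (u, v)) = (-r c, √(2 e^(r c) (cosh r - cosh (r c))) (- ci v))`: change `u` to `1 - u`
(`unitInterval.measurePreserving_symm`) and `StRO` with `w = -1`.  `right_inv`: skew product of translations
(`MeasurePreserving.skew_product`).  `left_inv`: `x ↦ (g.1 + x.1, g.2 + e^(-g.1) x.2)` changes Lebesgue measure by the factor `e^(-2 g.1)` (`Measure.addHaar_preimage_smul` on `ℂ`, dimension two) and the density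
`e^(2 x.1)` by `e^(2 g.1)`.  `lv_reg`: locally finite measure on a second countable locally compact space. -/
def StHF : Prop := StRO → CompH → ∃ F : Fac, F.mul = mulH ∧ F.inv = invH ∧ F.len = lenH ∧ F.P = PH ∧ F.lv = lvH

/-! ### The hypergroup and the scheme -/

/-- TT.  Proof.  `F.len (F.mul (F.mul (F.P r p) (F.P s q)) (F.P t w))`: integrate `f` of it over `p, q, w`.  By `F.comp` for the first product and the function `x ↦ ∫ w, f (len (x * P t w))`, and then again (with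
`len (P u p') = u`, `tt ≥ 0`) it is the left side; by associativity and `F.comp` for the second product (for fixed `p`, function `y ↦ f (len (P r p * y))`), then for `P r p * P u q`, it is the right side. -/
def StTT : Prop := ∀ _F : Fac, ∀ r s t, 0 ≤ r → 0 ≤ s → 0 ≤ t → ∀ f : ℝ → ℝ, Continuous f →
  ∫ g : I, ∫ g' : I, f (tt (tt r s g) t g') = ∫ g : I, ∫ g' : I, f (tt r (tt s t g) g')

/-- AS.  Proof.  Write `φ (a, b) = f (srt a b)`, a symmetric function (`srt_comm`).  By `int_mD` the inner integral over `c'` is the mean over `ε'` of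
`φ (tt w₁ z^ε'₁ g₁') (tt w₂ z^ε'₂ g₂')`, where `w = srt u v` is `(u, v)` or `(v, u)` (`srt_cases`; `u, v ≥ 0`); because of the mean over `ε'` and Fubini in `g₁', g₂'` the order does not matter.  So the left side is the mean over `ε, ε'` of
`∫ φ (tt (tt x₁ y^ε₁ g₁) z^ε'₁ g₁', tt (tt x₂ y^ε₂ g₂) z^ε'₂ g₂')`, and in the same way the right side is the mean over `ε, δ` of
`∫ φ (tt x₁ (tt y^ε₁ z^δ₁ g₁) g₁', tt x₂ (tt y^ε₂ z^δ₂ g₂) g₂')`; equal by `StTT` in both variables (Fubini). -/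
def StAS : Prop := StTT → ∀ _F : Fac, ∀ (x y z : DD) (f : DD → ℝ), Continuous f →
  ∫ c, ∫ c', f (Gd (Gd x y c) z c') ∂mD ∂mD = ∫ c, ∫ c', f (Gd x (Gd y z c) c') ∂mD ∂mD

/-- CP.  Proof.  Write everything with `int_mX`, `int_mD`.  Left side: mean over `ε₁, ε₂` of the integral over `p₁, q₁, p₂, q₂` of
`f (x₁ P₁(a^ε₁; p₁) P₁(c^ε₂; p₂), x₂ P₂(b^ε₁; q₁) P₂(d^ε₂; q₂))`, where `h₁ = (a, b)`, `h₂ = (c, d)` and `(a, b)^false = (a, b)`, `(a, b)^true = (b, a)`; by associativity and `F₁.comp` (other variables fixed, function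
`y ↦ f (x₁ y, ..)`) and `F₂.comp` it is the mean over `ε₁, ε₂` of the integral over `g, g', p, q` of `f (x₁ P₁(tt a^ε₁ c^ε₂ g; p), x₂ P₂(tt b^ε₁ d^ε₂ g'; q))`.  Right side: the inner integral is symmetric, so
`srt u v` may be replaced by `(u, v)`: mean over `ε', ε` of the integral of `f (x₁ P₁(u^ε'; p), x₂ P₂(v^ε'; q))`, `u = tt a c^ε g`, `v = tt b d^ε g'`; for `ε' = false` this is the term `ε₁ = false, ε₂ = ε`, for
`ε' = true` it is the term `ε₁ = true, ε₂ = !ε` with `g, g'` exchanged. -/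
def StCP : Prop := ∀ (F₁ F₂ : Fac) (x : S × S) (h₁ h₂ : DD) (f : S × S → ℝ), Continuous f →
  ∫ c, ∫ c', f (Gx F₁ F₂ (Gx F₁ F₂ x h₁ c) h₂ c') ∂mX ∂mX = ∫ c, ∫ c', f (Gx F₁ F₂ x (Gd h₁ h₂ c) c') ∂mX ∂mD

/-- SP.  Proof.  `x⁻¹ y` has the components `P₁(fs ε h; p)`, `P₂(fs (!ε) h; q)` with lengths `fs ε h`, `fs (!ε) h`; `srt` of the two components of `h` in any order is `h` (`srt_self`, `srt_comm`).  Conversely `srt l₁ l₂ = h`,
`l_i ≥ 0` means `(l₁, l₂) = (h₁, h₂)` or `(h₂, h₁)` (`srt_cases`): choose `ε`, `p`, `q` by `surj_P`. -/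
def StSP : Prop := ∀ (F₁ F₂ : Fac) (x y : S × S) (h : DD), y ∈ range (Gx F₁ F₂ x h) ↔ prt F₁ F₂ x y = h

/-- AD.  Proof.  By `int_mX` it suffices to treat one `ε`: `∫ x, ∫ p, ∫ q, f (x₁ P₁ p, x₂ P₂ q) * g x = ∫ p, ∫ q, ∫ x, ..` (Fubini; everything is continuous with compact support in `x`, uniformly in `p, q`), by right invariance (`x ↦ x y⁻¹`)
`= ∫ p, ∫ q, ∫ x, f x * g (x₁ (P₁ p)⁻¹, x₂ (P₂ q)⁻¹)`, and by `symm` in `p` and in `q` `= ∫ x, f x * ∫ p, ∫ q, g (x₁ P₁ p, x₂ P₂ q)`. -/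
def StAD : Prop := ∀ (F₁ F₂ : Fac) (h : DD) (f g : S × S → ℝ), Continuous f → HasCompactSupport f →
  Continuous g → HasCompactSupport g →
  ∫ x, (∫ c, f (Gx F₁ F₂ x h c) ∂mX) * g x = ∫ x, f x * ∫ c, g (Gx F₁ F₂ x h c) ∂mX

/-! ### No kernel with (T2) -/

/-- The identity of (T2), with regular measures. -/
structure T2id (F₁ F₂ : Fac) {H' : Hypergroup DD} (C' : PreCAS (S × S) DD H') (ω : Measure (S × S)) (ωD : Measure DD) : Prop where
  part : C'.part = prt F₁ F₂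
  reg : ω.Regular
  supp : ω.support = univ
  regD : ωD.Regular
  t2 : ∀ (f : DD → ℝ) (g : S × S → ℝ), Continuous f → HasCompactSupport f → Continuous g → HasCompactSupport g →
    ∀ x, ∫ h, C'.T h g x * f h ∂ωD = ∫ y, f (prt F₁ F₂ x y) * g y ∂ω

/-- PR (elementary properties of the partition map): symmetric, invariant under left translations, proper; `vX` is left invariant.  Proof.  `inv (mul (inv x) y) = mul (inv y) x`; the set in the third part is the image of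
`{len₁ ≤ R} × {len₂ ≤ R}` under left translation by `x` (`srt a b` has first component `max |a| |b|`); products of measure preserving maps (`MeasurePreserving.prod`, `F.lv` is s-finite: regular measures
are finite on compacts, `S` is second countable and locally compact). -/
def StPR : Prop := ∀ F₁ F₂ : Fac, (∀ x y, prt F₁ F₂ x y = prt F₁ F₂ y x) ∧
  (∀ g x y : S × S, prt F₁ F₂ (F₁.mul g.1 x.1, F₂.mul g.2 x.2) (F₁.mul g.1 y.1, F₂.mul g.2 y.2) = prt F₁ F₂ x y) ∧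
  (∀ (R : ℝ) (x : S × S), IsCompact {y | (prt F₁ F₂ x y).1.1 ≤ R}) ∧
  (∀ g : S × S, MeasurePreserving (fun x : S × S => (F₁.mul g.1 x.1, F₂.mul g.2 x.2)) (vX F₁ F₂) (vX F₁ F₂)) ∧
  (vX F₁ F₂).Regular ∧ (vX F₁ F₂).IsOpenPosMeasure ∧ SigmaFinite (vX F₁ F₂)

/-- UN (uniqueness of the measure).  Use `StPR`.  Proof.  `v = vX`, `π = prt`.  (a) for `f ∈ C_c(DD)` the integral `∫ f (π x y) dω(y)` does not depend on `x`: apply `t2` to `f` and a `g ∈ C_c` equal to one on the compact set of `y` with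
`π x y ∈ supp f`; `C'.T h g x = 1` for `h ∈ supp f`, because `C'.K x h` is carried by its support, which is `{y | π x y = h}` (`C'.mem_support_iff`, `Measure.support_mem_ae`); so it is `Ω f = ∫ f dωD`.
(b) `m f = ∫ f (π x y) dv(y)` does not depend on `x` (left invariance) and equals `∫ f (π x y) dv(x)` (symmetry).  (c) for `g ∈ C_c(X)`, `f ≥ 0` with support in `{h.1.1 ≤ δ}`:
`Ω f * ∫ g dv = ∫∫ f (π x y) g(x) dv(x) dω(y)` (Fubini) and `|∫ f (π x y) g(x) dv(x) - g(y) m f| ≤ η m f` if `|g x - g y| ≤ η` whenever `π x y ≤ δ` (uniform continuity of `g`: by compactness), and both terms vanish for `y` outside of a fixed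
compact set `A`; so `|Ω f * ∫ g dv - m f * ∫ g dω| ≤ η m f ω(A)`.  (d) For `f ≥ 0` with `f (π x x) > 0`: `m f > 0`.  With `f_n` of support in `{h.1.1 ≤ 1/n}`, `c_n = Ω f_n / m f_n`: `c_n ∫ g dv → ∫ g dω` for all `g`; take `g₀ ≥ 0` with
`∫ g₀ dv > 0`: `c_n → c = ∫ g₀ dω / ∫ g₀ dv > 0` (`ω` has full support) and `∫ g dω = c ∫ g dv`. -/
def StUN : Prop := StPR → ∀ (F₁ F₂ : Fac) (H' : Hypergroup DD) (C' : PreCAS (S × S) DD H') (ω : Measure (S × S)) (ωD : Measure DD),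
  T2id F₁ F₂ C' ω ωD → ∃ c : ℝ, 0 < c ∧ ∀ g : S × S → ℝ, Continuous g → HasCompactSupport g →
    ∫ y, g y ∂ω = c * ∫ y, g y ∂(vX F₁ F₂)

/-- The two point function. -/
noncomputable def kk (F₁ F₂ : Fac) (ω : Measure (S × S)) (f₁ f₂ : DD → ℝ) (x w : S × S) : ℝ :=
  ∫ y, f₁ (prt F₁ F₂ x y) * f₂ (prt F₁ F₂ y w) ∂ω

/-- KP (the two point function depends only on the partition map).  Use `StPR`.  Proof.  Fix `x`; write `a_g h = C'.T h g x` (continuous in `h` for `g ∈ C_c`: weak continuity of `C'.K`), `N ψ = ∫∫ (∫ ψ dconv'(h₁, h₂)) f₁ h₁ f₂ h₂ dωD dωD`, a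
positive linear functional on bounded continuous `ψ : DD → ℝ`.  For `ψ ∈ C_c(DD)`, `g ∈ C_c(X)`:
(1) `∫ ψ a_g dωD = ∫ ψ(π x y) g(y) dω(y)` (`t2`);
(2) `N (ψ a_g) = ∫ kk(x, y) ψ(π x y) g(y) dω(y)`.  Proof of (2): with `g' y = ψ(π x y) g y ∈ C_c`, `C'.T h g' x = ψ h * a_g h` (support of `C'.K x h`), `∫ a_{g'} dconv'(h₁, h₂) = C'.T h₁ (C'.T h₂ g') x` (`C'.comp`; pass from sets to bounded
continuous functions: both sides are integrals of `g'` against the same measure), then `t2` twice: `∫ h₁ f₁ h₁ T_{h₁} (G) x = ∫ f₁(π x y) G(y) dω(y)` for `G y = ∫ h₂, f₂ h₂ T_{h₂} g' y dωD = ∫ f₂ (π y w) g' w dω(w)`, which is continuous with compact support, and Fubini.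
Now let `h₀ = π x w = π x w'` and suppose `kk x w < kk x w'`.  For a small neighbourhood `U` of `w` take `g ∈ C_c`, `0 ≤ g`, supported in `U`, `g w > 0`; `w` is in the support of `C'.K x h₀`, so `a_g h₀ > 0`; normalise `a_g h₀ = 1`.  If `|kk x · - kk x w| ≤ δ` on `U`, and `ψ ≥ 0`
is supported where `|a_g - 1| ≤ ε`, `ψ h₀ > 0`, then by (1), (2) `(1 - ε) N ψ ≤ N (ψ a_g) ≤ (kk x w + δ) ∫ ψ(π) g dω ≤ (kk x w + δ) (1 + ε) ωD ψ`.  The same for `w'`, `g'` from below:
`(1 + ε) N ψ ≥ (kk x w' - δ) (1 - ε) ωD ψ`, for the same `ψ` (small support around `h₀`), and `ωD ψ > 0` by (1) (full support of `ω`).  For small `δ, ε` this is a contradiction.  (`kk x ·` is continuous: uniform continuity of `f₂`, compact support.) -/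
def StKP : Prop := StPR → ∀ (F₁ F₂ : Fac) (H' : Hypergroup DD) (C' : PreCAS (S × S) DD H') (ω : Measure (S × S)) (ωD : Measure DD),
  T2id F₁ F₂ C' ω ωD → ∀ f₁ f₂ : DD → ℝ, Continuous f₁ → HasCompactSupport f₁ → (∀ h, 0 ≤ f₁ h) →
    Continuous f₂ → HasCompactSupport f₂ → (∀ h, 0 ≤ f₂ h) →
    ∀ x w w', prt F₁ F₂ x w = prt F₁ F₂ x w' → kk F₁ F₂ ω f₁ f₂ x w = kk F₁ F₂ ω f₁ f₂ x w'

/-- VH (volume growth of `H^3`).  Proof.  `{lenH ≤ R} = {cosh τ + e^τ |z|²/2 ≤ cosh R}`.  Upper bound: it is contained in `{|τ| ≤ R, |z|² ≤ 2 e^(-τ) cosh R}`, of measure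
`∫ τ in -R..R, e^(2τ) π 2 e^(-τ) cosh R = 4 π cosh R sinh R ≤ π e^(2R)` (`lintegral` over `τ` of the measure of a disc, `Complex.volume_closedBall` ).  Lower bound, `R ≥ 2`: it contains `{R - 2 ≤ τ ≤ R - 1, |z|² ≤ c₀}` with `c₀ = 2 e^(-R) (cosh R - cosh (R-1))` bounded below by a
positive constant, of measure `≥ e^(2(R-2)) π c₀`. -/
def StVH : Prop := ∃ a b : ℝ, 0 < a ∧ 0 < b ∧ ∀ R : ℝ, 2 ≤ R → lvH {x | lenH x ≤ R} < ⊤ ∧
  a * Real.exp (2 * R) ≤ (lvH {x | lenH x ≤ R}).toReal ∧ (lvH {x | lenH x ≤ R}).toReal ≤ b * Real.exp (2 * R)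

/-- VR (balls in `R^3`).  Proof.  `(volume : Measure S)` is an additive Haar measure (`instHaarS`) on a real vector space of dimension three; `{|x| ≤ c R} = c • {|x| ≤ R}` (`Measure.addHaar_smul`); it is compact and contains
a neighbourhood of `0`. -/
def StVR : Prop := ∀ R : ℝ, 0 < R → 0 < (volume {x : S | lenR x ≤ R}).toReal ∧ volume {x : S | lenR x ≤ R} < ⊤ ∧
  ∀ c : ℝ, 0 < c → (volume {x : S | lenR x ≤ c * R}).toReal = c ^ 3 * (volume {x : S | lenR x ≤ R}).toReal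

/-- FN (the contradiction).  Proof.  Suppose `kk` depends only on `π` for `v = vX`.  Let `φ t = max 0 (min 1 (R + 1 - t))`, `f h = φ h.1.1 * φ h.1.2`, `f₁ = f₂ = f`; `f (srt a b) = φ a φ b` for `a, b ≥ 0`.  For `x = (0, 0)`:
`kk x w = Φ₁(w₁) Φ₂(w₂)`, `Φ_i w = ∫ φ (len_i y) φ (len_i (y⁻¹ w)) dlv_i(y)` (`integral_prod_mul`).  For `0 ≤ t ≤ 3R/2` choose `w₁ = PR t p`, and any `w₂` with `lenH w₂ = t`: `π x (w₁, 0) = srt t 0 = π x (0, w₂)`, so
`Φ₁(w₁) Φ₂(0) = Φ₁(0) Φ₂(w₂)`.  `Φ₁(w₁) ≥ vol {|y - w₁/2| ≤ R/4} = V₁(R/4)`, `Φ₁(0) ≤ V₁(R+1)`, so (`StVR`, `R ≥ 1`) `Φ₁(w₁) ≥ Φ₁(0)/512`.  `Φ₂(0) ≥ V₂(R)`, hence `Φ₂(w₂) ≥ V₂(R)/512` for all `w₂` with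
`lenH w₂ ≤ 3R/2`.  Integrate over this set: `V₂(3R/2) V₂(R)/512 ≤ ∫ Φ₂ dlvH = (∫ φ(lenH) dlvH)² ≤ V₂(R+1)²` (Fubini, left invariance, `len` of the inverse).  With `StVH`: `a² e^(5R)/512 ≤ b² e^(4R+4)`, false for large `R`. -/
def StFN : Prop := StPR → StVH → StVR → ∀ F₁ F₂ : Fac, F₁.mul = (fun x y => x + y) → F₁.inv = (fun x => -x) → F₁.len = lenR →
  F₁.lv = volume → F₂.mul = mulH → F₂.inv = invH → F₂.len = lenH → F₂.lv = lvH →
  ¬ ∀ f₁ f₂ : DD → ℝ, Continuous f₁ → HasCompactSupport f₁ → (∀ h, 0 ≤ f₁ h) →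
    Continuous f₂ → HasCompactSupport f₂ → (∀ h, 0 ≤ f₂ h) →
    ∀ x w w', prt F₁ F₂ x w = prt F₁ F₂ x w' → kk F₁ F₂ (vX F₁ F₂) f₁ f₂ x w = kk F₁ F₂ (vX F₁ F₂) f₁ f₂ x w'

end Pool.Agent.Helper94.CM
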